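/-
Block ARR (problem MP_71c844_lc): cellular arrays of dimension `d`, alternating guesses and coins.
Author: helper58 (after helper44's one-dimensional model).
-/
import Mathlib

namespace Pool.Agent.Work.MP_71c844_lc.Arr

/-- A cellular array of dimension `d`: identical finite automata on the cells of `ℤ ^ d`.
In one step every cell reads the states of the `3 ^ d` cells whose coordinates differ from its
own by at most one, the neighbour `w + e - 1` being named by `e : Fin d → {0, 1, 2}`. -/
structure CA (d : ℕ) where
  /-- the states of a cell -/
  Q : Type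
  /-- there are finitely many states -/
  finQ : Finite Q
  /-- the local rule: the next state of a cell from the states of its neighbourhood -/
  rule : ((Fin d → Fin 3) → Q) → Q
  /-- the initial state of a cell, from its input letter and its guess letter (if any);
  `enc none none` is the quiescent state -/
  enc : Option Bool → Option Bool → Q
  /-- quiescence is stable among quiescent neighbours -/
  quiet : rule (fun _ => enc none none) = enc none none
  /-- the verdict shown by a state: accept, reject, or none -/
  out : Q → Option Bool

/-- The first coordinate. -/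
def lead {d : ℕ} (w : Fin d → ℤ) : ℤ := if h : 0 < d then w ⟨0, h⟩ else 0

/-- What is written on the array at the start: the input word and the guess word. -/
abbrev Inp : Type := List Bool × List Bool

/-- The initial configuration on the input word `x.1` and the guess word `x.2`: their letters
number `i` are on the cell `(i, 0, …, 0)`, all the other cells are quiescent. -/
def CA.init {d : ℕ} (A : CA d) (x : Inp) (w : Fin d → ℤ) : A.Q :=
  if 0 ≤ lead w ∧ ∀ j : Fin d, 0 < j.val → w j = 0 then
    A.enc x.1[(lead w).toNat]? x.2[(lead w).toNat]?
  else A.enc none none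

/-- The configuration after `t` synchronous steps. -/
def CA.conf {d : ℕ} (A : CA d) (x : Inp) : ℕ → (Fin d → ℤ) → A.Q
  | 0 => A.init x
  | t + 1 => fun w => A.rule (fun e => A.conf x t (fun j => w j + ((e j).val : ℤ) - 1))

/-- At time `t` the cell `0` shows the verdict `v`, and it showed no verdict before. -/
def CA.FirstVerdict {d : ℕ} (A : CA d) (x : Inp) (t : ℕ) (v : Bool) : Prop :=
  A.out (A.conf x t (fun _ => 0)) = some v ∧ ∀ s < t, A.out (A.conf x s (fun _ => 0)) = none

/-- The array decides the language `L` in time `T`: on every word `x` (and the empty guess word)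
the cell `0` shows its first verdict after at most `T |x|` steps, and this verdict is correct. -/
def CA.DecidesIn {d : ℕ} (A : CA d) (L : Set (List Bool)) (T : ℕ → ℕ) : Prop :=
  ∀ x : List Bool, ∃ t v, t ≤ T x.length ∧ A.FirstVerdict (x, []) t v ∧ (v = true ↔ x ∈ L)

/-- The languages decided by cellular arrays of dimension `d` in time `O(T n)`. -/
def ATIME (d : ℕ) (T : ℕ → ℕ) : Set (Set (List Bool)) :=
  {L | ∃ A : CA d, ∃ C : ℕ, A.DecidesIn L (fun n => C * T n + C)}

/-- `m` alternating guesses: `∃ y₀ ∀ y₁ ∃ y₂ …` (the first quantifier is `∃` for `true` and `∀`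
for `false`). -/
def Game : Bool → ℕ → (List Bool → Prop) → Prop
  | _, 0, P => P []
  | true, m + 1, P => ∃ c, Game false m (fun y => P (c :: y))
  | false, m + 1, P => ∀ c, Game true m (fun y => P (c :: y))

/-- `m` coins: more than half of the words `z` with `m` letters satisfy `P`. -/
def Maj (m : ℕ) (P : List Bool → Prop) : Prop :=
  2 ^ m < 2 * Nat.card {z : List Bool // z.length = m ∧ P z}

/-- On the word `x` the array, preceded by `m` alternating guesses and `m` coins, decides the
proposition `P` in time `τ`: for every guess word of `2 m` letters the first verdict comes after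
at most `τ` steps, and `P` holds exactly when `∃ y₀ ∀ y₁ ∃ y₂ …` for more than half of the words
`z` with `m` letters the verdict on the guess word `y z` is yes. -/
def CA.AltDecides {d : ℕ} (A : CA d) (x : List Bool) (m : ℕ) (τ : ℝ) (P : Prop) : Prop :=
  (∀ y : List Bool, y.length = 2 * m → ∃ (t : ℕ) (v : Bool), (t : ℝ) ≤ τ ∧
    A.FirstVerdict (x, y) t v) ∧
  (P ↔ Game true m (fun y => Maj m (fun z => ∃ t, A.FirstVerdict (x, y ++ z) t true)))

/-- The languages decided by `g n` alternating guesses and `g n` coins followed by a cellular
array of dimension `d` which runs for time `O(T n)`. -/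
def AltTIME (d : ℕ) (g T : ℕ → ℕ) : Set (Set (List Bool)) :=
  {L | ∃ A : CA d, ∃ C : ℕ, ∀ x : List Bool,
    A.AltDecides x (g x.length) ((C * T x.length + C : ℕ) : ℝ) (x ∈ L)}

/-- `⌈n ^ (p / q)⌉`. -/
noncomputable def rp (p q n : ℕ) : ℕ := ⌈(n : ℝ) ^ ((p : ℝ) / (q : ℝ))⌉₊

end Pool.Agent.Work.MP_71c844_lc.Arr
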