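/-
Block ARR (problem MP_71c844_lc): loop programs.  This file is the interface between the
machine part (programs are compiled to offline Turing machines) and the arithmetic part
(number functions computed by programs).  Author: helper58.
-/
import Mathlib

namespace Pool.Agent.Work.MP_71c844_lc.Arr

/-- Letter number `i` of the word `x`: `0` or `1`, and `2` outside the word. -/
def inpv (x : List Bool) (i : ℕ) : ℕ :=
  match x[i]? with
  | none => 2
  | some false => 0
  | some true => 1

/-- Contents of the registers `0, 1, 2, …`. -/
abbrev Reg : Type := ℕ → ℕ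

/-- Loop programs. -/
inductive Prog : Type
  | skip : Prog
  | inc (r : ℕ) : Prog
  | dec (r : ℕ) : Prog
  | inp (r s : ℕ) : Prog
  | seq (P Q : Prog) : Prog
  | loop (r : ℕ) (P : Prog) : Prog

/-- The registers after the program: `inc`, `dec` add and subtract one (`0 - 1 = 0`),
`inp r s` adds letter number `r` of the word to register `s`, and `loop r P` executes `P`
as many times as register `r` says before the loop starts. -/
def run : Prog → List Bool → Reg → Reg
  | .skip, _, σ => σ
  | .inc r, _, σ => Function.update σ r (σ r + 1)
  | .dec r, _, σ => Function.update σ r (σ r - 1)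
  | .inp r s, x, σ => Function.update σ s (σ s + inpv x (σ r))
  | .seq P Q, x, σ => run Q x (run P x σ)
  | .loop r P, x, σ => (run P x)^[σ r] σ

/-- All numbers met by the program during the run are at most `B`. -/
def Bd (B : ℕ) : Prog → List Bool → Reg → Prop
  | .skip, _, _ => True
  | .inc r, _, σ => σ r + 1 ≤ B
  | .dec r, _, σ => σ r ≤ B
  | .inp r s, _, σ => σ r ≤ B ∧ σ s + 2 ≤ B
  | .seq P Q, x, σ => Bd B P x σ ∧ Bd B Q x (run P x σ)
  | .loop r P, x, σ => σ r ≤ B ∧ ∀ j < σ r, Bd B P x ((run P x)^[j] σ)

/-- Add register `r` to register `s`. -/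
def Prog.addTo (r s : ℕ) : Prog := .loop r (.inc s)

/-- Clear register `r`. -/
def Prog.clear (r : ℕ) : Prog := .loop r (.dec r)

theorem inpv_le (x : List Bool) (i : ℕ) : inpv x i ≤ 2 := by
  unfold inpv
  split <;> omega

theorem Bd.mono {B B' : ℕ} (h : B ≤ B') : ∀ {P : Prog} {x : List Bool} {σ : Reg},
    Bd B P x σ → Bd B' P x σ
  | .skip, _, _, _ => trivial
  | .inc _, _, _, h1 => le_trans h1 h
  | .dec _, _, _, h1 => le_trans h1 h
  | .inp _ _, _, _, h1 => ⟨le_trans h1.1 h, le_trans h1.2 h⟩
  | .seq _ _, _, _, h1 => ⟨Bd.mono h h1.1, Bd.mono h h1.2⟩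
  | .loop _ _, _, _, h1 => ⟨le_trans h1.1 h, fun j hj => Bd.mono h (h1.2 j hj)⟩

/-- Registers during a bounded run stay below the maximum of the bound and the start value. -/
theorem Bd.run_le {B : ℕ} : ∀ {P : Prog} {x : List Bool} {σ : Reg},
    Bd B P x σ → ∀ r, run P x σ r ≤ max B (σ r)
  | .skip, _, σ, _, r => le_max_right _ _
  | .inc s, _, σ, h1, r => by
    by_cases hr : r = s
    · subst hr
      simp only [run, Function.update_self]
      exact le_max_of_le_left h1
    · simp only [run, Function.update_of_ne hr]
      exact le_max_right _ _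
  | .dec s, _, σ, h1, r => by
    by_cases hr : r = s
    · subst hr
      simp only [run, Function.update_self]
      exact le_max_of_le_right (Nat.sub_le _ _)
    · simp only [run, Function.update_of_ne hr]
      exact le_max_right _ _
  | .inp t s, x, σ, h1, r => by
    by_cases hr : r = s
    · subst hr
      simp only [run, Function.update_self]
      have := inpv_le x (σ t)
      have h2 := h1.2
      exact le_max_of_le_left (by omega)
    · simp only [run, Function.update_of_ne hr]
      exact le_max_right _ _
  | .seq P Q, x, σ, h1, r => by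
    have h2 := Bd.run_le h1.1 r
    have h3 := Bd.run_le h1.2 r
    simp only [run]
    exact le_trans h3 (max_le (le_max_left _ _) h2)
  | .loop s P, x, σ, h1, r => by
    have key : ∀ j, j ≤ σ s → ((run P x)^[j] σ) r ≤ max B (σ r) := by
      intro j
      induction j with
      | zero => intro _; exact le_max_right _ _
      | succ j ih =>
        intro hj
        rw [Function.iterate_succ_apply']
        exact le_trans (Bd.run_le (h1.2 j (by omega)) r) (max_le (le_max_left _ _) (ih (by omega)))
    exact key _ le_rfl

theorem run_addTo (r s : ℕ) (x : List Bool) (σ : Reg) :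
    run (Prog.addTo r s) x σ = Function.update σ s (σ s + σ r) := by
  have key : ∀ j, (run (.inc s) x)^[j] σ = Function.update σ s (σ s + j) := by
    intro j
    induction j with
    | zero => simp
    | succ j ih =>
      rw [Function.iterate_succ_apply', ih]
      simp [run, add_assoc]
  exact key _

theorem Bd_addTo {B : ℕ} (r s : ℕ) (x : List Bool) (σ : Reg) (hB : σ s + σ r ≤ B) :
    Bd B (Prog.addTo r s) x σ := by
  have key : ∀ j, (run (.inc s) x)^[j] σ = Function.update σ s (σ s + j) := by
    intro j
    induction j with
    | zero => simp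
    | succ j ih =>
      rw [Function.iterate_succ_apply', ih]
      simp [run, add_assoc]
  refine ⟨by omega, fun j hj => ?_⟩
  rw [key]
  simp only [Bd, Function.update_self]
  omega

theorem run_clear (r : ℕ) (x : List Bool) (σ : Reg) :
    run (Prog.clear r) x σ = Function.update σ r 0 := by
  have key : ∀ j, (run (.dec r) x)^[j] σ = Function.update σ r (σ r - j) := by
    intro j
    induction j with
    | zero => simp
    | succ j ih =>
      rw [Function.iterate_succ_apply', ih]
      simp [run, Nat.sub_sub]
  show (run (.dec r) x)^[σ r] σ = _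
  rw [key]
  simp

theorem Bd_clear {B : ℕ} (r : ℕ) (x : List Bool) (σ : Reg) (hB : σ r ≤ B) :
    Bd B (Prog.clear r) x σ := by
  have key : ∀ j, (run (.dec r) x)^[j] σ = Function.update σ r (σ r - j) := by
    intro j
    induction j with
    | zero => simp
    | succ j ih =>
      rw [Function.iterate_succ_apply', ih]
      simp [run, Nat.sub_sub]
  refine ⟨hB, fun j _ => ?_⟩
  rw [key]
  simp only [Bd, Function.update_self]
  omega

end Pool.Agent.Work.MP_71c844_lc.Arr
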