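/-
Block ARR (problem MP_71c844_lc): number functions computed by loop programs with numbers of
polynomial size.  Author: helper58.
-/
import Pool.Agent.Work.MP_71c844_lc.Arr.Prog

namespace Pool.Agent.Work.MP_71c844_lc.Arr

/-- The program `P` computes `f` into the register `o` from the registers `a i`, which hold the
numbers `co i γ`; the registers from `s` on are free (zero before and after), nothing else is
changed, and all numbers met are at most `(B + 2) ^ C` when the given numbers are at most `B`. -/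
def Comp {ι Γ : Type} (C : ℕ) (co : ι → Γ → ℕ) (f : List Bool → Γ → ℕ) (a : ι → ℕ) (o s : ℕ)
    (P : Prog) : Prop :=
  ∀ (x : List Bool) (γ : Γ) (σ : Reg), (∀ i, σ (a i) = co i γ) → σ o = 0 →
    (∀ j, s ≤ j → σ j = 0) →
      run P x σ = Function.update σ o (f x γ) ∧
      ∀ B, (∀ i, co i γ ≤ B) → Bd ((B + 2) ^ C) P x σ

/-- The class of functions computed by loop programs with numbers of polynomial size.
`Γ` is the type of the arguments, which are given to the program by the numbers `co i γ`;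
the programs exist for every choice of registers, and the value is polynomially bounded. -/
def LSC {ι Γ : Type} (co : ι → Γ → ℕ) (f : List Bool → Γ → ℕ) : Prop :=
  ∃ C : ℕ, (∀ x γ B, (∀ i, co i γ ≤ B) → f x γ ≤ (B + 2) ^ C) ∧
    ∀ (a : ι → ℕ) (o s : ℕ), (∀ i, a i < s) → o < s → (∀ i, a i ≠ o) →
      ∃ P : Prog, Comp C co f a o s P

/-- One more number variable, the number itself being part of the arguments. -/
def ext {ι Γ : Type} (co : ι → Γ → ℕ) : Option ι → Γ × ℕ → ℕ
  | none, γ => γ.2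
  | some i, γ => co i γ.1

/-- Iteration with a counter. -/
def rc (g : ℕ) (F : ℕ → ℕ → ℕ) : ℕ → ℕ
  | 0 => g
  | n + 1 => F n (rc g F n)

/-- Iteration with a counter, all values cut to at most `M`. -/
def rcM (M g : ℕ) (F : ℕ → ℕ → ℕ) (n : ℕ) : ℕ := rc (min g M) (fun j y => min (F j y) M) n

theorem pow_two_le_pow {B C C' : ℕ} (h : C ≤ C') : (B + 2) ^ C ≤ (B + 2) ^ C' :=
  Nat.pow_le_pow_right (by omega) h

theorem Comp.mono {ι Γ : Type} {C C' : ℕ} (h : C ≤ C') {co : ι → Γ → ℕ}
    {f : List Bool → Γ → ℕ} {a : ι → ℕ} {o s : ℕ} {P : Prog} (hP : Comp C co f a o s P) :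
    Comp C' co f a o s P := by
  intro x γ σ h1 h2 h3
  obtain ⟨h4, h5⟩ := hP x γ σ h1 h2 h3
  exact ⟨h4, fun B hB => Bd.mono (pow_two_le_pow h) (h5 B hB)⟩

section basic

variable {ι Γ : Type} {co : ι → Γ → ℕ}

/-- A number variable. -/
theorem LSC.var (i : ι) : LSC co (fun _ γ => co i γ) := by
  refine ⟨1, fun x γ B hB => by rw [pow_one]; exact le_trans (hB i) (by omega), ?_⟩
  intro a o s ha ho hao
  refine ⟨Prog.addTo (a i) o, fun x γ σ h1 h2 h3 => ⟨?_, ?_⟩⟩
  · rw [run_addTo, h1, h2, zero_add]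
  · intro B hB
    refine Bd_addTo _ _ _ _ ?_
    rw [h1, h2, pow_one]
    have := hB i
    omega

/-- A constant. -/
theorem LSC.const (c : ℕ) : LSC co (fun _ _ => c) := by
  refine ⟨c + 1, fun x γ B _ => ?_, ?_⟩
  · calc c ≤ 2 ^ c := Nat.lt_two_pow_self.le
      _ ≤ (B + 2) ^ c := Nat.pow_le_pow_left (by omega) c
      _ ≤ (B + 2) ^ (c + 1) := pow_two_le_pow (by omega)
  intro a o s ha ho hao
  have key : ∀ k, k ≤ c → ∃ P : Prog, ∀ (x : List Bool) (σ : Reg), σ o = 0 →
      run P x σ = Function.update σ o k ∧ ∀ B, Bd ((B + 2) ^ (c + 1)) P x σ := by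
    intro k
    induction k with
    | zero =>
      intro _
      refine ⟨.skip, fun x σ h => ⟨?_, fun B => trivial⟩⟩
      rw [← h]
      simp [run]
    | succ k ih =>
      intro hk
      obtain ⟨P, hP⟩ := ih (by omega)
      refine ⟨.seq P (.inc o), fun x σ h => ⟨?_, fun B => ⟨(hP x σ h).2 B, ?_⟩⟩⟩
      · simp only [run]
        rw [(hP x σ h).1]
        simp
      · rw [(hP x σ h).1]
        simp only [Bd, Function.update_self]
        calc k + 1 ≤ 2 ^ (c + 1) := le_trans (by omega) (Nat.lt_two_pow_self (n := c + 1)).le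
          _ ≤ (B + 2) ^ (c + 1) := Nat.pow_le_pow_left (by omega) _
  obtain ⟨P, hP⟩ := key c le_rfl
  exact ⟨P, fun x γ σ _ h2 _ => ⟨(hP x σ h2).1, fun B _ => (hP x σ h2).2 B⟩⟩

/-- Change of the arguments when every old variable is a new variable. -/
theorem LSC.reidx {ι' Γ' : Type} {co' : ι' → Γ' → ℕ} {f : List Bool → Γ → ℕ} (hf : LSC co f)
    (φ : Γ' → Γ) (r : ι → ι') (h : ∀ i γ, co i (φ γ) = co' (r i) γ) :
    LSC co' (fun x γ => f x (φ γ)) := by
  obtain ⟨C, h1, h2⟩ := hf
  refine ⟨C, fun x γ B hB => h1 x (φ γ) B (fun i => by rw [h]; exact hB _), ?_⟩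
  intro a o s ha ho hao
  obtain ⟨P, hP⟩ := h2 (fun i => a (r i)) o s (fun i => ha _) ho (fun i => hao _)
  refine ⟨P, fun x γ σ g1 g2 g3 => ?_⟩
  obtain ⟨g4, g5⟩ := hP x (φ γ) σ (fun i => by rw [h]; exact g1 _) g2 g3
  exact ⟨g4, fun B hB => g5 B (fun i => by rw [h]; exact hB _)⟩

/-- The new variable. -/
theorem LSC.last : LSC (ext co) (fun _ γ => γ.2) := LSC.var (co := ext co) none

/-- Weakening. -/
theorem LSC.weak {f : List Bool → Γ → ℕ} (hf : LSC co f) :
    LSC (ext co) (fun x γ => f x γ.1) :=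
  hf.reidx Prod.fst some (fun _ _ => rfl)

/-- The function only matters up to extensionality. -/
theorem LSC.congr {f g : List Bool → Γ → ℕ} (hf : LSC co f) (h : ∀ x γ, f x γ = g x γ) :
    LSC co g := by
  have : f = g := by funext x γ; exact h x γ
  rwa [← this]

end basic

end Pool.Agent.Work.MP_71c844_lc.Arr
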