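/-
Block ARR (problem MP_71c844_lc): the number-coded simulation of a cellular array of any
dimension by the catalytic loop.  Every function is total; powers are cut to at most `M` so that
all numbers are of polynomial size in `M`.  Author: helper58.
-/
import Pool.Agent.Work.MP_71c844_lc.Arr.LS

namespace Pool.Agent.Work.MP_71c844_lc.Arr

open Finset

/-! ## Digits -/

/-- The digit number `k` of `x` in base `a`. -/
def dg (a k x : ℕ) : ℕ := x / a ^ k % a

/-- The number with the digits `f 0, …, f (n - 1)` in base `a`. -/
def ofd (a n : ℕ) (f : ℕ → ℕ) : ℕ := ∑ i ∈ range n, f i * a ^ i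

/-- The power, cut to at most `M`. -/
def pc (M a k : ℕ) : ℕ := min (a ^ k) M

/-- The number with the digits `f 0, …, f (n - 1)` in base `a`, with cut powers, cut to `M`. -/
def ofM (M a n : ℕ) (f : ℕ → ℕ) : ℕ := min (∑ i ∈ range n, f i * pc M a i) M

/-! ## Arithmetic modulo `p` -/

/-- The product of `F 0, …, F (n - 1)` modulo `p` (for `p ≥ 2`). -/
def pm (p n : ℕ) (F : ℕ → ℕ) : ℕ := rcM p 1 (fun j y => y * F j % p) n

/-- The inverse modulo a prime. -/
def iv (p x : ℕ) : ℕ := pm p (p - 2) (fun _ => x)

/-- The Lagrange polynomial of the point `c` for the nodes `0, …, Q - 1`, at `z`, modulo `p`. -/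
def lg (Q p c z : ℕ) : ℕ :=
  pm p Q (fun i => if i = c then 1 else (z + (p - i % p)) * iv p (c + (p - i % p)))

/-- Coordinate `k` of the extension modulo `p` of the function `G`, which maps numbers with `n`
digits in base `Q` to numbers in base `Q`, at the point `z 0, …, z (n - 1)`. -/
def gtN (M Q n p : ℕ) (G z : ℕ → ℕ) (k : ℕ) : ℕ :=
  (∑ W ∈ range (pc M Q n), dg Q k (G W) * pm p n (fun j => lg Q p (dg Q j W) (z j))) % p

/-- Least prime larger than `n`. -/
noncomputable def np (n : ℕ) : ℕ := Nat.find (Nat.exists_infinite_primes (n + 1))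

/-! ## The catalytic loop on numbers

The state `S` is a number with `2 D K` digits in base `p`: coordinate `k < K` of the register
`i < D` of the bank `β < 2` is the digit number `(β D + i) K + k`. -/

/-- The number of `l < h` such that `m ^ (l + 1)` divides `N`. -/
def vl (m h N : ℕ) : ℕ := ∑ l ∈ range h, if N / m ^ (l + 1) * m ^ (l + 1) = N then 1 else 0

/-- Leaf step at the position `N`: add the block `lf` (a number with `K` digits in base `Q`) to
the register `N % D` of the bank `0`. -/
def leafS (M D Q K p lf N S : ℕ) : ℕ :=
  ofM M p (2 * D * K) (fun i => (dg p i S + if i / K = N % D then dg Q (i % K) lf else 0) % p)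

/-- Pop step at the position `N`; `G` is the block function, `v` is the exponent of `D p` in `N`,
`u = N / (D p) ^ v`. -/
def popS (M D Q K p : ℕ) (G : ℕ → ℕ) (N v u S : ℕ) : ℕ :=
  if N ≠ 0 ∧ u % D = 0 then
    ofM M p (2 * D * K) (fun i => (dg p i S +
      if i / K = (v + 1) % 2 * D + u / (D * p) % D then
        p - gtN M Q (D * K) p G
          (fun j => iv p (u / D % p) * dg p (v % 2 * D * K + j) S) (i % K)
      else 0) % p)
  else S

/-- One step of the loop. -/
def stS (M D Q K p h : ℕ) (G lf : ℕ → ℕ) (N S : ℕ) : ℕ :=
  leafS M D Q K p (lf N) N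
    (popS M D Q K p G N (vl (D * p) h N) (N / (D * p) ^ vl (D * p) h N) S)

/-- The state after the first `n` steps. -/
def loopS (M D Q K p h : ℕ) (G lf : ℕ → ℕ) (n : ℕ) : ℕ :=
  rcM M 0 (fun N S => stS M D Q K p h G lf N S) n

/-! ## Blocks of the array

A block has `b ^ d` cells: the cell with coordinates `c j < b` has number `∑ j, c j * b ^ j`; its
state is the digit of that number, in base `q`; digits from `b ^ d` to `K r` are `0`.  `3 ^ d`
neighbouring blocks form a box of side `L = 3 b`; its cells are numbered in the same way. -/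

/-- `∑ j < d, f j * pc M a j`: the number of a cell of a box of side `a`. -/
def cn (M a d : ℕ) (f : ℕ → ℕ) : ℕ := ∑ j ∈ range d, f j * pc M a j

/-- The box made of `3 ^ d` blocks: block number `κ` occupies the digits `κ * R + c` of `W`. -/
def boxN (M q d b R W : ℕ) : ℕ :=
  ofM M q (pc M (3 * b) d) (fun u =>
    dg q (cn M 3 d (fun j => dg (3 * b) j u / b) * R + cn M b d (fun j => dg (3 * b) j u % b)) W)

/-- One step of the array in the box `X`; the local rule is coded by the number `tb`, and
`od = ∑ j < d, L ^ j`. -/
def bstN (M q d L D od tb X : ℕ) : ℕ :=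
  ofM M q (pc M L d) (fun u =>
    dg q (ofM M q D (fun e => dg q (u + cn M L d (fun j => dg 3 j e) - od) X)) tb)

/-- The central block of the box `X`. -/
def outN (M q d b R X : ℕ) : ℕ :=
  ofM M q R (fun c =>
    if c < pc M b d then dg q (cn M (3 * b) d (fun j => b + dg b j c)) X else 0)

/-- The block function: `b` steps in the box. -/
def bmN (M q d b R D tb W : ℕ) : ℕ :=
  outN M q d b R (rcM M (boxN M q d b R W)
    (fun _ X => bstN M q d (3 * b) D (cn M (3 * b) d (fun _ => 1)) tb X) b)

/-- Letter number `i` of the guess word with `m` letters coded by `Y < 2 ^ m` (its first letter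
is the leading binary digit of `Y`): `0` or `1`, and `2` outside the word. -/
def gv (m Y i : ℕ) : ℕ := if i < m then dg 2 (m - 1 - i) Y else 2

/-- The state of a cell in the initial configuration: `w j` are its coordinates shifted by `o`;
`m, Y` code the guess word; `et` is the table of the initial states: the digit number
`3 * g + a` for the guess letter `g` and the input letter `a`; number `8` is quiescence. -/
def iniN (x : List Bool) (m Y d q et o : ℕ) (w : ℕ → ℕ) : ℕ :=
  if (∀ j < d, j ≠ 0 → w j = o) ∧ o ≤ w 0 then
    dg q (3 * gv m Y (w 0 - o) + inpv x (w 0 - o)) et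
  else dg q 8 et

/-- The leaf block at the position `N`. -/
def lfN (x : List Bool) (m Y M q d b R D p h et N : ℕ) : ℕ :=
  ofM M q R (fun c =>
    if c < pc M b d then
      iniN x m Y d q et (b * h)
        (fun j => (∑ l ∈ range h, dg 3 j (dg (D * p) l N % D)) * b + dg b j c)
    else 0)

/-! ## Parameters -/

/-- The side of the blocks for the search number `M`: the largest `b` with
`A * b ^ d ≤ log₂ M` (`0` if there is none). -/
def bOf (d A M : ℕ) : ℕ :=
  ∑ b ∈ range (Nat.log 2 M), if A * pc (Nat.log 2 M + 1) (b + 1) d ≤ Nat.log 2 M then 1 else 0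

/-- Number of cells grouped into one coordinate. -/
def rOf (b : ℕ) : ℕ := Nat.log 2 b + 1

/-- The number of levels. -/
def hOf (M d b : ℕ) : ℕ := pc M b d / rOf b

/-- The state of the cell `0` of the coded array on the input `x` and the guess word coded by
`m, Y`, at time `b * h`. -/
noncomputable def simN (x : List Bool) (m Y M d q tb et b : ℕ) : ℕ :=
  let D := pc M 3 d
  let r := rOf b
  let h := hOf M d b
  let K := h + 1
  let Q := pc M q r
  let R := K * r
  let p := np (D * K * Q)
  dg p (h % 2 * D * K) (loopS M D Q K p h (bmN M q d b R D tb)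
    (lfN x m Y M q d b R D p h et) (pc M (D * p) h)) % q

/-- The verdict of the coded array shown by the cell `0` at the time given by `M`:
`0` none, `1` yes, `2` no; `vt` is the table of verdicts. -/
noncomputable def verN (x : List Bool) (m Y M d q tb et vt A : ℕ) : ℕ :=
  if bOf d A M = 0 then 0 else dg 3 (simN x m Y M d q tb et (bOf d A M)) vt

/-! ## Alternating guesses

The leaves of the binary tree of height `m` are the guess words `Y < 2 ^ m`; a node at distance
`l` from the root is a maximum when `l` is even and a minimum when `l` is odd.  The loop over the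
leaves keeps one binary digit per level. -/

/-- The value of the finished subtree of height `k` at the leaf `N`, from the stored digits of
`S` (the values of the left siblings) and the value `v` of the leaf. -/
def gcomb (m S v k : ℕ) : ℕ :=
  rcM 1 v (fun i u => if (m - (i + 1)) % 2 = 0 then max (dg 2 i S) u else min (dg 2 i S) u) k

/-- One step: the value of the subtree which ends at the leaf `N` is stored. -/
def gstep (M m : ℕ) (lf : ℕ → ℕ) (N S : ℕ) : ℕ :=
  ofM M 2 (m + 1) (fun i =>
    if i = vl 2 m (N + 1) then gcomb m S (lf N) (vl 2 m (N + 1)) else dg 2 i S)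

/-- The value of a majority: `1` when more than half of the numbers `lf 0, …, lf (2 ^ m - 1)`
(each `0` or `1`) are `1`. -/
def mj (M m : ℕ) (lf : ℕ → ℕ) : ℕ :=
  if pc M 2 m < 2 * ∑ Z ∈ range (pc M 2 m), lf Z then 1 else 0

/-- The value of the game. -/
def gameN (M m : ℕ) (lf : ℕ → ℕ) : ℕ :=
  dg 2 m (rcM M 0 (fun N S => gstep M m lf N S) (pc M 2 m))

end Pool.Agent.Work.MP_71c844_lc.Arr
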