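/-
Block ARR (problem MP_71c844_lc): auxiliary notions for the arrays.  Author: helper58.
-/
import Pool.Agent.Work.MP_71c844_lc.Arr.Num
import Pool.Agent.Work.MP_71c844_lc.Arr.Defs

namespace Pool.Agent.Work.MP_71c844_lc.Arr

/-! ## Auxiliary notions of the proof -/

/-- The first verdict shown at the times `0, …, t`. -/
def fstV (f : ℕ → Option Bool) : ℕ → Option Bool
  | 0 => f 0
  | t + 1 => (fstV f t).or (f (t + 1))

/-- The number of a verdict: `0` none, `1` yes, `2` no. -/
def vcode : Option Bool → ℕ
  | none => 0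
  | some true => 1
  | some false => 2

/-- The array with remembered verdicts. -/
def CA.sticky {d : ℕ} (A : CA d) : CA d where
  Q := A.Q × Option Bool
  finQ := by
    have := A.finQ
    infer_instance
  rule f := (A.rule (fun e => (f e).1), ((f (fun _ => 1)).2).or (A.out (A.rule (fun e => (f e).1))))
  enc a c := (A.enc a c, A.out (A.enc a c))
  quiet := by
    rw [A.quiet]
    cases A.out (A.enc none none) <;> rfl
  out s := s.2

/-- The number of a letter: `0`, `1`, or `2` outside the word. -/
def ocode : Option Bool → ℕ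
  | none => 2
  | some false => 0
  | some true => 1

/-- The guess word with `m` letters coded by the number `Y`. -/
def wd (m Y : ℕ) : List Bool := (List.range m).map (fun i => decide (dg 2 (m - 1 - i) Y = 1))

/-- `q, tb, et, vt` code the array `A`, its states being coded by `cd`. -/
structure Coded {d : ℕ} (A : CA d) (q tb et vt : ℕ) (cd : A.Q → ℕ) : Prop where
  two_le : 2 ≤ q
  lt : ∀ s, cd s < q
  rule : ∀ f : (Fin d → Fin 3) → A.Q,
    dg q (ofd q (3 ^ d) (fun e => cd (f (fun j => ⟨e / 3 ^ j.val % 3, Nat.mod_lt _ (by omega)⟩))))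
      tb = cd (A.rule f)
  enc : ∀ a c, dg q (3 * ocode c + ocode a) et = cd (A.enc a c)
  out : ∀ s, dg 3 (cd s) vt = vcode (A.out s)

/-- The block with the coordinates `i` at time `t`, as a number with `R` digits in base `q`. -/
def blk {d : ℕ} (A : CA d) (cd : A.Q → ℕ) (x : Inp) (q b R t : ℕ) (i : Fin d → ℤ) : ℕ :=
  ofd q R (fun c => if c < b ^ d then
    cd (A.conf x t (fun j => i j * (b : ℤ) + ((c / b ^ j.val % b : ℕ) : ℤ))) else 0)

end Pool.Agent.Work.MP_71c844_lc.Arr
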