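/-
Block ARR (problem MP_71c844_lc): closure rules of the class `LSC`.  Statements, with proofs in
the docstrings; each `S_…` is one item (or part of one).  Author: helper58.
-/
import Pool.Agent.Work.MP_71c844_lc.Arr.Num

namespace Pool.Agent.Work.MP_71c844_lc.Arr

open Finset

/-- L1 (let).  Let `g` have constant `Cg`, `f` constant `Cf`.  Given `a, o, s`: take the program
of `g` for `(a, s, s + 1)`, then the program of `f` for the registers `none ↦ s`,
`some i ↦ a i`, output `o`, scratch base `s + 1`, then `Prog.clear s`.  All values are bounded: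
with `B' := max B (g x γ) ≤ (B + 2) ^ Cg` (or `(B+2)^(Cg+1)`) the second program has bound
`(B' + 2) ^ Cf ≤ (B + 2) ^ ((Cg + 2) * Cf)`. -/
def S_let : Prop := ∀ {ι Γ : Type} (co : ι → Γ → ℕ) (g : List Bool → Γ → ℕ)
  (f : List Bool → Γ → ℕ → ℕ), LSC co g → LSC (ext co) (fun x γ => f x γ.1 γ.2) →
    LSC co (fun x γ => f x γ (g x γ))

/-- L2 (input letter).  Program `inp (a i) o` for the letter number `co i γ`. -/
def S_inpv : Prop := ∀ {ι Γ : Type} (co : ι → Γ → ℕ) (i : ι),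
  LSC co (fun x γ => inpv x (co i γ))

/-- L3 (bounded recursion).  Registers: `s` = counter `j`, `s+1` = current value `y`,
`s+2` = `n x γ`, `s+3` = next value, scratch from `s+4`.  Program: compute `n` into `s+2` and `g`
into `s+1`; `loop (s+2) (F : (a, j = s, y = s+1) ↦ s+3; clear (s+1); addTo (s+3) (s+1);
clear (s+3); inc s)`; `addTo (s+1) o`; clear `s, s+1, s+2`.  Invariant after `j` rounds: `s` holds
`j`, `s+1` holds `rc g F j`.  Everything is at most `(B+2)^(const)` by the bounds of `n`, `g` and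
the hypothesis on the iterates. -/
def S_rc : Prop := ∀ {ι Γ : Type} (co : ι → Γ → ℕ) (n g : List Bool → Γ → ℕ)
  (F : List Bool → Γ → ℕ → ℕ → ℕ), LSC co n → LSC co g →
    LSC (ext (ext co)) (fun x γ => F x γ.1.1 γ.1.2 γ.2) →
    (∃ C, ∀ x γ B, (∀ i, co i γ ≤ B) → ∀ j ≤ n x γ, rc (g x γ) (F x γ) j ≤ (B + 2) ^ C) →
    LSC co (fun x γ => rc (g x γ) (F x γ) (n x γ))

/-- A condition is decided by a function of the class. -/
def LSP {ι Γ : Type} (co : ι → Γ → ℕ) (P : List Bool → Γ → Prop) : Prop :=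
  ∃ c : List Bool → Γ → ℕ, LSC co c ∧ ∀ x γ, P x γ ↔ c x γ ≠ 0

/-- The closure rules, first part (item LR1: `S_let → S_inpv → S_rc → LSR1`). -/
structure LSR1 : Prop where
  /-- L1 -/
  letr : ∀ {ι Γ : Type} {co : ι → Γ → ℕ} {g : List Bool → Γ → ℕ}
    {f : List Bool → Γ → ℕ → ℕ}, LSC co g → LSC (ext co) (fun x γ => f x γ.1 γ.2) →
    LSC co (fun x γ => f x γ (g x γ))
  /-- L1 + L2 -/
  inp : ∀ {ι Γ : Type} {co : ι → Γ → ℕ} {g : List Bool → Γ → ℕ}, LSC co g →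
    LSC co (fun x γ => inpv x (g x γ))
  /-- `rc (f) (fun _ y => y + 1) g` -/
  add : ∀ {ι Γ : Type} {co : ι → Γ → ℕ} {f g : List Bool → Γ → ℕ}, LSC co f → LSC co g →
    LSC co (fun x γ => f x γ + g x γ)
  /-- `rc 0 (fun _ y => y + f) g` -/
  mul : ∀ {ι Γ : Type} {co : ι → Γ → ℕ} {f g : List Bool → Γ → ℕ}, LSC co f → LSC co g →
    LSC co (fun x γ => f x γ * g x γ)
  /-- predecessor is `rc 0 (fun j _ => j)`; subtraction iterates it -/
  sub : ∀ {ι Γ : Type} {co : ι → Γ → ℕ} {f g : List Bool → Γ → ℕ}, LSC co f → LSC co g →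
    LSC co (fun x γ => f x γ - g x γ)
  /-- `f - (f - g)` -/
  min : ∀ {ι Γ : Type} {co : ι → Γ → ℕ} {f g : List Bool → Γ → ℕ}, LSC co f → LSC co g →
    LSC co (fun x γ => Min.min (f x γ) (g x γ))
  /-- recursion with all values cut to at most `M x γ`; from L3 -/
  rcM : ∀ {ι Γ : Type} {co : ι → Γ → ℕ} {M g n : List Bool → Γ → ℕ}
    {F : List Bool → Γ → ℕ → ℕ → ℕ}, LSC co M → LSC co g → LSC co n →
    LSC (ext (ext co)) (fun x γ => F x γ.1.1 γ.1.2 γ.2) →
    LSC co (fun x γ => Arr.rcM (M x γ) (g x γ) (F x γ) (n x γ))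
  /-- bounded sum; the partial sums are at most `n * (B' + 2) ^ C` with `B' = max B n`;
  from L3 (the bound of the summands is part of `LSC (ext co) F`) -/
  sum : ∀ {ι Γ : Type} {co : ι → Γ → ℕ} {n : List Bool → Γ → ℕ}
    {F : List Bool → Γ → ℕ → ℕ}, LSC co n → LSC (ext co) (fun x γ => F x γ.1 γ.2) →
    LSC co (fun x γ => ∑ j ∈ range (n x γ), F x γ j)
  /-- the old last variable seen from one level deeper (`reidx`) -/
  weakU : ∀ {ι Γ : Type} {co : ι → Γ → ℕ} {f : List Bool → Γ → ℕ → ℕ},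
    LSC (ext co) (fun x γ => f x γ.1 γ.2) → LSC (ext (ext co)) (fun x γ => f x γ.1.1 γ.2)

/-- The closure rules, second part: conditions (item LR2: `LSR1 → LSR2`). -/
structure LSR2 : Prop where
  /-- `[c ≠ 0] = 1 - (1 - c)` -/
  ite : ∀ {ι Γ : Type} {co : ι → Γ → ℕ} {P : List Bool → Γ → Prop}
    [∀ x γ, Decidable (P x γ)] {f g : List Bool → Γ → ℕ}, LSP co P → LSC co f → LSC co g →
    LSC co (fun x γ => if P x γ then f x γ else g x γ)
  eq : ∀ {ι Γ : Type} {co : ι → Γ → ℕ} {f g : List Bool → Γ → ℕ}, LSC co f → LSC co g →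
    LSP co (fun x γ => f x γ = g x γ)
  le : ∀ {ι Γ : Type} {co : ι → Γ → ℕ} {f g : List Bool → Γ → ℕ}, LSC co f → LSC co g →
    LSP co (fun x γ => f x γ ≤ g x γ)
  lt : ∀ {ι Γ : Type} {co : ι → Γ → ℕ} {f g : List Bool → Γ → ℕ}, LSC co f → LSC co g →
    LSP co (fun x γ => f x γ < g x γ)
  and : ∀ {ι Γ : Type} {co : ι → Γ → ℕ} {P R : List Bool → Γ → Prop}, LSP co P → LSP co R →
    LSP co (fun x γ => P x γ ∧ R x γ)
  or : ∀ {ι Γ : Type} {co : ι → Γ → ℕ} {P R : List Bool → Γ → Prop}, LSP co P → LSP co R →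
    LSP co (fun x γ => P x γ ∨ R x γ)
  not : ∀ {ι Γ : Type} {co : ι → Γ → ℕ} {P : List Bool → Γ → Prop}, LSP co P →
    LSP co (fun x γ => ¬ P x γ)
  ball : ∀ {ι Γ : Type} {co : ι → Γ → ℕ} {n : List Bool → Γ → ℕ}
    {P : List Bool → Γ → ℕ → Prop}, LSC co n → LSP (ext co) (fun x γ => P x γ.1 γ.2) →
    LSP co (fun x γ => ∀ j < n x γ, P x γ j)

/-- The closure rules, third part (item LR3: `LSR1 → LSR2 → LSR3`). -/
structure LSR3 : Prop where
  /-- `∑ i < f, [(i + 1) * g ≤ f ∧ g ≠ 0]` -/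
  div : ∀ {ι Γ : Type} {co : ι → Γ → ℕ} {f g : List Bool → Γ → ℕ}, LSC co f → LSC co g →
    LSC co (fun x γ => f x γ / g x γ)
  /-- `f - g * (f / g)` -/
  mod : ∀ {ι Γ : Type} {co : ι → Γ → ℕ} {f g : List Bool → Γ → ℕ}, LSC co f → LSC co g →
    LSC co (fun x γ => f x γ % g x γ)
  /-- cut power: `pc M a k = rcM M 1 (fun _ y => y * a) k` up to the value at `a = 0`
  (`min (a^k) M`; once `M` is reached it stays, when `a ≥ 1`; treat `a = 0` separately) -/
  pc : ∀ {ι Γ : Type} {co : ι → Γ → ℕ} {M a k : List Bool → Γ → ℕ}, LSC co M → LSC co a →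
    LSC co k → LSC co (fun x γ => Arr.pc (M x γ) (a x γ) (k x γ))
  /-- `f / a ^ k = f / min (a ^ k) (f + 1)` -/
  divpow : ∀ {ι Γ : Type} {co : ι → Γ → ℕ} {f a k : List Bool → Γ → ℕ}, LSC co f → LSC co a →
    LSC co k → LSC co (fun x γ => f x γ / a x γ ^ k x γ)
  dg : ∀ {ι Γ : Type} {co : ι → Γ → ℕ} {a k f : List Bool → Γ → ℕ}, LSC co a → LSC co k →
    LSC co f → LSC co (fun x γ => Arr.dg (a x γ) (k x γ) (f x γ))
  ofM : ∀ {ι Γ : Type} {co : ι → Γ → ℕ} {M a n : List Bool → Γ → ℕ}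
    {F : List Bool → Γ → ℕ → ℕ}, LSC co M → LSC co a → LSC co n →
    LSC (ext co) (fun x γ => F x γ.1 γ.2) →
    LSC co (fun x γ => Arr.ofM (M x γ) (a x γ) (n x γ) (F x γ))
  /-- `∑ k < f, [f / 2 ^ (k + 1) ≠ 0]` -/
  log2 : ∀ {ι Γ : Type} {co : ι → Γ → ℕ} {f : List Bool → Γ → ℕ}, LSC co f →
    LSC co (fun x γ => Nat.log 2 (f x γ))
  pm : ∀ {ι Γ : Type} {co : ι → Γ → ℕ} {p n : List Bool → Γ → ℕ}
    {F : List Bool → Γ → ℕ → ℕ}, LSC co p → LSC co n →
    LSC (ext co) (fun x γ => F x γ.1 γ.2) →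
    LSC co (fun x γ => Arr.pm (p x γ) (n x γ) (F x γ))
  /-- the least prime `> n` is `n + 1 + #{j ≤ n + 1 : no number in (n, n+1+j] is prime}`
  (Bertrand: it is at most `2 n + 2`); primality: `2 ≤ m ∧ ∀ k < m, k < 2 ∨ m % k ≠ 0` -/
  np : ∀ {ι Γ : Type} {co : ι → Γ → ℕ} {f : List Bool → Γ → ℕ}, LSC co f →
    LSC co (fun x γ => Arr.np (f x γ))

/-- All the closure rules. -/
structure LSRules : Prop extends LSR1, LSR2, LSR3

/-- LR1. -/
def S_LR1 : Prop := S_let → S_inpv → S_rc → LSR1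

/-- LR2. -/
def S_LR2 : Prop := LSR1 → LSR2

/-- LR3. -/
def S_LR3 : Prop := LSR1 → LSR2 → LSR3

/-! ## Memberships of the functions of `Num.lean` (items N1 … N4; each may use `LSRules`) -/

/-- N1: the interpolation and the arithmetic modulo `p`: unfold the definitions and apply the
rules; `z` and `G` inside the sums are moved with `weakU` and `letr`. -/
def S_N1 : Prop := LSRules → ∀ {ι Γ : Type} (co : ι → Γ → ℕ) (M Q n p k : List Bool → Γ → ℕ)
  (G z : List Bool → Γ → ℕ → ℕ), LSC co M → LSC co Q → LSC co n → LSC co p → LSC co k →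
    LSC (ext co) (fun x γ => G x γ.1 γ.2) → LSC (ext co) (fun x γ => z x γ.1 γ.2) →
    LSC co (fun x γ => gtN (M x γ) (Q x γ) (n x γ) (p x γ) (G x γ) (z x γ) (k x γ))

/-- N2: the loop.  In `vl` use `N / m ^ k * m ^ k = N / m ^ k * pc (N + 1) m k`; the state is cut by `rcM` and `ofM`. -/
def S_N2 : Prop := LSRules → S_N1 → ∀ {ι Γ : Type} (co : ι → Γ → ℕ)
  (M D Q K p h n : List Bool → Γ → ℕ) (G lf : List Bool → Γ → ℕ → ℕ),
    LSC co M → LSC co D → LSC co Q → LSC co K → LSC co p → LSC co h → LSC co n →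
    LSC (ext co) (fun x γ => G x γ.1 γ.2) → LSC (ext co) (fun x γ => lf x γ.1 γ.2) →
    LSC co (fun x γ => loopS (M x γ) (D x γ) (Q x γ) (K x γ) (p x γ) (h x γ) (G x γ) (lf x γ)
      (n x γ))

/-- N3: the block function. -/
def S_N3 : Prop := LSRules → ∀ {ι Γ : Type} (co : ι → Γ → ℕ)
  (M q d b R D tb W : List Bool → Γ → ℕ),
    LSC co M → LSC co q → LSC co d → LSC co b → LSC co R → LSC co D → LSC co tb → LSC co W →
    LSC co (fun x γ => bmN (M x γ) (q x γ) (d x γ) (b x γ) (R x γ) (D x γ) (tb x γ) (W x γ))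

/-- N4: the leaf block. -/
def S_N4 : Prop := LSRules → ∀ {ι Γ : Type} (co : ι → Γ → ℕ)
  (m Y M q d b R D p h et N : List Bool → Γ → ℕ), LSC co m → LSC co Y →
    LSC co M → LSC co q → LSC co d → LSC co b → LSC co R → LSC co D → LSC co p → LSC co h →
    LSC co et → LSC co N →
    LSC co (fun x γ => lfN x (m x γ) (Y x γ) (M x γ) (q x γ) (d x γ) (b x γ) (R x γ) (D x γ)
      (p x γ) (h x γ) (et x γ) (N x γ))

/-- N5: the verdict; from N2, N3, N4 and the rules (`bOf`, `hOf`, `rOf` by the rules; unfold the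
`let`s of `simN` and substitute the functions, or use `letr`). -/
def S_N5 : Prop := LSRules → S_N1 → S_N2 → S_N3 → S_N4 → ∀ {ι Γ : Type} (co : ι → Γ → ℕ)
  (m Y M d q tb et vt A : List Bool → Γ → ℕ), LSC co m → LSC co Y →
    LSC co M → LSC co d → LSC co q → LSC co tb → LSC co et → LSC co vt → LSC co A →
    LSC co (fun x γ => verN x (m x γ) (Y x γ) (M x γ) (d x γ) (q x γ) (tb x γ) (et x γ)
      (vt x γ) (A x γ))

/-- N6: the game; closure rules (`gcomb` by `rcM`, `max` by `a + b - min a b`, `vl` as in N2). -/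
def S_N6 : Prop := LSRules → ∀ {ι Γ : Type} (co : ι → Γ → ℕ)
  (M m : List Bool → Γ → ℕ) (lf : List Bool → Γ → ℕ → ℕ), LSC co M → LSC co m →
    LSC (ext co) (fun x γ => lf x γ.1 γ.2) →
    LSC co (fun x γ => gameN (M x γ) (m x γ) (lf x γ))

end Pool.Agent.Work.MP_71c844_lc.Arr
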