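/-
Block ARR (problem MP_71c844_lc): correctness of the number-coded simulation, parameters, and
the final theorems.  Statements, with proofs in the docstrings.  Author: helper58.
-/
import Pool.Agent.Work.MP_71c844_lc.Arr.StmtsL
import Pool.Agent.Work.MP_71c844_lc.Arr.CAr

namespace Pool.Agent.Work.MP_71c844_lc.Arr

open Finset

/-! ## Digits -/

/-- D1: basic facts on digits: `dg a k (ofd a n f) = f k` for digits `f i < a` and `k < n`, and
`0` for `k ≥ n`; `ofd a n f < a ^ n`; a number `x < a ^ n` is `ofd a n` of its digits; the cut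
version agrees with `ofd` when `a ^ n ≤ M` (then `∑ f i * min (a ^ i) M = ofd a n f < a ^ n ≤ M`);
two levels: base `a ^ R` digits are blocks of `R` digits in base `a`. -/
structure D1 : Prop where
  dg_ofd : ∀ (a n k : ℕ) (f : ℕ → ℕ), (∀ i < n, f i < a) → k < n → dg a k (ofd a n f) = f k
  dg_ofd' : ∀ (a n k : ℕ) (f : ℕ → ℕ), (∀ i < n, f i < a) → n ≤ k → dg a k (ofd a n f) = 0
  ofd_lt : ∀ (a n : ℕ) (f : ℕ → ℕ), 1 ≤ a → (∀ i < n, f i < a) → ofd a n f < a ^ n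
  ofd_dg : ∀ (a n x : ℕ), x < a ^ n → ofd a n (fun i => dg a i x) = x
  ofM_eq : ∀ (M a n : ℕ) (f : ℕ → ℕ), 1 ≤ a → a ^ n ≤ M → (∀ i < n, f i < a) →
    ofM M a n f = ofd a n f
  ofd_congr : ∀ (a n : ℕ) (f g : ℕ → ℕ), (∀ i < n, f i = g i) → ofd a n f = ofd a n g
  dg_pow : ∀ (a R k c x : ℕ), c < R → dg a (k * R + c) x = dg a c (dg (a ^ R) k x)
  dg_zero : ∀ (a R x : ℕ), 1 ≤ R → dg a 0 (x % a ^ R) = x % a

/-- The statement of D1. -/
def S_D1 : Prop := D1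

/-! ## The geometry of the blocks -/

/-- Hypotheses on the sizes: `L = 3 b`, `R` digits per block. -/
structure BSz (M q d b R : ℕ) : Prop where
  hq : 2 ≤ q
  hb : 1 ≤ b
  hR : b ^ d ≤ R
  h1 : q ^ ((3 * b) ^ d) ≤ M
  h2 : q ^ R ≤ M

/-- The box at time `t` around the block `i`, as a number: cell number `u` has the coordinates
`(i j - 1) * b + (digit j of u in base 3 b)`. -/
def boxV {d : ℕ} (A : CA d) (cd : A.Q → ℕ) (x : Inp) (q b t : ℕ) (i : Fin d → ℤ) : ℕ :=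
  ofd q ((3 * b) ^ d) (fun u =>
    cd (A.conf x t (fun j => (i j - 1) * (b : ℤ) + ((u / (3 * b) ^ j.val % (3 * b) : ℕ) : ℤ))))

/-- G1: the box made of the blocks.  `pc M (3 * b) d = (3 b) ^ d` and all other cut powers are
powers, since `n ≤ q ^ n ≤ M`.  For a cell number `u`, `κ = ∑ j, (u_j / b) 3 ^ j < 3 ^ d` has the
digits `u_j / b < 3`, `c = ∑ j, (u_j % b) b ^ j < b ^ d` has the digits `u_j % b`, so the digit
number `κ R + c` in base `q` of the number `W` whose digits in base `q ^ R` are the blocks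
`i + κ - 1` is the state of the cell `(i_j + u_j / b - 1) b + u_j % b = (i_j - 1) b + u_j`. -/
def S_G1 : Prop := D1 → ∀ (M q d b R t : ℕ) (A : CA d) (tb et vt : ℕ) (cd : A.Q → ℕ)
  (x : Inp) (i : Fin d → ℤ), BSz M q d b R → Coded A q tb et vt cd → 1 ≤ d →
  boxN M q d b R (ofd (q ^ R) (3 ^ d) (fun κ =>
    blk A cd x q b R t (fun j => i j + ((κ / 3 ^ j.val % 3 : ℕ) : ℤ) - 1))) =
  boxV A cd x q b t i

/-- `X` agrees with the box at time `t` at the cells with all coordinates in `[s, 3 b - s)`. -/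
def Agr {d : ℕ} (A : CA d) (cd : A.Q → ℕ) (x : Inp) (q b t s : ℕ) (i : Fin d → ℤ)
    (X : ℕ) : Prop :=
  ∀ c : Fin d → ℕ, (∀ j, s ≤ c j ∧ c j + s < 3 * b) →
    dg q (∑ j : Fin d, c j * (3 * b) ^ j.val) X =
      cd (A.conf x t (fun j => (i j - 1) * (b : ℤ) + (c j : ℤ)))

/-- G2: one step in the box.  For a cell `c` with coordinates in `[s + 1, 3 b - s - 1)` and
`e < 3 ^ d` with digits `e_j`, the neighbour has coordinates `c_j + e_j - 1 ∈ [s, 3 b - s)` and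
number `u + ∑ e_j L ^ j - ∑ L ^ j` (natural subtraction is exact since `c_j ≥ 1`).  So the inner
`ofM` is `ofd q (3 ^ d)` of the codes of the neighbourhood (`q ^ (3 ^ d) ≤ q ^ ((3 b) ^ d) ≤ M`)
and `Coded.rule` applies; `dg` of an `ofM` by D1 (all digits are `< q`). -/
def S_G2 : Prop := D1 → ∀ (M q d b R t s : ℕ) (A : CA d) (tb et vt : ℕ) (cd : A.Q → ℕ)
  (x : Inp) (i : Fin d → ℤ) (X : ℕ), BSz M q d b R → Coded A q tb et vt cd →
  1 ≤ d → Agr A cd x q b t s i X →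
  Agr A cd x q b (t + 1) (s + 1) i
    (bstN M q d (3 * b) (3 ^ d) (cn M (3 * b) d (fun _ => 1)) tb X)

/-- G3: the centre.  The cell number `c < b ^ d` with digits `c_j` is the cell of the box with
coordinates `b + c_j ∈ [b, 2 b)`, i.e. the cell `i_j b + c_j` of the array. -/
def S_G3 : Prop := D1 → ∀ (M q d b R t : ℕ) (A : CA d) (tb et vt : ℕ) (cd : A.Q → ℕ)
  (x : Inp) (i : Fin d → ℤ) (X : ℕ), BSz M q d b R → Coded A q tb et vt cd →
  1 ≤ d → Agr A cd x q b t b i X → outN M q d b R X = blk A cd x q b R t i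

/-- G4: the block function.  From G1, G2 (`b` times, by induction; the states of the loop are
`< q ^ ((3 b) ^ d) ≤ M`, so `rcM` cuts nothing: `ofM` with digits `< q` is `ofd`, D1; or use that
`min X M = X`), G3.  `Agr … t 0 i (boxV …)` by D1. -/
def S_G4 : Prop := D1 → S_G1 → S_G2 → S_G3 → ∀ (M q d b R t : ℕ) (A : CA d)
  (tb et vt : ℕ) (cd : A.Q → ℕ) (x : Inp) (i : Fin d → ℤ),
  BSz M q d b R → Coded A q tb et vt cd → 1 ≤ d →
  bmN M q d b R (3 ^ d) tb (ofd (q ^ R) (3 ^ d) (fun κ =>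
    blk A cd x q b R t (fun j => i j + ((κ / 3 ^ j.val % 3 : ℕ) : ℤ) - 1))) =
  blk A cd x q b R (t + b) i

/-- G5: the leaf block.  With `w_j = i'_j b + c_j` (`i'_j` the sum of the digits), the cell of
the array is `w_j - h b`; `iniN` tests `w_j = b h` for `j ≠ 0` and `b h ≤ w_0`; the letter number
is `w_0 - b h`; `inpv x i = ocode x[i]?` and `gv m Y i = ocode (wd m Y)[i]?`.
`pc M b d = b ^ d`, `ofM = ofd` by D1. -/
def S_G5 : Prop := D1 → ∀ (m Y M q d b R D p h : ℕ) (A : CA d) (tb et vt : ℕ)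
  (cd : A.Q → ℕ) (x : List Bool) (N : ℕ),
  BSz M q d b R → Coded A q tb et vt cd → 1 ≤ d →
  lfN x m Y M q d b R D p h et N =
    blk A cd (x, wd m Y) q b R 0 (fun j =>
      ((∑ l ∈ range h, (dg (D * p) l N % D) / 3 ^ j.val % 3 : ℕ) : ℤ) - (h : ℤ))

/-! ## The loop (helper14: `LoopN.lean`) -/

/-- C1: correctness of the number-coded catalytic loop. -/
def S_C1 : Prop := ∀ {I : Type} [AddCommMonoid I] (M D Q K p h : ℕ) (_ : p.Prime)
  (_ : 1 ≤ D) (_ : 1 ≤ K) (_ : 2 ≤ Q) (_ : D * K * Q < p) (_ : p ^ (2 * D * K) ≤ M)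
  (_ : Q ^ (D * K) ≤ M) (G : ℕ → ℕ) (_ : ∀ W, G W < Q ^ K) (off : ℕ → I) (T : ℕ → I → ℕ)
  (_ : ∀ i, T 0 i < Q ^ K)
  (_ : ∀ l i, T (l + 1) i = G (ofd (Q ^ K) D (fun k => T l (i + off k))))
  (lf : ℕ → ℕ) (_ : ∀ N, lf N = T 0 (∑ l ∈ range h, off (dg (D * p) l N % D))),
  ∀ k < K, dg p (h % 2 * D * K + k) (loopS M D Q K p h G lf ((D * p) ^ h)) = dg Q k (T h 0)

/-- Good parameters. -/
structure Good (M d q b : ℕ) : Prop where
  hb : 1 ≤ b
  hd : 3 ^ d ≤ M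
  sz : BSz M q d b ((b ^ d / rOf b + 1) * rOf b)
  hr : q ^ rOf b ≤ M
  hbd : b ^ d ≤ M
  h1 : (np (3 ^ d * (b ^ d / rOf b + 1) * q ^ rOf b)) ^ (2 * 3 ^ d * (b ^ d / rOf b + 1)) ≤ M
  h2 : (q ^ rOf b) ^ (3 ^ d * (b ^ d / rOf b + 1)) ≤ M
  h3 : (3 ^ d * np (3 ^ d * (b ^ d / rOf b + 1) * q ^ rOf b)) ^ (b ^ d / rOf b) ≤ M

/-- C2: the simulation is correct.  `I = Fin d → ℕ`, `off κ j = κ / 3 ^ j % 3`,
`T l i' = blk (l b) (fun j => i' j - (h - l))` with `h, l` integers; `hT` is G4 with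
`i j = i' j + 1 - (h - l)`; the leaf is G5; `Q = q ^ r`, `Q ^ K = q ^ R`; `bmN < Q ^ K` for every
`W` by D1 (`outN` has digits `< q`, or take `% q ^ R`; `dg q _ _ < q`).  At the end
`dg Q 0 (T h 0) % q = blk % q ^ r % q` is the code of the cell `0` of the block `0`. -/
def S_C2 : Prop := D1 → S_G4 → S_G5 → S_C1 → ∀ (m Y M d q b : ℕ) (A : CA d)
  (tb et vt : ℕ) (cd : A.Q → ℕ) (x : List Bool), Good M d q b → 1 ≤ d →
  Coded A q tb et vt cd →
  simN x m Y M d q tb et b = cd (A.conf (x, wd m Y) (b * (b ^ d / rOf b)) (fun _ => 0))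

/-! ## Arrays -/

/-- V1: the array with remembered verdicts.  Induction on `t`. -/
def S_V1 : Prop := ∀ (d : ℕ) (A : CA d) (x : Inp) (t : ℕ) (w : Fin d → ℤ),
  (A.sticky.conf x t w).1 = A.conf x t w ∧
  (A.sticky.conf x t w).2 = fstV (fun s => A.out (A.conf x s w)) t

/-- V2: first verdicts.  If the first verdict is `v` at time `t` then `fstV … t' = some v` for
`t' ≥ t`; and `fstV … t' = some v` gives a time `t ≤ t'` of the first verdict, which is `v`. -/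
def S_V2 : Prop := ∀ (f : ℕ → Option Bool) (t' : ℕ) (v : Bool),
  fstV f t' = some v ↔ ∃ t ≤ t', f t = some v ∧ ∀ s < t, f s = none

/-- V3: every array has codes.  Take a bijection of `Q` with `Fin (Nat.card Q)`, `q = s + 1`;
`tb` is the number with `q ^ (3 ^ d)` digits, the digit number `∑ e, s_e q ^ e` being the code of
the next state (when all `s_e` are codes of states, else `0`); `vt = ofd 3 q …`,
`et = ofd q 9 …`. -/
def S_V3 : Prop := D1 → ∀ (d s : ℕ) (A : CA d), Nat.card A.Q ≤ s →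
  ∃ (tb et vt : ℕ) (cd : A.Q → ℕ), Coded A (s + 1) tb et vt cd ∧
    tb < (s + 1) ^ ((s + 1) ^ (3 ^ d)) ∧ et < (s + 1) ^ 9 ∧ vt < 3 ^ (s + 1)

/-! ## Parameters -/

/-- P1: the parameters are good when `A` is large.  `b = bOf d A M` satisfies `1 ≤ b`,
`A b ^ d ≤ log₂ M` (the sum counts an initial segment of the `b + 1`'s, since `A ≥ 1`).  Let
`r = log₂ b + 1 ≤ b ≤ b ^ d`, `K = b ^ d / r + 1`, so `K r ≤ 2 b ^ d`; `np n ≤ 2 n + 2`;
`log₂ p ≤ log₂ (4 · 3 ^ d K q ^ r) + 1 ≤ c r` (`K ≤ 2 b ^ d ≤ 2 ^ (1 + d r)`), hence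
`log₂` of every number in `Good` is at most `c' b ^ d ≤ A b ^ d ≤ log₂ M`. -/
def S_P1 : Prop := ∀ (d q : ℕ), 1 ≤ d → 2 ≤ q → ∃ A0 : ℕ, 1 ≤ A0 ∧ ∀ A ≥ A0, ∀ M,
  bOf d A M ≠ 0 → Good M d q (bOf d A M)

/-- P2: the time that can be simulated in a given space.  Take the least `b ≥ 1` with
`b (b ^ d / r) ≥ T` and `M = 2 ^ (A b ^ d)`; then `bOf d A M = b`.  For `b ≥ 2` minimality gives
`(b-1) ((b-1) ^ d / r') < T`, so `b ^ (d+1) ≤ C T (log₂ b + 1)` (as `b ≤ T + 1`: for `b = T + 1`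
the quotient `b ^ d / r ≥ 1`), hence `b ^ d ≤ C (T log (T + 2)) ^ (d / (d + 1))`. -/
def S_P2 : Prop := ∀ (d A : ℕ), 1 ≤ d → 1 ≤ A → ∃ C : ℕ, ∀ T : ℕ, ∃ M : ℕ,
  bOf d A M ≠ 0 ∧ T ≤ bOf d A M * (bOf d A M ^ d / rOf (bOf d A M)) ∧
  (Nat.log 2 M : ℝ) ≤
    C * ((T : ℝ) * Real.log ((T : ℝ) + 2)) ^ ((d : ℝ) / ((d : ℝ) + 1)) + C

/-- P4: generalization of P2 (which is the case `l = 0`).  Let `b₁` be the least `b ≥ 1` with
`A b ^ d ≥ l`, and take the least `b ≥ b₁` with `b (b ^ d / r) ≥ T`.  If `b > b₁`, the bound of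
P2 applies (minimality: `b - 1` fails); if `b = b₁`, then `A b ^ d ≤ 2 ^ d l + A`. -/
def S_P4 : Prop := ∀ (d A : ℕ), 1 ≤ d → 1 ≤ A → ∃ C : ℕ, ∀ T l : ℕ, ∃ M : ℕ,
  l ≤ Nat.log 2 M ∧ bOf d A M ≠ 0 ∧
  T ≤ bOf d A M * (bOf d A M ^ d / rOf (bOf d A M)) ∧
  (Nat.log 2 M : ℝ) ≤
    C * ((T : ℝ) * Real.log ((T : ℝ) + 2)) ^ ((d : ℝ) / ((d : ℝ) + 1)) + C * l + C

/-- P3: for the lower bound.  With `M = 2 ^ (n ^ j)`: `b = bOf d A M` is the largest number with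
`A b ^ d ≤ n ^ j`, so `b + 1 > (n ^ j / A) ^ (1 / d)`, `b ≥ c n ^ (j / d)`,
`b (b ^ d / r) ≥ c' b ^ (d + 1) / log n`. -/
def S_P3 : Prop := ∀ (d A j : ℕ), 1 ≤ d → 1 ≤ A → 1 ≤ j → ∃ c : ℝ, 0 < c ∧ ∃ n0 : ℕ,
  ∀ n ≥ n0, bOf d A (2 ^ (n ^ j)) ≠ 0 ∧
    c * (n : ℝ) ^ ((j : ℝ) * (1 + 1 / (d : ℝ))) / Real.log n ≤
      ((bOf d A (2 ^ (n ^ j)) * (bOf d A (2 ^ (n ^ j)) ^ d / rOf (bOf d A (2 ^ (n ^ j)))) : ℕ) : ℝ)

/-- C3: the verdict number.  `simN` is the code of the state of cell `0` at time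
`b (b ^ d / r)`, `Coded.out`. -/
def S_C3 : Prop := S_C2 → D1 → S_G4 → S_G5 → S_C1 → ∀ (m Y M d q : ℕ) (A : CA d)
  (tb et vt a : ℕ) (cd : A.Q → ℕ) (x : List Bool), bOf d a M ≠ 0 →
  Good M d q (bOf d a M) → 1 ≤ d → Coded A q tb et vt cd →
  verN x m Y M d q tb et vt a =
    vcode (A.out (A.conf (x, wd m Y)
      (bOf d a M * (bOf d a M ^ d / rOf (bOf d a M))) (fun _ => 0)))

/-! ## The game -/

/-- GM: the loop over the leaves evaluates the game.  Let `V k u` (`u < 2 ^ (m - k)`) be the value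
of the subtree of height `k` with the prefix `u`: `V 0 u = lf u`, `V (k+1) u` is the maximum
(`m - (k+1)` even) or minimum of `V k (2 u)`, `V k (2 u + 1)`.  Invariant after the leaves
`0, …, n - 1`: for every `k ≤ m` with `n / 2 ^ k` odd, `dg 2 k S = V k (n / 2 ^ k - 1)`.  Step:
`vl 2 m (n + 1)` is the number of trailing ones of `n` (at most `m`), and `gcomb` climbs
`V i (n / 2 ^ i)`, `i = 0, …`.  At the end `n = 2 ^ m`, `k = m`: `dg 2 m S = V m 0`.  And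
`V k u = 1 ↔ Game (m - k even) k (fun y => P (prefix u ++ y))`, `wd m Y = prefix ++ rest`. -/
def S_GM : Prop := ∀ (M m : ℕ) (lf : ℕ → ℕ) (P : List Bool → Prop), 2 ^ (m + 1) ≤ M →
  (∀ Y < 2 ^ m, lf Y ≤ 1) → (∀ Y < 2 ^ m, lf Y = 1 ↔ P (wd m Y)) →
  (gameN M m lf = 1 ↔ Game true m P)

/-- GW: the words of length `m` are the words `wd m Y`, `Y < 2 ^ m`. -/
def S_GW : Prop := ∀ (m : ℕ) (y : List Bool), y.length = m ↔ ∃ Y < 2 ^ m, y = wd m Y

/-- MJ: the majority.  `Z ↦ wd m Z` is a bijection of `{Z < 2 ^ m}` with the words of length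
`m` (GW, and `wd m` is injective on numbers below `2 ^ m`), so the sum is the number of words
with `P`; `pc M 2 m = 2 ^ m`. -/
def S_MJ : Prop := ∀ (M m : ℕ) (lf : ℕ → ℕ) (P : List Bool → Prop), 2 ^ m ≤ M →
  (∀ Z < 2 ^ m, lf Z ≤ 1) → (∀ Z < 2 ^ m, lf Z = 1 ↔ P (wd m Z)) →
  (mj M m lf = 1 ↔ Maj m P)

/-- WA: concatenation of the guess words. -/
def S_WA : Prop := ∀ (m Y Z : ℕ), Z < 2 ^ m → wd (2 * m) (Y * 2 ^ m + Z) = wd m Y ++ wd m Z

/-- MC: the majority of a proposition which does not depend on the coins. -/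
def S_MC : Prop := ∀ (m : ℕ) (P : Prop), Maj m (fun _ => P) ↔ P

/-- GC: the game only depends on the words of length `m`. -/
def S_GC : Prop := ∀ (e : Bool) (m : ℕ) (P R : List Bool → Prop),
  (∀ y : List Bool, y.length = m → (P y ↔ R y)) → (Game e m P ↔ Game e m R)

/-! ## The search functions -/

/-- The unary field number `k` of the word, read up to position `n`: the number of `i < n` with
letter `1` and exactly `k` letters `0` before. -/
def fld (x : List Bool) (n k : ℕ) : ℕ :=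
  ∑ i ∈ range n, if inpv x i = 1 ∧ (∑ i' ∈ range i, if inpv x i' = 0 then 1 else 0) = k
    then 1 else 0

/-- R1. -/
def S_R1 : Prop := ∀ p q n l : ℕ, 1 ≤ q → (rp p q n ≤ l ↔ n ^ p ≤ l ^ q)

/-- P5: P3 with `j = 1` at the number `rp p q n` instead of `n`. -/
def S_P5 : Prop := ∀ (d A p q : ℕ), 1 ≤ d → 1 ≤ A → 1 ≤ p → 1 ≤ q → ∃ c : ℝ, 0 < c ∧
  ∃ n0 : ℕ, ∀ n ≥ n0, bOf d A (2 ^ rp p q n) ≠ 0 ∧
    c * (n : ℝ) ^ ((p : ℝ) / (q : ℝ) * (1 + 1 / (d : ℝ))) / Real.log n ≤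
      ((bOf d A (2 ^ rp p q n) * (bOf d A (2 ^ rp p q n) ^ d / rOf (bOf d A (2 ^ rp p q n))) : ℕ) : ℝ)

/-- The length of the word, cut to at most `(log₂ M) ^ q + 1`. -/
def len (q : ℕ) (x : List Bool) (M : ℕ) : ℕ :=
  ∑ i ∈ range (Nat.log 2 M ^ q + 1), if inpv x i = 2 then 0 else 1

/-- `⌈|x| ^ (p / q)⌉`, cut to at most `log₂ M + 1`. -/
def glen (p q : ℕ) (x : List Bool) (M : ℕ) : ℕ :=
  ∑ s ∈ range (Nat.log 2 M + 1), if s ^ q < len q x M ^ p then 1 else 0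

/-- The search function for the lower bound: `0` as long as `⌈|x| ^ (p / q)⌉ > log₂ M`, then the
opposite of the answer of the computation with `⌈|x| ^ (p / q)⌉` alternating guesses and as many
coins and the array coded by the first six fields of `x`. -/
noncomputable def FB (p q : ℕ) (x : List Bool) (M : ℕ) : ℕ :=
  if glen p q x M ≤ Nat.log 2 M then
    if gameN (2 * M) (glen p q x M) (fun Y => mj M (glen p q x M) (fun Z =>
      if verN x (2 * glen p q x M) (Y * pc M 2 (glen p q x M) + Z) M (fld x (Nat.log 2 M) 0)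
        (fld x (Nat.log 2 M) 1) (fld x (Nat.log 2 M) 2) (fld x (Nat.log 2 M) 3)
        (fld x (Nat.log 2 M) 4) (fld x (Nat.log 2 M) 5) = 1 then 1 else 0)) = 1 then 2 else 1
  else 0

/-- The search function for the upper bound with `⌈|x| ^ (p / q)⌉` alternating guesses and as
many coins. -/
noncomputable def FG (p q d q' tb et vt a : ℕ) (x : List Bool) (M : ℕ) : ℕ :=
  if (M ≠ 0 ∧ glen p q x M ≤ Nat.log 2 M) ∧
      ∀ Y < pc M 2 (glen p q x M), ∀ Z < pc M 2 (glen p q x M),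
        verN x (2 * glen p q x M) (Y * pc M 2 (glen p q x M) + Z) M d q' tb et vt a ≠ 0 then
    if gameN (2 * M) (glen p q x M) (fun Y => mj M (glen p q x M) (fun Z =>
      if verN x (2 * glen p q x M) (Y * pc M 2 (glen p q x M) + Z) M d q' tb et vt a = 1
        then 1 else 0)) = 1 then 1 else 2
  else 0

/-- B1: the search functions are in the class (from the rules, N5 and N6; `p, q` and the other
parameters of `FG` are constants). -/
def S_B1 : Prop := LSRules → (∀ {ι Γ : Type} (co : ι → Γ → ℕ)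
  (m Y M d q tb et vt A : List Bool → Γ → ℕ), LSC co m → LSC co Y →
    LSC co M → LSC co d → LSC co q → LSC co tb → LSC co et → LSC co vt → LSC co A →
    LSC co (fun x γ => verN x (m x γ) (Y x γ) (M x γ) (d x γ) (q x γ) (tb x γ) (et x γ)
      (vt x γ) (A x γ))) → S_N6 →
  (∀ p q, LSC (fun (_ : Unit) (M : ℕ) => M) (fun x M => FB p q x M)) ∧
  (∀ p q d q' tb et vt a,
    LSC (fun (_ : Unit) (M : ℕ) => M) (fun x M => FG p q d q' tb et vt a x M))

/-- B2: the words with given fields: those which begin with `1 ^ a_0 0 1 ^ a_1 0 … 1 ^ a_7 0`. -/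
def S_B2 : Prop := ∀ a : ℕ → ℕ, ∃ w : List Bool, w.length = ∑ k ∈ range 8, (a k + 1) ∧
  ∀ (z : List Bool) (n' : ℕ), w.length ≤ n' → ∀ k < 8, fld (w ++ z) n' k = a k

/-- B4: `glen`.  The sum in `len` is `min |x| ((log₂ M) ^ q + 1)`, the sum in `glen` is
`min r (log₂ M + 1)` where `r` is the least number with `len ^ p ≤ r ^ q`. -/
def S_B4 : Prop := ∀ (p q : ℕ) (x : List Bool) (M : ℕ), 1 ≤ q →
  (glen p q x M ≤ Nat.log 2 M ↔ rp p q x.length ≤ Nat.log 2 M) ∧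
  (glen p q x M ≤ Nat.log 2 M → glen p q x M = rp p q x.length)

/-- B3: for a word of length `n ≥ 1` the least `M` with `FB p q x M ≠ 0` is `2 ^ ⌈n ^ (p / q)⌉`
(from B4). -/
def S_B3 : Prop := ∀ (p q : ℕ) (x : List Bool), 1 ≤ p → 1 ≤ q → 1 ≤ x.length →
  FB p q x (2 ^ rp p q x.length) ≠ 0 ∧ ∀ M < 2 ^ rp p q x.length, FB p q x M = 0

end Pool.Agent.Work.MP_71c844_lc.Arr
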