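/-
Block ARR (problem MP_71c844_lc), item B1: the search functions are in the class.
Authors: helper50 (version 1), helper64 (version 2).
-/
import Pool.Agent.Work.MP_71c844_lc.Arr.StmtsG

namespace Pool.Agent.Work.MP_71c844_lc.Arr

open Finset

namespace B1

theorem fld_mem (h : LSRules) {ι Γ : Type} {co : ι → Γ → ℕ} {n k : List Bool → Γ → ℕ}
    (hn : LSC co n) (hk : LSC co k) : LSC co (fun x γ => fld x (n x γ) (k x γ)) := by
  unfold fld
  refine h.sum (F := fun x γ i => if inpv x i = 1 ∧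
    (∑ i' ∈ range i, if inpv x i' = 0 then 1 else 0) = k x γ then 1 else 0) hn ?_
  refine h.ite (P := fun x (γ : Γ × ℕ) => inpv x γ.2 = 1 ∧
    (∑ i' ∈ range γ.2, if inpv x i' = 0 then 1 else 0) = k x γ.1) (h.and ?_ ?_)
    (LSC.const 1) (LSC.const 0)
  · exact h.eq (h.inp LSC.last) (LSC.const 1)
  · refine h.eq (h.sum (F := fun x _ i' => if inpv x i' = 0 then 1 else 0) LSC.last ?_) hk.weak
    exact h.ite (P := fun x (γ : (Γ × ℕ) × ℕ) => inpv x γ.2 = 0) (h.eq (h.inp LSC.last) (LSC.const 0))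
      (LSC.const 1) (LSC.const 0)

theorem len_mem (h : LSRules) {ι Γ : Type} {co : ι → Γ → ℕ} {n : List Bool → Γ → ℕ}
    (hn : LSC co n) :
    LSC co (fun x γ => ∑ i ∈ range (n x γ), if inpv x i = 2 then 0 else 1) := by
  refine h.sum (F := fun x _ i => if inpv x i = 2 then 0 else 1) hn ?_
  exact h.ite (P := fun x (γ : Γ × ℕ) => inpv x γ.2 = 2) (h.eq (h.inp LSC.last) (LSC.const 2))
    (LSC.const 0) (LSC.const 1)

/-- the arguments: the search number -/
abbrev co0 : Unit → ℕ → ℕ := fun _ M => M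

theorem cpow_mem (h : LSRules) {ι Γ : Type} {co : ι → Γ → ℕ} {f : List Bool → Γ → ℕ}
    (hf : LSC co f) (q : ℕ) : LSC co (fun x γ => f x γ ^ q) := by
  induction q with
  | zero => exact (LSC.const 1).congr (fun x γ => (pow_zero _).symm)
  | succ q ih => exact (h.mul ih hf).congr (fun x γ => (pow_succ _ _).symm)

theorem glen_mem (h : LSRules) (p q : ℕ) : LSC co0 (fun x M => glen p q x M) := by
  have hM : LSC co0 (fun _ M => M) := LSC.var (co := co0) ()
  have hl : LSC co0 (fun _ M => Nat.log 2 M) := h.log2 hM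
  have hlen : LSC co0 (fun x M => len q x M) := by
    unfold len
    exact len_mem h (h.add (cpow_mem h hl q) (LSC.const 1))
  unfold glen
  refine h.sum (n := fun _ M => Nat.log 2 M + 1)
    (F := fun x M s => if s ^ q < len q x M ^ p then 1 else 0) (h.add hl (LSC.const 1)) ?_
  exact h.ite (P := fun x (γ : ℕ × ℕ) => γ.2 ^ q < len q x γ.1 ^ p)
    (h.lt (cpow_mem h LSC.last q) (cpow_mem h hlen.weak p)) (LSC.const 1) (LSC.const 0)

/-- The verdict bit of a leaf. -/
noncomputable def lfv (p q : ℕ) (d q' tb et vt a : List Bool → ℕ → ℕ) (x : List Bool)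
    (M Y Z : ℕ) : ℕ :=
  if verN x (2 * glen p q x M) (Y * pc M 2 (glen p q x M) + Z) M
    (d x M) (q' x M) (tb x M) (et x M) (vt x M) (a x M) = 1 then 1 else 0

/-- The majority of the verdict bits. -/
noncomputable def mjv (p q : ℕ) (d q' tb et vt a : List Bool → ℕ → ℕ) (x : List Bool)
    (M Y : ℕ) : ℕ :=
  mj M (glen p q x M) (fun Z => lfv p q d q' tb et vt a x M Y Z)

theorem sum2 (h : LSRules) (m : List Bool → ℕ × ℕ → ℕ) (hm : LSC (ext co0) m)
    (f : List Bool → ℕ → ℕ → ℕ → ℕ) (hf : LSC (ext (ext co0)) (fun x γ => f x γ.1.1 γ.1.2 γ.2)) :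
    LSC (ext co0) (fun x γ => ∑ Z ∈ range (m x γ), f x γ.1 γ.2 Z) :=
  h.sum (n := m) (F := fun x γ Z => f x γ.1 γ.2 Z) hm hf

theorem maj2 (h : LSRules) (m : List Bool → ℕ × ℕ → ℕ) (hm : LSC (ext co0) m)
    (f : List Bool → ℕ → ℕ → ℕ → ℕ) (hf : LSC (ext (ext co0)) (fun x γ => f x γ.1.1 γ.1.2 γ.2)) :
    LSC (ext co0) (fun x γ => mj γ.1 (m x γ) (fun Z => f x γ.1 γ.2 Z)) := by
  have hM : LSC co0 (fun _ M => M) := LSC.var (co := co0) ()
  have hpc : LSC (ext co0) (fun x γ => pc γ.1 2 (m x γ)) := h.pc hM.weak (LSC.const 2) hm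
  have h1 := sum2 h _ hpc f hf
  exact h.ite (h.lt hpc (h.mul (LSC.const 2) h1)) (LSC.const 1) (LSC.const 0)

section

variable (h : LSRules) (hv : ∀ {ι Γ : Type} (co : ι → Γ → ℕ)
  (m Y M d q tb et vt A : List Bool → Γ → ℕ), LSC co m → LSC co Y →
    LSC co M → LSC co d → LSC co q → LSC co tb → LSC co et → LSC co vt → LSC co A →
    LSC co (fun x γ => verN x (m x γ) (Y x γ) (M x γ) (d x γ) (q x γ) (tb x γ) (et x γ)
      (vt x γ) (A x γ))) (h6 : S_N6)
  {d q' tb et vt a : List Bool → ℕ → ℕ} (hd : LSC co0 d) (hq : LSC co0 q') (htb : LSC co0 tb)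
  (het : LSC co0 et) (hvt : LSC co0 vt) (ha : LSC co0 a)

include h hv hd hq htb het hvt ha

theorem leaf_mem (p q : ℕ) : LSC (ext (ext co0)) (fun x γ =>
    verN x (2 * glen p q x γ.1.1) (γ.1.2 * pc γ.1.1 2 (glen p q x γ.1.1) + γ.2) γ.1.1
      (d x γ.1.1) (q' x γ.1.1) (tb x γ.1.1) (et x γ.1.1) (vt x γ.1.1) (a x γ.1.1)) := by
  have hM : LSC co0 (fun _ M => M) := LSC.var (co := co0) ()
  have hg := glen_mem h p q
  exact hv (ext (ext co0)) (fun x γ => 2 * glen p q x γ.1.1)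
    (fun x γ => γ.1.2 * pc γ.1.1 2 (glen p q x γ.1.1) + γ.2) (fun _ γ => γ.1.1)
    (fun x γ => d x γ.1.1) (fun x γ => q' x γ.1.1) (fun x γ => tb x γ.1.1)
    (fun x γ => et x γ.1.1) (fun x γ => vt x γ.1.1) (fun x γ => a x γ.1.1)
    (h.mul (LSC.const 2) hg.weak.weak)
    (h.add (h.mul LSC.last.weak (h.pc hM.weak.weak (LSC.const 2) hg.weak.weak)) LSC.last)
    hM.weak.weak hd.weak.weak hq.weak.weak htb.weak.weak het.weak.weak hvt.weak.weak
    ha.weak.weak

theorem lfv_mem (p q : ℕ) : LSC (ext (ext co0)) (fun x γ =>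
    lfv p q d q' tb et vt a x γ.1.1 γ.1.2 γ.2) := by
  have h1 := h.ite (P := fun x (γ : (ℕ × ℕ) × ℕ) =>
    verN x (2 * glen p q x γ.1.1) (γ.1.2 * pc γ.1.1 2 (glen p q x γ.1.1) + γ.2) γ.1.1
      (d x γ.1.1) (q' x γ.1.1) (tb x γ.1.1) (et x γ.1.1) (vt x γ.1.1) (a x γ.1.1) = 1)
    (h.eq (leaf_mem h hv hd hq htb het hvt ha p q) (LSC.const 1)) (LSC.const 1) (LSC.const 0)
  exact h1.congr (fun x γ => rfl)

theorem mjv_mem (p q : ℕ) : LSC (ext co0) (fun x γ =>
    mjv p q d q' tb et vt a x γ.1 γ.2) := by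
  have h1 := lfv_mem h hv hd hq htb het hvt ha p q
  have hg : LSC (ext co0) (fun x γ => glen p q x γ.1) := (glen_mem h p q).weak
  exact maj2 h _ hg (lfv p q d q' tb et vt a) h1

include h6

theorem gm_mem (p q : ℕ) : LSC co0 (fun x M => gameN (2 * M) (glen p q x M) (fun Y =>
    mjv p q d q' tb et vt a x M Y)) := by
  have hM : LSC co0 (fun _ M => M) := LSC.var (co := co0) ()
  exact h6 h co0 (fun _ M => 2 * M) (fun x M => glen p q x M)
    (fun x M Y => mjv p q d q' tb et vt a x M Y)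
    (h.mul (LSC.const 2) hM) (glen_mem h p q) (mjv_mem h hv hd hq htb het hvt ha p q)

end

end B1

open B1 in
theorem prf_B1 : S_B1 := by
  intro h hv h6
  have hM : LSC co0 (fun _ M => M) := LSC.var (co := co0) ()
  have hl : LSC co0 (fun _ M => Nat.log 2 M) := h.log2 hM
  have hf : ∀ k : ℕ, LSC co0 (fun x M => fld x (Nat.log 2 M) k) :=
    fun k => fld_mem h hl (LSC.const k)
  constructor
  · intro p q
    have hg := glen_mem h p q
    have hgm := gm_mem h hv h6 (hf 0) (hf 1) (hf 2) (hf 3) (hf 4) (hf 5) p q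
    have h1 := h.ite (P := fun x M => gameN (2 * M) (glen p q x M) (fun Y =>
      mjv p q (fun x M => fld x (Nat.log 2 M) 0) (fun x M => fld x (Nat.log 2 M) 1)
        (fun x M => fld x (Nat.log 2 M) 2) (fun x M => fld x (Nat.log 2 M) 3)
        (fun x M => fld x (Nat.log 2 M) 4) (fun x M => fld x (Nat.log 2 M) 5) x M Y) = 1)
      (h.eq hgm (LSC.const 1)) (LSC.const 2) (LSC.const 1)
    have h2 := h.ite (P := fun x M => glen p q x M ≤ Nat.log 2 M) (h.le hg hl) h1 (LSC.const 0)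
    exact h2.congr (fun x M => rfl)
  · intro p q d q' tb et vt a
    have hg := glen_mem h p q
    have hgm := gm_mem h hv h6 (LSC.const d) (LSC.const q') (LSC.const tb) (LSC.const et)
      (LSC.const vt) (LSC.const a) p q
    have hlf := leaf_mem h hv (LSC.const d) (LSC.const q') (LSC.const tb) (LSC.const et)
      (LSC.const vt) (LSC.const a) p q
    have h3 : LSP co0 (fun x M => ∀ Y < pc M 2 (glen p q x M), ∀ Z < pc M 2 (glen p q x M),
        verN x (2 * glen p q x M) (Y * pc M 2 (glen p q x M) + Z) M d q' tb et vt a ≠ 0) := by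
      refine h.ball (n := fun x M => pc M 2 (glen p q x M))
        (P := fun x M Y => ∀ Z < pc M 2 (glen p q x M),
          verN x (2 * glen p q x M) (Y * pc M 2 (glen p q x M) + Z) M d q' tb et vt a ≠ 0)
        (h.pc hM (LSC.const 2) hg) ?_
      refine h.ball (n := fun x (γ : ℕ × ℕ) => pc γ.1 2 (glen p q x γ.1))
        (P := fun x γ Z => verN x (2 * glen p q x γ.1) (γ.2 * pc γ.1 2 (glen p q x γ.1) + Z)
          γ.1 d q' tb et vt a ≠ 0)
        (h.pc hM.weak (LSC.const 2) hg.weak) ?_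
      exact h.not (P := fun x (γ : (ℕ × ℕ) × ℕ) => verN x (2 * glen p q x γ.1.1)
          (γ.1.2 * pc γ.1.1 2 (glen p q x γ.1.1) + γ.2) γ.1.1 d q' tb et vt a = 0)
        (h.eq hlf (LSC.const 0))
    have h1 := h.ite (P := fun x M => gameN (2 * M) (glen p q x M) (fun Y =>
      mjv p q (fun _ _ => d) (fun _ _ => q') (fun _ _ => tb) (fun _ _ => et) (fun _ _ => vt)
        (fun _ _ => a) x M Y) = 1) (h.eq hgm (LSC.const 1)) (LSC.const 1) (LSC.const 2)
    have h4 := h.and (h.and (h.not (P := fun _ M => M = 0) (h.eq hM (LSC.const 0)))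
      (h.le hg hl)) h3
    have h2 := h.ite h4 h1 (LSC.const 0)
    exact h2.congr (fun x M => rfl)

end Pool.Agent.Work.MP_71c844_lc.Arr
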