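import Pool.Agent.Work.MP_71c844_lc.Arr.StmtsG

/-!
Block ARR of MP_71c844_lc, item B2: the words with given fields.
-/

set_option autoImplicit false

namespace Pool.Agent.Work.MP_71c844_lc.Arr

open Finset

namespace B2

theorem inpv_succ (b : Bool) (x : List Bool) (i : ℕ) : inpv (b :: x) (i + 1) = inpv x i := by
  unfold inpv
  rw [List.getElem?_cons_succ]

theorem inpv_false (x : List Bool) : inpv (false :: x) 0 = 0 := rfl

theorem inpv_true (x : List Bool) : inpv (true :: x) 0 = 1 := rfl

/-- the number of letters `0` before `i` -/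
theorem zeros_succ (b : Bool) (x : List Bool) (i : ℕ) :
    (∑ i' ∈ range (i + 1), if inpv (b :: x) i' = 0 then 1 else 0) =
      (∑ i' ∈ range i, if inpv x i' = 0 then 1 else 0) + if b = false then 1 else 0 := by
  rw [Finset.sum_range_succ']
  congr 1
  cases b <;> rfl

theorem fld_true (x : List Bool) (n k : ℕ) :
    fld (true :: x) (n + 1) k = fld x n k + if k = 0 then 1 else 0 := by
  unfold fld
  rw [Finset.sum_range_succ']
  congr 1
  · refine Finset.sum_congr rfl fun i _ => ?_
    rw [inpv_succ, zeros_succ]
    simp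
  · rw [inpv_true, Finset.sum_range_zero]
    by_cases hk : k = 0
    · simp [hk]
    · rw [if_neg hk, if_neg]
      rintro ⟨_, h⟩
      exact hk h.symm

theorem fld_false_zero (x : List Bool) (n : ℕ) : fld (false :: x) (n + 1) 0 = 0 := by
  unfold fld
  rw [Finset.sum_range_succ', inpv_false]
  simp only [zero_ne_one, false_and, if_false, add_zero]
  refine Finset.sum_eq_zero fun i _ => ?_
  rw [if_neg]
  rw [zeros_succ]
  simp

theorem fld_false_succ (x : List Bool) (n k : ℕ) :
    fld (false :: x) (n + 1) (k + 1) = fld x n k := by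
  unfold fld
  rw [Finset.sum_range_succ', inpv_false]
  simp only [zero_ne_one, false_and, if_false, add_zero]
  refine Finset.sum_congr rfl fun i _ => ?_
  rw [inpv_succ, zeros_succ]
  simp

theorem fld_rep (a : ℕ) (y : List Bool) (n k : ℕ) :
    fld (List.replicate a true ++ y) (a + n) k = fld y n k + if k = 0 then a else 0 := by
  induction a with
  | zero => simp
  | succ a ih =>
    rw [List.replicate_succ, List.cons_append, show a + 1 + n = a + n + 1 by ring, fld_true, ih]
    by_cases hk : k = 0
    · simp [hk]
      ring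
    · simp [hk]

/-- `1 ^ a_0 0 1 ^ a_1 0 … 1 ^ a_(K-1) 0 z` -/
def fw : ℕ → (ℕ → ℕ) → List Bool → List Bool
  | 0, _, z => z
  | K + 1, a, z => List.replicate (a 0) true ++ false :: fw K (fun i => a (i + 1)) z

theorem wd_length (K : ℕ) : ∀ (a : ℕ → ℕ) (z : List Bool),
    (fw K a z).length = ∑ i ∈ range K, (a i + 1) + z.length := by
  induction K with
  | zero => simp [fw]
  | succ K ih =>
    intro a z
    rw [fw, List.length_append, List.length_replicate, List.length_cons, ih,
      Finset.sum_range_succ' _ K]
    ring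

theorem wd_fld (K : ℕ) : ∀ (a : ℕ → ℕ) (z : List Bool) (n k : ℕ), k < K →
    fld (fw K a z) (∑ i ∈ range K, (a i + 1) + n) k = a k := by
  induction K with
  | zero => intro a z n k hk; omega
  | succ K ih =>
    intro a z n k hk
    have h1 : ∑ i ∈ range (K + 1), (a i + 1) + n =
        a 0 + ((∑ i ∈ range K, (a (i + 1) + 1) + n) + 1) := by
      rw [Finset.sum_range_succ' _ K]
      ring
    rw [fw, h1, fld_rep]
    cases k with
    | zero => rw [fld_false_zero, if_pos rfl, zero_add]
    | succ k =>
      rw [fld_false_succ, if_neg (Nat.succ_ne_zero k), add_zero]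
      exact ih (fun i => a (i + 1)) z n k (by omega)

theorem fw_append (K : ℕ) : ∀ (a : ℕ → ℕ) (z : List Bool), fw K a z = fw K a [] ++ z := by
  induction K with
  | zero => intro a z; rfl
  | succ K ih =>
    intro a z
    rw [fw, ih, fw]
    simp

end B2

open B2 in
theorem prf_B2 : S_B2 := by
  intro a
  refine ⟨fw 8 a [], by rw [wd_length, List.length_nil, add_zero], fun z n' hn' k hk => ?_⟩
  rw [wd_length, List.length_nil, add_zero] at hn'
  rw [← fw_append]
  obtain ⟨m, hm⟩ := Nat.exists_eq_add_of_le hn'
  rw [hm]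
  exact wd_fld 8 a _ m k hk

end Pool.Agent.Work.MP_71c844_lc.Arr
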