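/-
Block ARR (problem MP_71c844_lc): items B4 and B3.  Author: helper46 (B3 after helper32).
-/
import Pool.Agent.Work.MP_71c844_lc.Arr.StmtsG

namespace Pool.Agent.Work.MP_71c844_lc.Arr

open Finset

namespace B4

theorem inpv_eq_two (x : List Bool) (i : ℕ) : inpv x i = 2 ↔ x.length ≤ i := by
  unfold inpv
  rcases h : x[i]? with _ | b
  · simp only [true_iff]
    exact List.getElem?_eq_none_iff.1 h
  · have h1 : i < x.length := by
      by_contra h2
      rw [List.getElem?_eq_none_iff.2 (not_lt.1 h2)] at h
      exact absurd h (by simp)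
    cases b <;> simp <;> omega

/-- The number of letters before position `m`. -/
theorem sum_eq (x : List Bool) (m : ℕ) :
    (∑ i ∈ range m, if inpv x i = 2 then 0 else 1) = min x.length m := by
  induction m with
  | zero => simp
  | succ m ih =>
    rw [sum_range_succ, ih]
    by_cases h : x.length ≤ m
    · rw [if_pos ((inpv_eq_two x m).2 h)]; omega
    · rw [if_neg (fun h1 => h ((inpv_eq_two x m).1 h1))]; omega

theorem len_eq (q : ℕ) (x : List Bool) (M : ℕ) :
    len q x M = min x.length (Nat.log 2 M ^ q + 1) :=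
  sum_eq x _

/-- The number of `s < n` with `s ^ q < a`, when `r` is the least number with `a ≤ r ^ q`. -/
theorem count (q a r : ℕ) (hr : ∀ l, r ≤ l ↔ a ≤ l ^ q) (n : ℕ) :
    (∑ s ∈ range n, if s ^ q < a then 1 else 0) = min r n := by
  induction n with
  | zero => simp
  | succ n ih =>
    rw [sum_range_succ, ih]
    by_cases h : n ^ q < a
    · rw [if_pos h]
      have h1 : ¬ r ≤ n := fun h2 => absurd ((hr n).1 h2) (by omega)
      omega
    · rw [if_neg h]
      have h1 : r ≤ n := (hr n).2 (by omega)
      omega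

theorem r1 : S_R1 := by
  intro p q n l hq
  unfold rp
  rw [Nat.ceil_le]
  have hq0 : (q : ℝ) ≠ 0 := by
    have : (1 : ℝ) ≤ q := by exact_mod_cast hq
    linarith
  have hn : (0 : ℝ) ≤ (n : ℝ) := Nat.cast_nonneg _
  have h1 : ((n : ℝ) ^ ((p : ℝ) / (q : ℝ))) ^ q = (n : ℝ) ^ p := by
    rw [← Real.rpow_natCast, ← Real.rpow_mul hn, div_mul_cancel₀ _ hq0, Real.rpow_natCast]
  have h2 : (0 : ℝ) ≤ (n : ℝ) ^ ((p : ℝ) / (q : ℝ)) := Real.rpow_nonneg hn _
  rw [← pow_le_pow_iff_left₀ h2 (Nat.cast_nonneg l) (by omega : q ≠ 0), h1]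
  exact_mod_cast Iff.rfl

end B4

theorem prf_R1 : S_R1 := B4.r1

theorem prf_B4 : S_B4 := by
  intro p q x M hq
  generalize hL : Nat.log 2 M = L
  have hlen : len q x M = min x.length (L ^ q + 1) := by
    rw [B4.len_eq, hL]
  have hR := fun l => prf_R1 p q x.length l hq
  have hg : glen p q x M = ∑ s ∈ range (L + 1), if s ^ q < len q x M ^ p then 1 else 0 := by
    unfold glen
    rw [hL]
  by_cases h : x.length ≤ L ^ q + 1
  · have h1 : len q x M = x.length := by rw [hlen]; exact min_eq_left h
    rw [hg, h1, B4.count q (x.length ^ p) (rp p q x.length) hR (L + 1)]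
    omega
  · have h1 : len q x M = L ^ q + 1 := by rw [hlen]; omega
    rcases Nat.eq_zero_or_pos p with hp | hp
    · subst hp
      simp only [pow_zero] at hR hg
      rw [hg, B4.count q 1 (rp 0 q x.length) hR (L + 1)]
      omega
    · have h2 : ∀ s ∈ range (L + 1), (if s ^ q < len q x M ^ p then 1 else 0) = 1 := by
        intro s hs
        rw [mem_range] at hs
        rw [if_pos]
        have h3 : s ^ q ≤ L ^ q := Nat.pow_le_pow_left (by omega) q
        have h4 : L ^ q + 1 ≤ (L ^ q + 1) ^ p := Nat.le_self_pow (by omega) _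
        rw [h1]
        omega
      rw [hg, Finset.sum_congr rfl h2]
      have h5 : ¬ rp p q x.length ≤ L := by
        intro h6
        have h7 := (hR L).1 h6
        have h8 : x.length ≤ x.length ^ p := Nat.le_self_pow (by omega) _
        omega
      simp only [sum_const, card_range, smul_eq_mul, mul_one]
      omega

theorem prf_B3 : S_B3 := by
  intro p q x hp hq hx
  have hr : 1 ≤ rp p q x.length := by
    by_contra h
    have h1 : rp p q x.length ≤ 0 := by omega
    have h2 := (prf_R1 p q x.length 0 hq).1 h1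
    rw [zero_pow (by omega)] at h2
    have h3 : 1 ≤ x.length ^ p := Nat.one_le_pow _ _ hx
    omega
  constructor
  · unfold FB
    have h1 : glen p q x (2 ^ rp p q x.length) ≤ Nat.log 2 (2 ^ rp p q x.length) :=
      (prf_B4 p q x _ hq).1.2 (by rw [Nat.log_pow (by norm_num)])
    rw [if_pos h1]
    split_ifs <;> norm_num
  · intro M hM
    unfold FB
    have h1 : ¬ glen p q x M ≤ Nat.log 2 M := by
      intro h
      have h1 := (prf_B4 p q x M hq).1.1 h
      have h3 : Nat.log 2 M < rp p q x.length := Nat.log_lt_of_lt_pow' (by omega) hM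
      omega
    rw [if_neg h1]

end Pool.Agent.Work.MP_71c844_lc.Arr
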