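import Pool.Agent.Work.MP_71c844_lc.Arr.Lag
import Pool.Agent.Work.MP_71c844_lc.Arr.Num

/-!
# Correctness of the number-coded catalytic loop
-/

set_option autoImplicit false

namespace Pool.Agent.Work.MP_71c844_lc.Arr

open Finset

/-! ### Digits -/

theorem dg_lt {a : ℕ} (ha : 0 < a) (k x : ℕ) : dg a k x < a := Nat.mod_lt _ ha

theorem dg_zero (a x : ℕ) : dg a 0 x = x % a := by
  unfold dg
  rw [pow_zero, Nat.div_one]

theorem dg_succ (a k x : ℕ) : dg a (k + 1) x = dg a k (x / a) := by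
  unfold dg
  rw [pow_succ', ← Nat.div_div_eq_div_mul]

theorem dg_of_lt {a n k x : ℕ} (ha : 0 < a) (hx : x < a ^ n) (hk : n ≤ k) : dg a k x = 0 := by
  unfold dg
  have h1 : x < a ^ k := lt_of_lt_of_le hx (Nat.pow_le_pow_right ha hk)
  rw [Nat.div_eq_of_lt h1, Nat.zero_mod]

theorem ofd_succ (a n : ℕ) (f : ℕ → ℕ) :
    ofd a (n + 1) f = f 0 + a * ofd a n (fun i => f (i + 1)) := by
  unfold ofd
  rw [Finset.sum_range_succ', pow_zero, mul_one, add_comm, Finset.mul_sum]
  congr 1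
  apply Finset.sum_congr rfl
  intro i _
  rw [pow_succ]
  ring

theorem ofd_congr {a n : ℕ} {f g : ℕ → ℕ} (h : ∀ i < n, f i = g i) : ofd a n f = ofd a n g := by
  unfold ofd
  apply Finset.sum_congr rfl
  intro i hi
  rw [h i (mem_range.1 hi)]

theorem ofd_lt {a : ℕ} : ∀ {n : ℕ} {f : ℕ → ℕ}, (∀ i < n, f i < a) → ofd a n f < a ^ n
  | 0, f, _ => by simp [ofd]
  | n + 1, f, h => by
    rw [ofd_succ, pow_succ']
    have h1 := ofd_lt (a := a) (n := n) (f := fun i => f (i + 1)) (fun i hi => h (i + 1) (by omega))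
    have h2 := h 0 (by omega)
    calc f 0 + a * ofd a n (fun i => f (i + 1)) < a + a * ofd a n (fun i => f (i + 1)) := by omega
      _ = a * (ofd a n (fun i => f (i + 1)) + 1) := by ring
      _ ≤ a * a ^ n := Nat.mul_le_mul_left _ h1

theorem dg_ofd {a : ℕ} : ∀ {n : ℕ} {f : ℕ → ℕ} {k : ℕ}, (∀ i < n, f i < a) → k < n →
    dg a k (ofd a n f) = f k
  | 0, _, _, _, hk => by omega
  | n + 1, f, 0, h, _ => by
    rw [ofd_succ, dg_zero, Nat.add_mul_mod_self_left]
    exact Nat.mod_eq_of_lt (h 0 (by omega))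
  | n + 1, f, k + 1, h, hk => by
    have h0 := h 0 (by omega)
    rw [ofd_succ, dg_succ, Nat.add_mul_div_left _ _ (by omega), Nat.div_eq_of_lt h0, zero_add]
    exact dg_ofd (n := n) (f := fun i => f (i + 1)) (fun i hi => h (i + 1) (by omega)) (by omega)

theorem ofd_dg {a : ℕ} : ∀ {n x : ℕ}, x < a ^ n → ofd a n (fun k => dg a k x) = x
  | 0, x, h => by
    rw [pow_zero] at h
    have : x = 0 := by omega
    subst this
    simp [ofd]
  | n + 1, x, h => by
    rw [ofd_succ, dg_zero]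
    have h1 : x / a < a ^ n := Nat.div_lt_of_lt_mul (by rwa [pow_succ'] at h)
    have h2 := ofd_dg (a := a) (n := n) (x := x / a) h1
    simp only [dg_succ]
    rw [h2]
    exact Nat.mod_add_div x a

theorem dg_ext {a n x y : ℕ} (hx : x < a ^ n) (hy : y < a ^ n)
    (h : ∀ k < n, dg a k x = dg a k y) : x = y := by
  rw [← ofd_dg hx, ← ofd_dg hy]
  exact ofd_congr h

theorem pc_eq {M a k : ℕ} (h : a ^ k ≤ M) : pc M a k = a ^ k := min_eq_left h

theorem ofM_eq {M a n : ℕ} {f : ℕ → ℕ} (hf : ∀ i < n, f i < a) (hM : a ^ n ≤ M) :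
    ofM M a n f = ofd a n f := by
  have h1 : ∑ i ∈ range n, f i * pc M a i = ofd a n f := by
    unfold ofd
    apply Finset.sum_congr rfl
    intro i hi
    have hi' := mem_range.1 hi
    have ha : 0 < a := lt_of_le_of_lt (Nat.zero_le _) (hf i hi')
    rw [pc_eq ((Nat.pow_le_pow_right ha hi'.le).trans hM)]
  unfold ofM
  rw [h1]
  exact min_eq_left ((ofd_lt hf).le.trans hM)

/-- digits of a number in base `a ^ K` -/
theorem dg_dg (a K κ l x : ℕ) (_ha : 0 < a) (hl : l < K) :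
    dg a l (dg (a ^ K) κ x) = dg a (κ * K + l) x := by
  unfold dg
  rw [← pow_mul, mul_comm K κ, pow_add, ← Nat.div_div_eq_div_mul]
  generalize x / a ^ (κ * K) = y
  obtain ⟨j, rfl⟩ : ∃ j, K = l + (j + 1) := ⟨K - l - 1, by omega⟩
  rw [pow_add, Nat.mod_mul_right_div_self, pow_succ', Nat.mod_mul_right_mod]

/-- a number given by blocks of digits -/
theorem dg_ofd_block {a K D : ℕ} {f : ℕ → ℕ} (hf : ∀ i < D, f i < a ^ K) (ha : 0 < a)
    (κ l : ℕ) (hκ : κ < D) (hl : l < K) :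
    dg a (κ * K + l) (ofd (a ^ K) D f) = dg a l (f κ) := by
  rw [← dg_dg a K κ l _ ha hl, dg_ofd hf hκ]

/-! ### Arithmetic modulo `p` -/

theorem pm_eq {p : ℕ} (hp : 2 ≤ p) (n : ℕ) (F : ℕ → ℕ) : pm p n F = (∏ j ∈ range n, F j) % p := by
  unfold pm rcM
  induction n with
  | zero =>
    simp only [rc, Finset.range_zero, Finset.prod_empty]
    rw [Nat.mod_eq_of_lt (by omega)]
    omega
  | succ n ih =>
    simp only [rc]
    rw [ih, Finset.prod_range_succ, Nat.mod_mul_mod]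
    exact min_eq_left (Nat.mod_lt _ (by omega)).le

section prime

variable {p : ℕ} [hpp : Fact p.Prime]

theorem pm_cast (n : ℕ) (F : ℕ → ℕ) :
    ((pm p n F : ℕ) : ZMod p) = ∏ j ∈ range n, (F j : ZMod p) := by
  rw [pm_eq hpp.out.two_le, ZMod.natCast_mod, Nat.cast_prod]

theorem iv_cast (hp : 3 ≤ p) (x : ℕ) : ((iv p x : ℕ) : ZMod p) = (x : ZMod p)⁻¹ := by
  unfold iv
  rw [pm_cast, Finset.prod_const, card_range]
  by_cases hx : (x : ZMod p) = 0
  · rw [hx, inv_zero, zero_pow (by omega)]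
  · apply eq_inv_of_mul_eq_one_left
    rw [← pow_succ]
    have h1 : p - 2 + 1 = p - 1 := by omega
    rw [h1]
    exact ZMod.pow_card_sub_one_eq_one hx

theorem cast_sub_mod (i : ℕ) : ((p - i % p : ℕ) : ZMod p) = - (i : ZMod p) := by
  have h1 : i % p < p := Nat.mod_lt _ hpp.out.pos
  rw [Nat.cast_sub h1.le, ZMod.natCast_self, ZMod.natCast_mod, zero_sub]

theorem lg_cast (hp : 3 ≤ p) (Q c z : ℕ) (hc : c < Q) :
    ((lg Q p c z : ℕ) : ZMod p) = (lgp p Q c).eval (z : ZMod p) := by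
  unfold lg lgp
  rw [pm_cast, Polynomial.eval_prod, ← Finset.mul_prod_erase _ _ (mem_range.2 hc), if_pos rfl,
    Nat.cast_one, one_mul]
  apply Finset.prod_congr rfl
  intro i hi
  rw [mem_erase] at hi
  rw [if_neg hi.1, Nat.cast_mul, Nat.cast_add, cast_sub_mod, iv_cast hp, Nat.cast_add,
    cast_sub_mod, Polynomial.eval_mul, Polynomial.eval_C, Polynomial.eval_sub, Polynomial.eval_X,
    Polynomial.eval_C, mul_comm, ← sub_eq_add_neg, ← sub_eq_add_neg]

theorem gtN_cast (hp : 3 ≤ p) (M Q n : ℕ) (hM : Q ^ n ≤ M) (hQ : 0 < Q) (G z : ℕ → ℕ) (k : ℕ) :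
    ((gtN M Q n p G z k : ℕ) : ZMod p) =
      ∑ W ∈ range (Q ^ n), ((dg Q k (G W) : ℕ) : ZMod p) *
        ∏ j ∈ range n, (lgp p Q (dg Q j W)).eval (z j : ZMod p) := by
  unfold gtN
  rw [pc_eq hM, ZMod.natCast_mod, Nat.cast_sum]
  apply Finset.sum_congr rfl
  intro W _
  rw [Nat.cast_mul, pm_cast]
  congr 1
  apply Finset.prod_congr rfl
  intro j _
  rw [lg_cast hp Q _ _ (dg_lt hQ _ _)]

end prime

/-- products over `D * K` numbers -/
theorem prod_range_mul {R : Type*} [CommMonoid R] (D K : ℕ) (f : ℕ → R) :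
    ∏ j ∈ range (D * K), f j = ∏ d : Fin D, ∏ l : Fin K, f (d * K + l) := by
  rw [Finset.prod_range, ← Fintype.prod_prod_type', ← Equiv.prod_comp finProdFinEquiv]
  apply Finset.prod_congr rfl
  intro x _
  congr 1
  simp [finProdFinEquiv, add_comm, mul_comm]

/-- sums over all words in `{0, …, Q-1}^(D K)` -/
theorem sum_words {R : Type*} [AddCommMonoid R] (D K Q : ℕ) (F : ℕ → R) :
    ∑ W ∈ range (Q ^ (D * K)), F W =
      ∑ y : Fin D → Fin K → Fin Q, F (ofd (Q ^ K) D (fun κ => if h : κ < D then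
        ofd Q K (fun l => if h' : l < K then (y ⟨κ, h⟩ ⟨l, h'⟩ : ℕ) else 0) else 0)) := by
  symm
  have hlt : ∀ (y : Fin D → Fin K → Fin Q) (κ : ℕ), κ < D → (if h : κ < D then
      ofd Q K (fun l => if h' : l < K then (y ⟨κ, h⟩ ⟨l, h'⟩ : ℕ) else 0) else 0) < Q ^ K := by
    intro y κ hκ
    rw [dif_pos hκ]
    apply ofd_lt
    intro l hl
    rw [dif_pos hl]
    exact (y ⟨κ, hκ⟩ ⟨l, hl⟩).2
  refine Finset.sum_bij (fun y _ => ofd (Q ^ K) D (fun κ => if h : κ < D then
        ofd Q K (fun l => if h' : l < K then (y ⟨κ, h⟩ ⟨l, h'⟩ : ℕ) else 0) else 0)) ?_ ?_ ?_ ?_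
  · intro y _
    rw [mem_range, mul_comm, pow_mul]
    exact ofd_lt (hlt y)
  · intro y _ y' _ h
    funext d l
    have h1 := congrArg (dg (Q ^ K) d) h
    rw [dg_ofd (hlt y) d.2, dg_ofd (hlt y') d.2, dif_pos d.2, dif_pos d.2] at h1
    have h2 := congrArg (dg Q l) h1
    rw [dg_ofd _ l.2, dg_ofd _ l.2, dif_pos l.2, dif_pos l.2] at h2
    · exact Fin.ext h2
    · intro i hi
      rw [dif_pos hi]
      exact (y' ⟨d, d.2⟩ ⟨i, hi⟩).2
    · intro i hi
      rw [dif_pos hi]
      exact (y ⟨d, d.2⟩ ⟨i, hi⟩).2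
  · intro W hW
    rw [mem_range] at hW
    by_cases hQ : 0 < Q
    · refine ⟨fun d l => ⟨dg Q (d * K + l) W, dg_lt hQ _ _⟩, mem_univ _, ?_⟩
      have h1 : ofd (Q ^ K) D (fun κ => dg (Q ^ K) κ W) = W := by
        apply ofd_dg
        rwa [← pow_mul, mul_comm K D]
      conv_rhs => rw [← h1]
      apply ofd_congr
      intro κ hκ
      rw [dif_pos hκ]
      have h2 : ofd Q K (fun l => dg Q l (dg (Q ^ K) κ W)) = dg (Q ^ K) κ W :=
        ofd_dg (dg_lt (by positivity) _ _)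
      conv_rhs => rw [← h2]
      apply ofd_congr
      intro l hl
      rw [dif_pos hl, dg_dg Q K κ l W hQ hl]
    · have hQ0 : Q = 0 := by omega
      subst hQ0
      by_cases hDK : D * K = 0
      · rw [hDK, pow_zero] at hW
        have hW0 : W = 0 := by omega
        subst hW0
        rcases Nat.mul_eq_zero.1 hDK with h | h
        · subst h
          exact ⟨fun d => d.elim0, mem_univ _, by simp [ofd]⟩
        · subst h
          exact ⟨fun d l => l.elim0, mem_univ _, by simp [ofd]⟩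
      · rw [zero_pow hDK] at hW
        omega
  · intro y _
    rfl

/-! ### The exponent -/

theorem dvd_pow_iff_le_vv {r : ℕ} (hr : 2 ≤ r) {N : ℕ} (hN : 0 < N) (l : ℕ) :
    r ^ l ∣ N ↔ l ≤ vv r N := by
  constructor
  · intro h
    unfold vv
    refine Nat.le_findGreatest (P := fun v => r ^ v ∣ N) ?_ h
    exact (Nat.lt_pow_self (by omega)).le.trans (Nat.le_of_dvd hN h)
  · intro h
    have h1 : r ^ vv r N ∣ N := by
      unfold vv
      exact Nat.findGreatest_spec (P := fun v => r ^ v ∣ N) (Nat.zero_le N) (by simp)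
    exact (pow_dvd_pow r h).trans h1

theorem vl_eq {m h N : ℕ} (hm : 2 ≤ m) (hN : 0 < N) (hN' : N < m ^ h) : vl m h N = vv m N := by
  have hv : vv m N < h := by
    by_contra hc
    have h1 := (dvd_pow_iff_le_vv hm hN h).2 (by omega)
    exact absurd (Nat.le_of_dvd hN h1) (by omega)
  unfold vl
  have h1 : ∀ l ∈ range h, (if N / m ^ (l + 1) * m ^ (l + 1) = N then 1 else 0) =
      if l < vv m N then 1 else 0 := by
    intro l _
    have h2 : N / m ^ (l + 1) * m ^ (l + 1) = N ↔ l < vv m N := by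
      rw [← Nat.succ_le_iff, ← dvd_pow_iff_le_vv hm hN]
      constructor
      · intro h
        exact Dvd.intro_left _ h
      · intro h
        exact Nat.div_mul_cancel h
    by_cases h3 : l < vv m N
    · rw [if_pos (h2.2 h3), if_pos h3]
    · rw [if_neg (fun h => h3 (h2.1 h)), if_neg h3]
  rw [Finset.sum_congr rfl h1, ← Finset.sum_filter]
  have h2 : (range h).filter (fun l => l < vv m N) = range (vv m N) := by
    ext l
    simp only [mem_filter, mem_range]
    omega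
  rw [h2]
  simp

/-! ### States -/

section state

variable {p : ℕ} [hpp : Fact p.Prime] {D K Q : ℕ}

/-- the registers coded by a number -/
def dec (p D K S : ℕ) : ℕ → ℕ → Fin K → ZMod p := fun x y l =>
  if x < 2 ∧ y < D then ((dg p ((x * D + y) * K + l) S : ℕ) : ZMod p) else 0

theorem idx_lt {x y l : ℕ} (hx : x < 2) (hy : y < D) (hl : l < K) :
    (x * D + y) * K + l < 2 * D * K := by
  have h1 : x * D + y < 2 * D := by
    have : x * D ≤ 1 * D := Nat.mul_le_mul_right _ (by omega)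
    omega
  calc (x * D + y) * K + l < (x * D + y) * K + K := by omega
    _ = (x * D + y + 1) * K := by ring
    _ ≤ 2 * D * K := Nat.mul_le_mul_right _ h1

theorem idx_div {a l : ℕ} (hl : l < K) : (a * K + l) / K = a := by
  rw [mul_comm, Nat.mul_add_div (by omega), Nat.div_eq_of_lt hl, add_zero]

theorem idx_mod {a l : ℕ} (hl : l < K) : (a * K + l) % K = l := by
  rw [mul_comm, Nat.mul_add_mod]
  exact Nat.mod_eq_of_lt hl

theorem pair_eq {x y x' y' : ℕ} (hy : y < D) (hy' : y' < D) :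
    x * D + y = x' * D + y' ↔ x = x' ∧ y = y' := by
  constructor
  · intro h
    have h1 := congrArg (· / D) h
    have h2 := congrArg (· % D) h
    simp only [idx_div hy, idx_div hy', idx_mod hy, idx_mod hy'] at h1 h2
    exact ⟨h1, h2⟩
  · rintro ⟨rfl, rfl⟩
    rfl

/-- the leaf step -/
theorem dec_leafS (hD : 0 < D) {M : ℕ} (hM : p ^ (2 * D * K) ≤ M) (lf N S : ℕ) :
    dec p D K (leafS M D Q K p lf N S) =
      addAt (dec p D K S) 0 (N % D) (fun l : Fin K => ((dg Q l lf : ℕ) : ZMod p)) := by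
  have hND : N % D < D := Nat.mod_lt _ hD
  have hlt : ∀ i < 2 * D * K, (dg p i S + if i / K = N % D then dg Q (i % K) lf else 0) % p < p :=
    fun i _ => Nat.mod_lt _ hpp.out.pos
  have e0 : N % D = 0 * D + N % D := by omega
  funext x y
  unfold addAt
  by_cases hxy : x < 2 ∧ y < D
  · funext l
    have h1 : dec p D K (leafS M D Q K p lf N S) x y l =
        ((dg p ((x * D + y) * K + l) S + if x * D + y = N % D then dg Q l lf else 0 : ℕ) :
          ZMod p) := by
      unfold dec leafS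
      rw [if_pos hxy, ofM_eq hlt hM, dg_ofd hlt (idx_lt hxy.1 hxy.2 l.2), ZMod.natCast_mod,
        idx_div l.2, idx_mod l.2]
    rw [h1]
    by_cases h2 : x = 0 ∧ y = N % D
    · have h3 : x * D + y = N % D := by rw [e0]; exact (pair_eq hxy.2 hND).2 h2
      rw [if_pos h3, if_pos h2, Nat.cast_add]
      simp only [Pi.add_apply, dec, if_pos hxy]
    · have h3 : ¬ (x * D + y = N % D) := by
        rw [e0]
        exact fun h => h2 ((pair_eq hxy.2 hND).1 h)
      rw [if_neg h3, if_neg h2, add_zero]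
      simp only [dec, if_pos hxy]
  · have h2 : ¬ (x = 0 ∧ y = N % D) := fun h => hxy ⟨by omega, by omega⟩
    rw [if_neg h2]
    funext l
    simp only [dec, if_neg hxy]

/-- the polynomial extension on numbers and on vectors -/
theorem gtN_gtp (hp : 3 ≤ p) (hQ : 0 < Q) {M : ℕ} (hM : Q ^ (D * K) ≤ M) (G : ℕ → ℕ)
    (z : ℕ → ℕ) (l : Fin K) :
    ((gtN M Q (D * K) p G z l : ℕ) : ZMod p) =
      gtp p (fun (y : Fin D → Fin K → Fin Q) (l : Fin K) =>
        (⟨dg Q l (G (ofd (Q ^ K) D (fun κ => if h : κ < D then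
          ofd Q K (fun l => if h' : l < K then (y ⟨κ, h⟩ ⟨l, h'⟩ : ℕ) else 0) else 0))),
          dg_lt hQ _ _⟩ : Fin Q))
        (fun d l => ((z (d * K + l) : ℕ) : ZMod p)) l := by
  rw [gtN_cast hp M Q (D * K) hM hQ, sum_words D K Q]
  unfold gtp
  apply Finset.sum_congr rfl
  intro y _
  congr 1
  rw [prod_range_mul]
  apply Finset.prod_congr rfl
  intro d _
  apply Finset.prod_congr rfl
  intro l _
  have hlt : ∀ κ < D, (if h : κ < D then
      ofd Q K (fun l => if h' : l < K then (y ⟨κ, h⟩ ⟨l, h'⟩ : ℕ) else 0) else 0) < Q ^ K := by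
    intro κ hκ
    rw [dif_pos hκ]
    apply ofd_lt
    intro l hl
    rw [dif_pos hl]
    exact (y ⟨κ, hκ⟩ ⟨l, hl⟩).2
  rw [dg_ofd_block hlt hQ d l d.2 l.2, dif_pos d.2, dg_ofd _ l.2, dif_pos l.2]
  intro i hi
  rw [dif_pos hi]
  exact (y ⟨d, d.2⟩ ⟨i, hi⟩).2

/-- the pop step -/
theorem dec_popS (hD : 0 < D) (hp : 3 ≤ p) (hQ : 0 < Q) {M : ℕ} (hM : p ^ (2 * D * K) ≤ M)
    (hM' : Q ^ (D * K) ≤ M) (G : ℕ → ℕ) (N v u S : ℕ) :
    dec p D K (popS M D Q K p G N v u S) =
      if N ≠ 0 ∧ u % D = 0 then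
        addAt (dec p D K S) ((v + 1) % 2) (u / (D * p) % D)
          (- gtp p (fun (y : Fin D → Fin K → Fin Q) (l : Fin K) =>
            (⟨dg Q l (G (ofd (Q ^ K) D (fun κ => if h : κ < D then
              ofd Q K (fun l => if h' : l < K then (y ⟨κ, h⟩ ⟨l, h'⟩ : ℕ) else 0) else 0))),
              dg_lt hQ _ _⟩ : Fin Q))
            (fun d => ((u / D % p : ℕ) : ZMod p)⁻¹ • dec p D K S (v % 2) d))
      else dec p D K S := by
  by_cases hcond : N ≠ 0 ∧ u % D = 0
  · rw [if_pos hcond]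
    unfold popS
    rw [if_pos hcond]
    have hv : (v + 1) % 2 < 2 := Nat.mod_lt _ (by omega)
    have hv' : v % 2 < 2 := Nat.mod_lt _ (by omega)
    have hu : u / (D * p) % D < D := Nat.mod_lt _ hD
    set z : ℕ → ℕ := fun j => iv p (u / D % p) * dg p (v % 2 * D * K + j) S with hz
    have hlt : ∀ i < 2 * D * K, (dg p i S +
      if i / K = (v + 1) % 2 * D + u / (D * p) % D then
        p - gtN M Q (D * K) p G z (i % K) else 0) % p < p := fun i _ => Nat.mod_lt _ hpp.out.pos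
    have hzz : (fun (d : Fin D) (l : Fin K) => ((z (d * K + l) : ℕ) : ZMod p)) =
        (fun d : Fin D => ((u / D % p : ℕ) : ZMod p)⁻¹ • dec p D K S (v % 2) d) := by
      funext d l
      simp only [Pi.smul_apply, smul_eq_mul, dec, if_pos (⟨hv', d.2⟩ : v % 2 < 2 ∧ (d : ℕ) < D)]
      rw [hz, Nat.cast_mul, iv_cast hp]
      congr 3
      ring
    rw [← hzz]
    funext x y
    unfold addAt
    by_cases hxy : x < 2 ∧ y < D
    · funext l
      have h1 : dec p D K (ofM M p (2 * D * K) fun i => (dg p i S +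
          if i / K = (v + 1) % 2 * D + u / (D * p) % D then
            p - gtN M Q (D * K) p G z (i % K) else 0) % p) x y l =
          ((dg p ((x * D + y) * K + l) S +
            if x * D + y = (v + 1) % 2 * D + u / (D * p) % D then
              p - gtN M Q (D * K) p G z l else 0 : ℕ) : ZMod p) := by
        unfold dec
        rw [if_pos hxy, ofM_eq hlt hM, dg_ofd hlt (idx_lt hxy.1 hxy.2 l.2), ZMod.natCast_mod,
          idx_div l.2, idx_mod l.2]
      rw [h1]
      by_cases h2 : x = (v + 1) % 2 ∧ y = u / (D * p) % D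
      · rw [if_pos ((pair_eq hxy.2 hu).2 h2), if_pos h2, Nat.cast_add]
        have hle : gtN M Q (D * K) p G z l ≤ p := by
          unfold gtN
          exact (Nat.mod_lt _ hpp.out.pos).le
        rw [Nat.cast_sub hle, ZMod.natCast_self, zero_sub, gtN_gtp hp hQ hM' G z l]
        simp only [Pi.add_apply, Pi.neg_apply, dec, if_pos hxy]
      · rw [if_neg (fun h => h2 ((pair_eq hxy.2 hu).1 h)), if_neg h2, add_zero]
        simp only [dec, if_pos hxy]
    · have h2 : ¬ (x = (v + 1) % 2 ∧ y = u / (D * p) % D) :=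
        fun h => hxy ⟨by omega, by rw [h.2]; exact hu⟩
      rw [if_neg h2]
      funext l
      simp only [dec, if_neg hxy]
  · rw [if_neg hcond]
    unfold popS
    rw [if_neg hcond]

theorem leafS_lt {M : ℕ} (hM : p ^ (2 * D * K) ≤ M) (lf N S : ℕ) :
    leafS M D Q K p lf N S < p ^ (2 * D * K) := by
  unfold leafS
  have hlt : ∀ i < 2 * D * K, (dg p i S + if i / K = N % D then dg Q (i % K) lf else 0) % p < p :=
    fun i _ => Nat.mod_lt _ hpp.out.pos
  rw [ofM_eq hlt hM]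
  exact ofd_lt hlt

theorem rcM_succ (M g : ℕ) (F : ℕ → ℕ → ℕ) (n : ℕ) :
    rcM M g F (n + 1) = min (F n (rcM M g F n)) M := rfl

/-- the states of the loop are below `p ^ (2 D K)` -/
theorem loopS_lt {M h : ℕ} (hM : p ^ (2 * D * K) ≤ M) (G lf : ℕ → ℕ) (n : ℕ) :
    loopS M D Q K p h G lf n < p ^ (2 * D * K) := by
  unfold loopS
  cases n with
  | zero =>
    have : rcM M 0 (fun N S => stS M D Q K p h G lf N S) 0 = min 0 M := rfl
    rw [this, Nat.zero_min]
    exact pow_pos hpp.out.pos _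
  | succ n =>
    rw [rcM_succ]
    exact lt_of_le_of_lt (min_le_left _ _) (leafS_lt hM _ _ _)

theorem loopS_succ {M h : ℕ} (hM : p ^ (2 * D * K) ≤ M) (G lf : ℕ → ℕ) (n : ℕ) :
    loopS M D Q K p h G lf (n + 1) = stS M D Q K p h G lf n (loopS M D Q K p h G lf n) := by
  unfold loopS
  rw [rcM_succ]
  exact min_eq_left ((leafS_lt hM _ _ _).le.trans hM)

theorem dec_loopS {I : Type} [AddCommMonoid I] (hD : 0 < D) (hp : 3 ≤ p) (hQ : 0 < Q) {M h : ℕ}
    (hM : p ^ (2 * D * K) ≤ M) (hM' : Q ^ (D * K) ≤ M) (G : ℕ → ℕ) (off : ℕ → I) (T0 : I → ℕ)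
    (lf : ℕ → ℕ) (hlf : ∀ N, lf N = T0 (∑ l ∈ range h, off (dg (D * p) l N % D))) (n : ℕ)
    (hn : n ≤ (D * p) ^ h) :
    dec p D K (loopS M D Q K p h G lf n) =
      loopA D p (gtp p (fun (y : Fin D → Fin K → Fin Q) (l : Fin K) =>
            (⟨dg Q l (G (ofd (Q ^ K) D (fun κ => if h : κ < D then
              ofd Q K (fun l => if h' : l < K then (y ⟨κ, h⟩ ⟨l, h'⟩ : ℕ) else 0) else 0))),
              dg_lt hQ _ _⟩ : Fin Q)))
        (fun i l => ((dg Q l (T0 i) : ℕ) : ZMod p)) off 0 h n (fun _ _ => 0) := by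
  have hr : 2 ≤ D * p := by nlinarith
  induction n with
  | zero =>
    funext x y l
    have h0 : loopS M D Q K p h G lf 0 = 0 := Nat.zero_min M
    have h1 : dg p ((x * D + y) * K + l) 0 = 0 := by
      unfold dg
      rw [Nat.zero_div, Nat.zero_mod]
    simp only [loopA, dec]
    rw [h0, h1]
    simp
  | succ n ih =>
    have ih' := ih (by omega)
    rw [loopS_succ hM]
    unfold stS
    rw [dec_leafS hD hM, dec_popS hD hp hQ hM hM', ih', hlf n]
    simp only [loopA, stepA]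
    have hsum : (0 : I) + ∑ a ∈ range h, off (n / (D * p) ^ a % D) =
        ∑ l ∈ range h, off (dg (D * p) l n % D) := by
      rw [zero_add]
      apply Finset.sum_congr rfl
      intro l _
      unfold dg
      rw [Nat.mod_mul_right_mod]
    rw [hsum]
    rcases Nat.eq_zero_or_pos n with h0 | h0
    · subst h0
      rw [if_neg (fun h => h.1 rfl), if_neg (fun h => h.1 rfl)]
    · rw [vl_eq hr h0 (by omega)]

/-- **Correctness of the number-coded loop.** -/
theorem loopS_correct {I : Type} [AddCommMonoid I] (M D Q K p h : ℕ) (hp : p.Prime) (hD : 1 ≤ D)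
    (hK : 1 ≤ K) (hQ : 2 ≤ Q) (hdeg : D * K * Q < p) (h1 : p ^ (2 * D * K) ≤ M)
    (h2 : Q ^ (D * K) ≤ M) (G : ℕ → ℕ) (hG : ∀ W, G W < Q ^ K) (off : ℕ → I) (T : ℕ → I → ℕ)
    (hT0 : ∀ i, T 0 i < Q ^ K)
    (hT : ∀ l i, T (l + 1) i = G (ofd (Q ^ K) D (fun k => T l (i + off k)))) (lf : ℕ → ℕ)
    (hlf : ∀ N, lf N = T 0 (∑ l ∈ range h, off (dg (D * p) l N % D))) :
    ∀ k < K, dg p (h % 2 * D * K + k) (loopS M D Q K p h G lf ((D * p) ^ h)) =
      dg Q k (T h 0) := by
  intro k hk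
  have : Fact p.Prime := ⟨hp⟩
  have hDK : 1 ≤ D * K := Nat.mul_pos hD hK
  have hQp : Q ≤ p := by nlinarith
  have hp3 : 3 ≤ p := by nlinarith
  have hQ0 : 0 < Q := by omega
  have hTlt : ∀ l i, T l i < Q ^ K := by
    intro l i
    cases l with
    | zero => exact hT0 i
    | succ l => rw [hT]; exact hG _
  have hdeg' : D * K * (Q - 1) < p - 1 := by
    obtain ⟨Q', rfl⟩ : ∃ Q', Q = Q' + 1 := ⟨Q - 1, by omega⟩
    rw [Nat.add_sub_cancel]
    have : D * K * (Q' + 1) = D * K * Q' + D * K := by ring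
    omega
  have key := dec_loopS (p := p) (D := D) (K := K) (Q := Q) hD hp3 hQ0 h1 h2 G off (T 0) lf hlf
    ((D * p) ^ h) le_rfl
  have hl := cat_lag (p := p) (m := D) (K := K) (Q := Q) hD hQp hdeg'
    (fun (y : Fin D → Fin K → Fin Q) (l : Fin K) =>
            (⟨dg Q l (G (ofd (Q ^ K) D (fun κ => if h : κ < D then
              ofd Q K (fun l => if h' : l < K then (y ⟨κ, h⟩ ⟨l, h'⟩ : ℕ) else 0) else 0))),
              dg_lt hQ0 _ _⟩ : Fin Q))
    off (fun a i l => ⟨dg Q l (T a i), dg_lt hQ0 _ _⟩) (by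
      intro a i
      funext l
      apply Fin.ext
      show dg Q l (T (a + 1) i) = dg Q l (G _)
      rw [hT]
      congr 2
      apply ofd_congr
      intro κ hκ
      rw [dif_pos hκ, ← ofd_dg (hTlt a (i + off κ))]
      apply ofd_congr
      intro l hl
      rw [dif_pos hl]) 0 h (fun _ _ => 0)
  have h3 : (fun i => emb p (fun l : Fin K => (⟨dg Q l (T 0 i), dg_lt hQ0 _ _⟩ : Fin Q))) =
      (fun (i : I) (l : Fin K) => ((dg Q l (T 0 i) : ℕ) : ZMod p)) := rfl
  rw [h3, ← key] at hl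
  have h4 := congrFun (congrFun (congrFun hl (h % 2)) 0) ⟨k, hk⟩
  have hh : h % 2 < 2 := Nat.mod_lt _ (by omega)
  unfold dec addAt at h4
  rw [if_pos ⟨hh, hD⟩, if_pos ⟨rfl, rfl⟩] at h4
  simp only [add_zero, Pi.add_apply, Pi.zero_apply, zero_add, emb] at h4
  exact cast_inj_lt (dg_lt (by omega) _ _) (lt_of_lt_of_le (dg_lt hQ0 _ _) hQp) h4

end state

end Pool.Agent.Work.MP_71c844_lc.Arr
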