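/-
Block ARR (problem MP_71c844_lc): the simulation is correct (core of item C2, the facts G4 and G5
in applied form).  Author: helper41.
-/
import Pool.Agent.Work.MP_71c844_lc.Arr.StmtsG
import Pool.Agent.Work.MP_71c844_lc.Arr.LoopN

set_option autoImplicit false

namespace Pool.Agent.Work.MP_71c844_lc.Arr

open Finset

namespace C2

theorem np_prime (n : ℕ) : (np n).Prime :=
  (Nat.find_spec (Nat.exists_infinite_primes (n + 1))).2

theorem lt_np (n : ℕ) : n < np n :=
  (Nat.find_spec (Nat.exists_infinite_primes (n + 1))).1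

theorem blk_lt {d : ℕ} (A : CA d) (cd : A.Q → ℕ) (x : Inp) (q b R t : ℕ)
    (i : Fin d → ℤ) (hq : 2 ≤ q) (hcd : ∀ s, cd s < q) : blk A cd x q b R t i < q ^ R := by
  unfold blk
  apply ofd_lt
  intro c _
  split
  · exact hcd _
  · omega

theorem outN_lt {M q d b R X : ℕ} (hq : 2 ≤ q) (hM : q ^ R ≤ M) :
    outN M q d b R X < q ^ R := by
  have hlt : ∀ c < R, (if c < pc M b d then
      dg q (cn M (3 * b) d (fun j => b + dg b j c)) X else 0) < q := by
    intro c _
    split
    · exact dg_lt (by omega) _ _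
    · omega
  unfold outN
  rw [ofM_eq hlt hM]
  exact ofd_lt hlt

/-- The first digit of a block is the code of its corner cell. -/
theorem blk_mod {d : ℕ} (A : CA d) (cd : A.Q → ℕ) (x : Inp) (q b R t : ℕ)
    (i : Fin d → ℤ) (hq : 2 ≤ q) (hcd : ∀ s, cd s < q) (hb : 1 ≤ b) (hR : 1 ≤ R) :
    blk A cd x q b R t i % q = cd (A.conf x t (fun j => i j * (b : ℤ))) := by
  rw [← dg_zero]
  unfold blk
  rw [dg_ofd _ hR, if_pos (by positivity)]
  · congr 2
    funext j
    simp
  · intro c _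
    split
    · exact hcd _
    · omega

/-- The simulation is correct. -/
theorem core (g4 : ∀ (M q d b R t : ℕ) (A : CA d)
      (tb et vt : ℕ) (cd : A.Q → ℕ) (x : Inp) (i : Fin d → ℤ),
      BSz M q d b R → Coded A q tb et vt cd → 1 ≤ d →
      bmN M q d b R (3 ^ d) tb (ofd (q ^ R) (3 ^ d) (fun κ =>
        blk A cd x q b R t (fun j => i j + ((κ / 3 ^ j.val % 3 : ℕ) : ℤ) - 1))) =
      blk A cd x q b R (t + b) i)
    (g5 : ∀ (m Y M q d b R D p h : ℕ) (A : CA d) (tb et vt : ℕ)
      (cd : A.Q → ℕ) (x : List Bool) (N : ℕ),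
      BSz M q d b R → Coded A q tb et vt cd → 1 ≤ d →
      lfN x m Y M q d b R D p h et N =
        blk A cd (x, wd m Y) q b R 0 (fun j =>
          ((∑ l ∈ range h, (dg (D * p) l N % D) / 3 ^ j.val % 3 : ℕ) : ℤ) - (h : ℤ)))
    (c1 : S_C1) (m Y M d q b : ℕ) (A : CA d) (tb et vt : ℕ) (cd : A.Q → ℕ) (x : List Bool)
    (hg : Good M d q b) (hd : 1 ≤ d) (hc : Coded A q tb et vt cd) :
    simN x m Y M d q tb et b = cd (A.conf (x, wd m Y) (b * (b ^ d / rOf b)) (fun _ => 0)) := by
  have hq : 2 ≤ q := hc.two_le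
  have eD : pc M 3 d = 3 ^ d := pc_eq hg.hd
  have eQ : pc M q (rOf b) = q ^ rOf b := pc_eq hg.hr
  have eh : hOf M d b = b ^ d / rOf b := by
    unfold hOf
    rw [pc_eq hg.hbd]
  have hr1 : 1 ≤ rOf b := by
    unfold rOf
    omega
  have hD1 : 1 ≤ 3 ^ d := Nat.one_le_pow _ _ (by norm_num)
  have hg1 := hg.h1
  have hg2 := hg.h2
  have hg3 := hg.h3
  have hsz := hg.sz
  have hb := hg.hb
  unfold simN
  simp only [eD, eQ, eh]
  generalize hh : b ^ d / rOf b = h at *
  generalize hrr : rOf b = r at *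
  generalize hKK : h + 1 = K at *
  have hK1 : 1 ≤ K := by omega
  generalize hpp : np (3 ^ d * K * q ^ r) = p at *
  have hpr : p.Prime := by
    rw [← hpp]
    exact np_prime _
  have hlt : 3 ^ d * K * q ^ r < p := by
    rw [← hpp]
    exact lt_np _
  rw [pc_eq hg3]
  have hQ2 : 2 ≤ q ^ r := by
    calc 2 ≤ q := hq
      _ = q ^ 1 := (pow_one q).symm
      _ ≤ q ^ r := Nat.pow_le_pow_right (by omega) hr1
  have hQK : (q ^ r) ^ K = q ^ (K * r) := by
    rw [← pow_mul, mul_comm]
  have key := c1 (I := Fin d → ℕ) M (3 ^ d) (q ^ r) K p h hpr hD1 hK1 hQ2 hlt hg1 hg2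
    (bmN M q d b (K * r) (3 ^ d) tb) (by
      intro W
      rw [hQK]
      exact outN_lt hq hsz.h2)
    (fun κ j => κ / 3 ^ j.val % 3)
    (fun l i => blk A cd (x, wd m Y) q b (K * r) (l * b) (fun j => (i j : ℤ) - (h : ℤ) + (l : ℤ)))
    (by
      intro i
      rw [hQK]
      exact blk_lt A cd (x, wd m Y) q b _ _ _ hq hc.lt)
    (by
      intro l i
      rw [hQK]
      have e1 := g4 M q d b (K * r) (l * b) A tb et vt cd (x, wd m Y)
        (fun j => (i j : ℤ) - (h : ℤ) + (l : ℤ) + 1) hsz hc hd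
      have e2 : (fun κ : ℕ => blk A cd (x, wd m Y) q b (K * r) (l * b) (fun j =>
          ((i j : ℤ) - (h : ℤ) + (l : ℤ) + 1) + ((κ / 3 ^ j.val % 3 : ℕ) : ℤ) - 1)) =
          (fun κ : ℕ => blk A cd (x, wd m Y) q b (K * r) (l * b) (fun j =>
            (((i + fun j : Fin d => κ / 3 ^ j.val % 3) j : ℕ) : ℤ) - (h : ℤ) + (l : ℤ))) := by
        funext κ
        congr 1
        funext j
        simp only [Pi.add_apply, Nat.cast_add]
        ring
      rw [e2] at e1
      rw [e1]
      congr 1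
      · ring
      · funext j
        push_cast
        ring)
    (lfN x m Y M q d b (K * r) (3 ^ d) p h et)
    (by
      intro N
      rw [g5 m Y M q d b (K * r) (3 ^ d) p h A tb et vt cd x N hsz hc hd]
      congr 1
      · omega
      · funext j
        simp only [Finset.sum_apply, Nat.cast_zero, add_zero])
    0 hK1
  rw [add_zero] at key
  rw [key, dg_zero, Nat.mod_mod_of_dvd _ (dvd_pow_self q (by omega)),
    blk_mod A cd (x, wd m Y) q b _ _ _ hq hc.lt hb (Nat.mul_pos hK1 hr1)]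
  congr 2
  · ring
  · funext j
    simp

end C2

end Pool.Agent.Work.MP_71c844_lc.Arr
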