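/-
Block ARR (problem MP_71c844_lc): item G1, the box made of the blocks.  Author: helper64.
-/
import Pool.Agent.Work.MP_71c844_lc.Arr.StmtsG

namespace Pool.Agent.Work.MP_71c844_lc.Arr

open Finset

namespace G1

theorem pc_eq' {M q d b k j : ℕ} (hq : 2 ≤ q) (hM : q ^ ((3 * b) ^ d) ≤ M) (hb : 1 ≤ b)
    (hk : k ≤ 3 * b) (hj : j ≤ d) : pc M k j = k ^ j := by
  have h1 : k ^ j ≤ (3 * b) ^ d :=
    (Nat.pow_le_pow_left hk j).trans (Nat.pow_le_pow_right (by omega) hj)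
  have h2 : (3 * b) ^ d < q ^ ((3 * b) ^ d) := Nat.lt_pow_self hq
  unfold pc
  exact min_eq_left (by omega)

theorem cn_eq {M q d b a : ℕ} (hq : 2 ≤ q) (hM : q ^ ((3 * b) ^ d) ≤ M) (hb : 1 ≤ b)
    (ha : a ≤ 3 * b) (f : ℕ → ℕ) : cn M a d f = ofd a d f := by
  unfold cn ofd
  refine Finset.sum_congr rfl fun j hj => ?_
  rw [pc_eq' hq hM hb ha (Finset.mem_range.mp hj).le]

end G1

theorem prf_G1 : S_G1 := by
  intro D M q d b R t A tb et vt cd x i hS hC hd
  obtain ⟨hq, hb, hR, h1, h2⟩ := hS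
  have hqR : 1 ≤ q := by omega
  -- digits of the cell numbers
  have hdig : ∀ j u : ℕ, dg (3 * b) j u < 3 * b := fun j u => Nat.mod_lt _ (by omega)
  have hk3 : ∀ u j : ℕ, dg (3 * b) j u / b < 3 := fun u j =>
    Nat.div_lt_of_lt_mul (by rw [mul_comm b 3]; exact hdig j u)
  have hcb : ∀ u j : ℕ, dg (3 * b) j u % b < b := fun u j => Nat.mod_lt _ hb
  have hblk : ∀ (i' : Fin d → ℤ), blk A cd x q b R t i' < q ^ R := by
    intro i'
    unfold blk
    refine D.ofd_lt q R _ hqR fun c _ => ?_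
    split
    · exact hC.lt _
    · omega
  unfold boxN boxV
  rw [G1.pc_eq' hq h1 hb le_rfl le_rfl]
  have key : ∀ u : ℕ,
      dg q (cn M 3 d (fun j => dg (3 * b) j u / b) * R + cn M b d (fun j => dg (3 * b) j u % b))
        (ofd (q ^ R) (3 ^ d) (fun κ =>
          blk A cd x q b R t (fun j => i j + ((κ / 3 ^ j.val % 3 : ℕ) : ℤ) - 1))) =
      cd (A.conf x t (fun j => (i j - 1) * (b : ℤ) + ((u / (3 * b) ^ j.val % (3 * b) : ℕ) : ℤ))) := by
    intro u
    rw [G1.cn_eq hq h1 hb (by omega), G1.cn_eq hq h1 hb (by omega)]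
    have hκ := D.ofd_lt 3 d (fun j => dg (3 * b) j u / b) (by omega) (fun j _ => hk3 u j)
    have hc := D.ofd_lt b d (fun j => dg (3 * b) j u % b) hb (fun j _ => hcb u j)
    have hκd : ∀ j < d, dg 3 j (ofd 3 d (fun j => dg (3 * b) j u / b)) = dg (3 * b) j u / b :=
      fun j hj => D.dg_ofd 3 d j (fun j => dg (3 * b) j u / b) (fun j _ => hk3 u j) hj
    have hcd : ∀ j < d, dg b j (ofd b d (fun j => dg (3 * b) j u % b)) = dg (3 * b) j u % b :=
      fun j hj => D.dg_ofd b d j (fun j => dg (3 * b) j u % b) (fun j _ => hcb u j) hj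
    rw [D.dg_pow q R _ _ _ (hc.trans_le hR)]
    rw [D.dg_ofd (q ^ R) (3 ^ d) _ _ (fun κ _ => hblk _) hκ]
    unfold blk
    rw [D.dg_ofd q R _ _ ?_ (hc.trans_le hR)]
    · rw [if_pos hc]
      congr 2
      funext j
      have e1 : (ofd 3 d fun j => dg (3 * b) j u / b) / 3 ^ j.val % 3 =
          u / (3 * b) ^ j.val % (3 * b) / b := hκd j.val j.isLt
      have e2 : (ofd b d fun j => dg (3 * b) j u % b) / b ^ j.val % b =
          u / (3 * b) ^ j.val % (3 * b) % b := hcd j.val j.isLt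
      beta_reduce
      rw [e1, e2]
      have e3 := Nat.div_add_mod (u / (3 * b) ^ j.val % (3 * b)) b
      set v := u / (3 * b) ^ j.val % (3 * b) with hv
      have e4 : ((v : ℕ) : ℤ) = (b : ℤ) * ((v / b : ℕ) : ℤ) + ((v % b : ℕ) : ℤ) := by
        exact_mod_cast e3.symm
      rw [e4]
      ring
    · intro c _
      split
      · exact hC.lt _
      · omega
  rw [D.ofM_eq M q _ _ hqR h1 ?_]
  · exact D.ofd_congr q _ _ _ fun u _ => key u
  · intro u _
    rw [key u]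
    exact hC.lt _

end Pool.Agent.Work.MP_71c844_lc.Arr
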