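/-
Block ARR (problem MP_71c844_lc), item G2: one step of the array in the box (light cone).
Author: helper54.
-/
import Pool.Agent.Work.MP_71c844_lc.Arr.StmtsG

namespace Pool.Agent.Work.MP_71c844_lc.Arr

open Finset

namespace G2

theorem pc_eq {M a k n : ℕ} (ha : 1 ≤ a) (hk : k ≤ n) (h : a ^ n ≤ M) : pc M a k = a ^ k := by
  unfold pc
  exact min_eq_left (le_trans (Nat.pow_le_pow_right ha hk) h)

theorem cn_eq {M a d : ℕ} (ha : 1 ≤ a) (h : a ^ d ≤ M) (f : ℕ → ℕ) :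
    cn M a d f = ∑ j ∈ range d, f j * a ^ j := by
  unfold cn
  refine sum_congr rfl fun j hj => ?_
  rw [pc_eq ha (mem_range.1 hj).le h]

theorem dg_lt {a : ℕ} (ha : 1 ≤ a) (k x : ℕ) : dg a k x < a := Nat.mod_lt _ (by omega)

theorem fin_sum {d : ℕ} (c : Fin d → ℕ) (L : ℕ) :
    ∑ j : Fin d, c j * L ^ j.val =
      ∑ j ∈ range d, (if h : j < d then c ⟨j, h⟩ else 0) * L ^ j := by
  rw [← Fin.sum_univ_eq_sum_range (fun j => (if h : j < d then c ⟨j, h⟩ else 0) * L ^ j) d]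
  refine sum_congr rfl fun j _ => ?_
  rw [dif_pos j.isLt]

theorem shift {d : ℕ} (c : Fin d → ℕ) (L : ℕ) (e : ℕ → ℕ) (hc : ∀ j, 1 ≤ c j) :
    ∑ j : Fin d, c j * L ^ j.val + ∑ j ∈ range d, e j * L ^ j - ∑ j ∈ range d, 1 * L ^ j =
      ∑ j : Fin d, (c j + e j.val - 1) * L ^ j.val := by
  rw [← Fin.sum_univ_eq_sum_range (fun j => e j * L ^ j) d,
    ← Fin.sum_univ_eq_sum_range (fun j => 1 * L ^ j) d]
  have h : ∑ j : Fin d, c j * L ^ j.val + ∑ j : Fin d, e j.val * L ^ j.val =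
      ∑ j : Fin d, (c j + e j.val - 1) * L ^ j.val + ∑ j : Fin d, 1 * L ^ j.val := by
    rw [← sum_add_distrib, ← sum_add_distrib]
    refine sum_congr rfl fun j _ => ?_
    have h1 : c j + e j.val = (c j + e j.val - 1) + 1 := by have := hc j; omega
    calc c j * L ^ j.val + e j.val * L ^ j.val = (c j + e j.val) * L ^ j.val := by ring
      _ = ((c j + e j.val - 1) + 1) * L ^ j.val := by rw [← h1]
      _ = _ := by ring
  omega

end G2

open G2 in
theorem prf_G2 : S_G2 := by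
  intro hD M q d b R t s A tb et vt cd x i X hB hC hd hA c hc
  have hq1 : 1 ≤ q := by have := hB.hq; omega
  have hb := hB.hb
  have hL : 1 ≤ 3 * b := by omega
  have hLM : (3 * b) ^ d ≤ M :=
    le_trans (le_trans (Nat.lt_pow_self (by have := hB.hq; omega)).le hB.h1) le_rfl
  have h3L : 3 ^ d ≤ (3 * b) ^ d := Nat.pow_le_pow_left (by omega) d
  have h3M : q ^ (3 ^ d) ≤ M := le_trans (Nat.pow_le_pow_right hq1 h3L) hB.h1
  have hu : ∑ j : Fin d, c j * (3 * b) ^ j.val < (3 * b) ^ d := by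
    rw [fin_sum]
    refine hD.ofd_lt (3 * b) d _ hL fun j hj => ?_
    rw [dif_pos hj]
    have := (hc ⟨j, hj⟩).2
    omega
  unfold bstN
  rw [pc_eq hL le_rfl hLM, hD.ofM_eq M q _ _ hq1 hB.h1 (fun _ _ => dg_lt hq1 _ _),
    hD.dg_ofd q _ _ _ (fun _ _ => dg_lt hq1 _ _) hu,
    hD.ofM_eq M q _ _ hq1 h3M (fun _ _ => dg_lt hq1 _ _)]
  have hcongr := hD.ofd_congr q (3 ^ d)
    (fun e => dg q (∑ j : Fin d, c j * (3 * b) ^ j.val + cn M (3 * b) d (fun j => dg 3 j e) -
      cn M (3 * b) d (fun _ => 1)) X)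
    (fun e => cd ((fun ε : Fin d → Fin 3 => A.conf x t
      (fun j => ((i j - 1) * (b : ℤ) + (c j : ℤ)) + ((ε j).val : ℤ) - 1))
      (fun j => ⟨e / 3 ^ j.val % 3, Nat.mod_lt _ (by omega)⟩)))
    (fun e _ => by
      simp only
      rw [cn_eq hL hLM, cn_eq hL hLM, shift c (3 * b) (fun j => dg 3 j e)
        (fun j => by have := (hc j).1; omega)]
      rw [hA (fun j => c j + dg 3 j.val e - 1) (fun j => by
        have h1 := hc j
        have h2 := dg_lt (a := 3) (by omega) j.val e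
        constructor
        · omega
        · omega)]
      congr 2
      funext j
      have h1 := (hc j).1
      have h2 : ((c j + dg 3 j.val e - 1 : ℕ) : ℤ) = (c j : ℤ) + (dg 3 j.val e : ℤ) - 1 := by
        omega
      rw [h2]
      unfold dg
      ring)
  rw [hcongr]
  exact hC.rule (fun ε : Fin d → Fin 3 => A.conf x t
    (fun j => ((i j - 1) * (b : ℤ) + (c j : ℤ)) + ((ε j).val : ℤ) - 1))

end Pool.Agent.Work.MP_71c844_lc.Arr
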