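import Pool.Agent.Work.MP_71c844_lc.Arr.StmtsG

/-!
Block ARR (problem MP_71c844_lc): item G3, the centre of the box.
-/

set_option autoImplicit false

namespace Pool.Agent.Work.MP_71c844_lc.Arr

open Finset

namespace G3

/-- Powers of the side are not cut. -/
theorem pow_le {M q d b R : ℕ} (h : BSz M q d b R) : b ^ d ≤ M := by
  have h1 : R < 2 ^ R := Nat.lt_two_pow_self
  have h2 : 2 ^ R ≤ q ^ R := Nat.pow_le_pow_left h.hq R
  have h3 := h.hR
  have h4 := h.h2
  omega

/-- Powers of the side of the box are not cut. -/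
theorem pow_le3 {M q d b R : ℕ} (h : BSz M q d b R) {j : ℕ} (hj : j ≤ d) : (3 * b) ^ j ≤ M := by
  have h0 : (3 * b) ^ j ≤ (3 * b) ^ d := Nat.pow_le_pow_right (by have := h.hb; omega) hj
  have h1 : (3 * b) ^ d < 2 ^ ((3 * b) ^ d) := Nat.lt_two_pow_self
  have h2 : 2 ^ ((3 * b) ^ d) ≤ q ^ ((3 * b) ^ d) := Nat.pow_le_pow_left h.hq _
  have h4 := h.h1
  omega

/-- Cell numbers in the box. -/
theorem cn_eq {M q d b R : ℕ} (h : BSz M q d b R) (f : ℕ → ℕ) :
    cn M (3 * b) d f = ∑ j : Fin d, f j.val * (3 * b) ^ j.val := by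
  unfold cn
  rw [Finset.sum_range]
  refine Finset.sum_congr rfl (fun j _ => ?_)
  rw [show pc M (3 * b) j.val = (3 * b) ^ j.val from min_eq_left (pow_le3 h j.isLt.le)]

end G3

/-- G3: the centre. -/
theorem prf_G3 : S_G3 := by
  intro h1 M q d b R t A tb et vt cd x i X hB hC hd hA
  have hM := G3.pow_le hB
  have hq := hB.hq
  have hb := hB.hb
  unfold outN blk
  rw [show pc M b d = b ^ d from min_eq_left hM]
  rw [h1.ofM_eq M q R _ (by omega) hB.h2]
  · refine h1.ofd_congr q R _ _ (fun c _ => ?_)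
    by_cases hc : c < b ^ d
    · rw [if_pos hc, if_pos hc, G3.cn_eq hB]
      have h2 := hA (fun j => b + dg b j.val c) (fun j => by
        have h3 : dg b j.val c < b := Nat.mod_lt _ (by omega)
        constructor <;> omega)
      rw [h2]
      congr 2
      funext j
      simp only [dg]
      push_cast
      ring
    · rw [if_neg hc, if_neg hc]
  · intro c _
    split_ifs
    · exact Nat.mod_lt _ (by omega)
    · omega

end Pool.Agent.Work.MP_71c844_lc.Arr
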