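/-
Block ARR (problem MP_71c844_lc), item C2: the simulation is correct.  Author: helper41.
-/
import Pool.Agent.Work.MP_71c844_lc.Arr.C2core
import Pool.Agent.Work.MP_71c844_lc.Arr.G1
import Pool.Agent.Work.MP_71c844_lc.Arr.G2
import Pool.Agent.Work.MP_71c844_lc.Arr.G3

set_option autoImplicit false

namespace Pool.Agent.Work.MP_71c844_lc.Arr

/-- Item C2. -/
theorem prf_C2 : S_C2 := by
  intro d1 g4 g5 c1 m Y M d q b A tb et vt cd x hg hd hc
  exact C2.core (fun M q d b R t A tb et vt cd x i =>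
      g4 d1 prf_G1 prf_G2 prf_G3 M q d b R t A tb et vt cd x i)
    (fun m Y M q d b R D p h A tb et vt cd x N =>
      g5 d1 m Y M q d b R D p h A tb et vt cd x N)
    c1 m Y M d q b A tb et vt cd x hg hd hc

end Pool.Agent.Work.MP_71c844_lc.Arr
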