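/-
Block ARR (problem MP_71c844_lc), item C3: the verdict number.  Author: helper81.
-/
import Pool.Agent.Work.MP_71c844_lc.Arr.StmtsG

namespace Pool.Agent.Work.MP_71c844_lc.Arr

/-- Item C3. -/
theorem prf_C3 : S_C3 := by
  intro hC2 hD1 hG4 hG5 hC1 m Y M d q A tb et vt a cd x hb hgood hd hcod
  unfold verN
  rw [if_neg hb, hC2 hD1 hG4 hG5 hC1 m Y M d q (bOf d a M) A tb et vt cd x hgood hd hcod]
  exact hcod.out _

end Pool.Agent.Work.MP_71c844_lc.Arr
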