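/-
Block ARR (problem MP_71c844_lc): deterministic multitape Turing machines with a read-only input
tape; the classes `DSPACE` and `DTIME`; machines preceded by alternating guesses.
Author: helper44.
-/
import Mathlib

namespace Pool.Agent.Work.MP_71c844_lc.Arr

/-! ## Turing machines -/

/-- The contents of a cell of the input tape: the left end marker, an input symbol, or the right
end marker. -/
inductive InSym : Type
  | lend : InSym
  | bit (b : Bool) : InSym
  | rend : InSym

/-- Head moves. -/
inductive Dir : Type
  | left : Dir
  | stay : Dir
  | right : Dir

/-- Displacement of a head move. -/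
def Dir.disp : Dir → ℤ
  | .left => -1
  | .stay => 0
  | .right => 1

/-- A deterministic Turing machine with a read-only two-way input tape and `k` work tapes. -/
structure TM where
  /-- the number of work tapes -/
  k : ℕ
  /-- the states -/
  Q : Type
  /-- there are finitely many states -/
  finQ : Finite Q
  /-- the work alphabet -/
  Γ : Type
  /-- the work alphabet is finite -/
  finΓ : Finite Γ
  /-- the blank symbol -/
  blank : Γ
  /-- the initial state -/
  start : Q
  /-- `some true` for the accepting halting states, `some false` for the rejecting halting states,
  `none` for the other states -/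
  out : Q → Option Bool
  /-- the transition function: from the state, the input symbol and the work symbols under the
  heads to the new state, the move of the input head, and for every work tape the symbol written
  and the move of the head -/
  next : Q → InSym → (Fin k → Γ) → Q × Dir × (Fin k → Γ × Dir)

/-- A configuration: the state, the position of the input head (`0` is the left end marker, cell
`i + 1` holds the `i`-th input symbol, `|x| + 1` is the right end marker), the contents of the work
tapes and the positions of the work heads. -/
structure TM.Cfg (M : TM) where
  /-- the state -/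
  st : M.Q
  /-- the position of the input head -/
  ipos : ℕ
  /-- the work tapes -/
  tape : Fin M.k → ℤ → M.Γ
  /-- the positions of the work heads -/
  head : Fin M.k → ℤ

/-- The symbol of the input tape at a position. -/
def inSym (x : List Bool) (pos : ℕ) : InSym :=
  if pos = 0 then .lend else
    match x[pos - 1]? with
    | some b => .bit b
    | none => .rend

/-- Moves of the input head: it cannot leave the end markers. -/
def inMove (x : List Bool) (pos : ℕ) : Dir → ℕ
  | .left => pos - 1
  | .stay => pos
  | .right => min (pos + 1) (x.length + 1)

/-- The initial configuration: all work tapes are blank. -/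
def TM.initCfg (M : TM) : M.Cfg where
  st := M.start
  ipos := 0
  tape := fun _ _ => M.blank
  head := fun _ => 0

/-- One step on input `x`; halting configurations do not change. -/
def TM.stepCfg (M : TM) (x : List Bool) (c : M.Cfg) : M.Cfg :=
  match M.out c.st with
  | some _ => c
  | none =>
    { st := (M.next c.st (inSym x c.ipos) (fun i => c.tape i (c.head i))).1
      ipos := inMove x c.ipos (M.next c.st (inSym x c.ipos) (fun i => c.tape i (c.head i))).2.1
      tape := fun i => Function.update (c.tape i) (c.head i)
        ((M.next c.st (inSym x c.ipos) (fun i => c.tape i (c.head i))).2.2 i).1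
      head := fun i => c.head i +
        ((M.next c.st (inSym x c.ipos) (fun i => c.tape i (c.head i))).2.2 i).2.disp }

/-- The configuration after `t` steps on input `x`. -/
def TM.run (M : TM) (x : List Bool) (t : ℕ) : M.Cfg :=
  (M.stepCfg x)^[t] M.initCfg

/-- The machine halts on every input and accepts exactly the words of `L`. -/
def TM.Decides (M : TM) (L : Set (List Bool)) : Prop :=
  ∀ x : List Bool, ∃ t : ℕ, ∃ b : Bool, M.out (M.run x t).st = some b ∧ (b = true ↔ x ∈ L)

/-- The work cells visited on input `x`: pairs (tape, cell). -/
def TM.visited (M : TM) (x : List Bool) : Set (Fin M.k × ℤ) :=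
  {c | ∃ t : ℕ, (M.run x t).head c.1 = c.2}

/-- The languages decided in space `O(S n)`. -/
def DSPACE (S : ℕ → ℕ) : Set (Set (List Bool)) :=
  {L | ∃ M : TM, ∃ C : ℕ, M.Decides L ∧
    ∀ x : List Bool, (M.visited x).encard ≤ ((C * S x.length + C : ℕ) : ℕ∞)}

/-- The languages decided in time `O(T n)`. -/
def DTIME (T : ℕ → ℕ) : Set (Set (List Bool)) :=
  {L | ∃ M : TM, ∃ C : ℕ, ∀ x : List Bool, ∃ t : ℕ, ∃ b : Bool, t ≤ C * T x.length + C ∧
    M.out (M.run x t).st = some b ∧ (b = true ↔ x ∈ L)}

/-! ## Machines with a guess word -/

/-- The initial configuration with the guess word `y`: its letters, written with the work symbols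
`gs false` and `gs true`, are on the cells `1, …, |y|` of the first work tape. -/
def TM.initG (M : TM) (gs : Bool → M.Γ) (y : List Bool) : M.Cfg where
  st := M.start
  ipos := 0
  tape := fun i z => if i.val = 0 ∧ 0 < z then
      (match y[(z - 1).toNat]? with
        | some b => gs b
        | none => M.blank)
    else M.blank
  head := fun _ => 0

/-- The configuration after `t` steps on input `x` and guess word `y`. -/
def TM.runG (M : TM) (gs : Bool → M.Γ) (x y : List Bool) (t : ℕ) : M.Cfg :=
  (M.stepCfg x)^[t] (M.initG gs y)

/-- On input `x` and guess word `y` the machine halts after exactly `t` steps with the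
verdict `v`. -/
def TM.FirstVerdict (M : TM) (gs : Bool → M.Γ) (x y : List Bool) (t : ℕ) (v : Bool) : Prop :=
  M.out (M.runG gs x y t).st = some v ∧ ∀ s < t, M.out (M.runG gs x y s).st = none

end Pool.Agent.Work.MP_71c844_lc.Arr
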