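/-
Block ARR (problem MP_71c844_lc): the two intermediate levels of the compiler from loop programs
to Turing machines: while programs `CP` and goto lists, and the Turing machine of a goto list.
Author: helper44.
-/
import Pool.Agent.Work.MP_71c844_lc.Arr.Mach

namespace Pool.Agent.Work.MP_71c844_lc.Arr

/-! ## Counter programs -/

/-- Tests: a register is nonzero, or a property of the input symbol under the input head. -/
inductive Tst
  | reg (r : ℕ)
  | sym (c : InSym → Bool)

/-- Counter programs. -/
inductive CP
  | skip
  | inc (r : ℕ)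
  | dec (r : ℕ)
  | mv (d : Dir)
  | seq (P Q : CP)
  | ite (c : Tst) (P Q : CP)
  | whl (c : Tst) (P : CP)

/-- A state: the registers and the position of the input head. -/
abbrev St := (ℕ → ℕ) × ℕ

/-- Truth of a test. -/
def Tst.ok (c : Tst) (w : List Bool) (s : St) : Prop :=
  match c with
  | .reg r => s.1 r ≠ 0
  | .sym c => c (inSym w s.2) = true

/-- `Run B w P s s'`: the program `P`, started on input `w` in state `s`, stops in state `s'`, and
no increment produced a value larger than `B`. -/
inductive Run (B : ℕ) (w : List Bool) : CP → St → St → Prop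
  | skip (s : St) : Run B w .skip s s
  | inc (r : ℕ) (s : St) : s.1 r + 1 ≤ B →
      Run B w (.inc r) s (Function.update s.1 r (s.1 r + 1), s.2)
  | dec (r : ℕ) (s : St) : Run B w (.dec r) s (Function.update s.1 r (s.1 r - 1), s.2)
  | mv (d : Dir) (s : St) : Run B w (.mv d) s (s.1, inMove w s.2 d)
  | seq {P Q : CP} {s₁ s₂ s₃ : St} : Run B w P s₁ s₂ → Run B w Q s₂ s₃ →
      Run B w (.seq P Q) s₁ s₃
  | iteT {c : Tst} {P Q : CP} {s₁ s₂ : St} : c.ok w s₁ → Run B w P s₁ s₂ →
      Run B w (.ite c P Q) s₁ s₂
  | iteF {c : Tst} {P Q : CP} {s₁ s₂ : St} : ¬ c.ok w s₁ → Run B w Q s₁ s₂ →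
      Run B w (.ite c P Q) s₁ s₂
  | whlF {c : Tst} {P : CP} {s : St} : ¬ c.ok w s → Run B w (.whl c P) s s
  | whlT {c : Tst} {P : CP} {s₁ s₂ s₃ : St} : c.ok w s₁ → Run B w P s₁ s₂ →
      Run B w (.whl c P) s₂ s₃ → Run B w (.whl c P) s₁ s₃

/-- All the registers of the program are smaller than `m`. -/
def CP.lt (m : ℕ) : CP → Prop
  | .skip => True
  | .inc r => r < m
  | .dec r => r < m
  | .mv _ => True
  | .seq P Q => P.lt m ∧ Q.lt m
  | .ite c P Q => (match c with | .reg r => r < m | .sym _ => True) ∧ P.lt m ∧ Q.lt m
  | .whl c P => (match c with | .reg r => r < m | .sym _ => True) ∧ P.lt m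

/-! ## Goto programs -/

/-- Instructions with explicit next addresses. -/
inductive Ins
  | inc (r nx : ℕ)
  | dec (r nx : ℕ)
  | mv (d : Dir) (nx : ℕ)
  | br (c : Tst) (n₁ n₂ : ℕ)
  | jmp (nx : ℕ)
  | halt (b : Bool)

/-- One step of a goto program: the state is the address and the memory state. -/
noncomputable def gostep (G : List Ins) (w : List Bool) (a : ℕ × St) : ℕ × St :=
  match G[a.1]? with
  | some (.inc r nx) => (nx, (Function.update a.2.1 r (a.2.1 r + 1), a.2.2))
  | some (.dec r nx) => (nx, (Function.update a.2.1 r (a.2.1 r - 1), a.2.2))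
  | some (.mv d nx) => (nx, (a.2.1, inMove w a.2.2 d))
  | some (.br c n₁ n₂) => open Classical in (if c.ok w a.2 then n₁ else n₂, a.2)
  | some (.jmp nx) => (nx, a.2)
  | some (.halt _) => a
  | none => a

/-- Length of the code of a counter program. -/
def CP.len : CP → ℕ
  | .skip => 1
  | .inc _ => 1
  | .dec _ => 1
  | .mv _ => 1
  | .seq P Q => P.len + Q.len
  | .ite _ P Q => 1 + P.len + Q.len
  | .whl _ P => 1 + P.len

/-- The code of a counter program, to be placed at the address `b`, continuing at `e`. -/
def CP.code : CP → ℕ → ℕ → List Ins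
  | .skip, _, e => [.jmp e]
  | .inc r, _, e => [.inc r e]
  | .dec r, _, e => [.dec r e]
  | .mv d, _, e => [.mv d e]
  | .seq P Q, b, e => P.code b (b + P.len) ++ Q.code (b + P.len) e
  | .ite c P Q, b, e => .br c (b + 1) (b + 1 + P.len) ::
      (P.code (b + 1) e ++ Q.code (b + 1 + P.len) e)
  | .whl c P, b, e => .br c (b + 1) e :: P.code (b + 1) b

/-! ## The Turing machine of a goto program -/

/-- Phases of the machine: `go` at the beginning of an instruction; `car` carry; `bor` borrow;
`chk` look whether the digit just changed was the last one; `era` erase it; `ret` return. -/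
inductive Ph
  | go | car | bor | chk | era | ret
  deriving DecidableEq

instance : Finite Ph :=
  Finite.of_surjective (fun i : Fin 6 => match i.val with
    | 0 => Ph.go | 1 => Ph.car | 2 => Ph.bor | 3 => Ph.chk | 4 => Ph.era | _ => Ph.ret)
    (fun q => by
      cases q
      · exact ⟨0, rfl⟩
      · exact ⟨1, rfl⟩
      · exact ⟨2, rfl⟩
      · exact ⟨3, rfl⟩
      · exact ⟨4, rfl⟩
      · exact ⟨5, rfl⟩)

/-- Bijective binary value, lowest digit first; `false` is the digit `1`, `true` the digit `2`. -/
def bval : List Bool → ℕ
  | [] => 0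
  | b :: l => (if b then 2 else 1) + 2 * bval l

/-- The tape which holds a list of digits from cell `0` on. -/
def tapeOf (l : List Bool) (z : ℤ) : Option Bool :=
  if z < 0 then none else l[z.toNat]?

/-- The register used by an instruction and its next address. -/
def Ins.rn : Ins → ℕ × ℕ
  | .inc r nx => (r, nx)
  | .dec r nx => (r, nx)
  | _ => (0, 0)

/-- Truth of a test, from the symbols under the heads; registers are tapes. -/
def Tst.look {m : ℕ} (c : Tst) (a : InSym) (g : Fin m → Option Bool) : Bool :=
  match c with
  | .reg r => if h : r < m then (g ⟨r, h⟩).isSome else false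
  | .sym c => c a

/-- Address, clipped to the length of the program. -/
def clip (G : List Ins) (n : ℕ) : Fin (G.length + 1) :=
  ⟨min n G.length, Nat.lt_succ_of_le (min_le_right _ _)⟩

/-- Leave all the work tapes unchanged. -/
def idle {m : ℕ} (g : Fin m → Option Bool) : Fin m → Option Bool × Dir :=
  fun i => (g i, .stay)

/-- Act on the tape `r` only. -/
def actOn {m : ℕ} (g : Fin m → Option Bool) (r : ℕ) (s : Option Bool) (d : Dir) :
    Fin m → Option Bool × Dir :=
  fun i => if i.val = r then (s, d) else (g i, .stay)

/-- The symbol on tape `r`. -/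
def readOn {m : ℕ} (g : Fin m → Option Bool) (r : ℕ) : Option Bool :=
  if h : r < m then g ⟨r, h⟩ else none

/-- The transition function of the machine of a goto program with `m` registers. -/
def gpNext (m : ℕ) (G : List Ins) (q : Fin (G.length + 1) × Ph) (a : InSym)
    (g : Fin m → Option Bool) :
    (Fin (G.length + 1) × Ph) × Dir × (Fin m → Option Bool × Dir) :=
  match G[q.1.val]? with
  | none => (q, .stay, idle g)
  | some I =>
    match q.2 with
    | .go =>
      match I with
      | .inc _ _ => ((q.1, .car), .stay, idle g)
      | .dec _ _ => ((q.1, .bor), .stay, idle g)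
      | .mv d nx => ((clip G nx, .go), d, idle g)
      | .br c n₁ n₂ => ((clip G (if c.look a g then n₁ else n₂), .go), .stay, idle g)
      | .jmp nx => ((clip G nx, .go), .stay, idle g)
      | .halt _ => (q, .stay, idle g)
    | .car =>
      match readOn g I.rn.1 with
      | none => ((q.1, .ret), .stay, actOn g I.rn.1 (some false) .stay)
      | some false => ((q.1, .ret), .stay, actOn g I.rn.1 (some true) .stay)
      | some true => ((q.1, .car), .stay, actOn g I.rn.1 (some false) .right)
    | .bor =>
      match readOn g I.rn.1 with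
      | none => ((clip G I.rn.2, .go), .stay, idle g)
      | some true => ((q.1, .ret), .stay, actOn g I.rn.1 (some false) .stay)
      | some false => ((q.1, .chk), .stay, actOn g I.rn.1 (some true) .right)
    | .chk =>
      match readOn g I.rn.1 with
      | none => ((q.1, .era), .stay, actOn g I.rn.1 none .left)
      | some b => ((q.1, .bor), .stay, actOn g I.rn.1 (some b) .stay)
    | .era => ((q.1, .ret), .stay, actOn g I.rn.1 none .left)
    | .ret =>
      match readOn g I.rn.1 with
      | none => ((clip G I.rn.2, .go), .stay, actOn g I.rn.1 none .right)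
      | some b => ((q.1, .ret), .stay, actOn g I.rn.1 (some b) .left)

/-- The Turing machine of a goto program with `m` registers. -/
def gpTM (m : ℕ) (G : List Ins) : TM where
  k := m
  Q := Fin (G.length + 1) × Ph
  finQ := inferInstance
  Γ := Option Bool
  finΓ := inferInstance
  blank := none
  start := (clip G 0, .go)
  out := fun q => if q.2 = .go then (match G[q.1.val]? with | some (.halt b) => some b | _ => none)
    else none
  next := gpNext m G

/-- The configuration of `gpTM m G` at address `pc` with digit lists `l r` of the registers. -/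
def gpCfg (m : ℕ) (G : List Ins) (pc pos : ℕ) (l : ℕ → List Bool) : (gpTM m G).Cfg where
  st := (clip G pc, .go)
  ipos := pos
  tape := fun r => tapeOf (l r.val)
  head := fun _ => 0

end Pool.Agent.Work.MP_71c844_lc.Arr
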