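import Mathlib

/-!
# The stack-free catalytic loop (Cook-Mertz tree evaluation for every fan-in)

`V` is a vector space over the field with `p` elements, `m ≥ 1` the fan-in.  A tree of height `h` with
root index `i₀ : I` and children `ch i k`, `k < m`, has the values
`tree 0 i = leaf i`, `tree (a+1) i = G (a+1) i (fun k => tree a (ch i k))`.
Every `G a i : (Fin m → V) → V` satisfies `∑_{0 < ν < p} G (ν⁻¹ τ + x) = - G x` for all `τ, x`
(all polynomial maps of degree `< p - 1` do, `cat_poly`).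

The loop over `N = 0, …, (m p)^h - 1` works with the `2 m` registers `c x y`, `x < 2`, `y < m`, and
has no stack.  In step `N` (with `r = m p`):
* `popStep`: if `N > 0`, let `v` be the exponent of `r` in `N` and `M = N / r^v`; if `m ∣ M` then
  `c ((v+1) % 2) ((M / r) % m) -= G (v+1) (index of M / r) (((M / m) % p)⁻¹ • c (v % 2))`;
* `leafStep`: `c 0 (N % m) += leaf (index of N)`.

Theorem `cat`: at the end `c (h % 2) 0` has increased by `tree h i₀`, all other registers have their
old values.  `cat_add` is the form for an index monoid, `ch i k = i + off k`, and one map `G`.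
-/

set_option autoImplicit false

namespace Pool.Agent.Work.MP_71c844_lc.Arr

open Finset

section defs

variable {V I : Type*}

/-- the values of the tree -/
def tree {m : ℕ} (G : ℕ → I → (Fin m → V) → V) (ch : I → ℕ → I) (leaf : I → V) : ℕ → I → V
  | 0, i => leaf i
  | a + 1, i => G (a + 1) i (fun k => tree G ch leaf a (ch i k.1))

/-- add `v` to the register `(x, y)` -/
def addAt [Add V] (c : ℕ → ℕ → V) (x y : ℕ) (v : V) : ℕ → ℕ → V :=
  fun x' y' => if x' = x ∧ y' = y then c x' y' + v else c x' y'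

/-- the exponent of `r` in `N` -/
def vv (r N : ℕ) : ℕ := Nat.findGreatest (fun v => r ^ v ∣ N) N

/-- the index of the node of level `h - n` which is number `u` in the order of the loop -/
def ix (m r : ℕ) (ch : I → ℕ → I) (i₀ : I) : ℕ → ℕ → I
  | 0, _ => i₀
  | n + 1, u => ch (ix m r ch i₀ n (u / r)) (u % m)

end defs

section steps

variable {V I : Type*} [AddCommGroup V] (m p : ℕ) [Module (ZMod p) V]

/-- the part of step `N` which ends calls -/
def popStep (G : ℕ → I → (Fin m → V) → V) (ch : I → ℕ → I) (i₀ : I) (h N : ℕ)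
    (c : ℕ → ℕ → V) : ℕ → ℕ → V :=
  if N ≠ 0 ∧ (N / (m * p) ^ vv (m * p) N) % m = 0 then
    addAt c ((vv (m * p) N + 1) % 2) ((N / (m * p) ^ vv (m * p) N / (m * p)) % m)
      (- G (vv (m * p) N + 1)
        (ix m (m * p) ch i₀ (h - (vv (m * p) N + 1)) (N / (m * p) ^ vv (m * p) N / (m * p)))
        (fun d => (((N / (m * p) ^ vv (m * p) N / m) % p : ℕ) : ZMod p)⁻¹ •
          c (vv (m * p) N % 2) d.1))
  else c

omit [Module (ZMod p) V] in
/-- the part of step `N` which evaluates a leaf -/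
def leafStep (leaf : I → V) (ch : I → ℕ → I) (i₀ : I) (h N : ℕ) (c : ℕ → ℕ → V) : ℕ → ℕ → V :=
  addAt c 0 (N % m) (leaf (ix m (m * p) ch i₀ h N))

/-- the steps `s, …, s + L - 1` of the loop -/
def seg (G : ℕ → I → (Fin m → V) → V) (ch : I → ℕ → I) (leaf : I → V) (i₀ : I) (h s : ℕ) :
    ℕ → (ℕ → ℕ → V) → (ℕ → ℕ → V)
  | 0, c => c
  | L + 1, c =>
    leafStep m p leaf ch i₀ h (s + L) (popStep m p G ch i₀ h (s + L) (seg G ch leaf i₀ h s L c))

theorem seg_add (G : ℕ → I → (Fin m → V) → V) (ch : I → ℕ → I) (leaf : I → V) (i₀ : I)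
    (h s L L' : ℕ) (c : ℕ → ℕ → V) :
    seg m p G ch leaf i₀ h s (L + L') c =
      seg m p G ch leaf i₀ h (s + L) L' (seg m p G ch leaf i₀ h s L c) := by
  induction L' with
  | zero => rfl
  | succ L' ih =>
    rw [← Nat.add_assoc]
    simp only [seg]
    rw [ih, Nat.add_assoc]

theorem vv_eq {r : ℕ} (hr : 2 ≤ r) (M a : ℕ) (hM : ¬ r ∣ M) : vv r (M * r ^ a) = a := by
  have hM0 : M ≠ 0 := by
    rintro rfl; exact hM (dvd_zero _)
  unfold vv
  rw [Nat.findGreatest_eq_iff]
  refine ⟨?_, fun _ => Dvd.intro_left _ rfl, ?_⟩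
  · calc a ≤ r ^ a := (Nat.lt_pow_self (by omega)).le
      _ ≤ M * r ^ a := Nat.le_mul_of_pos_left _ (by omega)
  · intro n hn _ hd
    have h1 : r ^ (a + 1) ∣ M * r ^ a := (pow_dvd_pow r hn).trans hd
    rw [pow_succ, mul_comm M] at h1
    exact hM (Nat.dvd_of_mul_dvd_mul_left (by positivity) h1)

/-- what `popStep` does at a number of exact exponent `a` -/
theorem popStep_eq (hm : 0 < m) (hp : 2 ≤ p) (G : ℕ → I → (Fin m → V) → V) (ch : I → ℕ → I)
    (i₀ : I) (h u j a : ℕ) (hj : 0 < j) (hj' : j < m * p) (c : ℕ → ℕ → V) :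
    popStep m p G ch i₀ h ((m * p * u + j) * (m * p) ^ a) c =
      if j % m = 0 then
        addAt c ((a + 1) % 2) (u % m)
          (- G (a + 1) (ix m (m * p) ch i₀ (h - (a + 1)) u)
            (fun d => ((j / m : ℕ) : ZMod p)⁻¹ • c (a % 2) d.1))
      else c := by
  have hr : 2 ≤ m * p := by nlinarith
  have hnd : ¬ (m * p) ∣ (m * p * u + j) := by
    intro hd
    have := (Nat.dvd_add_right (Dvd.intro u rfl)).1 hd
    exact absurd (Nat.le_of_dvd hj this) (by omega)
  have hv := vv_eq hr (m * p * u + j) a hnd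
  have hq : (m * p * u + j) * (m * p) ^ a / (m * p) ^ a = m * p * u + j :=
    Nat.mul_div_cancel _ (by positivity)
  have h3 : (m * p * u + j) % m = j % m := by
    rw [mul_assoc, Nat.mul_add_mod]
  have h4 : (m * p * u + j) / (m * p) = u := by
    rw [Nat.mul_add_div (by omega), Nat.div_eq_of_lt hj', add_zero]
  have h5 : (m * p * u + j) / m % p = j / m := by
    rw [mul_assoc, Nat.mul_add_div hm, Nat.mul_add_mod]
    exact Nat.mod_eq_of_lt ((Nat.div_lt_iff_lt_mul hm).2 (by rwa [mul_comm]))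
  have h0 : (m * p * u + j) * (m * p) ^ a ≠ 0 := by positivity
  unfold popStep
  rw [hv, hq, h3, h4, h5]
  by_cases h : j % m = 0
  · rw [if_pos ⟨h0, h⟩, if_pos h]
  · rw [if_neg (fun hh => h hh.2), if_neg h]

theorem ix_succ (hm : 0 < m) (hp : 0 < p) (ch : I → ℕ → I) (i₀ : I) (n u j : ℕ)
    (hj' : j < m * p) :
    ix m (m * p) ch i₀ (n + 1) (m * p * u + j) = ch (ix m (m * p) ch i₀ n u) (j % m) := by
  have hr : 0 < m * p := Nat.mul_pos hm hp
  simp only [ix]
  rw [Nat.mul_add_div hr, Nat.div_eq_of_lt hj', add_zero, mul_assoc, Nat.mul_add_mod]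

/-- the registers inside a call: `q` complete rounds and `s` children of the next round are
finished -/
def mid (G : (Fin m → V) → V) (c0 : ℕ → ℕ → V) (a k : ℕ) (τ : ℕ → V) (q s : ℕ) : ℕ → ℕ → V :=
  fun x y =>
    if x = a % 2 ∧ y < m then
      c0 x y + ((q + (if y < s then 1 else 0) : ℕ) : ZMod p) • τ y
    else if x = (a + 1) % 2 ∧ y = k then
      c0 x y - ∑ ν ∈ Ico 1 (q + 1), G (fun d => ((ν : ZMod p))⁻¹ • c0 (a % 2) d.1 + τ d.1)
    else c0 x y

theorem mid_zero (G : (Fin m → V) → V) (c0 : ℕ → ℕ → V) (a k : ℕ) (τ : ℕ → V) :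
    mid m p G c0 a k τ 0 0 = c0 := by
  funext x y
  unfold mid
  by_cases h : x = a % 2 ∧ y < m
  · rw [if_pos h]; simp
  · rw [if_neg h]
    by_cases h' : x = (a + 1) % 2 ∧ y = k
    · rw [if_pos h']; simp
    · rw [if_neg h']

/-- a child call adds `τ` to its register -/
theorem mid_child (G : (Fin m → V) → V) (c0 : ℕ → ℕ → V) (a k : ℕ) (τ : ℕ → V) (q s : ℕ)
    (hs : s < m) :
    addAt (mid m p G c0 a k τ q s) (a % 2) s (τ s) = mid m p G c0 a k τ q (s + 1) := by
  funext x y
  unfold addAt mid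
  by_cases h : x = a % 2 ∧ y < m
  · by_cases h2 : y = s
    · rw [if_pos ⟨h.1, h2⟩, if_pos h, if_pos h, add_assoc]
      congr 1
      subst h2
      rw [if_neg (lt_irrefl _), if_pos (Nat.lt_succ_self _), add_zero,
        Nat.cast_add (R := ZMod p) _ 1, add_smul, Nat.cast_one, one_smul]
    · rw [if_neg (fun hh => h2 hh.2), if_pos h, if_pos h]
      congr 3
      split_ifs <;> omega
  · have h2 : ¬ (x = a % 2 ∧ y = s) := fun hh => h ⟨hh.1, hh.2 ▸ hs⟩
    rw [if_neg h2, if_neg h, if_neg h]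

/-- the end of a round -/
theorem mid_pop [hpp : Fact p.Prime] (G : (Fin m → V) → V) (c0 : ℕ → ℕ → V) (a k : ℕ)
    (τ : ℕ → V) (q : ℕ) (hq : q + 1 < p) :
    addAt (mid m p G c0 a k τ q m) ((a + 1) % 2) k
      (- G (fun d => ((q + 1 : ℕ) : ZMod p)⁻¹ • mid m p G c0 a k τ q m (a % 2) d.1)) =
    mid m p G c0 a k τ (q + 1) 0 := by
  have hpar : (a + 1) % 2 ≠ a % 2 := by omega
  have hinv : ((q + 1 : ℕ) : ZMod p) ≠ 0 := by
    rw [Ne, ZMod.natCast_eq_zero_iff]
    intro hd
    have := Nat.le_of_dvd (by omega) hd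
    omega
  have hG : G (fun d => ((q + 1 : ℕ) : ZMod p)⁻¹ • mid m p G c0 a k τ q m (a % 2) d.1) =
      G (fun d => ((q + 1 : ℕ) : ZMod p)⁻¹ • c0 (a % 2) d.1 + τ d.1) := by
    congr 1
    funext d
    unfold mid
    rw [if_pos ⟨rfl, d.2⟩, if_pos d.2, smul_add, smul_smul, inv_mul_cancel₀ hinv, one_smul]
  rw [hG]
  funext x y
  unfold addAt
  by_cases hx : x = (a + 1) % 2 ∧ y = k
  · rw [if_pos hx]
    have hn : ¬ (x = a % 2 ∧ y < m) := fun hh => hpar (hx.1.symm.trans hh.1)
    unfold mid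
    rw [if_neg hn, if_neg hn, if_pos hx, if_pos hx,
      Finset.sum_Ico_succ_top (b := q + 1) (by omega)]
    abel
  · rw [if_neg hx]
    unfold mid
    by_cases hy : x = a % 2 ∧ y < m
    · rw [if_pos hy, if_pos hy, if_pos hy.2, if_neg (Nat.not_lt_zero _), add_zero]
    · rw [if_neg hy, if_neg hy, if_neg hx, if_neg hx]

theorem mid_last [hpp : Fact p.Prime] (G : (Fin m → V) → V)
    (hG : ∀ τ x : Fin m → V, ∑ ν ∈ Ico 1 p, G (fun d => ((ν : ZMod p))⁻¹ • τ d + x d) = - G x)
    (c0 : ℕ → ℕ → V) (a k : ℕ) (τ : ℕ → V) :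
    mid m p G c0 a k τ (p - 1) m = addAt c0 ((a + 1) % 2) k (G (fun d => τ d.1)) := by
  have hp : 0 < p := hpp.out.pos
  have hpar : (a + 1) % 2 ≠ a % 2 := by omega
  have e2 : p - 1 + 1 = p := by omega
  funext x y
  unfold addAt mid
  rw [e2, hG (fun d => c0 (a % 2) d.1) (fun d => τ d.1)]
  by_cases hy : x = a % 2 ∧ y < m
  · have hn : ¬ (x = (a + 1) % 2 ∧ y = k) := fun hh => hpar (hh.1.symm.trans hy.1)
    rw [if_pos hy, if_neg hn, if_pos hy.2, e2]
    simp
  · rw [if_neg hy]
    by_cases hx : x = (a + 1) % 2 ∧ y = k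
    · rw [if_pos hx, if_pos hx, sub_neg_eq_add]
    · rw [if_neg hx, if_neg hx]

/-- one call = one block of the loop -/
theorem seg_block [hpp : Fact p.Prime] (hm : 0 < m) (G : ℕ → I → (Fin m → V) → V)
    (hG : ∀ a i, ∀ τ x : Fin m → V,
      ∑ ν ∈ Ico 1 p, G a i (fun d => ((ν : ZMod p))⁻¹ • τ d + x d) = - G a i x)
    (ch : I → ℕ → I) (leaf : I → V) (i₀ : I) (h : ℕ) :
    ∀ (a : ℕ), a ≤ h → ∀ (u : ℕ) (c : ℕ → ℕ → V),
    seg m p G ch leaf i₀ h (u * (m * p) ^ a) ((m * p) ^ a) c =
      addAt (popStep m p G ch i₀ h (u * (m * p) ^ a) c) (a % 2) (u % m)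
        (tree G ch leaf a (ix m (m * p) ch i₀ (h - a) u)) := by
  have hp : 2 ≤ p := hpp.out.two_le
  have hr : 0 < m * p := Nat.mul_pos hm (by omega)
  intro a
  induction a with
  | zero =>
    intro _ u c
    simp only [pow_zero, mul_one, seg, add_zero, Nat.zero_mod, Nat.sub_zero, tree]
    rfl
  | succ a ih =>
    intro ha u c
    have ih' := ih (by omega)
    set c0 := popStep m p G ch i₀ h (u * (m * p) ^ (a + 1)) c with hc0
    set i := ix m (m * p) ch i₀ (h - (a + 1)) u with hi
    set τ : ℕ → V := fun d => tree G ch leaf a (ch i d) with hτ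
    have hs : ∀ j, u * (m * p) ^ (a + 1) + j * (m * p) ^ a = (m * p * u + j) * (m * p) ^ a := by
      intro j; ring
    have hmm : h - a = (h - (a + 1)) + 1 := by omega
    have hix : ∀ j, j < m * p → ix m (m * p) ch i₀ (h - a) (m * p * u + j) = ch i (j % m) := by
      intro j hj
      rw [hmm, ix_succ m p hm (by omega) ch i₀ _ u j hj]
    have hmod : ∀ j, (m * p * u + j) % m = j % m := by
      intro j
      rw [mul_assoc, Nat.mul_add_mod]
    -- after `j + 1` children
    have key : ∀ j, j < m * p →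
        seg m p G ch leaf i₀ h (u * (m * p) ^ (a + 1)) ((j + 1) * (m * p) ^ a) c =
          mid m p (G (a + 1) i) c0 a (u % m) τ (j / m) (j % m + 1) := by
      intro j
      induction j with
      | zero =>
        intro _
        rw [Nat.zero_div, Nat.zero_mod, ← mid_child m p _ c0 a (u % m) τ 0 0 hm, mid_zero,
          zero_add, one_mul]
        have h0 := ih' (m * p * u) c
        have e : m * p * u * (m * p) ^ a = u * (m * p) ^ (a + 1) := by ring
        rw [e] at h0
        rw [h0, ← hc0]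
        have e2 := hmod 0
        have e3 := hix 0 hr
        rw [add_zero] at e2 e3
        rw [e2, e3, Nat.zero_mod]
      | succ j ihj =>
        intro hj
        have h1 := ihj (by omega)
        have e : (j + 1 + 1) * (m * p) ^ a = (j + 1) * (m * p) ^ a + (m * p) ^ a := by ring
        have hlt : (j + 1) % m < m := Nat.mod_lt _ hm
        rw [e, seg_add, h1, hs (j + 1), ih' (m * p * u + (j + 1)), hix (j + 1) hj, hmod (j + 1),
          ← mid_child m p _ c0 a (u % m) τ ((j + 1) / m) ((j + 1) % m) hlt,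
          popStep_eq m p hm hp G ch i₀ h u (j + 1) a (by omega) hj]
        congr 1
        have hdm := Nat.div_add_mod j m
        have hjm : j % m < m := Nat.mod_lt _ hm
        by_cases h3 : j % m + 1 = m
        · have e4 : j + 1 = m * (j / m + 1) := by
            rw [mul_add, mul_one]; omega
          have e5 : (j + 1) % m = 0 := by rw [e4]; exact Nat.mul_mod_right _ _
          have e6 : (j + 1) / m = j / m + 1 := by
            conv_lhs => rw [e4]
            exact Nat.mul_div_cancel_left _ hm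
          have e7 : j / m + 1 < p := by
            rw [← e6]
            exact (Nat.div_lt_iff_lt_mul hm).2 (by rwa [mul_comm])
          rw [if_pos e5, e5, e6, h3]
          exact mid_pop m p (G (a + 1) i) c0 a (u % m) τ (j / m) e7
        · have e4 : j + 1 = m * (j / m) + (j % m + 1) := by omega
          have e5 : (j + 1) % m = j % m + 1 := by
            conv_lhs => rw [e4]
            rw [Nat.mul_add_mod]
            exact Nat.mod_eq_of_lt (by omega)
          have e6 : (j + 1) / m = j / m := by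
            conv_lhs => rw [e4]
            rw [Nat.mul_add_div hm, Nat.div_eq_of_lt (show j % m + 1 < m by omega), add_zero]
          rw [if_neg (by omega), e5, e6]
    have hk := key (m * p - 1) (by omega)
    have e1 : m * p - 1 + 1 = m * p := by omega
    have e8 : m * p - 1 = m * (p - 1) + (m - 1) := by
      obtain ⟨p', rfl⟩ : ∃ p', p = p' + 1 := ⟨p - 1, by omega⟩
      rw [Nat.add_sub_cancel, mul_add]
      omega
    have e2 : (m * p - 1) / m = p - 1 := by
      rw [e8, Nat.mul_add_div hm, Nat.div_eq_of_lt (by omega), add_zero]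
    have e3 : (m * p - 1) % m + 1 = m := by
      rw [e8, Nat.mul_add_mod, Nat.mod_eq_of_lt (by omega)]
      omega
    rw [e1, ← pow_succ', e2, e3, mid_last m p _ (hG (a + 1) i) c0 a (u % m) τ] at hk
    exact hk

/-- **The catalytic loop.** -/
theorem cat [hpp : Fact p.Prime] (hm : 0 < m) (G : ℕ → I → (Fin m → V) → V)
    (hG : ∀ a i, ∀ τ x : Fin m → V,
      ∑ ν ∈ Ico 1 p, G a i (fun d => ((ν : ZMod p))⁻¹ • τ d + x d) = - G a i x)
    (ch : I → ℕ → I) (leaf : I → V) (i₀ : I) (h : ℕ) (c : ℕ → ℕ → V) :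
    seg m p G ch leaf i₀ h 0 ((m * p) ^ h) c = addAt c (h % 2) 0 (tree G ch leaf h i₀) := by
  have := seg_block m p hm G hG ch leaf i₀ h h le_rfl 0 c
  rw [zero_mul, Nat.sub_self, Nat.zero_mod] at this
  rw [this]
  congr 1

end steps

/-! ### The form for an index monoid and one map `G` -/

section add

variable {V I : Type*} [AddCommGroup V] [AddCommMonoid I] (m p : ℕ) [Module (ZMod p) V]

/-- step `N` of the loop, index monoid, one map `G` -/
def stepA (gt : (Fin m → V) → V) (leaf : I → V) (off : ℕ → I) (i₀ : I) (h N : ℕ)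
    (c : ℕ → ℕ → V) : ℕ → ℕ → V :=
  let v := vv (m * p) N
  let M := N / (m * p) ^ v
  addAt
    (if N ≠ 0 ∧ M % m = 0 then
      addAt c ((v + 1) % 2) ((M / (m * p)) % m)
        (- gt (fun d => (((M / m) % p : ℕ) : ZMod p)⁻¹ • c (v % 2) d.1))
    else c) 0 (N % m) (leaf (i₀ + ∑ a ∈ range h, off ((N / (m * p) ^ a) % m)))

/-- `L` steps of the loop -/
def loopA (gt : (Fin m → V) → V) (leaf : I → V) (off : ℕ → I) (i₀ : I) (h : ℕ) :
    ℕ → (ℕ → ℕ → V) → (ℕ → ℕ → V)
  | 0, c => c
  | L + 1, c => stepA m p gt leaf off i₀ h L (loopA gt leaf off i₀ h L c)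

theorem ix_add (r : ℕ) (off : ℕ → I) (i₀ : I) (n u : ℕ) :
    ix m r (fun i k => i + off k) i₀ n u = i₀ + ∑ a ∈ range n, off ((u / r ^ a) % m) := by
  induction n generalizing u with
  | zero => simp [ix]
  | succ n ih =>
    simp only [ix]
    rw [ih, Finset.sum_range_succ', add_assoc, pow_zero, Nat.div_one]
    congr 2
    apply Finset.sum_congr rfl
    intro a _
    rw [pow_succ', Nat.div_div_eq_div_mul]

theorem loopA_eq (gt : (Fin m → V) → V) (leaf : I → V) (off : ℕ → I) (i₀ : I) (h L : ℕ)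
    (c : ℕ → ℕ → V) :
    loopA m p gt leaf off i₀ h L c =
      seg m p (fun _ _ => gt) (fun i k => i + off k) leaf i₀ h 0 L c := by
  induction L with
  | zero => rfl
  | succ L ih =>
    simp only [loopA, seg]
    rw [← ih, zero_add]
    unfold stepA leafStep popStep
    simp only [ix_add]

/-- **The catalytic loop** for `T (a+1) i = gt (fun k => T a (i + off k))`. -/
theorem cat_add [hpp : Fact p.Prime] (hm : 0 < m) (gt : (Fin m → V) → V)
    (hG : ∀ τ x : Fin m → V,
      ∑ ν ∈ Ico 1 p, gt (fun d => ((ν : ZMod p))⁻¹ • τ d + x d) = - gt x)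
    (off : ℕ → I) (T : ℕ → I → V) (hT : ∀ a i, T (a + 1) i = gt (fun k => T a (i + off k.1)))
    (i₀ : I) (h : ℕ) (c : ℕ → ℕ → V) :
    loopA m p gt (T 0) off i₀ h ((m * p) ^ h) c = addAt c (h % 2) 0 (T h i₀) := by
  rw [loopA_eq, cat m p hm (fun _ _ => gt) (fun _ _ => hG) (fun i k => i + off k) (T 0) i₀ h c]
  congr 1
  have key : ∀ a i, tree (fun _ _ => gt) (fun i k => i + off k) (T 0) a i = T a i := by
    intro a
    induction a with
    | zero => intro i; rfl
    | succ a ih =>
      intro i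
      simp only [tree, ih, hT]
  exact key h i₀

end add

/-! ### The identity -/

section poly

variable {p : ℕ} [hpp : Fact p.Prime]

/-- summation over `ν⁻¹`, `0 < ν < p`, is summation over the nonzero elements of the field -/
theorem sum_inv {V : Type*} [AddCommMonoid V] (f : ZMod p → V) :
    ∑ ν ∈ Ico 1 p, f ((ν : ZMod p))⁻¹ = ∑ lam : (ZMod p)ˣ, f (lam : ZMod p) := by
  have h1 : ∀ ν ∈ Ico 1 p, ((ν : ℕ) : ZMod p) ≠ 0 := by
    intro ν hν
    rw [mem_Ico] at hν
    rw [Ne, ZMod.natCast_eq_zero_iff]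
    intro hd
    have := Nat.le_of_dvd (by omega) hd
    omega
  refine Finset.sum_bij (fun ν hν => (Units.mk0 _ (h1 ν hν))⁻¹) (fun _ _ => mem_univ _) ?_ ?_ ?_
  · intro a ha b hb hab
    have h2 : ((a : ℕ) : ZMod p) = ((b : ℕ) : ZMod p) := by
      have := inv_injective hab
      have h3 := congrArg (fun z : (ZMod p)ˣ => (z : ZMod p)) this
      simpa using h3
    rw [mem_Ico] at ha hb
    have h3 := congrArg ZMod.val h2
    rwa [ZMod.val_cast_of_lt ha.2, ZMod.val_cast_of_lt hb.2] at h3
  · intro b _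
    have hb0 : ((b⁻¹ : (ZMod p)ˣ) : ZMod p) ≠ 0 := Units.ne_zero _
    refine ⟨((b⁻¹ : (ZMod p)ˣ) : ZMod p).val, ?_, ?_⟩
    · rw [mem_Ico]
      refine ⟨?_, ZMod.val_lt _⟩
      have : ((b⁻¹ : (ZMod p)ˣ) : ZMod p).val ≠ 0 := by
        rwa [Ne, ZMod.val_eq_zero]
      omega
    · apply Units.ext
      rw [Units.val_inv_eq_inv_val, Units.val_mk0, ZMod.natCast_zmod_val,
        Units.val_inv_eq_inv_val, inv_inv]
  · intro a ha
    simp

/-- the identity for a polynomial of degree `< p - 1` in one variable -/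
theorem sum_units_eval (P : Polynomial (ZMod p)) (hP : P.natDegree < p - 1) :
    ∑ lam : (ZMod p)ˣ, P.eval (lam : ZMod p) = - P.eval 0 := by
  have hcard : Fintype.card (ZMod p) = p := ZMod.card p
  simp_rw [Polynomial.eval_eq_sum_range]
  rw [Finset.sum_comm, Finset.sum_range_succ', Finset.sum_range_succ']
  have h0 : ∀ i ∈ range P.natDegree,
      ∑ lam : (ZMod p)ˣ, P.coeff (i + 1) * (lam : ZMod p) ^ (i + 1) = 0 := by
    intro i hi
    rw [mem_range] at hi
    rw [← Finset.mul_sum]
    have h1 := FiniteField.sum_pow_units (ZMod p) (i + 1)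
    rw [hcard, if_neg] at h1
    · rw [h1, mul_zero]
    · intro hd
      have := Nat.le_of_dvd (by omega) hd
      omega
  rw [Finset.sum_congr rfl h0]
  simp only [Finset.sum_const_zero, zero_add, pow_zero, mul_one, ne_eq, Nat.add_eq_zero_iff,
    one_ne_zero, and_false, not_false_eq_true, zero_pow, mul_zero]
  rw [Finset.sum_const, Finset.card_univ, ZMod.card_units, nsmul_eq_mul, Nat.cast_sub hpp.out.one_le]
  simp

/-- every map which has degree `< p - 1` along all lines satisfies the identity -/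
theorem cat_poly {m : ℕ} {κ : Type*} (gt : (Fin m → κ → ZMod p) → κ → ZMod p)
    (hgt : ∀ (τ x : Fin m → κ → ZMod p) (j : κ), ∃ P : Polynomial (ZMod p),
      P.natDegree < p - 1 ∧ ∀ lam : ZMod p, gt (fun d => lam • τ d + x d) j = P.eval lam)
    (τ x : Fin m → κ → ZMod p) :
    ∑ ν ∈ Ico 1 p, gt (fun d => ((ν : ZMod p))⁻¹ • τ d + x d) = - gt x := by
  funext j
  obtain ⟨P, hP, hP'⟩ := hgt τ x j
  have h1 := sum_inv (p := p) (fun lam => gt (fun d => lam • τ d + x d))
  rw [h1, Finset.sum_apply]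
  simp_rw [hP']
  rw [sum_units_eval P hP, ← hP' 0]
  simp

/-- sums of products of polynomials in the single coordinates -/
theorem cat_prod {m : ℕ} {κ Y : Type*} [Fintype κ] (S : Finset Y)
    (co : Y → κ → ZMod p) (pl : Y → Fin m → κ → Polynomial (ZMod p))
    (hdeg : ∀ y ∈ S, ∑ d : Fin m, ∑ l : κ, (pl y d l).natDegree < p - 1)
    (τ x : Fin m → κ → ZMod p) :
    ∑ ν ∈ Ico 1 p, (fun x : Fin m → κ → ZMod p => fun j => ∑ y ∈ S, co y j *
        ∏ d : Fin m, ∏ l : κ, (pl y d l).eval (x d l)) (fun d => ((ν : ZMod p))⁻¹ • τ d + x d) =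
      - (fun x : Fin m → κ → ZMod p => fun j => ∑ y ∈ S, co y j *
        ∏ d : Fin m, ∏ l : κ, (pl y d l).eval (x d l)) x := by
  refine cat_poly (fun x : Fin m → κ → ZMod p => fun j => ∑ y ∈ S, co y j *
        ∏ d : Fin m, ∏ l : κ, (pl y d l).eval (x d l)) ?_ τ x
  intro τ x j
  have hp : 2 ≤ p := hpp.out.two_le
  refine ⟨∑ y ∈ S, Polynomial.C (co y j) * ∏ d : Fin m, ∏ l : κ,
    (pl y d l).comp (Polynomial.C (τ d l) * Polynomial.X + Polynomial.C (x d l)), ?_, ?_⟩
  · have hb : ∀ y ∈ S, (Polynomial.C (co y j) * ∏ d : Fin m, ∏ l : κ,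
        (pl y d l).comp (Polynomial.C (τ d l) * Polynomial.X + Polynomial.C (x d l))).natDegree <
          p - 1 := by
      intro y hy
      refine lt_of_le_of_lt ?_ (hdeg y hy)
      refine (Polynomial.natDegree_C_mul_le _ _).trans ?_
      refine (Polynomial.natDegree_prod_le _ _).trans ?_
      refine Finset.sum_le_sum fun d _ => ?_
      refine (Polynomial.natDegree_prod_le _ _).trans ?_
      refine Finset.sum_le_sum fun l _ => ?_
      refine Polynomial.natDegree_comp_le.trans ?_
      calc (pl y d l).natDegree *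
            (Polynomial.C (τ d l) * Polynomial.X + Polynomial.C (x d l)).natDegree
          ≤ (pl y d l).natDegree * 1 := Nat.mul_le_mul_left _ Polynomial.natDegree_linear_le
        _ = _ := mul_one _
    by_cases hS : S.Nonempty
    · have := Polynomial.natDegree_sum_le_of_forall_le (n := p - 1 - 1) S
        (fun y => Polynomial.C (co y j) * ∏ d : Fin m, ∏ l : κ,
          (pl y d l).comp (Polynomial.C (τ d l) * Polynomial.X + Polynomial.C (x d l)))
        (fun y hy => by have := hb y hy; omega)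
      obtain ⟨y, hy⟩ := hS
      have h2 := hb y hy
      omega
    · rw [Finset.not_nonempty_iff_eq_empty] at hS
      rw [hS, Finset.sum_empty, Polynomial.natDegree_zero]
      omega
  · intro lam
    rw [Polynomial.eval_finsetSum]
    refine Finset.sum_congr rfl fun y _ => ?_
    rw [Polynomial.eval_mul, Polynomial.eval_C, Polynomial.eval_prod]
    congr 1
    refine Finset.prod_congr rfl fun d _ => ?_
    rw [Polynomial.eval_prod]
    refine Finset.prod_congr rfl fun l _ => ?_
    rw [Polynomial.eval_comp, Polynomial.eval_add, Polynomial.eval_mul, Polynomial.eval_C,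
      Polynomial.eval_X, Polynomial.eval_C, mul_comm (τ d l)]
    rfl

end poly

end Pool.Agent.Work.MP_71c844_lc.Arr
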