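/-
Block ARR (problem MP_71c844_lc), item D1: facts on digits.
-/
import Pool.Agent.Work.MP_71c844_lc.Arr.StmtsG
import Pool.Agent.Work.MP_71c844_lc.Arr.LoopN

namespace Pool.Agent.Work.MP_71c844_lc.Arr

open Finset

namespace XD1

theorem dg_dg' (a R k c x : ℕ) (hc : c < R) :
    dg a (k * R + c) x = dg a c (dg (a ^ R) k x) := by
  rcases Nat.eq_zero_or_pos a with ha | ha
  · subst ha
    have hR : R ≠ 0 := by omega
    unfold dg
    rw [zero_pow hR, Nat.mod_zero, Nat.mod_zero, Nat.mod_zero, Nat.div_div_eq_div_mul]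
    congr 1
    rcases Nat.eq_zero_or_pos k with hk | hk
    · subst hk
      simp
    · have h1 : k * R + c ≠ 0 := by
        have := Nat.mul_pos hk (Nat.pos_of_ne_zero hR)
        omega
      rw [zero_pow h1, zero_pow (by omega), zero_mul]
  · exact (Arr.dg_dg a R k c x ha hc).symm

end XD1

theorem prf_D1 : S_D1 where
  dg_ofd a n k f hf hk := Arr.dg_ofd hf hk
  dg_ofd' a n k f hf hk := by
    rcases Nat.eq_zero_or_pos n with hn | hn
    · subst hn
      simp [ofd, dg]
    · exact Arr.dg_of_lt (lt_of_le_of_lt (Nat.zero_le _) (hf 0 hn)) (Arr.ofd_lt hf) hk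
  ofd_lt a n f _ hf := Arr.ofd_lt hf
  ofd_dg a n x hx := Arr.ofd_dg hx
  ofM_eq M a n f _ hM hf := Arr.ofM_eq hf hM
  ofd_congr a n f g h := Arr.ofd_congr h
  dg_pow a R k c x hc := XD1.dg_dg' a R k c x hc
  dg_zero a R x hR := by
    unfold dg
    rw [pow_zero, Nat.div_one]
    exact Nat.mod_mod_of_dvd x (dvd_pow_self a (by omega))

end Pool.Agent.Work.MP_71c844_lc.Arr
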