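/-
Block ARR (problem MP_71c844_lc): assembly of the upper bound.  Author: helper58.
-/
import Pool.Agent.Work.MP_71c844_lc.Arr.StmtsG

namespace Pool.Agent.Work.MP_71c844_lc.Arr

open Finset

namespace FA

/-- Constants inside the time bound do not matter. -/
theorem scale (d : ℕ) (hd : 1 ≤ d) (C : ℕ) : ∃ K : ℕ, ∀ T : ℕ,
    (((C * T + C : ℕ) : ℝ) * Real.log (((C * T + C : ℕ) : ℝ) + 2)) ^ ((d : ℝ) / ((d : ℝ) + 1)) ≤
      K * ((T : ℝ) * Real.log ((T : ℝ) + 2)) ^ ((d : ℝ) / ((d : ℝ) + 1)) + K := by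
  set α : ℝ := (d : ℝ) / ((d : ℝ) + 1) with hα
  have hd' : (1 : ℝ) ≤ d := by exact_mod_cast hd
  have hα0 : 0 < α := by positivity
  have hα1 : α ≤ 1 := by
    rw [hα, div_le_one (by positivity)]; linarith
  -- constant for `T ≥ 1`
  set k : ℝ := (2 * (C : ℝ)) * (Real.log (2 * (C : ℝ) + 1) + 1) + 1 with hk
  have hC0 : (0 : ℝ) ≤ C := Nat.cast_nonneg _
  have hl0 : 0 ≤ Real.log (2 * (C : ℝ) + 1) := Real.log_nonneg (by linarith)
  have hk1 : 1 ≤ k := by
    have : 0 ≤ (2 * (C : ℝ)) * (Real.log (2 * (C : ℝ) + 1) + 1) := by positivity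
    linarith
  set k0 : ℝ := ((C : ℝ) * Real.log ((C : ℝ) + 2)) ^ α with hk0
  have hk00 : 0 ≤ k0 := Real.rpow_nonneg (mul_nonneg hC0 (Real.log_nonneg (by linarith))) _
  obtain ⟨K, hK⟩ := exists_nat_ge (k + k0)
  refine ⟨K, fun T => ?_⟩
  rcases Nat.eq_zero_or_pos T with hT | hT
  · subst hT
    simp only [mul_zero, zero_add, Nat.cast_zero, zero_mul]
    rw [Real.zero_rpow hα0.ne', mul_zero, zero_add]
    linarith
  · have hT' : (1 : ℝ) ≤ T := by exact_mod_cast hT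
    have h1 : (((C * T + C : ℕ) : ℝ)) ≤ 2 * C * T := by
      push_cast
      nlinarith
    have h2 : Real.log (((C * T + C : ℕ) : ℝ) + 2) ≤
        (Real.log (2 * (C : ℝ) + 1) + 1) * Real.log ((T : ℝ) + 2) := by
      have h3 : (((C * T + C : ℕ) : ℝ) + 2) ≤ (2 * (C : ℝ) + 1) * ((T : ℝ) + 2) := by
        push_cast
        nlinarith
      have h4 : Real.log (((C * T + C : ℕ) : ℝ) + 2) ≤
          Real.log ((2 * (C : ℝ) + 1) * ((T : ℝ) + 2)) := Real.log_le_log (by positivity) h3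
      rw [Real.log_mul (by positivity) (by positivity)] at h4
      have h5 : 1 ≤ Real.log ((T : ℝ) + 2) := by
        rw [Real.le_log_iff_exp_le (by positivity)]
        have := Real.exp_one_lt_d9
        linarith
      nlinarith
    have hlT : 0 ≤ Real.log ((T : ℝ) + 2) := Real.log_nonneg (by linarith)
    have h6 : ((C * T + C : ℕ) : ℝ) * Real.log (((C * T + C : ℕ) : ℝ) + 2) ≤
        k * ((T : ℝ) * Real.log ((T : ℝ) + 2)) := by
      have h7 : ((C * T + C : ℕ) : ℝ) * Real.log (((C * T + C : ℕ) : ℝ) + 2) ≤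
          (2 * C * T) * ((Real.log (2 * (C : ℝ) + 1) + 1) * Real.log ((T : ℝ) + 2)) := by
        apply mul_le_mul h1 h2 (Real.log_nonneg _) (by positivity)
        have : (0 : ℝ) ≤ ((C * T + C : ℕ) : ℝ) := Nat.cast_nonneg _
        linarith
      refine le_trans h7 ?_
      have h8 : (2 * (C : ℝ)) * (Real.log (2 * (C : ℝ) + 1) + 1) ≤ k := by linarith
      have h9 : 0 ≤ (T : ℝ) * Real.log ((T : ℝ) + 2) := mul_nonneg (by positivity) hlT
      nlinarith [mul_le_mul_of_nonneg_right h8 h9]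
    have h10 : 0 ≤ ((C * T + C : ℕ) : ℝ) * Real.log (((C * T + C : ℕ) : ℝ) + 2) := by
      apply mul_nonneg (Nat.cast_nonneg _) (Real.log_nonneg _)
      have : (0 : ℝ) ≤ ((C * T + C : ℕ) : ℝ) := Nat.cast_nonneg _
      linarith
    have h11 := Real.rpow_le_rpow h10 h6 hα0.le
    rw [Real.mul_rpow (x := k) (by linarith) (mul_nonneg (by positivity) hlT)] at h11
    have h12 : k ^ α ≤ k := by
      calc k ^ α ≤ k ^ (1 : ℝ) := Real.rpow_le_rpow_of_exponent_le hk1 hα1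
        _ = k := Real.rpow_one k
    have h13 : 0 ≤ ((T : ℝ) * Real.log ((T : ℝ) + 2)) ^ α := Real.rpow_nonneg (mul_nonneg (by positivity) hlT) _
    have h14 : k ≤ K := by linarith
    have h15 : (0 : ℝ) ≤ K := by linarith
    calc _ ≤ k ^ α * ((T : ℝ) * Real.log ((T : ℝ) + 2)) ^ α := h11
      _ ≤ K * ((T : ℝ) * Real.log ((T : ℝ) + 2)) ^ α := by
        apply mul_le_mul_of_nonneg_right _ h13
        linarith
      _ ≤ _ := by linarith

/-- First verdicts are unique. -/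
theorem unique {d : ℕ} (A : CA d) (x : Inp) {t t' : ℕ} {v v' : Bool}
    (h : A.FirstVerdict x t v) (h' : A.FirstVerdict x t' v') : t = t' ∧ v = v' := by
  obtain ⟨h1, h2⟩ := h
  obtain ⟨h3, h4⟩ := h'
  rcases lt_trichotomy t t' with hl | hl | hl
  · have := h4 t hl
    rw [h1] at this
    cases this
  · subst hl
    rw [h1] at h3
    exact ⟨rfl, Option.some.inj h3⟩
  · have := h2 t' hl
    rw [h3] at this
    cases this

theorem vcode_ne_zero {o : Option Bool} (h : vcode o ≠ 0) : ∃ v, o = some v := by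
  cases o with
  | none => exact absurd rfl h
  | some v => exact ⟨v, rfl⟩

theorem vcode_eq_one {v : Bool} : vcode (some v) = 1 ↔ v = true := by
  cases v <;> simp [vcode]

theorem vcode_some_ne (v : Bool) : vcode (some v) ≠ 0 := by
  cases v <;> simp [vcode]

/-- The facts from the items which are used below. -/
structure Facts : Prop where
  c3 : S_C3
  c2 : S_C2
  d1 : D1
  g4 : S_G4
  g5 : S_G5
  c1 : S_C1
  v1 : S_V1
  v2 : S_V2
  v3 : S_V3
  p1 : S_P1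

/-- The time which the parameters for `M` give. -/
def tim (d a M : ℕ) : ℕ := bOf d a M * (bOf d a M ^ d / rOf (bOf d a M))

/-- The verdict number of the search is the code of the first verdict. -/
theorem ver (H : Facts) {d : ℕ} (hd : 1 ≤ d) (A : CA d) (q tb et vt a : ℕ)
    (cd : A.sticky.Q → ℕ) (hc : Coded A.sticky q tb et vt cd)
    (hg : ∀ M, bOf d a M ≠ 0 → Good M d q (bOf d a M)) (x : List Bool) (m Y M : ℕ)
    (hM : bOf d a M ≠ 0) :
    verN x m Y M d q tb et vt a =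
      vcode (fstV (fun s => A.out (A.conf (x, wd m Y) s (fun _ => 0))) (tim d a M)) := by
  rw [H.c3 H.c2 H.d1 H.g4 H.g5 H.c1 m Y M d q A.sticky tb et vt a cd x hM (hg M hM) hd hc]
  have := (H.v1 d A (x, wd m Y) (tim d a M) (fun _ => 0)).2
  rw [← this]
  rfl

theorem ver_zero (x : List Bool) (m Y M d q tb et vt a : ℕ) (h : bOf d a M = 0) :
    verN x m Y M d q tb et vt a = 0 := by
  unfold verN
  rw [if_pos h]

/-- If the first verdict comes in time, the number shows it. -/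
theorem ver_of (H : Facts) {d : ℕ} (hd : 1 ≤ d) (A : CA d) (q tb et vt a : ℕ)
    (cd : A.sticky.Q → ℕ) (hc : Coded A.sticky q tb et vt cd)
    (hg : ∀ M, bOf d a M ≠ 0 → Good M d q (bOf d a M)) (x : List Bool) (m Y M : ℕ)
    (hM : bOf d a M ≠ 0) {t : ℕ} {v : Bool} (hv : A.FirstVerdict (x, wd m Y) t v)
    (ht : t ≤ tim d a M) : verN x m Y M d q tb et vt a = vcode (some v) := by
  rw [ver H hd A q tb et vt a cd hc hg x m Y M hM]
  congr 1
  rw [H.v2]
  exact ⟨t, ht, hv.1, hv.2⟩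

/-- If the number is not zero, it shows the first verdict. -/
theorem of_ver (H : Facts) {d : ℕ} (hd : 1 ≤ d) (A : CA d) (q tb et vt a : ℕ)
    (cd : A.sticky.Q → ℕ) (hc : Coded A.sticky q tb et vt cd)
    (hg : ∀ M, bOf d a M ≠ 0 → Good M d q (bOf d a M)) (x : List Bool) (m Y M : ℕ)
    (h0 : verN x m Y M d q tb et vt a ≠ 0) :
    ∃ (t : ℕ) (v : Bool), A.FirstVerdict (x, wd m Y) t v ∧
      verN x m Y M d q tb et vt a = vcode (some v) := by
  have hb : bOf d a M ≠ 0 := fun hb => h0 (ver_zero x m Y M d q tb et vt a hb)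
  have h1 := ver H hd A q tb et vt a cd hc hg x m Y M hb
  rw [h1] at h0
  obtain ⟨v, hv⟩ := vcode_ne_zero h0
  rw [hv] at h1
  rw [H.v2] at hv
  obtain ⟨t, _, h2, h3⟩ := hv
  exact ⟨t, v, ⟨h2, h3⟩, h1⟩

theorem log_add_two (n : ℕ) : Nat.log 2 (n + 2) ≤ Nat.log 2 n + 2 := by
  have h10 : n < 2 ^ (Nat.log 2 n + 1) := Nat.lt_pow_succ_log_self (by norm_num) _
  have h11 : n + 2 < 2 ^ (Nat.log 2 n + 3) := by
    have h12 : 2 ^ (Nat.log 2 n + 3) = 4 * 2 ^ (Nat.log 2 n + 1) := by ring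
    have h13 : 2 ≤ 2 ^ (Nat.log 2 n + 1) := by
      calc 2 = 2 ^ 1 := rfl
        _ ≤ _ := Nat.pow_le_pow_right (by norm_num) (by omega)
    omega
  have := Nat.log_lt_of_lt_pow (by omega) h11
  omega

/-- The space bound. -/
theorem bound (C2 K l lg : ℕ) (S S' : ℝ) (h14 : (lg : ℝ) ≤ C2 * S' + C2 * l + C2)
    (h15 : S' ≤ K * S + K) :
    Nat.log 2 (0 + 2) ≤ 1 ∧ (lg + 2 : ℕ) ≤
      (C2 * K + C2 + 2) * (l + ⌈S⌉₊) + (C2 * K + C2 + 2) := by
  refine ⟨by norm_num, ?_⟩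
  have hS0 : S ≤ (⌈S⌉₊ : ℝ) := Nat.le_ceil S
  have hc2 : (0 : ℝ) ≤ C2 := Nat.cast_nonneg _
  have hk2 : (0 : ℝ) ≤ K := Nat.cast_nonneg _
  have hs2 : (0 : ℝ) ≤ (⌈S⌉₊ : ℝ) := Nat.cast_nonneg _
  have hl2 : (0 : ℝ) ≤ l := Nat.cast_nonneg _
  have h16 : (C2 : ℝ) * S' ≤ C2 * (K * ⌈S⌉₊ + K) := by
    apply mul_le_mul_of_nonneg_left _ hc2
    have := mul_le_mul_of_nonneg_left hS0 hk2
    linarith
  have h17 : (((lg + 2 : ℕ)) : ℝ) ≤
      (((C2 * K + C2 + 2) * (l + ⌈S⌉₊) + (C2 * K + C2 + 2) : ℕ) : ℝ) := by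
    push_cast
    nlinarith [mul_nonneg (mul_nonneg hc2 hk2) hs2, mul_nonneg hc2 hs2, mul_nonneg hc2 hk2,
      mul_nonneg (mul_nonneg hc2 hk2) hl2]
  exact_mod_cast h17

/-- `wd 0 0` is the empty word. -/
theorem wd_zero : wd 0 0 = [] := rfl

end FA

/-- The search theorem for a family `DS` of space classes. -/
def SearchFor (DS : (ℕ → ℕ) → Set (Set (List Bool))) : Prop :=
  ∀ (F : List Bool → ℕ → ℕ) (B0 : ℕ → ℕ),
    LSC (fun (_ : Unit) (M : ℕ) => M) F → (∀ x : List Bool, ∃ M ≤ B0 x.length, F x M ≠ 0) →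
    {x | ∃ M, F x M = 1 ∧ ∀ M' < M, F x M' = 0} ∈ DS (fun n => Nat.log 2 (B0 n + 2))

/-- Space classes grow with the bound, up to constants. -/
def MonoFor (DS : (ℕ → ℕ) → Set (Set (List Bool))) : Prop :=
  ∀ (S S' : ℕ → ℕ) (C : ℕ), (∀ n, S n ≤ C * S' n + C) → DS S ⊆ DS S'

/-- The language of a search function whose nonzero values are correct. -/
theorem search_eq (F : List Bool → ℕ → ℕ) (L : Set (List Bool))
    (hnz : ∀ x, ∃ M, F x M ≠ 0) (hcor : ∀ (x : List Bool) (M : ℕ), F x M ≠ 0 →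
      (F x M = 1 ↔ x ∈ L)) :
    {x | ∃ M, F x M = 1 ∧ ∀ M' < M, F x M' = 0} = L := by
  ext x
  constructor
  · rintro ⟨M, hM, _⟩
    exact (hcor x M (by rw [hM]; exact one_ne_zero)).1 hM
  · intro hx
    classical
    refine ⟨Nat.find (hnz x), ?_, fun M' hM' => ?_⟩
    · exact (hcor x _ (Nat.find_spec (hnz x))).2 hx
    · exact not_not.1 (Nat.find_min (hnz x) hM')

/-- The statement of the upper bound for a family `DS` of space classes. -/
theorem partA (DS : (ℕ → ℕ) → Set (Set (List Bool))) (hSearch : SearchFor DS)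
    (hmono : MonoFor DS)
    (hN5 : ∀ {ι Γ : Type} (co : ι → Γ → ℕ) (m Y M d q tb et vt A : List Bool → Γ → ℕ),
      LSC co m → LSC co Y → LSC co M → LSC co d → LSC co q → LSC co tb → LSC co et →
      LSC co vt → LSC co A →
      LSC co (fun x γ => verN x (m x γ) (Y x γ) (M x γ) (d x γ) (q x γ) (tb x γ) (et x γ)
        (vt x γ) (A x γ)))
    (H : FA.Facts) (hP4 : S_P4) (d : ℕ) (hd : 1 ≤ d) (T : ℕ → ℕ) :
    ATIME d T ⊆ DS (fun n =>
      ⌈((T n : ℝ) * Real.log ((T n : ℝ) + 2)) ^ ((d : ℝ) / ((d : ℝ) + 1))⌉₊) := by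
  rintro L ⟨A, C, hdec⟩
  obtain ⟨tb, et, vt, cd, hc, _, _, _⟩ := H.v3 H.d1 d _ A.sticky le_rfl
  set q : ℕ := Nat.card A.sticky.Q + 1 with hq
  obtain ⟨a, ha1, ha⟩ := H.p1 d q hd hc.two_le
  have hg : ∀ M, bOf d a M ≠ 0 → Good M d q (bOf d a M) := ha a le_rfl
  obtain ⟨C2, hC2⟩ := hP4 d a hd ha1
  choose Mf hMf0 hMf1 hMf2 hMf3 using hC2
  set B0 : ℕ → ℕ := fun n => Mf (C * T n + C) 0 with hB0
  set F : List Bool → ℕ → ℕ := fun x M => verN x 0 0 M d q tb et vt a with hF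
  have hLSC : LSC (fun (_ : Unit) (M : ℕ) => M) F :=
    hN5 (fun (_ : Unit) (M : ℕ) => M) (fun _ _ => 0) (fun _ _ => 0) (fun _ M => M)
      (fun _ _ => d) (fun _ _ => q) (fun _ _ => tb) (fun _ _ => et) (fun _ _ => vt)
      (fun _ _ => a) (LSC.const _) (LSC.const _)
      (LSC.var (co := fun (_ : Unit) (M : ℕ) => M) ()) (LSC.const _) (LSC.const _)
      (LSC.const _) (LSC.const _) (LSC.const _) (LSC.const _)
  have hnz : ∀ x : List Bool, F x (B0 x.length) ≠ 0 := by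
    intro x
    obtain ⟨t, v, ht, hv, _⟩ := hdec x
    have h7 := FA.ver_of H hd A q tb et vt a cd hc hg x 0 0 (B0 x.length) (hMf1 _ _)
      (t := t) (v := v) hv (le_trans ht (hMf2 _ _))
    show verN x 0 0 (B0 x.length) d q tb et vt a ≠ 0
    rw [h7]
    exact FA.vcode_some_ne v
  have hcor : ∀ (x : List Bool) (M : ℕ), F x M ≠ 0 → (F x M = 1 ↔ x ∈ L) := by
    intro x M hM
    obtain ⟨t', v', h8, h9⟩ := FA.of_ver H hd A q tb et vt a cd hc hg x 0 0 M hM
    obtain ⟨t, v, ht, hv, hvL⟩ := hdec x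
    have h10 := (FA.unique A (x, []) hv h8).2
    have h11 : F x M = vcode (some v') := h9
    rw [h11, FA.vcode_eq_one, ← h10]
    exact hvL
  have hmem := hSearch F B0 hLSC (fun x => ⟨B0 x.length, le_rfl, hnz x⟩)
  rw [search_eq F L (fun x => ⟨_, hnz x⟩) hcor] at hmem
  obtain ⟨K, hK⟩ := FA.scale d hd C
  refine hmono _ _ (C2 * K + C2 + 2) ?_ hmem
  intro n
  have h12 := (FA.bound C2 K 0 (Nat.log 2 (B0 n)) _ _ (hMf3 (C * T n + C) 0) (hK (T n))).2
  rw [zero_add] at h12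
  exact le_trans (FA.log_add_two _) h12

end Pool.Agent.Work.MP_71c844_lc.Arr
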