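/-
Block ARR (problem MP_71c844_lc): assembly of the upper bound with alternating guesses and of the
lower bound.  Author: helper58.
-/
import Pool.Agent.Work.MP_71c844_lc.Arr.FA

namespace Pool.Agent.Work.MP_71c844_lc.Arr

open Finset

namespace FA

theorem two_pow_le {m M : ℕ} (hM : M ≠ 0) (hm : m ≤ Nat.log 2 M) : 2 ^ m ≤ M :=
  le_trans (Nat.pow_le_pow_right (by norm_num) hm) (Nat.pow_log_le_self 2 hM)

/-- The game on the verdict numbers is the game on the verdicts. -/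
theorem game_ver (H : Facts) (hGM : S_GM) (hMJ : S_MJ) (hWA : S_WA) {d : ℕ} (hd : 1 ≤ d)
    (A : CA d) (q tb et vt a : ℕ)
    (cd : A.sticky.Q → ℕ) (hc : Coded A.sticky q tb et vt cd)
    (hg : ∀ M, bOf d a M ≠ 0 → Good M d q (bOf d a M)) (x : List Bool) (m M : ℕ)
    (hM : M ≠ 0) (hm : m ≤ Nat.log 2 M)
    (hall : ∀ Y < 2 ^ m, ∀ Z < 2 ^ m, verN x (2 * m) (Y * 2 ^ m + Z) M d q tb et vt a ≠ 0) :
    gameN (2 * M) m (fun Y => mj M m (fun Z =>
      if verN x (2 * m) (Y * pc M 2 m + Z) M d q tb et vt a = 1 then 1 else 0)) = 1 ↔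
      Game true m (fun y => Maj m (fun z => ∃ t, A.FirstVerdict (x, y ++ z) t true)) := by
  have h2m := two_pow_le hM hm
  have hpc : pc M 2 m = 2 ^ m := min_eq_left h2m
  rw [hpc]
  apply hGM
  · rw [pow_succ, mul_comm]
    exact Nat.mul_le_mul_left 2 h2m
  · intro Y _
    unfold mj
    split_ifs <;> norm_num
  · intro Y hY
    apply hMJ _ _ _ _ h2m
    · intro Z _
      split_ifs <;> norm_num
    · intro Z hZ
      obtain ⟨t, v, h1, h2⟩ := of_ver H hd A q tb et vt a cd hc hg x (2 * m) (Y * 2 ^ m + Z) M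
        (hall Y hY Z hZ)
      rw [hWA m Y Z hZ] at h1
      have h3 : (if verN x (2 * m) (Y * 2 ^ m + Z) M d q tb et vt a = 1 then 1 else 0) = 1 ↔
          verN x (2 * m) (Y * 2 ^ m + Z) M d q tb et vt a = 1 := by
        split_ifs with h <;> simp [h]
      rw [h3, h2, vcode_eq_one]
      constructor
      · intro hv
        subst hv
        exact ⟨t, h1⟩
      · rintro ⟨t', h4⟩
        exact (unique A _ h1 h4).2

theorem wd_length (m Y : ℕ) : (wd m Y).length = m := by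
  simp [wd]

end FA

/-- The upper bound with `⌈n ^ (p / r)⌉` alternating guesses. -/
theorem partA2 (DS : (ℕ → ℕ) → Set (Set (List Bool))) (hSearch : SearchFor DS)
    (hmono : MonoFor DS)
    (hB1 : ∀ p q d q' tb et vt a,
      LSC (fun (_ : Unit) (M : ℕ) => M) (fun x M => FG p q d q' tb et vt a x M))
    (H : FA.Facts) (hP4 : S_P4) (hGM : S_GM) (hMJ : S_MJ) (hWA : S_WA) (hB4 : S_B4)
    (d : ℕ) (hd : 1 ≤ d) (p r : ℕ) (hr : 1 ≤ r) (T : ℕ → ℕ) :
    AltTIME d (rp p r) T ⊆ DS (fun n => rp p r n +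
      ⌈((T n : ℝ) * Real.log ((T n : ℝ) + 2)) ^ ((d : ℝ) / ((d : ℝ) + 1))⌉₊) := by
  rintro L ⟨A, C, hdec⟩
  obtain ⟨tb, et, vt, cd, hc, _, _, _⟩ := H.v3 H.d1 d _ A.sticky le_rfl
  set q : ℕ := Nat.card A.sticky.Q + 1 with hq
  obtain ⟨a, ha1, ha⟩ := H.p1 d q hd hc.two_le
  have hg : ∀ M, bOf d a M ≠ 0 → Good M d q (bOf d a M) := ha a le_rfl
  obtain ⟨C2, hC2⟩ := hP4 d a hd ha1
  choose Mf hMf0 hMf1 hMf2 hMf3 using hC2
  set B0 : ℕ → ℕ := fun n => Mf (C * T n + C) (rp p r n) with hB0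
  set F : List Bool → ℕ → ℕ := fun x M => FG p r d q tb et vt a x M with hF
  have hlen : ∀ (x : List Bool) (M : ℕ), glen p r x M ≤ Nat.log 2 M →
      glen p r x M = rp p r x.length := fun x M h => (hB4 p r x M hr).2 h
  -- the shape of the search function
  have hFG : ∀ (x : List Bool) (M : ℕ), M ≠ 0 → rp p r x.length ≤ Nat.log 2 M →
      (∀ Y < 2 ^ (rp p r x.length), ∀ Z < 2 ^ (rp p r x.length),
        verN x (2 * rp p r x.length) (Y * 2 ^ (rp p r x.length) + Z) M d q tb et vt a ≠ 0) →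
      F x M = if gameN (2 * M) (rp p r x.length)
        (fun Y => mj M (rp p r x.length) (fun Z =>
          if verN x (2 * rp p r x.length) (Y * pc M 2 (rp p r x.length) + Z) M d q tb et vt a = 1
            then 1 else 0)) = 1 then 1 else 2 := by
    intro x M hM0 h1 h2
    have h3 := (hB4 p r x M hr).1.2 h1
    have h4 := hlen x M h3
    show FG p r d q tb et vt a x M = _
    unfold FG
    rw [h4] at h3 ⊢
    have h5 : pc M 2 (rp p r x.length) = 2 ^ (rp p r x.length) :=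
      min_eq_left (FA.two_pow_le hM0 h3)
    rw [if_pos ⟨⟨hM0, h3⟩, fun Y hY Z hZ => by
      rw [h5] at hY hZ ⊢
      exact h2 Y hY Z hZ⟩]
  have hnz : ∀ x : List Bool, F x (B0 x.length) ≠ 0 := by
    intro x
    have hM0 : B0 x.length ≠ 0 := by
      intro h0
      have h1 := hMf1 (C * T x.length + C) (rp p r x.length)
      have h2 : bOf d a (B0 x.length) = 0 := by
        rw [h0]
        simp [bOf]
      exact h1 h2
    rw [hFG x (B0 x.length) hM0 (hMf0 _ _)]
    · split_ifs <;> norm_num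
    · intro Y _ Z _
      obtain ⟨t, v, ht, hv⟩ := (hdec x).1
        (wd (2 * rp p r x.length) (Y * 2 ^ (rp p r x.length) + Z)) (FA.wd_length _ _)
      have ht' : t ≤ C * T x.length + C := by exact_mod_cast ht
      rw [FA.ver_of H hd A q tb et vt a cd hc hg x (2 * rp p r x.length)
        (Y * 2 ^ (rp p r x.length) + Z) (B0 x.length) (hMf1 _ _) hv (le_trans ht' (hMf2 _ _))]
      exact FA.vcode_some_ne v
  have hcor : ∀ (x : List Bool) (M : ℕ), F x M ≠ 0 → (F x M = 1 ↔ x ∈ L) := by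
    intro x M hM
    have hcond : (M ≠ 0 ∧ glen p r x M ≤ Nat.log 2 M) ∧
        ∀ Y < pc M 2 (glen p r x M), ∀ Z < pc M 2 (glen p r x M),
          verN x (2 * glen p r x M) (Y * pc M 2 (glen p r x M) + Z) M d q tb et vt a ≠ 0 := by
      by_contra hcon
      apply hM
      show FG p r d q tb et vt a x M = 0
      unfold FG
      rw [if_neg hcon]
    obtain ⟨⟨h1, h2⟩, h3⟩ := hcond
    have h4 := hlen x M h2
    rw [h4] at h2 h3
    have h5 : pc M 2 (rp p r x.length) = 2 ^ (rp p r x.length) :=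
      min_eq_left (FA.two_pow_le h1 h2)
    rw [h5] at h3
    rw [hFG x M h1 h2 h3]
    have h6 := FA.game_ver H hGM hMJ hWA hd A q tb et vt a cd hc hg x (rp p r x.length) M h1 h2
      h3
    rw [(hdec x).2, ← h6]
    split_ifs with h7 <;> simp [h7]
  have hmem := hSearch F B0 (hB1 p r d q tb et vt a) (fun x => ⟨B0 x.length, le_rfl, hnz x⟩)
  rw [search_eq F L (fun x => ⟨_, hnz x⟩) hcor] at hmem
  obtain ⟨K, hK⟩ := FA.scale d hd C
  refine hmono _ _ (C2 * K + C2 + 2) ?_ hmem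
  intro n
  have h12 := (FA.bound C2 K (rp p r n) (Nat.log 2 (B0 n)) _ _ (hMf3 (C * T n + C) (rp p r n))
    (hK (T n))).2
  exact le_trans (FA.log_add_two _) h12

/-- The diagonal language. -/
def diagL (p r : ℕ) : Set (List Bool) := {x | ∃ M, FB p r x M = 1 ∧ ∀ M' < M, FB p r x M' = 0}

theorem diagL_mem (DS : (ℕ → ℕ) → Set (Set (List Bool))) (hSearch : SearchFor DS)
    (hmono : MonoFor DS)
    (hB1 : ∀ p r, LSC (fun (_ : Unit) (M : ℕ) => M) (fun x M => FB p r x M)) (hB3 : S_B3)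
    (p r : ℕ) (hp : 1 ≤ p) (hr : 1 ≤ r) : diagL p r ∈ DS (rp p r) := by
  have h7 := hSearch (fun x M => FB p r x M) (fun n => 2 ^ rp p r n) (hB1 p r) (by
    intro x
    rcases Nat.eq_zero_or_pos x.length with hx | hx
    · refine ⟨0, Nat.zero_le _, ?_⟩
      have hx' : x = [] := List.length_eq_zero_iff.1 hx
      subst hx'
      unfold FB
      have hj0 : (0 : ℕ) ^ r = 0 := zero_pow (by omega)
      have hp0 : (0 : ℕ) ^ p = 0 := zero_pow (by omega)
      rw [if_pos]
      · split_ifs <;> norm_num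
      · simp [glen, len, inpv, hj0, hp0]
    · exact ⟨_, le_rfl, (hB3 p r x hp hr hx).1⟩)
  refine hmono _ _ 2 ?_ h7
  intro n
  have h8 : Nat.log 2 (2 ^ rp p r n + 2) < rp p r n + 3 := by
    refine Nat.log_lt_of_lt_pow (Nat.succ_ne_zero _) ?_
    have h9 : 2 ^ (rp p r n + 3) = 8 * 2 ^ (rp p r n) := by ring
    have h10 : 1 ≤ 2 ^ (rp p r n) := Nat.one_le_two_pow
    omega
  show Nat.log 2 (2 ^ rp p r n + 2) ≤ 2 * rp p r n + 2
  omega

/-- The lower bound; the constants only depend on the dimension and on the number of states. -/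
theorem partB (H : FA.Facts) (hP5 : S_P5) (hR1 : S_R1) (hGM : S_GM) (hMJ : S_MJ)
    (hWA : S_WA) (hB2 : S_B2) (hB3 : S_B3) (hB4 : S_B4) (p r : ℕ) (hp : 1 ≤ p) (hr : 1 ≤ r) (d : ℕ) (hd : 1 ≤ d) (s : ℕ) :
    ∃ c : ℝ, 0 < c ∧ ∃ n0 : ℕ, ∀ A : CA d, Nat.card A.Q ≤ s → ∃ w : List Bool, w.length ≤ n0 ∧
      ∀ x : List Bool, w <+: x → n0 ≤ x.length →
      ¬ A.AltDecides x (rp p r x.length)
        (c * (x.length : ℝ) ^ ((p : ℝ) / (r : ℝ) * (1 + 1 / (d : ℝ))) / Real.log x.length)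
        (x ∈ diagL p r) := by
  rcases Nat.eq_zero_or_pos s with hs0 | hs0
  · -- no array has no states
    refine ⟨1, one_pos, 0, fun A hA => ?_⟩
    have := A.finQ
    have : Nonempty A.Q := ⟨A.enc none none⟩
    have := Nat.card_pos (α := A.Q)
    omega
  set q : ℕ := 3 * s + 1 with hq
  have hq2 : 2 ≤ q := by omega
  obtain ⟨a, ha1, ha⟩ := H.p1 d q hd hq2
  have hg : ∀ M, bOf d a M ≠ 0 → Good M d q (bOf d a M) := ha a le_rfl
  obtain ⟨c, hc0, n1, hn1⟩ := hP5 d a p r hd ha1 hp hr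
  set W : ℕ := d + q + q ^ (q ^ (3 ^ d)) + q ^ 9 + 3 ^ q + 3 * a + 8 with hW
  refine ⟨c, hc0, max n1 (W ^ r + W + 1), fun A hA => ?_⟩
  have hfin := A.finQ
  have hcard : Nat.card A.sticky.Q ≤ 3 * s := by
    show Nat.card (A.Q × Option Bool) ≤ 3 * s
    rw [Nat.card_prod]
    have : Nat.card (Option Bool) = 3 := by
      rw [Nat.card_eq_fintype_card]
      rfl
    rw [this, mul_comm]
    exact Nat.mul_le_mul_left 3 hA
  obtain ⟨tb, et, vt, cd, hc, htb, het, hvt⟩ := H.v3 H.d1 d (3 * s) A.sticky hcard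
  rw [← hq] at hc htb het hvt
  obtain ⟨aa, haa⟩ : ∃ aa : ℕ → ℕ, aa = fun k => if k = 0 then d else if k = 1 then q
    else if k = 2 then tb else if k = 3 then et else if k = 4 then vt else a := ⟨_, rfl⟩
  obtain ⟨w, hwl, hw⟩ := hB2 aa
  have hwW : w.length ≤ W := by
    rw [hwl, haa]
    simp only [Finset.sum_range_succ, Finset.sum_range_zero]
    norm_num
    omega
  refine ⟨w, le_trans hwW (le_trans (by omega) (le_max_right _ _)), fun x hwx hn => ?_⟩
  obtain ⟨n, hx⟩ : ∃ n, x.length = n := ⟨_, rfl⟩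
  rw [hx] at hn ⊢
  have hnn1 : n1 ≤ n := le_trans (le_max_left _ _) hn
  have hnW : W ^ r + W + 1 ≤ n := le_trans (le_max_right _ _) hn
  have hn11 : 1 ≤ n := by omega
  obtain ⟨z, hz⟩ := hwx
  have hS : W ≤ rp p r n := by
    by_contra h
    have h1 : rp p r n ≤ W := by omega
    have h2 := (hR1 p r n W hr).1 h1
    have h3 : n ≤ n ^ p := Nat.le_self_pow (by omega) _
    omega
  have hfld : ∀ n' ≥ rp p r n, ∀ k < 8, fld x n' k = aa k := fun n' hn' k hk => by
    rw [← hz]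
    exact hw z n' (le_trans hwW (le_trans hS hn')) k hk
  rw [haa] at hfld
  obtain ⟨hb, htime⟩ := hn1 n hnn1
  rintro ⟨hall, hiff⟩
  set M : ℕ := 2 ^ rp p r n with hM
  have hM0 : M ≠ 0 := by positivity
  have hlog : Nat.log 2 M = rp p r n := Nat.log_pow (by norm_num) _
  have hf := hfld (rp p r n) le_rfl
  have e0' := hf 0 (by norm_num)
  have e1' := hf 1 (by norm_num)
  have e2' := hf 2 (by norm_num)
  have e3' := hf 3 (by norm_num)
  have e4' := hf 4 (by norm_num)
  have e5' := hf 5 (by norm_num)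
  norm_num at e0' e1' e2' e3' e4' e5'
  have h13 := hB3 p r x hp hr (by omega)
  rw [hx, ← hM] at h13
  obtain ⟨h14, h15⟩ := h13
  have hmem : x ∈ diagL p r ↔ FB p r x M = 1 := by
    constructor
    · rintro ⟨M', h16, h17⟩
      rcases lt_trichotomy M' M with hl | hl | hl
      · rw [h15 M' hl] at h16
        exact absurd h16 (by norm_num)
      · rw [← hl]; exact h16
      · exact absurd (h17 M hl) h14
    · intro h16
      exact ⟨M, h16, h15⟩
  have hgl : glen p r x M ≤ Nat.log 2 M := (hB4 p r x M hr).1.2 (by rw [hx, hlog])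
  have hgl' : glen p r x M = rp p r n := by rw [(hB4 p r x M hr).2 hgl, hx]
  have hver : ∀ Y < 2 ^ (rp p r n), ∀ Z < 2 ^ (rp p r n),
      verN x (2 * rp p r n) (Y * 2 ^ (rp p r n) + Z) M d q tb et vt a ≠ 0 := by
    intro Y _ Z _
    obtain ⟨t, v, ht, hv⟩ := hall (wd (2 * rp p r n) (Y * 2 ^ (rp p r n) + Z))
      (FA.wd_length _ _)
    have hts : t ≤ FA.tim d a M := by
      have := le_trans ht htime
      exact_mod_cast this
    rw [FA.ver_of H hd A q tb et vt a cd hc hg x (2 * rp p r n) (Y * 2 ^ (rp p r n) + Z) M hb hv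
      hts]
    exact FA.vcode_some_ne v
  have h6 := FA.game_ver H hGM hMJ hWA hd A q tb et vt a cd hc hg x (rp p r n) M hM0 hlog.ge
    hver
  have h20 : FB p r x M = if gameN (2 * M) (rp p r n) (fun Y => mj M (rp p r n) (fun Z =>
      if verN x (2 * rp p r n) (Y * pc M 2 (rp p r n) + Z) M d q tb et vt a = 1
        then 1 else 0)) = 1 then 2 else 1 := by
    unfold FB
    rw [if_pos hgl, hgl', hlog, e0', e1', e2', e3', e4', e5']
  rw [← h6, hmem, h20] at hiff
  by_cases h21 : gameN (2 * M) (rp p r n) (fun Y => mj M (rp p r n) (fun Z =>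
      if verN x (2 * rp p r n) (Y * pc M 2 (rp p r n) + Z) M d q tb et vt a = 1
        then 1 else 0)) = 1
  · rw [if_pos h21] at hiff
    have := hiff.2 h21
    norm_num at this
  · rw [if_neg h21] at hiff
    exact h21 (hiff.1 rfl)

/-- The game on a proposition which does not depend on the guesses. -/
theorem game_const (e : Bool) (m : ℕ) (P : Prop) : Game e m (fun _ => P) ↔ P := by
  induction m generalizing e with
  | zero => cases e <;> exact Iff.rfl
  | succ m ih =>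
    cases e with
    | true =>
      show (∃ _ : Bool, Game false m (fun _ => P)) ↔ P
      rw [ih]
      exact ⟨fun ⟨_, h⟩ => h, fun h => ⟨true, h⟩⟩
    | false =>
      show (∀ _ : Bool, Game true m (fun _ => P)) ↔ P
      rw [ih]
      exact ⟨fun h => h true, fun h _ => h⟩

/-- The array which ignores the guess letters. -/
def CA.deaf {d : ℕ} (A : CA d) : CA d where
  Q := A.Q
  finQ := A.finQ
  rule := A.rule
  enc a _ := A.enc a none
  quiet := A.quiet
  out := A.out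

theorem CA.deaf_conf {d : ℕ} (A : CA d) (x y : List Bool) (t : ℕ) :
    A.deaf.conf (x, y) t = A.conf (x, []) t := by
  induction t with
  | zero =>
    funext w
    show A.deaf.init (x, y) w = A.init (x, []) w
    unfold CA.init
    by_cases h : 0 ≤ lead w ∧ ∀ j : Fin d, 0 < j.val → w j = 0
    · rw [if_pos h, if_pos h]
      rfl
    · rw [if_neg h, if_neg h]
      rfl
  | succ t ih =>
    funext w
    show A.rule (fun e => A.deaf.conf (x, y) t (fun j => w j + ((e j).val : ℤ) - 1)) =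
      A.rule (fun e => A.conf (x, []) t (fun j => w j + ((e j).val : ℤ) - 1))
    rw [ih]

theorem CA.deaf_first {d : ℕ} (A : CA d) (x y : List Bool) (t : ℕ) (v : Bool) :
    A.deaf.FirstVerdict (x, y) t v ↔ A.FirstVerdict (x, []) t v := by
  unfold CA.FirstVerdict
  simp only [CA.deaf_conf]
  exact Iff.rfl

/-- Deterministic time is contained in time with guesses. -/
theorem ATIME_sub (hMC : S_MC) (d : ℕ) (g T : ℕ → ℕ) : ATIME d T ⊆ AltTIME d g T := by
  rintro L ⟨A, C, hdec⟩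
  refine ⟨A.deaf, C, fun x => ⟨fun y _ => ?_, ?_⟩⟩
  · obtain ⟨t, v, h1, h2, _⟩ := hdec x
    exact ⟨t, v, by exact_mod_cast h1, (A.deaf_first x y t v).2 h2⟩
  · simp only [CA.deaf_first]
    rw [game_const, hMC]
    obtain ⟨t, v, h1, h2, h3⟩ := hdec x
    rw [← h3]
    constructor
    · intro hv
      subst hv
      exact ⟨t, h2⟩
    · rintro ⟨t', h4⟩
      exact (FA.unique A _ h2 h4).2

/-- Consequence for time classes. -/
theorem partC (L : Set (List Bool)) (p r d : ℕ) (hp : 1 ≤ p) (hr : 1 ≤ r) (hd : 1 ≤ d)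
    (h : ∀ s : ℕ, ∃ c : ℝ, 0 < c ∧ ∃ n0 : ℕ, ∀ A : CA d, Nat.card A.Q ≤ s →
      ∃ w : List Bool, w.length ≤ n0 ∧ ∀ x : List Bool, w <+: x → n0 ≤ x.length →
      ¬ A.AltDecides x (rp p r x.length)
        (c * (x.length : ℝ) ^ ((p : ℝ) / (r : ℝ) * (1 + 1 / (d : ℝ))) / Real.log x.length)
        (x ∈ L))
    (f : ℕ → ℕ) (hf : ∀ ε : ℝ, 0 < ε → ∀ m : ℕ, ∃ n ≥ m,
      (f n : ℝ) * Real.log n ≤ ε * (n : ℝ) ^ ((p : ℝ) / (r : ℝ) * (1 + 1 / (d : ℝ)))) :
    L ∉ AltTIME d (rp p r) f := by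
  rintro ⟨A, C, hdec⟩
  obtain ⟨c, hc, n0, hn0⟩ := h (Nat.card A.Q)
  obtain ⟨w, hwl, hn0⟩ := hn0 A le_rfl
  set β : ℝ := (p : ℝ) / (r : ℝ) * (1 + 1 / (d : ℝ)) with hβ
  have hp' : (1 : ℝ) ≤ p := by exact_mod_cast hp
  have hr' : (1 : ℝ) ≤ r := by exact_mod_cast hr
  have hd' : (1 : ℝ) ≤ d := by exact_mod_cast hd
  have hβ1 : 0 < β := by positivity
  -- `log n = o(n ^ β)`
  have hlim : ∃ m : ℕ, ∀ n ≥ m, (2 * (C : ℝ)) * Real.log n ≤ c * (n : ℝ) ^ β := by
    have h1 : (fun x : ℝ => Real.log x) =o[Filter.atTop] fun x => x ^ β :=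
      isLittleO_log_rpow_atTop (by linarith)
    have h2 := h1.def (show (0 : ℝ) < c / (2 * C + 1) by positivity)
    have h3 := tendsto_natCast_atTop_atTop (R := ℝ) |>.eventually h2
    rw [Filter.eventually_atTop] at h3
    obtain ⟨m, hm⟩ := h3
    refine ⟨max m 1, fun n hn => ?_⟩
    have h4 := hm n (le_trans (le_max_left _ _) hn)
    have hn1 : (1 : ℝ) ≤ n := by exact_mod_cast (le_trans (le_max_right _ _) hn)
    have hl : 0 ≤ Real.log (n : ℝ) := Real.log_nonneg hn1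
    have hp : 0 ≤ (n : ℝ) ^ β := Real.rpow_nonneg (by linarith) _
    rw [Real.norm_of_nonneg hl, Real.norm_of_nonneg hp] at h4
    have hC : (0 : ℝ) ≤ C := Nat.cast_nonneg _
    calc (2 * (C : ℝ)) * Real.log n ≤ (2 * C + 1) * Real.log n := by nlinarith
      _ ≤ (2 * C + 1) * (c / (2 * C + 1) * (n : ℝ) ^ β) :=
          mul_le_mul_of_nonneg_left h4 (by positivity)
      _ = c * (n : ℝ) ^ β := by field_simp
  obtain ⟨m, hm⟩ := hlim
  obtain ⟨n, hn, hfn⟩ := hf (c / (2 * C + 1)) (by positivity) (max (max n0 m) (w.length + 2))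
  have hnn0 : n0 ≤ n := le_trans (le_trans (le_max_left _ _) (le_max_left _ _)) hn
  have hnm : m ≤ n := le_trans (le_trans (le_max_right _ _) (le_max_left _ _)) hn
  have hnw : w.length + 2 ≤ n := le_trans (le_max_right _ _) hn
  have hn2 : 2 ≤ n := by omega
  obtain ⟨x, hx, hwx⟩ : ∃ x : List Bool, x.length = n ∧ w <+: x :=
    ⟨w ++ List.replicate (n - w.length) false, by
      rw [List.length_append, List.length_replicate]; omega, List.prefix_append _ _⟩
  have hbad := hn0 x hwx (by rw [hx]; exact hnn0)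
  rw [hx] at hbad
  have hdx := hdec x
  rw [hx] at hdx
  apply hbad
  refine ⟨fun y hy => ?_, hdx.2⟩
  obtain ⟨t, v, ht, hv⟩ := hdx.1 y hy
  refine ⟨t, v, le_trans ht ?_, hv⟩
  have hn2' : (2 : ℝ) ≤ n := by exact_mod_cast hn2
  have hl : 0 < Real.log (n : ℝ) := Real.log_pos (by linarith)
  have hp : 0 ≤ (n : ℝ) ^ β := Real.rpow_nonneg (by linarith) _
  have hC : (0 : ℝ) ≤ C := Nat.cast_nonneg _
  rw [le_div_iff₀ hl]
  push_cast
  have h6 : (C : ℝ) * ((f n : ℝ) * Real.log n) ≤ C * (c / (2 * C + 1) * (n : ℝ) ^ β) :=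
    mul_le_mul_of_nonneg_left hfn hC
  have h7 : (C : ℝ) * (c / (2 * C + 1) * (n : ℝ) ^ β) ≤ c * (n : ℝ) ^ β / 2 := by
    have h8 : (C : ℝ) * (c / (2 * C + 1)) ≤ c / 2 := by
      rw [mul_div_assoc', div_le_div_iff₀ (by positivity) (by norm_num)]
      nlinarith
    nlinarith [mul_le_mul_of_nonneg_right h8 hp]
  have h9 := hm n hnm
  nlinarith

end Pool.Agent.Work.MP_71c844_lc.Arr
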