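import Pool.Agent.Work.MP_71c844_lc.Arr.Search
import Pool.Agent.Work.MP_71c844_lc.Arr.FA

/-!
# The two properties of `DSPACE` used in the assembly
-/

set_option autoImplicit false

namespace Pool.Agent.Work.MP_71c844_lc.Arr


theorem searchFor_DSPACE : SearchFor DSPACE := fun F B0 hF hB0 => TMS.search F B0 hF hB0

theorem monoFor_DSPACE : MonoFor DSPACE := by
  rintro S S' C hS L ⟨M, C1, hM, hv⟩
  refine ⟨M, C1 * C + C1, hM, fun x => (hv x).trans ?_⟩
  norm_cast
  have h1 := hS x.length
  calc C1 * S x.length + C1 ≤ C1 * (C * S' x.length + C) + C1 :=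
        Nat.add_le_add_right (Nat.mul_le_mul_left _ h1) _
    _ ≤ (C1 * C + C1) * S' x.length + (C1 * C + C1) := by
        have h2 : 0 ≤ C1 * S' x.length := Nat.zero_le _
        nlinarith

end Pool.Agent.Work.MP_71c844_lc.Arr
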