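/-
Block ARR (problem MP_71c844_lc), item G4: the block function.  Author: helper69.
-/
import Pool.Agent.Work.MP_71c844_lc.Arr.StmtsG

namespace Pool.Agent.Work.MP_71c844_lc.Arr

open Finset

namespace G4

theorem ofM_le (M a n : ℕ) (f : ℕ → ℕ) : ofM M a n f ≤ M := min_le_right _ _

theorem rcM_zero (M g : ℕ) (F : ℕ → ℕ → ℕ) : rcM M g F 0 = min g M := rfl

theorem rcM_succ (M g : ℕ) (F : ℕ → ℕ → ℕ) (n : ℕ) :
    rcM M g F (n + 1) = min (F n (rcM M g F n)) M := rfl

/-- The digits of a cell number. -/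
theorem sum_fin_eq {a d : ℕ} (c : Fin d → ℕ) :
    ∑ j : Fin d, c j * a ^ j.val = ofd a d (fun j => if h : j < d then c ⟨j, h⟩ else 0) := by
  unfold ofd
  rw [Finset.sum_range]
  refine Finset.sum_congr rfl fun j _ => ?_
  simp only [dif_pos j.2]

theorem agr_box (hD : D1) {M q d b R t : ℕ} {A : CA d} {tb et vt : ℕ} {cd : A.Q → ℕ}
    {x : Inp} {i : Fin d → ℤ} (hs : BSz M q d b R) (hc : Coded A q tb et vt cd) :
    Agr A cd x q b t 0 i (boxV A cd x q b t i) := by
  intro c hcc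
  have hb := hs.hb
  have h3 : 1 ≤ 3 * b := by omega
  have hlt : ∀ k < d, (fun j => if h : j < d then c ⟨j, h⟩ else 0) k < 3 * b := by
    intro k hk
    have := (hcc ⟨k, hk⟩).2
    simp only [dif_pos hk]
    omega
  rw [sum_fin_eq]
  have hu : ofd (3 * b) d (fun j => if h : j < d then c ⟨j, h⟩ else 0) < (3 * b) ^ d :=
    hD.ofd_lt _ _ _ h3 hlt
  unfold boxV
  rw [hD.dg_ofd q _ _ _ (fun u _ => hc.lt _) hu]
  congr 2
  funext j
  have h1 := hD.dg_ofd (3 * b) d j.val _ hlt j.2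
  unfold dg at h1
  rw [h1, dif_pos j.2]

end G4

open G4 in
/-- G4. -/
theorem prf_G4 : S_G4 := by
  intro hD hG1 hG2 hG3 M q d b R t A tb et vt cd x i hs hc hd
  unfold bmN
  rw [hG1 hD M q d b R t A tb et vt cd x i hs hc hd]
  have hbox : boxV A cd x q b t i ≤ M := by
    rw [← hG1 hD M q d b R t A tb et vt cd x i hs hc hd]
    exact ofM_le _ _ _ _
  refine hG3 hD M q d b R (t + b) A tb et vt cd x i _ hs hc hd ?_
  have key : ∀ k, Agr A cd x q b (t + k) k i
      (rcM M (boxV A cd x q b t i)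
        (fun _ X => bstN M q d (3 * b) (3 ^ d) (cn M (3 * b) d (fun _ => 1)) tb X) k) := by
    intro k
    induction k with
    | zero =>
      rw [rcM_zero, min_eq_left hbox]
      exact agr_box hD hs hc
    | succ k ih =>
      rw [rcM_succ]
      have h1 := hG2 hD M q d b R (t + k) k A tb et vt cd x i _ hs hc hd ih
      have h2 : ∀ X, bstN M q d (3 * b) (3 ^ d) (cn M (3 * b) d (fun _ => 1)) tb X ≤ M :=
        fun X => ofM_le _ _ _ _
      rw [min_eq_left (h2 _)]
      exact h1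
  exact key b

end Pool.Agent.Work.MP_71c844_lc.Arr
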