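import Pool.Agent.Work.MP_71c844_lc.Arr.StmtsG

/-!
Block ARR (problem MP_71c844_lc): item G5, the leaf block.
-/

set_option autoImplicit false

namespace Pool.Agent.Work.MP_71c844_lc.Arr

open Finset

namespace G5

/-- Powers of the side are not cut. -/
theorem pow_le {M q d b R : ℕ} (h : BSz M q d b R) : b ^ d ≤ M := by
  have h1 : R < 2 ^ R := Nat.lt_two_pow_self
  have h2 : 2 ^ R ≤ q ^ R := Nat.pow_le_pow_left h.hq R
  have h3 := h.hR
  have h4 := h.h2
  omega

theorem inpv_eq (x : List Bool) (i : ℕ) : inpv x i = ocode x[i]? := by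
  unfold inpv
  cases x[i]? with
  | none => rfl
  | some c => cases c <;> rfl

theorem gv_eq (m Y i : ℕ) : gv m Y i = ocode (wd m Y)[i]? := by
  unfold gv wd
  by_cases hi : i < m
  · rw [if_pos hi, List.getElem?_map, List.getElem?_range hi]
    have h2 : dg 2 (m - 1 - i) Y < 2 := Nat.mod_lt _ (by omega)
    rcases Nat.lt_or_ge (dg 2 (m - 1 - i) Y) 1 with h3 | h3
    · have h4 : dg 2 (m - 1 - i) Y = 0 := by omega
      simp [ocode, h4]
    · have h4 : dg 2 (m - 1 - i) Y = 1 := by omega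
      simp [ocode, h4]
  · rw [if_neg hi, List.getElem?_eq_none (by simpa using hi)]
    rfl

/-- The initial state of a cell. -/
theorem ini_eq {d : ℕ} (hd : 1 ≤ d) (A : CA d) {q tb et vt : ℕ} {cd : A.Q → ℕ}
    (hC : Coded A q tb et vt cd) (x : List Bool) (m Y o : ℕ) (W : ℕ → ℕ) (w : Fin d → ℤ)
    (hw : ∀ j : Fin d, w j = (W j.val : ℤ) - (o : ℤ)) :
    iniN x m Y d q et o W = cd (A.conf (x, wd m Y) 0 w) := by
  have hlead : lead w = (W 0 : ℤ) - (o : ℤ) := by
    unfold lead
    rw [dif_pos (by omega : 0 < d), hw]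
  have hiff : ((∀ j < d, j ≠ 0 → W j = o) ∧ o ≤ W 0) ↔
      (0 ≤ lead w ∧ ∀ j : Fin d, 0 < j.val → w j = 0) := by
    constructor
    · rintro ⟨h1, h2⟩
      refine ⟨by rw [hlead]; omega, fun j hj => ?_⟩
      rw [hw, h1 j.val j.isLt (by omega)]
      omega
    · rintro ⟨h1, h2⟩
      refine ⟨fun j hj hj0 => ?_, by rw [hlead] at h1; omega⟩
      have h3 := h2 ⟨j, hj⟩ (by simpa using Nat.pos_of_ne_zero hj0)
      rw [hw] at h3
      simp only at h3
      omega
  show _ = cd (A.init (x, wd m Y) w)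
  unfold iniN CA.init
  by_cases hc : (∀ j < d, j ≠ 0 → W j = o) ∧ o ≤ W 0
  · rw [if_pos hc, if_pos (hiff.1 hc), hlead,
      show ((W 0 : ℤ) - (o : ℤ)).toNat = W 0 - o by omega, gv_eq, inpv_eq]
    exact hC.enc _ _
  · rw [if_neg hc, if_neg (fun h => hc (hiff.2 h)), ← hC.enc]
    rfl

end G5

/-- G5: the leaf block. -/
theorem prf_G5 : S_G5 := by
  intro h1 m Y M q d b R D p h A tb et vt cd x N hB hC hd
  have hM := G5.pow_le hB
  have hq := hB.hq
  unfold lfN blk
  rw [show pc M b d = b ^ d from min_eq_left hM]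
  rw [h1.ofM_eq M q R _ (by omega) hB.h2]
  · refine h1.ofd_congr q R _ _ (fun c _ => ?_)
    by_cases hc : c < b ^ d
    · rw [if_pos hc, if_pos hc]
      refine G5.ini_eq hd A hC x m Y (b * h) _ _ (fun j => ?_)
      simp only [dg]
      push_cast
      ring
    · rw [if_neg hc, if_neg hc]
  · intro c _
    simp only [iniN]
    have hlt : ∀ k, dg q k et < q := fun k => Nat.mod_lt _ (by omega)
    split_ifs <;> first | exact hlt _ | omega

end Pool.Agent.Work.MP_71c844_lc.Arr
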