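import Pool.Agent.Work.MP_71c844_lc.Arr.StmtsG
import Pool.Agent.Work.MP_71c844_lc.Arr.LoopN

/-! Block ARR, item GM (helper24): the loop over the leaves evaluates the game. -/

set_option autoImplicit false

namespace Pool.Agent.Work.MP_71c844_lc.Arr

open Finset

namespace GM

/-- the value of the subtree of height `k` with the prefix `u` -/
def V (m : ℕ) (lf : ℕ → ℕ) : ℕ → ℕ → ℕ
  | 0, u => lf u
  | k + 1, u => if (m - (k + 1)) % 2 = 0 then max (V m lf k (2 * u)) (V m lf k (2 * u + 1))
      else min (V m lf k (2 * u)) (V m lf k (2 * u + 1))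

theorem V_le {m : ℕ} {lf : ℕ → ℕ} (hlf : ∀ Y < 2 ^ m, lf Y ≤ 1) :
    ∀ k ≤ m, ∀ u < 2 ^ (m - k), V m lf k u ≤ 1 := by
  intro k
  induction k with
  | zero =>
    intro _ u hu
    exact hlf u (by simpa using hu)
  | succ k ih =>
    intro hk u hu
    have h1 : m - k = (m - (k + 1)) + 1 := by omega
    have h2 : 2 * u < 2 ^ (m - k) := by
      rw [h1, pow_succ]
      omega
    have h3 : 2 * u + 1 < 2 ^ (m - k) := by
      rw [h1, pow_succ]
      omega
    have h4 := ih (by omega) _ h2
    have h5 := ih (by omega) _ h3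
    unfold V
    split_ifs
    · exact max_le h4 h5
    · exact (min_le_left _ _).trans h4

/-- the number of binary digits zero at the end -/
theorem vl_spec (m N : ℕ) : vl 2 m N ≤ m ∧ (∀ k ≤ vl 2 m N, 2 ^ k ∣ N) ∧
    (∀ k, vl 2 m N < k → k ≤ m → ¬ 2 ^ k ∣ N) := by
  induction m with
  | zero =>
    refine ⟨by simp [vl], fun k hk => ?_, fun k hk hk' => by omega⟩
    have : k = 0 := by simpa [vl] using hk
    rw [this, pow_zero]
    exact one_dvd _
  | succ m ih =>
    obtain ⟨h1, h2, h3⟩ := ih
    have hs : vl 2 (m + 1) N = vl 2 m N + (if N / 2 ^ (m + 1) * 2 ^ (m + 1) = N then 1 else 0) := by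
      unfold vl
      rw [Finset.sum_range_succ]
    have hdiv : N / 2 ^ (m + 1) * 2 ^ (m + 1) = N ↔ 2 ^ (m + 1) ∣ N := by
      constructor
      · intro h
        exact ⟨N / 2 ^ (m + 1), by rw [mul_comm]; exact h.symm⟩
      · intro h
        exact Nat.div_mul_cancel h
    by_cases hd : 2 ^ (m + 1) ∣ N
    · have hv : vl 2 m N = m := by
        by_contra hne
        have hlt : vl 2 m N < m := lt_of_le_of_ne h1 hne
        exact h3 m hlt (le_refl _) ((pow_dvd_pow 2 (Nat.le_succ m)).trans hd)
      rw [hs, if_pos (hdiv.2 hd), hv]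
      refine ⟨le_refl _, fun k hk => (pow_dvd_pow 2 hk).trans hd, fun k hk hk' => by omega⟩
    · rw [hs, if_neg (fun h => hd (hdiv.1 h)), add_zero]
      refine ⟨by omega, h2, fun k hk hk' => ?_⟩
      rcases Nat.lt_or_ge m k with h | h
      · have : k = m + 1 := by omega
        rw [this]
        exact hd
      · exact h3 k hk h

theorem dg2_le (k x : ℕ) : dg 2 k x ≤ 1 := by
  have := dg_lt (a := 2) (by norm_num) k x
  omega

/-- climbing -/
theorem gcomb_eq {m : ℕ} {lf : ℕ → ℕ} (hlf : ∀ Y < 2 ^ m, lf Y ≤ 1) {n S : ℕ} (hn : n < 2 ^ m)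
    (hS : ∀ k ≤ m, (n / 2 ^ k) % 2 = 1 → dg 2 k S = V m lf k (n / 2 ^ k - 1)) :
    ∀ k ≤ m, 2 ^ k ∣ n + 1 → gcomb m S (lf n) k = V m lf k (n / 2 ^ k) := by
  intro k
  induction k with
  | zero =>
    intro _ _
    unfold gcomb rcM
    simp only [rc, pow_zero, Nat.div_one]
    exact min_eq_left (hlf n hn)
  | succ k ih =>
    intro hk hd
    have ih' := ih (by omega) ((pow_dvd_pow 2 (Nat.le_succ k)).trans hd)
    have hstep : gcomb m S (lf n) (k + 1) = min (if (m - (k + 1)) % 2 = 0 then
        max (dg 2 k S) (gcomb m S (lf n) k) else min (dg 2 k S) (gcomb m S (lf n) k)) 1 := rfl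
    obtain ⟨c, hc⟩ := hd
    -- `n / 2 ^ k = 2 * (n / 2 ^ (k + 1)) + 1`
    have hc0 : 1 ≤ c := by
      rcases Nat.eq_zero_or_pos c with h | h
      · rw [h, mul_zero] at hc
        omega
      · exact h
    have hpk : 0 < 2 ^ k := Nat.two_pow_pos k
    have hnk1 : n / 2 ^ (k + 1) = c - 1 := by
      have h1 : n = (c - 1) * 2 ^ (k + 1) + (2 ^ (k + 1) - 1) := by
        have h2 : c * 2 ^ (k + 1) = (c - 1) * 2 ^ (k + 1) + 2 ^ (k + 1) := by
          obtain ⟨c', rfl⟩ : ∃ c', c = c' + 1 := ⟨c - 1, by omega⟩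
          rw [Nat.add_sub_cancel]
          ring
        have h3 : 0 < 2 ^ (k + 1) := Nat.two_pow_pos _
        rw [mul_comm] at hc
        omega
      have h3 : 0 < 2 ^ (k + 1) := Nat.two_pow_pos _
      rw [h1, add_comm, Nat.add_mul_div_right _ _ h3, Nat.div_eq_of_lt (by omega), zero_add]
    have hnk : n / 2 ^ k = 2 * (c - 1) + 1 := by
      have h1 : n = (2 * (c - 1) + 1) * 2 ^ k + (2 ^ k - 1) := by
        have h2 : 2 ^ (k + 1) * c = (2 * (c - 1) + 1) * 2 ^ k + 2 ^ k := by
          obtain ⟨c', rfl⟩ : ∃ c', c = c' + 1 := ⟨c - 1, by omega⟩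
          rw [Nat.add_sub_cancel]
          ring
        omega
      rw [h1, add_comm, Nat.add_mul_div_right _ _ hpk, Nat.div_eq_of_lt (by omega), zero_add]
    have hodd : (n / 2 ^ k) % 2 = 1 := by
      rw [hnk]
      omega
    have hdg := hS k (by omega) hodd
    have e1 : n / 2 ^ k - 1 = 2 * (n / 2 ^ (k + 1)) := by
      rw [hnk, hnk1]
      omega
    have e2 : n / 2 ^ k = 2 * (n / 2 ^ (k + 1)) + 1 := by
      rw [hnk, hnk1]
    rw [e1] at hdg
    rw [hstep, hdg, ih', e2]
    have hV : V m lf (k + 1) (n / 2 ^ (k + 1)) = if (m - (k + 1)) % 2 = 0 then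
      max (V m lf k (2 * (n / 2 ^ (k + 1)))) (V m lf k (2 * (n / 2 ^ (k + 1)) + 1))
      else min (V m lf k (2 * (n / 2 ^ (k + 1)))) (V m lf k (2 * (n / 2 ^ (k + 1)) + 1)) := rfl
    rw [← hV]
    apply min_eq_left
    apply V_le hlf (k + 1) hk
    apply Nat.div_lt_of_lt_mul
    rw [← pow_add]
    have : k + 1 + (m - (k + 1)) = m := by omega
    rw [this]
    exact hn

/-- the invariant of the loop -/
theorem inv {M m : ℕ} {lf : ℕ → ℕ} (hM : 2 ^ (m + 1) ≤ M) (hlf : ∀ Y < 2 ^ m, lf Y ≤ 1) :
    ∀ n ≤ 2 ^ m, ∀ k ≤ m, (n / 2 ^ k) % 2 = 1 →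
      dg 2 k (rcM M 0 (fun N S => gstep M m lf N S) n) = V m lf k (n / 2 ^ k - 1) := by
  intro n
  induction n with
  | zero =>
    intro _ k _ h
    rw [Nat.zero_div] at h
    omega
  | succ n ih =>
    intro hn k hk hodd
    have ih' := ih (by omega)
    set S := rcM M 0 (fun N S => gstep M m lf N S) n with hSdef
    have hstep : rcM M 0 (fun N S => gstep M m lf N S) (n + 1) = min (gstep M m lf n S) M := rfl
    obtain ⟨hv1, hv2, hv3⟩ := vl_spec m (n + 1)
    set v := vl 2 m (n + 1) with hv
    have hg : gcomb m S (lf n) v = V m lf v (n / 2 ^ v) :=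
      gcomb_eq hlf (by omega) ih' v hv1 (hv2 v (le_refl _))
    have hgle : gcomb m S (lf n) v ≤ 1 := by
      rw [hg]
      apply V_le hlf v hv1
      apply Nat.div_lt_of_lt_mul
      rw [← pow_add]
      have : v + (m - v) = m := by omega
      rw [this]
      omega
    have hdig : ∀ i < m + 1, (if i = v then gcomb m S (lf n) v else dg 2 i S) < 2 := by
      intro i _
      split_ifs
      · omega
      · have := dg2_le i S
        omega
    have hgs : gstep M m lf n S = ofd 2 (m + 1) (fun i => if i = v then gcomb m S (lf n) v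
        else dg 2 i S) := by
      unfold gstep
      rw [← hv]
      exact ofM_eq hdig hM
    have hlt : gstep M m lf n S < 2 ^ (m + 1) := by
      rw [hgs]
      exact ofd_lt hdig
    rw [hstep, min_eq_left (hlt.le.trans hM), hgs, dg_ofd hdig (by omega)]
    by_cases hkv : k = v
    · rw [if_pos hkv, hg, hkv]
      congr 1
      obtain ⟨c, hc⟩ := hv2 v (le_refl _)
      have hp : 0 < 2 ^ v := Nat.two_pow_pos v
      have hc0 : 1 ≤ c := by
        rcases Nat.eq_zero_or_pos c with h | h
        · rw [h, mul_zero] at hc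
          omega
        · exact h
      rw [hc, Nat.mul_div_cancel_left _ hp]
      have h1 : n = (c - 1) * 2 ^ v + (2 ^ v - 1) := by
        have h2 : 2 ^ v * c = (c - 1) * 2 ^ v + 2 ^ v := by
          obtain ⟨c', rfl⟩ : ∃ c', c = c' + 1 := ⟨c - 1, by omega⟩
          rw [Nat.add_sub_cancel]
          ring
        omega
      rw [h1, add_comm, Nat.add_mul_div_right _ _ hp, Nat.div_eq_of_lt (by omega), zero_add]
    · rw [if_neg hkv]
      rcases Nat.lt_or_ge k v with h | h
      · exfalso
        obtain ⟨c, hc⟩ := hv2 (k + 1) h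
        rw [hc, pow_succ, mul_assoc, Nat.mul_div_cancel_left _ (Nat.two_pow_pos k)] at hodd
        omega
      · have hkv' : v < k := lt_of_le_of_ne h (fun e => hkv e.symm)
        have hnd := hv3 k hkv' hk
        have he : (n + 1) / 2 ^ k = n / 2 ^ k := by
          rw [Nat.succ_div, if_neg hnd, add_zero]
        rw [he] at hodd ⊢
        exact ih' k hk hodd

theorem wd_succ (j u c : ℕ) (hc : c ≤ 1) : wd (j + 1) (2 * u + c) = wd j u ++ [decide (c = 1)] := by
  unfold wd
  rw [List.range_succ, List.map_append, List.map_singleton]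
  congr 1
  · apply List.map_congr_left
    intro i hi
    rw [List.mem_range] at hi
    have h1 : j + 1 - 1 - i = (j - 1 - i) + 1 := by omega
    rw [h1, dg_succ]
    have h2 : (2 * u + c) / 2 = u := by omega
    rw [h2]
  · have h1 : j + 1 - 1 - j = 0 := by omega
    rw [h1, dg_zero]
    have h2 : (2 * u + c) % 2 = c := by omega
    rw [h2]

/-- the values of the subtrees and the game -/
theorem V_game {m : ℕ} {lf : ℕ → ℕ} {P : List Bool → Prop} (hlf : ∀ Y < 2 ^ m, lf Y ≤ 1)
    (hP : ∀ Y < 2 ^ m, lf Y = 1 ↔ P (wd m Y)) :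
    ∀ k ≤ m, ∀ u < 2 ^ (m - k), (V m lf k u = 1 ↔
      Game (decide ((m - k) % 2 = 0)) k (fun y => P (wd (m - k) u ++ y))) := by
  intro k
  induction k with
  | zero =>
    intro _ u hu
    have hu' : u < 2 ^ m := by simpa using hu
    have h0 : Game (decide ((m - 0) % 2 = 0)) 0 (fun y => P (wd (m - 0) u ++ y)) ↔
        P (wd m u) := by
      cases (decide ((m - 0) % 2 = 0)) <;> simp [Game]
    rw [h0]
    exact hP u hu'
  | succ k ih =>
    intro hk u hu
    have h1 : m - k = (m - (k + 1)) + 1 := by omega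
    have h2 : 2 * u < 2 ^ (m - k) := by
      rw [h1, pow_succ]
      omega
    have h3 : 2 * u + 1 < 2 ^ (m - k) := by
      rw [h1, pow_succ]
      omega
    have i0 := ih (by omega) _ h2
    have i1 := ih (by omega) _ h3
    have l0 := V_le hlf k (by omega) _ h2
    have l1 := V_le hlf k (by omega) _ h3
    have w0 : ∀ y, wd (m - k) (2 * u) ++ y = wd (m - (k + 1)) u ++ (false :: y) := by
      intro y
      have := wd_succ (m - (k + 1)) u 0 (by omega)
      rw [add_zero, ← h1] at this
      rw [this]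
      simp
    have w1 : ∀ y, wd (m - k) (2 * u + 1) ++ y = wd (m - (k + 1)) u ++ (true :: y) := by
      intro y
      have := wd_succ (m - (k + 1)) u 1 (by omega)
      rw [← h1] at this
      rw [this]
      simp
    simp only [w0] at i0
    simp only [w1] at i1
    by_cases hpar : (m - (k + 1)) % 2 = 0
    · have hpar' : ¬ (m - k) % 2 = 0 := by omega
      rw [decide_eq_false hpar'] at i0 i1
      rw [decide_eq_true hpar]
      unfold V
      rw [if_pos hpar]
      show _ ↔ ∃ c, Game false k (fun y => P (wd (m - (k + 1)) u ++ (c :: y)))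
      constructor
      · intro h
        by_cases h0 : V m lf k (2 * u) = 1
        · exact ⟨false, i0.1 h0⟩
        · have h0' : V m lf k (2 * u) = 0 := by omega
          rw [h0', Nat.zero_max] at h
          exact ⟨true, i1.1 h⟩
      · rintro ⟨c, hc⟩
        cases c with
        | false =>
          rw [i0.2 hc]
          omega
        | true =>
          rw [i1.2 hc]
          omega
    · have hpar' : (m - k) % 2 = 0 := by omega
      rw [decide_eq_true hpar'] at i0 i1
      rw [decide_eq_false hpar]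
      unfold V
      rw [if_neg hpar]
      show _ ↔ ∀ c, Game true k (fun y => P (wd (m - (k + 1)) u ++ (c :: y)))
      constructor
      · intro h c
        cases c with
        | false => exact i0.1 (by omega)
        | true => exact i1.1 (by omega)
      · intro h
        rw [i0.2 (h false), i1.2 (h true)]
        rfl

end GM

open GM in
theorem prf_GM : S_GM := by
  intro M m lf P hM hlf hP
  have hpc : pc M 2 m = 2 ^ m :=
    pc_eq ((Nat.pow_le_pow_right (by norm_num) (Nat.le_succ m)).trans hM)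
  have h1 := inv hM hlf (2 ^ m) (le_refl _) m (le_refl _) (by
    rw [Nat.div_self (Nat.two_pow_pos m)])
  rw [Nat.div_self (Nat.two_pow_pos m)] at h1
  unfold gameN
  rw [hpc, h1]
  have h2 := V_game hlf hP m (le_refl _) 0 (Nat.two_pow_pos _)
  have h3 : m - m = 0 := Nat.sub_self m
  rw [h3] at h2
  rw [show (1 - 1 : ℕ) = 0 from rfl, h2]
  have h4 : wd 0 0 = [] := rfl
  simp only [h4, List.nil_append, Nat.zero_mod, decide_true]

end Pool.Agent.Work.MP_71c844_lc.Arr
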