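/-
Block ARR (problem MP_71c844_lc): items L1 and L2, composition and the input letter.
-/
import Pool.Agent.Work.MP_71c844_lc.Arr.StmtsL

namespace Pool.Agent.Work.MP_71c844_lc.Arr

namespace LLet

theorem add_two_le {B C Bm : ℕ} (h : Bm ≤ (B + 2) ^ (C + 1)) : Bm + 2 ≤ (B + 2) ^ (C + 2) := by
  have h1 : 2 ≤ (B + 2) ^ (C + 1) := by
    calc 2 ≤ B + 2 := by omega
      _ = (B + 2) ^ 1 := (pow_one _).symm
      _ ≤ (B + 2) ^ (C + 1) := pow_two_le_pow (by omega)
  calc Bm + 2 ≤ (B + 2) ^ (C + 1) + (B + 2) ^ (C + 1) := by omega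
    _ = (B + 2) ^ (C + 1) * 2 := by ring
    _ ≤ (B + 2) ^ (C + 1) * (B + 2) := Nat.mul_le_mul_left _ (by omega)
    _ = (B + 2) ^ (C + 2) := (pow_succ _ _).symm

theorem max_le {B C G : ℕ} (h : G ≤ (B + 2) ^ C) : max B G ≤ (B + 2) ^ (C + 1) := by
  refine _root_.max_le ?_ (h.trans (pow_two_le_pow (by omega)))
  calc B ≤ (B + 2) ^ 1 := by rw [pow_one]; omega
    _ ≤ (B + 2) ^ (C + 1) := pow_two_le_pow (by omega)

end LLet

theorem prf_let : S_let := by
  intro ι Γ co g f hg hf
  obtain ⟨Cg, hg1, hg2⟩ := hg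
  obtain ⟨Cf, hf1, hf2⟩ := hf
  have hbd : ∀ x γ B, (∀ i, co i γ ≤ B) →
      (∀ i, ext co i (γ, g x γ) ≤ max B (g x γ)) ∧
      (max B (g x γ) + 2) ^ Cf ≤ (B + 2) ^ ((Cg + 2) * (Cf + 1)) ∧
      (B + 2) ^ Cg ≤ (B + 2) ^ ((Cg + 2) * (Cf + 1)) := by
    intro x γ B hB
    refine ⟨?_, ?_, ?_⟩
    · intro i
      cases i with
      | none => exact le_max_right _ _
      | some i => exact (hB i).trans (le_max_left _ _)
    · calc (max B (g x γ) + 2) ^ Cf ≤ ((B + 2) ^ (Cg + 2)) ^ Cf :=
            Nat.pow_le_pow_left (LLet.add_two_le (LLet.max_le (hg1 x γ B hB))) _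
        _ = (B + 2) ^ ((Cg + 2) * Cf) := (pow_mul _ _ _).symm
        _ ≤ _ := pow_two_le_pow (Nat.mul_le_mul_left _ (by omega))
    · refine pow_two_le_pow ?_
      have : (Cg + 2) * 1 ≤ (Cg + 2) * (Cf + 1) := Nat.mul_le_mul_left _ (by omega)
      omega
  refine ⟨(Cg + 2) * (Cf + 1), ?_, ?_⟩
  · intro x γ B hB
    obtain ⟨h1, h2, -⟩ := hbd x γ B hB
    exact (hf1 x (γ, g x γ) _ h1).trans h2
  · intro a o s ha ho hao
    obtain ⟨P, hP⟩ := hg2 a s (s + 1) (fun i => (ha i).trans (Nat.lt_succ_self s))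
      (Nat.lt_succ_self s) (fun i => (ha i).ne)
    obtain ⟨Q, hQ⟩ := hf2 (fun i => match i with | none => s | some i => a i) o (s + 1)
      (fun i => by
        cases i with
        | none => exact Nat.lt_succ_self s
        | some i => exact (ha i).trans (Nat.lt_succ_self s))
      (ho.trans (Nat.lt_succ_self s))
      (fun i => by
        cases i with
        | none => exact ho.ne'
        | some i => exact hao i)
    refine ⟨.seq P (.seq Q (Prog.clear s)), ?_⟩
    intro x γ σ h1 h2 h3
    obtain ⟨p1, p2⟩ := hP x γ σ h1 (h3 s le_rfl) (fun j hj => h3 j (by omega))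
    have hσs : ∀ i, Function.update σ s (g x γ) (a i) = σ (a i) := fun i =>
      Function.update_of_ne (ha i).ne _ _
    obtain ⟨q1, q2⟩ := hQ x (γ, g x γ) (Function.update σ s (g x γ))
      (fun i => by
        cases i with
        | none => exact Function.update_self _ _ _
        | some i => exact (hσs i).trans (h1 i))
      (by rw [Function.update_of_ne ho.ne, h2])
      (fun j hj => by
        rw [Function.update_of_ne (by omega : j ≠ s)]
        exact h3 j (by omega))
    refine ⟨?_, ?_⟩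
    · simp only [run]
      rw [p1, q1, run_clear]
      funext r
      by_cases hr : r = s
      · subst hr
        rw [Function.update_self, Function.update_of_ne ho.ne', h3 r le_rfl]
      · rw [Function.update_of_ne hr]
        by_cases hro : r = o
        · subst hro
          rw [Function.update_self, Function.update_self]
        · rw [Function.update_of_ne hro, Function.update_of_ne hro, Function.update_of_ne hr]
    · intro B hB
      obtain ⟨b1, b2, b3⟩ := hbd x γ B hB
      refine ⟨Bd.mono b3 (p2 B hB), ?_⟩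
      rw [p1]
      refine ⟨Bd.mono b2 (q2 _ b1), ?_⟩
      rw [q1]
      refine Bd_clear _ _ _ ?_
      rw [Function.update_of_ne ho.ne', Function.update_self]
      exact (hg1 x γ B hB).trans b3

theorem prf_inpv : S_inpv := by
  intro ι Γ co i
  refine ⟨1, fun x γ B _ => by rw [pow_one]; exact (inpv_le x _).trans (by omega), ?_⟩
  intro a o s ha ho hao
  refine ⟨.inp (a i) o, fun x γ σ h1 h2 _ => ⟨?_, ?_⟩⟩
  · simp only [run]
    rw [h1, h2, zero_add]
  · intro B hB
    have := hB i
    refine ⟨?_, ?_⟩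
    · rw [h1, pow_one]
      omega
    · rw [h2, pow_one]
      omega

end Pool.Agent.Work.MP_71c844_lc.Arr
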