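/-
Block ARR (problem MP_71c844_lc): item L3, bounded recursion.  Author: helper62.
-/
import Pool.Agent.Work.MP_71c844_lc.Arr.StmtsL

namespace Pool.Agent.Work.MP_71c844_lc.Arr

open Finset

namespace LRc

/-- The registers of the arguments of the step function. -/
def aF {ι : Type} (a : ι → ℕ) (s : ℕ) : Option (Option ι) → ℕ
  | none => s + 1
  | some none => s
  | some (some i) => a i

/-- One round of the loop. -/
def body (s : ℕ) (PF : Prog) : Prog :=
  .seq PF (.seq (Prog.clear (s + 1)) (.seq (Prog.addTo (s + 3) (s + 1))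
    (.seq (Prog.clear (s + 3)) (.inc s))))

/-- The registers during the loop. -/
def st (σ : Reg) (s N Y j : ℕ) : Reg := fun r =>
  if r = s then j else if r = s + 1 then Y else if r = s + 2 then N else σ r

theorem st_s (σ : Reg) (s N Y j : ℕ) : st σ s N Y j s = j := by
  simp [st]

theorem st_s1 (σ : Reg) (s N Y j : ℕ) : st σ s N Y j (s + 1) = Y := by
  simp [st]

theorem st_s2 (σ : Reg) (s N Y j : ℕ) : st σ s N Y j (s + 2) = N := by
  simp [st]

theorem st_lt (σ : Reg) (s N Y j : ℕ) {r : ℕ} (h : r < s) : st σ s N Y j r = σ r := by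
  unfold st
  rw [if_neg (by omega), if_neg (by omega), if_neg (by omega)]

theorem st_ge (σ : Reg) (s N Y j : ℕ) {r : ℕ} (h : s + 3 ≤ r) : st σ s N Y j r = σ r := by
  unfold st
  rw [if_neg (by omega), if_neg (by omega), if_neg (by omega)]

section

variable {ι Γ : Type} {co : ι → Γ → ℕ} {F : List Bool → Γ → ℕ → ℕ → ℕ} {CF : ℕ}
  {a : ι → ℕ} {s : ℕ} {PF : Prog}

theorem run_PF (ha : ∀ i, a i < s)
    (hPF : Comp CF (ext (ext co)) (fun x γ => F x γ.1.1 γ.1.2 γ.2) (aF a s) (s + 3) (s + 4) PF)
    (x : List Bool) (γ : Γ) (σ : Reg) (h1 : ∀ i, σ (a i) = co i γ)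
    (h3 : ∀ j, s ≤ j → σ j = 0) (N Y j : ℕ) :
    run PF x (st σ s N Y j) = Function.update (st σ s N Y j) (s + 3) (F x γ j Y) ∧
      ∀ B, (∀ i, co i γ ≤ B) → j ≤ B → Y ≤ B → Bd ((B + 2) ^ CF) PF x (st σ s N Y j) := by
  obtain ⟨g1, g2⟩ := hPF x ((γ, j), Y) (st σ s N Y j)
    (by
      intro i
      match i with
      | none => exact st_s1 _ _ _ _ _
      | some none => exact st_s _ _ _ _ _
      | some (some i) =>
        show st σ s N Y j (a i) = co i γ
        rw [st_lt _ _ _ _ _ (ha i), h1])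
    (by rw [st_ge _ _ _ _ _ le_rfl]; exact h3 _ (by omega))
    (by
      intro k hk
      rw [st_ge _ _ _ _ _ (by omega)]
      exact h3 _ (by omega))
  refine ⟨g1, fun B hB hj hY => g2 B ?_⟩
  intro i
  match i with
  | none => exact hY
  | some none => exact hj
  | some (some i) => exact hB i

theorem run_body (ha : ∀ i, a i < s)
    (hPF : Comp CF (ext (ext co)) (fun x γ => F x γ.1.1 γ.1.2 γ.2) (aF a s) (s + 3) (s + 4) PF)
    (x : List Bool) (γ : Γ) (σ : Reg) (h1 : ∀ i, σ (a i) = co i γ)
    (h3 : ∀ j, s ≤ j → σ j = 0) (N Y j : ℕ) :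
    run (body s PF) x (st σ s N Y j) = st σ s N (F x γ j Y) (j + 1) := by
  unfold body
  simp only [run, run_clear, run_addTo]
  rw [(run_PF ha hPF x γ σ h1 h3 N Y j).1]
  funext r
  have e3 := h3 (s + 3) (by omega)
  simp only [Function.update_apply, st]
  by_cases r0 : r = s
  · subst r0
    simp
  · by_cases r1 : r = s + 1
    · subst r1
      simp
    · by_cases r2 : r = s + 2
      · subst r2
        simp
      · by_cases r3 : r = s + 3
        · subst r3
          simp [e3]
        · simp [r0, r1, r2, r3]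

theorem Bd_body (ha : ∀ i, a i < s)
    (hPF : Comp CF (ext (ext co)) (fun x γ => F x γ.1.1 γ.1.2 γ.2) (aF a s) (s + 3) (s + 4) PF)
    (x : List Bool) (γ : Γ) (σ : Reg) (h1 : ∀ i, σ (a i) = co i γ)
    (h3 : ∀ j, s ≤ j → σ j = 0) (N Y j B M : ℕ) (hB : ∀ i, co i γ ≤ B) (hj : j ≤ B)
    (hY : Y ≤ B) (hM : (B + 2) ^ CF ≤ M) (hM1 : j + 1 ≤ M) (hM2 : Y ≤ M)
    (hM3 : F x γ j Y ≤ M) : Bd M (body s PF) x (st σ s N Y j) := by
  obtain ⟨g1, g2⟩ := run_PF ha hPF x γ σ h1 h3 N Y j
  refine ⟨(g2 B hB hj hY).mono hM, ?_⟩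
  rw [g1]
  refine ⟨Bd_clear _ _ _ ?_, ?_⟩
  · simpa [Function.update_apply, st] using hM2
  · rw [run_clear]
    refine ⟨Bd_addTo _ _ _ _ ?_, ?_⟩
    · simpa [Function.update_apply, st] using hM3
    · rw [run_addTo]
      refine ⟨Bd_clear _ _ _ ?_, ?_⟩
      · simpa [Function.update_apply, st] using hM3
      · rw [run_clear]
        simpa [Bd, Function.update_apply, st] using hM1

theorem iter (ha : ∀ i, a i < s)
    (hPF : Comp CF (ext (ext co)) (fun x γ => F x γ.1.1 γ.1.2 γ.2) (aF a s) (s + 3) (s + 4) PF)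
    (x : List Bool) (γ : Γ) (σ : Reg) (h1 : ∀ i, σ (a i) = co i γ)
    (h3 : ∀ j, s ≤ j → σ j = 0) (N g j : ℕ) :
    (run (body s PF) x)^[j] (st σ s N g 0) = st σ s N (rc g (F x γ) j) j := by
  induction j with
  | zero => rfl
  | succ j ih =>
    rw [Function.iterate_succ_apply', ih, run_body ha hPF x γ σ h1 h3]
    rfl

end

end LRc

open LRc in
theorem prf_rc : S_rc := by
  intro ι Γ co n g F hn hg hF hC
  obtain ⟨C0, hC0⟩ := hC
  obtain ⟨Cn, hn1, hn2⟩ := hn
  obtain ⟨Cg, hg1, hg2⟩ := hg
  obtain ⟨CF, -, hF2⟩ := hF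
  obtain ⟨E, hE⟩ : ∃ E, E = Cn + Cg + C0 + 2 := ⟨_, rfl⟩
  refine ⟨(E + 1) * (CF + 1), ?_, ?_⟩
  · intro x γ B hB
    refine (hC0 x γ B hB _ le_rfl).trans (pow_two_le_pow ?_)
    nlinarith [Nat.zero_le (E * CF), Nat.zero_le CF]
  intro a o s ha ho hao
  obtain ⟨Pn, hPn⟩ := hn2 a (s + 2) (s + 4) (fun i => by have := ha i; omega) (by omega)
    (fun i => by have := ha i; omega)
  obtain ⟨Pg, hPg⟩ := hg2 a (s + 1) (s + 4) (fun i => by have := ha i; omega) (by omega)
    (fun i => by have := ha i; omega)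
  obtain ⟨PF, hPF⟩ := hF2 (aF a s) (s + 3) (s + 4)
    (by
      intro i
      match i with
      | none => show s + 1 < s + 4; omega
      | some none => show s < s + 4; omega
      | some (some i) => show a i < s + 4; have := ha i; omega)
    (by omega)
    (by
      intro i
      match i with
      | none => show s + 1 ≠ s + 3; omega
      | some none => show s ≠ s + 3; omega
      | some (some i) => show a i ≠ s + 3; have := ha i; omega)
  refine ⟨.seq Pn (.seq Pg (.seq (.loop (s + 2) (body s PF)) (.seq (Prog.addTo (s + 1) o)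
    (.seq (Prog.clear s) (.seq (Prog.clear (s + 1)) (Prog.clear (s + 2))))))), ?_⟩
  intro x γ σ h1 h2 h3
  -- the two preparations
  have hr1 : run Pn x σ = Function.update σ (s + 2) (n x γ) :=
    (hPn x γ σ h1 (h3 _ (by omega)) (fun j hj => h3 j (by omega))).1
  have hb1 : ∀ B, (∀ i, co i γ ≤ B) → Bd ((B + 2) ^ Cn) Pn x σ :=
    (hPn x γ σ h1 (h3 _ (by omega)) (fun j hj => h3 j (by omega))).2
  have hq := hPg x γ (Function.update σ (s + 2) (n x γ))
    (fun i => by
      rw [Function.update_of_ne (by have := ha i; omega)]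
      exact h1 i)
    (by
      rw [Function.update_of_ne (by omega)]
      exact h3 _ (by omega))
    (fun j hj => by
      rw [Function.update_of_ne (by omega)]
      exact h3 _ (by omega))
  have hst : Function.update (Function.update σ (s + 2) (n x γ)) (s + 1) (g x γ) =
      st σ s (n x γ) (g x γ) 0 := by
    funext r
    simp only [Function.update_apply, st]
    by_cases r0 : r = s
    · subst r0
      simp [h3 r le_rfl]
    · by_cases r1 : r = s + 1
      · subst r1
        simp
      · by_cases r2 : r = s + 2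
        · subst r2
          simp
        · simp [r0, r1, r2]
  rw [hst] at hq
  have hloop : run (.loop (s + 2) (body s PF)) x (st σ s (n x γ) (g x γ) 0) =
      st σ s (n x γ) (rc (g x γ) (F x γ) (n x γ)) (n x γ) := by
    show (run (body s PF) x)^[st σ s (n x γ) (g x γ) 0 (s + 2)] _ = _
    rw [st_s2, iter ha hPF x γ σ h1 h3]
  have hos : o ≠ s := by omega
  have hos1 : o ≠ s + 1 := by omega
  have hos2 : o ≠ s + 2 := by omega
  constructor
  · simp only [run_clear, run_addTo, run]
    rw [hr1, hq.1]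
    have hl : (run (body s PF) x)^[st σ s (n x γ) (g x γ) 0 (s + 2)]
        (st σ s (n x γ) (g x γ) 0) =
        st σ s (n x γ) (rc (g x γ) (F x γ) (n x γ)) (n x γ) := hloop
    rw [hl]
    funext r
    have e0 := h3 s le_rfl
    have e1 := h3 (s + 1) (by omega)
    have e2 := h3 (s + 2) (by omega)
    simp only [Function.update_apply, st]
    by_cases ro : r = o
    · subst ro
      simp [hos, hos1, hos2, h2]
    · by_cases r0 : r = s
      · subst r0
        simp [e0, ro]
      · by_cases r1 : r = s + 1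
        · subst r1
          simp [e1, ro]
        · by_cases r2 : r = s + 2
          · subst r2
            simp [e2, ro]
          · simp [ro, r0, r1, r2]
  · intro B hB
    obtain ⟨M, hM⟩ : ∃ M, M = (B + 2) ^ ((E + 1) * (CF + 1)) := ⟨_, rfl⟩
    rw [← hM]
    obtain ⟨B', hB'⟩ : ∃ B', B' = (B + 2) ^ E := ⟨_, rfl⟩
    have p1 : B' + 2 ≤ (B + 2) ^ (E + 1) := by
      rw [hB', pow_succ]
      have : 2 ≤ (B + 2) ^ E := by
        calc 2 ≤ B + 2 := by omega
          _ = (B + 2) ^ 1 := (pow_one _).symm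
          _ ≤ (B + 2) ^ E := pow_two_le_pow (by omega)
      nlinarith
    have p2 : (B' + 2) ^ CF ≤ M := by
      calc (B' + 2) ^ CF ≤ ((B + 2) ^ (E + 1)) ^ CF := Nat.pow_le_pow_left p1 _
        _ = (B + 2) ^ ((E + 1) * CF) := (pow_mul _ _ _).symm
        _ ≤ M := by
          rw [hM]
          exact pow_two_le_pow (Nat.mul_le_mul_left _ (by omega))
    have p3 : B' + 2 ≤ M := by
      refine p1.trans ?_
      rw [hM]
      refine pow_two_le_pow ?_
      nlinarith [Nat.zero_le (E * CF), Nat.zero_le CF]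
    have pB : ∀ i, co i γ ≤ B' := by
      intro i
      refine (hB i).trans ?_
      rw [hB']
      calc B ≤ B + 2 := by omega
        _ = (B + 2) ^ 1 := (pow_one _).symm
        _ ≤ (B + 2) ^ E := pow_two_le_pow (by omega)
    have pn : n x γ ≤ B' := by
      refine (hn1 x γ B hB).trans ?_
      rw [hB']
      exact pow_two_le_pow (by omega)
    have py : ∀ j ≤ n x γ, rc (g x γ) (F x γ) j ≤ B' := by
      intro j hj
      refine (hC0 x γ B hB j hj).trans ?_
      rw [hB']
      exact pow_two_le_pow (by omega)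
    refine ⟨(hb1 B hB).mono ?_, ?_⟩
    · rw [hM]
      refine pow_two_le_pow ?_
      nlinarith [Nat.zero_le (E * CF), Nat.zero_le CF]
    rw [hr1]
    refine ⟨(hq.2 B hB).mono ?_, ?_⟩
    · rw [hM]
      refine pow_two_le_pow ?_
      nlinarith [Nat.zero_le (E * CF), Nat.zero_le CF]
    rw [hq.1]
    refine ⟨⟨?_, ?_⟩, ?_⟩
    · rw [st_s2]
      omega
    · rw [st_s2]
      intro j hj
      rw [iter ha hPF x γ σ h1 h3]
      have y1 := py j hj.le
      have y2 : F x γ j (rc (g x γ) (F x γ) j) ≤ B' := py (j + 1) hj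
      exact Bd_body ha hPF x γ σ h1 h3 _ _ _ B' M pB (by omega) y1 p2 (by omega) (by omega)
        (by omega)
    · rw [hloop]
      have y1 := py _ (le_refl (n x γ))
      refine ⟨Bd_addTo _ _ _ _ ?_, ?_⟩
      · rw [st_lt _ _ _ _ _ ho, st_s1, h2]
        omega
      · rw [run_addTo]
        refine ⟨Bd_clear _ _ _ ?_, ?_⟩
        · simp only [Function.update_apply, st]
          simp [hos.symm]
          omega
        · rw [run_clear]
          refine ⟨Bd_clear _ _ _ ?_, ?_⟩
          · simp only [Function.update_apply, st]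
            simp [hos1.symm]
            omega
          · rw [run_clear]
            refine Bd_clear _ _ _ ?_
            simp only [Function.update_apply, st]
            simp [hos2.symm]
            omega

end Pool.Agent.Work.MP_71c844_lc.Arr
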