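/-
Block ARR (problem MP_71c844_lc): closure rules of the class `LSC`, first part (item LR1).
-/
import Pool.Agent.Work.MP_71c844_lc.Arr.StmtsL

namespace Pool.Agent.Work.MP_71c844_lc.Arr

open Finset

namespace LRules1

theorem pw_pos (B C : ℕ) : 1 ≤ (B + 2) ^ C := Nat.one_le_pow _ _ (by omega)

theorem pw_add (B a b : ℕ) : (B + 2) ^ a + (B + 2) ^ b ≤ (B + 2) ^ (a + b + 1) := by
  have h1 : (B + 2) ^ a ≤ (B + 2) ^ (a + b) := pow_two_le_pow (by omega)
  have h2 : (B + 2) ^ b ≤ (B + 2) ^ (a + b) := pow_two_le_pow (by omega)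
  rw [pow_succ]
  nlinarith [pw_pos B (a + b)]

theorem le_pw (B : ℕ) : B ≤ (B + 2) ^ 1 := by rw [pow_one]; omega

/-- The successor of a variable. -/
theorem succ_var {ι Γ : Type} {co : ι → Γ → ℕ} (i : ι) : LSC co (fun _ γ => co i γ + 1) := by
  refine ⟨1, fun x γ B hB => by
    show co i γ + 1 ≤ (B + 2) ^ 1
    rw [pow_one]
    have := hB i
    omega, ?_⟩
  intro a o s ha ho hao
  refine ⟨.seq (Prog.addTo (a i) o) (.inc o), fun x γ σ h1 h2 h3 => ⟨?_, ?_⟩⟩
  · simp only [run]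
    rw [run_addTo, h1, h2, zero_add]
    simp
  · intro B hB
    have := hB i
    refine ⟨Bd_addTo _ _ _ _ ?_, ?_⟩
    · rw [h1, h2, pow_one]
      omega
    · rw [run_addTo, h1, h2]
      simp only [Bd, Function.update_self]
      rw [pow_one]
      omega

theorem rc_succ (g n : ℕ) : rc g (fun _ y => y + 1) n = g + n := by
  induction n with
  | zero => rfl
  | succ n ih => simp only [rc, ih]; omega

theorem rc_addc (f n : ℕ) : rc 0 (fun _ y => y + f) n = f * n := by
  induction n with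
  | zero => rfl
  | succ n ih => simp only [rc, ih]; ring

theorem rc_pred (n : ℕ) : rc 0 (fun j _ => j) n = n - 1 := by
  cases n with
  | zero => rfl
  | succ n => simp only [rc]; omega

theorem rc_sub (f n : ℕ) : rc f (fun _ y => y - 1) n = f - n := by
  induction n with
  | zero => rfl
  | succ n ih => simp only [rc, ih]; omega

theorem rc_sum (F : ℕ → ℕ) (n : ℕ) : rc 0 (fun j y => y + F j) n = ∑ j ∈ range n, F j := by
  induction n with
  | zero => rfl
  | succ n ih => rw [sum_range_succ]; simp only [rc, ih]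

theorem rcM_le (M g : ℕ) (F : ℕ → ℕ → ℕ) (n : ℕ) :
    rc (min g M) (fun j y => min (F j y) M) n ≤ M := by
  cases n with
  | zero => exact min_le_right _ _
  | succ n => exact min_le_right _ _

variable (hrc : S_rc)

include hrc in
theorem add_rule {ι Γ : Type} {co : ι → Γ → ℕ} {f g : List Bool → Γ → ℕ} (hf : LSC co f)
    (hg : LSC co g) : LSC co (fun x γ => f x γ + g x γ) := by
  obtain ⟨C1, h1, -⟩ := id hf
  obtain ⟨C2, h2, -⟩ := id hg
  refine (hrc co g f (fun _ _ _ y => y + 1) hg hf (succ_var (co := ext (ext co)) none)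
    ⟨C1 + C2 + 1, fun x γ B hB j hj => ?_⟩).congr fun x γ => rc_succ _ _
  rw [rc_succ]
  have e1 := h1 x γ B hB
  have e2 := h2 x γ B hB
  have := pw_add B C1 C2
  omega

include hrc in
theorem mul_rule {ι Γ : Type} {co : ι → Γ → ℕ} {f g : List Bool → Γ → ℕ} (hf : LSC co f)
    (hg : LSC co g) : LSC co (fun x γ => f x γ * g x γ) := by
  obtain ⟨C1, h1, -⟩ := id hf
  obtain ⟨C2, h2, -⟩ := id hg
  refine (hrc co g (fun _ _ => 0) (fun x γ _ y => y + f x γ) hg (LSC.const 0)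
    (add_rule hrc (LSC.last (co := ext co)) hf.weak.weak)
    ⟨C1 + C2, fun x γ B hB j hj => ?_⟩).congr fun x γ => rc_addc _ _
  rw [rc_addc, pow_add]
  exact Nat.mul_le_mul (h1 x γ B hB) (hj.trans (h2 x γ B hB))

include hrc in
theorem pred_rule {ι Γ : Type} {co : ι → Γ → ℕ} {f : List Bool → Γ → ℕ} (hf : LSC co f) :
    LSC co (fun x γ => f x γ - 1) := by
  obtain ⟨C1, h1, -⟩ := id hf
  refine (hrc co f (fun _ _ => 0) (fun _ _ j _ => j) hf (LSC.const 0)
    (LSC.last (co := co)).weak ⟨C1, fun x γ B hB j hj => ?_⟩).congr fun x γ => rc_pred _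
  rw [rc_pred]
  have := h1 x γ B hB
  omega

include hrc in
theorem sub_rule {ι Γ : Type} {co : ι → Γ → ℕ} {f g : List Bool → Γ → ℕ} (hf : LSC co f)
    (hg : LSC co g) : LSC co (fun x γ => f x γ - g x γ) := by
  obtain ⟨C1, h1, -⟩ := id hf
  refine (hrc co g f (fun _ _ _ y => y - 1) hg hf
    (pred_rule hrc (LSC.last (co := ext co)))
    ⟨C1, fun x γ B hB j hj => ?_⟩).congr fun x γ => rc_sub _ _
  rw [rc_sub]
  have := h1 x γ B hB
  omega

include hrc in
theorem min_rule {ι Γ : Type} {co : ι → Γ → ℕ} {f g : List Bool → Γ → ℕ} (hf : LSC co f)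
    (hg : LSC co g) : LSC co (fun x γ => min (f x γ) (g x γ)) :=
  (sub_rule hrc hf (sub_rule hrc hf hg)).congr fun x γ => by omega

include hrc in
theorem rcM_rule {ι Γ : Type} {co : ι → Γ → ℕ} {M g n : List Bool → Γ → ℕ}
    {F : List Bool → Γ → ℕ → ℕ → ℕ} (hM : LSC co M) (hg : LSC co g) (hn : LSC co n)
    (hF : LSC (ext (ext co)) (fun x γ => F x γ.1.1 γ.1.2 γ.2)) :
    LSC co (fun x γ => Arr.rcM (M x γ) (g x γ) (F x γ) (n x γ)) := by
  obtain ⟨C1, h1, -⟩ := id hM
  refine hrc co n (fun x γ => min (g x γ) (M x γ)) (fun x γ j y => min (F x γ j y) (M x γ)) hn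
    (min_rule hrc hg hM) (min_rule hrc hF hM.weak.weak)
    ⟨C1, fun x γ B hB j hj => ?_⟩
  exact (rcM_le _ _ _ _).trans (h1 x γ B hB)

include hrc in
theorem sum_rule {ι Γ : Type} {co : ι → Γ → ℕ} {n : List Bool → Γ → ℕ}
    {F : List Bool → Γ → ℕ → ℕ} (hn : LSC co n)
    (hF : LSC (ext co) (fun x γ => F x γ.1 γ.2)) :
    LSC co (fun x γ => ∑ j ∈ range (n x γ), F x γ j) := by
  obtain ⟨C1, h1, -⟩ := id hn
  obtain ⟨C2, h2, -⟩ := id hF
  refine (hrc co n (fun _ _ => 0) (fun x γ j y => y + F x γ j) hn (LSC.const 0)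
    (add_rule hrc (LSC.last (co := ext co)) hF.weak)
    ⟨C1 + (C1 + 2) * C2, fun x γ B hB j hj => ?_⟩).congr fun x γ => rc_sum _ _
  rw [rc_sum]
  have e1 := h1 x γ B hB
  have e3 : ∀ i ∈ range j, F x γ i ≤ (B + 2) ^ ((C1 + 2) * C2) := by
    intro i hi
    have hi' := mem_range.1 hi
    have e4 := h2 x (γ, i) ((B + 2) ^ (C1 + 1)) (by
      intro k
      cases k with
      | none =>
        show i ≤ (B + 2) ^ (C1 + 1)
        have : (B + 2) ^ C1 ≤ (B + 2) ^ (C1 + 1) := pow_two_le_pow (by omega)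
        omega
      | some k =>
        show co k γ ≤ (B + 2) ^ (C1 + 1)
        have e5 : (B + 2) ^ 1 ≤ (B + 2) ^ (C1 + 1) := pow_two_le_pow (by omega)
        have e6 := le_pw B
        have e7 := hB k
        omega)
    refine e4.trans ?_
    rw [pow_mul]
    refine Nat.pow_le_pow_left ?_ _
    have e8 : 2 ≤ (B + 2) ^ (C1 + 1) := by
      have : (B + 2) ^ 1 ≤ (B + 2) ^ (C1 + 1) := pow_two_le_pow (by omega)
      rw [pow_one] at this
      omega
    calc (B + 2) ^ (C1 + 1) + 2 ≤ (B + 2) ^ (C1 + 1) * 2 := by omega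
      _ ≤ (B + 2) ^ (C1 + 1) * (B + 2) := Nat.mul_le_mul_left _ (by omega)
      _ = (B + 2) ^ (C1 + 2) := (pow_succ _ _).symm
  calc ∑ i ∈ range j, F x γ i ≤ ∑ _i ∈ range j, (B + 2) ^ ((C1 + 2) * C2) := sum_le_sum e3
    _ = j * (B + 2) ^ ((C1 + 2) * C2) := by rw [sum_const, card_range, smul_eq_mul]
    _ ≤ (B + 2) ^ C1 * (B + 2) ^ ((C1 + 2) * C2) := Nat.mul_le_mul_right _ (hj.trans e1)
    _ = (B + 2) ^ (C1 + (C1 + 2) * C2) := (pow_add _ _ _).symm

theorem weakU_rule {ι Γ : Type} {co : ι → Γ → ℕ} {f : List Bool → Γ → ℕ → ℕ}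
    (hf : LSC (ext co) (fun x γ => f x γ.1 γ.2)) :
    LSC (ext (ext co)) (fun x γ => f x γ.1.1 γ.2) :=
  hf.reidx (fun γ : (Γ × ℕ) × ℕ => (γ.1.1, γ.2))
    (fun k => match k with
      | none => none
      | some i => some (some i))
    (fun k γ => by cases k <;> rfl)

end LRules1

open LRules1 in
/-- Item LR1. -/
theorem prf_LR1 : S_LR1 := by
  intro hlet hinp hrc
  refine ⟨?_, ?_, ?_, ?_, ?_, ?_, ?_, ?_, ?_⟩
  · intro ι Γ co g f hg hf
    exact hlet co g f hg hf
  · intro ι Γ co g hg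
    exact hlet co g (fun x _ y => inpv x y) hg (hinp (ext co) none)
  · intro ι Γ co f g hf hg
    exact add_rule hrc hf hg
  · intro ι Γ co f g hf hg
    exact mul_rule hrc hf hg
  · intro ι Γ co f g hf hg
    exact sub_rule hrc hf hg
  · intro ι Γ co f g hf hg
    exact min_rule hrc hf hg
  · intro ι Γ co M g n F hM hg hn hF
    exact rcM_rule hrc hM hg hn hF
  · intro ι Γ co n F hn hF
    exact sum_rule hrc hn hF
  · intro ι Γ co f hf
    exact weakU_rule hf

end Pool.Agent.Work.MP_71c844_lc.Arr
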