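/-
Block ARR (problem MP_71c844_lc), item LR2: closure rules for conditions.
-/
import Pool.Agent.Work.MP_71c844_lc.Arr.StmtsL

namespace Pool.Agent.Work.MP_71c844_lc.Arr

open Finset

theorem prf_LR2 : S_LR2 := by
  intro h
  refine ⟨?_, ?_, ?_, ?_, ?_, ?_, ?_, ?_⟩
  · intro ι Γ co P _ f g hP hf hg
    obtain ⟨c, hc, hPc⟩ := hP
    have h1 : LSC co (fun x γ => 1 - c x γ) := h.sub (LSC.const 1) hc
    have h2 : LSC co (fun x γ => 1 - (1 - c x γ)) := h.sub (LSC.const 1) h1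
    refine (h.add (h.mul h2 hf) (h.mul h1 hg)).congr fun x γ => ?_
    by_cases hp : P x γ
    · rw [if_pos hp]
      have hc0 := (hPc x γ).1 hp
      have e1 : 1 - c x γ = 0 := by omega
      simp [e1]
    · rw [if_neg hp]
      have hc0 : c x γ = 0 := by
        by_contra h0
        exact hp ((hPc x γ).2 h0)
      simp [hc0]
  · intro ι Γ co f g hf hg
    refine ⟨fun x γ => 1 - ((f x γ - g x γ) + (g x γ - f x γ)),
      h.sub (LSC.const 1) (h.add (h.sub hf hg) (h.sub hg hf)), fun x γ => ?_⟩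
    show f x γ = g x γ ↔ _
    beta_reduce
    constructor
    · intro e
      omega
    · intro e
      omega
  · intro ι Γ co f g hf hg
    refine ⟨fun x γ => 1 - (f x γ - g x γ), h.sub (LSC.const 1) (h.sub hf hg), fun x γ => ?_⟩
    show f x γ ≤ g x γ ↔ _
    beta_reduce
    omega
  · intro ι Γ co f g hf hg
    refine ⟨fun x γ => g x γ - f x γ, h.sub hg hf, fun x γ => ?_⟩
    show f x γ < g x γ ↔ _
    beta_reduce
    omega
  · rintro ι Γ co P R ⟨c, hc, hPc⟩ ⟨d, hd, hRd⟩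
    refine ⟨fun x γ => c x γ * d x γ, h.mul hc hd, fun x γ => ?_⟩
    show (P x γ ∧ R x γ) ↔ _
    beta_reduce
    rw [hPc x γ, hRd x γ]
    exact (mul_ne_zero_iff).symm
  · rintro ι Γ co P R ⟨c, hc, hPc⟩ ⟨d, hd, hRd⟩
    refine ⟨fun x γ => c x γ + d x γ, h.add hc hd, fun x γ => ?_⟩
    show (P x γ ∨ R x γ) ↔ _
    beta_reduce
    rw [hPc x γ, hRd x γ]
    omega
  · rintro ι Γ co P ⟨c, hc, hPc⟩
    refine ⟨fun x γ => 1 - c x γ, h.sub (LSC.const 1) hc, fun x γ => ?_⟩
    show (¬ P x γ) ↔ _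
    beta_reduce
    rw [hPc x γ]
    omega
  · rintro ι Γ co n P hn ⟨c, hc, hPc⟩
    have h1 : LSC (ext co) (fun x γ => 1 - c x γ) := h.sub (LSC.const 1) hc
    have h2 : LSC co (fun x γ => ∑ j ∈ range (n x γ), (1 - c x (γ, j))) :=
      h.sum (F := fun x γ j => 1 - c x (γ, j)) hn h1
    refine ⟨fun x γ => 1 - ∑ j ∈ range (n x γ), (1 - c x (γ, j)), h.sub (LSC.const 1) h2,
      fun x γ => ?_⟩
    show (∀ j < n x γ, P x γ j) ↔ _
    beta_reduce
    have key : (∑ j ∈ range (n x γ), (1 - c x (γ, j)) = 0) ↔ ∀ j < n x γ, P x γ j := by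
      rw [Finset.sum_eq_zero_iff]
      constructor
      · intro e j hj
        have e1 := e j (Finset.mem_range.2 hj)
        exact (hPc x (γ, j)).2 (by omega)
      · intro e j hj
        have e1 := (hPc x (γ, j)).1 (e j (Finset.mem_range.1 hj))
        omega
    rw [← key]
    omega

end Pool.Agent.Work.MP_71c844_lc.Arr
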