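/-
Block ARR (problem MP_71c844_lc), item LR3: closure rules of the class `LSC`, third part.
Author: helper73.
-/
import Pool.Agent.Work.MP_71c844_lc.Arr.StmtsL

namespace Pool.Agent.Work.MP_71c844_lc.Arr

open Finset

namespace LRules3

/-! ### Arithmetic identities -/

theorem sum_lt (n t : ℕ) (h : t ≤ n) (P : ℕ → Prop) [DecidablePred P]
    (hP : ∀ i < n, P i ↔ i < t) : (∑ i ∈ range n, if P i then 1 else 0) = t := by
  have h1 : (∑ i ∈ range n, if P i then 1 else 0) = ∑ i ∈ range n, if i < t then 1 else 0 := by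
    refine Finset.sum_congr rfl fun i hi => ?_
    have := hP i (Finset.mem_range.1 hi)
    by_cases h2 : i < t
    · rw [if_pos h2, if_pos (this.2 h2)]
    · rw [if_neg h2, if_neg (fun h3 => h2 (this.1 h3))]
  rw [h1, Finset.sum_boole]
  have h2 : (range n).filter (fun i => i < t) = range t := by
    ext i
    simp only [Finset.mem_filter, Finset.mem_range]
    omega
  rw [h2, Finset.card_range]
  rfl

theorem div_id (f g : ℕ) :
    (∑ i ∈ range f, if (i + 1) * g ≤ f ∧ ¬ g = 0 then 1 else 0) = f / g := by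
  refine sum_lt f (f / g) (Nat.div_le_self _ _) _ fun i _ => ?_
  rcases Nat.eq_zero_or_pos g with rfl | hg
  · simp
  · rw [← Nat.succ_le_iff, Nat.le_div_iff_mul_le hg]
    constructor
    · exact fun h => h.1
    · exact fun h => ⟨h, by omega⟩

theorem pc_id (M a k : ℕ) : rcM M 1 (fun _ y => y * a) k = pc M a k := by
  unfold rcM pc
  induction k with
  | zero => simp [rc]
  | succ k ih =>
    show min (rc (min 1 M) (fun _ y => min (y * a) M) k * a) M = _
    rw [ih]
    rcases Nat.eq_zero_or_pos a with rfl | ha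
    · simp
    · rcases le_total (a ^ k) M with h | h
      · rw [min_eq_left h, pow_succ]
      · rw [min_eq_right h, min_eq_right (Nat.le_mul_of_pos_right M ha), min_eq_right]
        rw [pow_succ]
        exact h.trans (Nat.le_mul_of_pos_right _ ha)

theorem divpow_id (f a k : ℕ) : f / pc (f + 1) a k = f / a ^ k := by
  unfold pc
  rcases le_total (a ^ k) (f + 1) with h | h
  · rw [min_eq_left h]
  · rw [min_eq_right h, Nat.div_eq_of_lt (Nat.lt_succ_self f), Nat.div_eq_of_lt (by omega)]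

theorem log_id (f : ℕ) :
    (∑ k ∈ range f, if ¬ f / 2 ^ (k + 1) = 0 then 1 else 0) = Nat.log 2 f := by
  refine sum_lt f (Nat.log 2 f) (Nat.log_le_self 2 f) _ fun k hk => ?_
  have hf : f ≠ 0 := by omega
  have h2 : 0 < 2 ^ (k + 1) := by positivity
  rw [← Nat.succ_le_iff, Nat.le_log_iff_pow_le (by norm_num) hf, Nat.div_eq_zero_iff]
  constructor
  · intro h
    by_contra h3
    exact h (Or.inr (by omega))
  · rintro h (h3 | h3)
    · omega
    · exact absurd h (not_le.2 h3)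

theorem np_spec (n : ℕ) : n < np n ∧ (np n).Prime ∧ ∀ m, n < m → m < np n → ¬ m.Prime := by
  unfold np
  have h1 := Nat.find_spec (Nat.exists_infinite_primes (n + 1))
  refine ⟨h1.1, h1.2, fun m hm hlt hp => ?_⟩
  exact Nat.find_min (Nat.exists_infinite_primes (n + 1)) hlt ⟨hm, hp⟩

theorem np_le (n : ℕ) : np n ≤ 2 * n + 2 := by
  have h := np_spec n
  rcases Nat.eq_zero_or_pos n with rfl | hn
  · by_contra h1
    exact h.2.2 2 (by norm_num) (by omega) Nat.prime_two
  · obtain ⟨p, hp, h1, h2⟩ := Nat.exists_prime_lt_and_le_two_mul n (by omega)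
    by_contra h3
    exact h.2.2 p h1 (by omega) hp

open Classical in
theorem np_id (n : ℕ) :
    n + 1 + (∑ j ∈ range (n + 2), if (∀ i < j + 1, ¬ (n + 1 + i).Prime) then 1 else 0) =
      np n := by
  have h := np_spec n
  have h2 := np_le n
  rw [sum_lt (n + 2) (np n - (n + 1)) (by omega)]
  · omega
  · intro j _
    constructor
    · intro h3
      by_contra h4
      refine h3 (np n - (n + 1)) (by omega) ?_
      have h5 : n + 1 + (np n - (n + 1)) = np n := by omega
      rw [h5]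
      exact h.2.1
    · intro h3 i hi
      exact h.2.2 _ (by omega) (by omega)

theorem prime_id (m : ℕ) : m.Prime ↔ 2 ≤ m ∧ ∀ k < m, k < 2 ∨ ¬ m % k = 0 := by
  rw [Nat.prime_def_lt']
  constructor
  · rintro ⟨h1, h2⟩
    refine ⟨h1, fun k hk => ?_⟩
    rcases Nat.lt_or_ge k 2 with h3 | h3
    · exact Or.inl h3
    · exact Or.inr fun h4 => h2 k h3 hk (Nat.dvd_of_mod_eq_zero h4)
  · rintro ⟨h1, h2⟩
    refine ⟨h1, fun k hk hk' hd => ?_⟩
    rcases h2 k hk' with h3 | h3
    · omega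
    · exact h3 (Nat.mod_eq_zero_of_dvd hd)

/-! ### Rules -/

theorem LSP_congr {ι Γ : Type} {co : ι → Γ → ℕ} {P R : List Bool → Γ → Prop} (h : LSP co P)
    (hPR : ∀ x γ, P x γ ↔ R x γ) : LSP co R := by
  obtain ⟨c, hc, h1⟩ := h
  exact ⟨c, hc, fun x γ => (hPR x γ).symm.trans (h1 x γ)⟩

section rules

variable (h1 : LSR1) (h2 : LSR2) {ι Γ : Type} {co : ι → Γ → ℕ}

include h1 h2

theorem divR {f g : List Bool → Γ → ℕ} (hf : LSC co f) (hg : LSC co g) :
    LSC co (fun x γ => f x γ / g x γ) := by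
  have h3 : LSC (ext co) (fun x γ =>
      if (γ.2 + 1) * g x γ.1 ≤ f x γ.1 ∧ ¬ g x γ.1 = 0 then 1 else 0) :=
    h2.ite (h2.and (h2.le (h1.mul (h1.add LSC.last (LSC.const 1)) hg.weak) hf.weak)
      (h2.not (h2.eq hg.weak (LSC.const 0)))) (LSC.const 1) (LSC.const 0)
  refine (h1.sum (F := fun x γ i => if (i + 1) * g x γ ≤ f x γ ∧ ¬ g x γ = 0 then 1 else 0)
    hf h3).congr fun x γ => div_id _ _

theorem modR {f g : List Bool → Γ → ℕ} (hf : LSC co f) (hg : LSC co g) :
    LSC co (fun x γ => f x γ % g x γ) := by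
  refine (h1.sub hf (h1.mul hg (divR h1 h2 hf hg))).congr fun x γ => ?_
  exact (Nat.mod_def _ _).symm

omit h2 in
theorem pcR {M a k : List Bool → Γ → ℕ} (hM : LSC co M) (ha : LSC co a) (hk : LSC co k) :
    LSC co (fun x γ => Arr.pc (M x γ) (a x γ) (k x γ)) := by
  refine (h1.rcM (F := fun x γ _ y => y * a x γ) hM (LSC.const 1) hk
    (h1.mul LSC.last ha.weak.weak)).congr fun x γ => pc_id _ _ _

theorem divpowR {f a k : List Bool → Γ → ℕ} (hf : LSC co f) (ha : LSC co a) (hk : LSC co k) :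
    LSC co (fun x γ => f x γ / a x γ ^ k x γ) := by
  refine (divR h1 h2 hf (pcR h1 (h1.add hf (LSC.const 1)) ha hk)).congr fun x γ => ?_
  exact divpow_id _ _ _

theorem dgR {a k f : List Bool → Γ → ℕ} (ha : LSC co a) (hk : LSC co k) (hf : LSC co f) :
    LSC co (fun x γ => Arr.dg (a x γ) (k x γ) (f x γ)) :=
  modR h1 h2 (divpowR h1 h2 hf ha hk) ha

omit h2 in
theorem ofMR {M a n : List Bool → Γ → ℕ} {F : List Bool → Γ → ℕ → ℕ} (hM : LSC co M)
    (ha : LSC co a) (hn : LSC co n) (hF : LSC (ext co) (fun x γ => F x γ.1 γ.2)) :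
    LSC co (fun x γ => Arr.ofM (M x γ) (a x γ) (n x γ) (F x γ)) :=
  h1.min (h1.sum (F := fun x γ i => F x γ i * Arr.pc (M x γ) (a x γ) i) hn
    (h1.mul hF (pcR h1 hM.weak ha.weak LSC.last))) hM

theorem log2R {f : List Bool → Γ → ℕ} (hf : LSC co f) :
    LSC co (fun x γ => Nat.log 2 (f x γ)) := by
  have h3 : LSC (ext co) (fun x γ => if ¬ f x γ.1 / 2 ^ (γ.2 + 1) = 0 then 1 else 0) :=
    h2.ite (h2.not (h2.eq (divpowR h1 h2 hf.weak (LSC.const 2) (h1.add LSC.last (LSC.const 1)))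
      (LSC.const 0))) (LSC.const 1) (LSC.const 0)
  exact (h1.sum (F := fun x γ k => if ¬ f x γ / 2 ^ (k + 1) = 0 then 1 else 0)
    hf h3).congr fun x γ => log_id _

theorem pmR {p n : List Bool → Γ → ℕ} {F : List Bool → Γ → ℕ → ℕ} (hp : LSC co p)
    (hn : LSC co n) (hF : LSC (ext co) (fun x γ => F x γ.1 γ.2)) :
    LSC co (fun x γ => Arr.pm (p x γ) (n x γ) (F x γ)) :=
  h1.rcM (F := fun x γ j y => y * F x γ j % p x γ) hp (LSC.const 1) hn
    (modR h1 h2 (h1.mul LSC.last hF.weak) hp.weak.weak)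

theorem primeR {g : List Bool → Γ → ℕ} (hg : LSC co g) :
    LSP co (fun x γ => (g x γ).Prime) := by
  refine LSP_congr (h2.and (h2.le (LSC.const 2) hg)
    (h2.ball (P := fun x γ k => k < 2 ∨ ¬ g x γ % k = 0) hg
      (h2.or (h2.lt LSC.last (LSC.const 2))
        (h2.not (h2.eq (modR h1 h2 hg.weak LSC.last) (LSC.const 0)))))) fun x γ => ?_
  exact (prime_id _).symm

open Classical in
theorem npR {f : List Bool → Γ → ℕ} (hf : LSC co f) : LSC co (fun x γ => Arr.np (f x γ)) := by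
  have h3 : LSC (ext co) (fun x γ =>
      if (∀ i < γ.2 + 1, ¬ (f x γ.1 + 1 + i).Prime) then 1 else 0) :=
    h2.ite (h2.ball (co := ext co) (n := fun _ γ => γ.2 + 1)
      (P := fun x γ i => ¬ (f x γ.1 + 1 + i).Prime) (h1.add LSC.last (LSC.const 1))
      (h2.not (primeR h1 h2 (h1.add (h1.add hf.weak.weak (LSC.const 1)) LSC.last))))
      (LSC.const 1) (LSC.const 0)
  exact (h1.add (h1.add hf (LSC.const 1)) (h1.sum
    (F := fun x γ j => if (∀ i < j + 1, ¬ (f x γ + 1 + i).Prime) then 1 else 0)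
    (h1.add hf (LSC.const 2)) h3)).congr fun x γ => np_id _

end rules

end LRules3

open LRules3 in
/-- LR3. -/
theorem prf_LR3 : S_LR3 := fun h1 h2 =>
  { div := divR h1 h2
    mod := modR h1 h2
    pc := pcR h1
    divpow := divpowR h1 h2
    dg := dgR h1 h2
    ofM := ofMR h1
    log2 := log2R h1 h2
    pm := pmR h1 h2
    np := npR h1 h2 }

end Pool.Agent.Work.MP_71c844_lc.Arr
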