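/-
Block ARR (problem MP_71c844_lc), item GW: guess words and the game.  Author: helper17.
-/
import Pool.Agent.Work.MP_71c844_lc.Arr.StmtsG

namespace Pool.Agent.Work.MP_71c844_lc.Arr

namespace GW

theorem wd_length (m Y : ℕ) : (wd m Y).length = m := by
  unfold wd
  rw [List.length_map, List.length_range]

theorem dg_add (m k c Y : ℕ) (hk : k < m) : dg 2 k (c * 2 ^ m + Y) = dg 2 k Y := by
  unfold dg
  have h1 : c * 2 ^ m = 2 ^ k * (2 * (c * 2 ^ (m - k - 1))) := by
    have : m = k + (1 + (m - k - 1)) := by omega
    calc c * 2 ^ m = c * 2 ^ (k + (1 + (m - k - 1))) := by rw [← this]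
      _ = 2 ^ k * (2 * (c * 2 ^ (m - k - 1))) := by rw [pow_add, pow_add]; ring
  rw [h1, Nat.mul_add_div (pow_pos (by norm_num) k), Nat.mul_add_mod]

theorem wd_succ (m c Y : ℕ) (hc : c < 2) (hY : Y < 2 ^ m) :
    wd (m + 1) (c * 2 ^ m + Y) = decide (c = 1) :: wd m Y := by
  unfold wd
  rw [List.range_succ_eq_map, List.map_cons, List.map_map]
  congr 1
  · have h : dg 2 (m + 1 - 1 - 0) (c * 2 ^ m + Y) = c := by
      unfold dg
      have e : m + 1 - 1 - 0 = m := by omega
      rw [e, mul_comm, Nat.mul_add_div (pow_pos (by norm_num) m), Nat.div_eq_of_lt hY, add_zero,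
        Nat.mod_eq_of_lt hc]
    rw [h]
  · refine List.map_congr_left fun i hi => ?_
    have hi' := List.mem_range.1 hi
    simp only [Function.comp_apply]
    have e : m + 1 - 1 - i.succ = m - 1 - i := by omega
    rw [e, dg_add m (m - 1 - i) c Y (by omega)]

theorem exists_wd : ∀ (m : ℕ) (y : List Bool), y.length = m → ∃ Y < 2 ^ m, y = wd m Y := by
  intro m
  induction m with
  | zero =>
    intro y hy
    refine ⟨0, by norm_num, ?_⟩
    rw [List.length_eq_zero_iff.1 hy]
    rfl
  | succ m ih =>
    intro y hy
    match y, hy with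
    | c :: y', hy =>
      obtain ⟨Y, hY, he⟩ := ih y' (by simpa using hy)
      cases c with
      | false =>
        refine ⟨0 * 2 ^ m + Y, ?_, ?_⟩
        · rw [pow_succ]
          omega
        · rw [wd_succ m 0 Y (by norm_num) hY, ← he]
          rfl
      | true =>
        refine ⟨1 * 2 ^ m + Y, ?_, ?_⟩
        · rw [pow_succ]
          omega
        · rw [wd_succ m 1 Y (by norm_num) hY, ← he]
          rfl

end GW

theorem prf_GW : S_GW := by
  intro m y
  constructor
  · exact GW.exists_wd m y
  · rintro ⟨Y, -, rfl⟩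
    exact GW.wd_length m Y

theorem prf_GC : S_GC := by
  intro e m
  induction m generalizing e with
  | zero =>
    intro P R h
    cases e
    · exact h [] rfl
    · exact h [] rfl
  | succ m ih =>
    intro P R h
    have h' : ∀ c : Bool, ∀ y : List Bool, y.length = m → (P (c :: y) ↔ R (c :: y)) := by
      intro c y hy
      exact h (c :: y) (by simp [hy])
    cases e
    · exact forall_congr' fun c => ih true _ _ (h' c)
    · exact exists_congr fun c => ih false _ _ (h' c)

end Pool.Agent.Work.MP_71c844_lc.Arr
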