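/-
Block ARR (problem MP_71c844_lc), item MJ: the majority and the concatenation of guess words.
Author: helper8.
-/
import Pool.Agent.Work.MP_71c844_lc.Arr.StmtsG
import Pool.Agent.Work.MP_71c844_lc.Arr.GW

namespace Pool.Agent.Work.MP_71c844_lc.Arr

open Finset

namespace MJ

theorem wd_inj : ∀ (m Y Z : ℕ), Y < 2 ^ m → Z < 2 ^ m → wd m Y = wd m Z → Y = Z := by
  intro m
  induction m with
  | zero =>
    intro Y Z hY hZ _
    simp at hY hZ
    omega
  | succ m ih =>
    intro Y Z hY hZ h
    have hp : 0 < 2 ^ m := pow_pos (by norm_num) m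
    have hY1 : Y / 2 ^ m < 2 := by
      rw [Nat.div_lt_iff_lt_mul hp]
      rw [pow_succ] at hY
      omega
    have hZ1 : Z / 2 ^ m < 2 := by
      rw [Nat.div_lt_iff_lt_mul hp]
      rw [pow_succ] at hZ
      omega
    have eY : Y = Y / 2 ^ m * 2 ^ m + Y % 2 ^ m := by
      rw [mul_comm]
      exact (Nat.div_add_mod Y (2 ^ m)).symm
    have eZ : Z = Z / 2 ^ m * 2 ^ m + Z % 2 ^ m := by
      rw [mul_comm]
      exact (Nat.div_add_mod Z (2 ^ m)).symm
    rw [eY, eZ, GW.wd_succ m _ _ hY1 (Nat.mod_lt _ hp), GW.wd_succ m _ _ hZ1 (Nat.mod_lt _ hp)] at h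
    injection h with h1 h2
    have h3 := ih _ _ (Nat.mod_lt _ hp) (Nat.mod_lt _ hp) h2
    have h4 : Y / 2 ^ m = Z / 2 ^ m := by
      have key : ∀ a b : ℕ, a < 2 → b < 2 → (a = 1 ↔ b = 1) → a = b := by
        intro a b
        omega
      exact key _ _ hY1 hZ1 ((decide_eq_decide).1 h1)
    rw [eY, eZ, h3, h4]

theorem card_eq (m : ℕ) (lf : ℕ → ℕ) (P : List Bool → Prop) (h1 : ∀ Z < 2 ^ m, lf Z ≤ 1)
    (h2 : ∀ Z < 2 ^ m, lf Z = 1 ↔ P (wd m Z)) :
    Nat.card {z : List Bool // z.length = m ∧ P z} = ∑ Z ∈ range (2 ^ m), lf Z := by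
  have e1 : Nat.card {z : List Bool // z.length = m ∧ P z} =
      Nat.card {Z : ℕ // Z ∈ (range (2 ^ m)).filter (fun Z => lf Z = 1)} := by
    symm
    refine Nat.card_congr (Equiv.ofBijective
      (fun Z => ⟨wd m Z.1, GW.wd_length m Z.1, ?_⟩) ⟨?_, ?_⟩)
    · have := Finset.mem_filter.1 Z.2
      exact (h2 Z.1 (Finset.mem_range.1 this.1)).1 this.2
    · intro Y Z h
      have hY := Finset.mem_filter.1 Y.2
      have hZ := Finset.mem_filter.1 Z.2
      apply Subtype.ext
      exact wd_inj m _ _ (Finset.mem_range.1 hY.1) (Finset.mem_range.1 hZ.1)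
        (congrArg Subtype.val h)
    · rintro ⟨z, hz, hP⟩
      obtain ⟨Z, hZ, he⟩ := GW.exists_wd m z hz
      refine ⟨⟨Z, Finset.mem_filter.2 ⟨Finset.mem_range.2 hZ, (h2 Z hZ).2 (he ▸ hP)⟩⟩, ?_⟩
      apply Subtype.ext
      exact he.symm
  rw [e1, Nat.card_eq_fintype_card, Fintype.card_coe, Finset.card_filter]
  refine Finset.sum_congr rfl fun Z hZ => ?_
  have h3 := h1 Z (Finset.mem_range.1 hZ)
  split_ifs with h4
  · exact h4.symm
  · omega

end MJ

theorem prf_MJ : S_MJ := by
  intro M m lf P hM h1 h2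
  have e : pc M 2 m = 2 ^ m := by
    unfold pc
    exact min_eq_left hM
  unfold mj Maj
  rw [e, MJ.card_eq m lf P h1 h2]
  split_ifs with h <;> simp [h]

theorem prf_WA : S_WA := by
  intro m Y Z hZ
  apply List.ext_getElem
  · simp only [GW.wd_length, List.length_append]
    omega
  intro i h1 h2
  have hi : i < 2 * m := by
    rw [GW.wd_length] at h1
    exact h1
  by_cases him : i < m
  · rw [List.getElem_append_left (by rw [GW.wd_length]; exact him)]
    unfold wd
    rw [List.getElem_map, List.getElem_map, List.getElem_range, List.getElem_range]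
    have h3 : dg 2 (2 * m - 1 - i) (Y * 2 ^ m + Z) = dg 2 (m - 1 - i) Y := by
      unfold dg
      have e : 2 * m - 1 - i = m + (m - 1 - i) := by omega
      rw [e, pow_add, ← Nat.div_div_eq_div_mul, mul_comm,
        Nat.mul_add_div (pow_pos (by norm_num) m), Nat.div_eq_of_lt hZ, add_zero]
    rw [h3]
  · have him' : m ≤ i := by omega
    rw [List.getElem_append_right (by rw [GW.wd_length]; exact him')]
    unfold wd
    rw [List.getElem_map, List.getElem_map, List.getElem_range, List.getElem_range]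
    have e : m - 1 - (i - (List.map (fun i => decide (dg 2 (m - 1 - i) Y = 1))
        (List.range m)).length) = 2 * m - 1 - i := by
      rw [List.length_map, List.length_range]
      omega
    rw [e, GW.dg_add m (2 * m - 1 - i) Y Z (by omega)]

theorem prf_MC : S_MC := by
  intro m P
  classical
  have h := prf_MJ (2 ^ m) m (fun _ => if P then 1 else 0) (fun _ => P) le_rfl
    (fun Z _ => by split_ifs <;> omega)
    (fun Z _ => by split_ifs with hP <;> simp [hP])
  rw [← h]
  unfold mj pc
  rw [min_self, Finset.sum_const, Finset.card_range, smul_eq_mul]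
  have hp : 0 < 2 ^ m := pow_pos (by norm_num) m
  by_cases hP : P
  · simp only [hP, if_true, iff_true]
    rw [if_pos]
    omega
  · simp only [hP, if_false, iff_false]
    rw [if_neg]
    · omega
    · omega

end Pool.Agent.Work.MP_71c844_lc.Arr
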