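/-
Block ARR (problem MP_71c844_lc), item N1: the interpolation and the arithmetic modulo `p` belong
to the class `LSC`.  Author: helper91.
-/
import Pool.Agent.Work.MP_71c844_lc.Arr.StmtsL

namespace Pool.Agent.Work.MP_71c844_lc.Arr

open Finset

namespace N1

variable {ι Γ : Type} {co : ι → Γ → ℕ}

/-- The inverse modulo `p`. -/
theorem iv_mem (R : LSRules) {p y : List Bool → Γ → ℕ} (hp : LSC co p) (hy : LSC co y) :
    LSC co (fun x γ => iv (p x γ) (y x γ)) := by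
  have h := R.pm (F := fun x γ _ => y x γ) hp (R.sub hp (LSC.const 2)) hy.weak
  exact h

/-- The Lagrange polynomial. -/
theorem lg_mem (R : LSRules) {Q p c z : List Bool → Γ → ℕ} (hQ : LSC co Q) (hp : LSC co p)
    (hc : LSC co c) (hz : LSC co z) :
    LSC co (fun x γ => lg (Q x γ) (p x γ) (c x γ) (z x γ)) := by
  have hs : LSC (ext co) (fun x γ => p x γ.1 - γ.2 % p x γ.1) :=
    R.sub hp.weak (R.mod LSC.last hp.weak)
  have hi : LSC (ext co) (fun x γ => iv (p x γ.1) (c x γ.1 + (p x γ.1 - γ.2 % p x γ.1))) :=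
    iv_mem R hp.weak (R.add hc.weak hs)
  have hF : LSC (ext co) (fun x γ => if γ.2 = c x γ.1 then 1 else
      (z x γ.1 + (p x γ.1 - γ.2 % p x γ.1)) *
        iv (p x γ.1) (c x γ.1 + (p x γ.1 - γ.2 % p x γ.1))) :=
    R.ite (R.eq LSC.last hc.weak) (LSC.const 1) (R.mul (R.add hz.weak hs) hi)
  have h := R.pm (F := fun x γ i => if i = c x γ then 1 else
      (z x γ + (p x γ - i % p x γ)) * iv (p x γ) (c x γ + (p x γ - i % p x γ))) hp hQ hF
  exact h

end N1

/-- Item N1. -/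
theorem prf_N1 : S_N1 := by
  intro R ι Γ co M Q n p k G z hM hQ hn hp hk hG hz
  have hl : LSC (ext (ext co)) (fun x γ =>
      lg (Q x γ.1.1) (p x γ.1.1) (dg (Q x γ.1.1) γ.2 γ.1.2) (z x γ.1.1 γ.2)) :=
    N1.lg_mem R hQ.weak.weak hp.weak.weak
      (R.dg hQ.weak.weak LSC.last LSC.last.weak) (R.weakU hz)
  have hm : LSC (ext co) (fun x γ => pm (p x γ.1) (n x γ.1)
      (fun j => lg (Q x γ.1) (p x γ.1) (dg (Q x γ.1) j γ.2) (z x γ.1 j))) :=
    R.pm (F := fun x (γ : Γ × ℕ) j => lg (Q x γ.1) (p x γ.1) (dg (Q x γ.1) j γ.2) (z x γ.1 j))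
      hp.weak hn.weak hl
  have hs := R.sum (F := fun x γ W => dg (Q x γ) (k x γ) (G x γ W) *
      pm (p x γ) (n x γ) (fun j => lg (Q x γ) (p x γ) (dg (Q x γ) j W) (z x γ j)))
    (R.pc hM hQ hn) (R.mul (R.dg hQ.weak hk.weak hG) hm)
  exact R.mod hs hp

end Pool.Agent.Work.MP_71c844_lc.Arr
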