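/-
Block ARR (problem MP_71c844_lc), item N3: the block function is computed by loop programs.
Author: helper81.
-/
import Pool.Agent.Work.MP_71c844_lc.Arr.StmtsL

namespace Pool.Agent.Work.MP_71c844_lc.Arr

open Finset

namespace N3

section rules

variable {ι Γ : Type} {co : ι → Γ → ℕ}

/-- The number of a cell of a box. -/
theorem cn_rule (H : LSRules) {M a d : List Bool → Γ → ℕ} {f : List Bool → Γ → ℕ → ℕ}
    (hM : LSC co M) (ha : LSC co a) (hd : LSC co d)
    (hf : LSC (ext co) (fun x γ => f x γ.1 γ.2)) :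
    LSC co (fun x γ => cn (M x γ) (a x γ) (d x γ) (f x γ)) := by
  have h1 : LSC (ext co) (fun x γ => f x γ.1 γ.2 * pc (M x γ.1) (a x γ.1) γ.2) :=
    H.mul hf (H.pc hM.weak ha.weak LSC.last)
  exact H.sum (F := fun x γ j => f x γ j * pc (M x γ) (a x γ) j) hd h1

/-- The box made of the neighbouring blocks. -/
theorem box_rule (H : LSRules) {M q d b R W : List Bool → Γ → ℕ}
    (hM : LSC co M) (hq : LSC co q) (hd : LSC co d) (hb : LSC co b) (hR : LSC co R)
    (hW : LSC co W) :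
    LSC co (fun x γ => boxN (M x γ) (q x γ) (d x γ) (b x γ) (R x γ) (W x γ)) := by
  have h3b : LSC co (fun x γ => 3 * b x γ) := H.mul (LSC.const 3) hb
  have hdig : LSC (ext (ext co)) (fun x γ => dg (3 * b x γ.1.1) γ.2 γ.1.2) :=
    H.dg h3b.weak.weak LSC.last LSC.last.weak
  have hc1 : LSC (ext co) (fun x γ => cn (M x γ.1) 3 (d x γ.1)
      (fun j => dg (3 * b x γ.1) j γ.2 / b x γ.1)) :=
    cn_rule H (f := fun x γ j => dg (3 * b x γ.1) j γ.2 / b x γ.1) hM.weak (LSC.const 3) hd.weak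
      (H.div hdig hb.weak.weak)
  have hc2 : LSC (ext co) (fun x γ => cn (M x γ.1) (b x γ.1) (d x γ.1)
      (fun j => dg (3 * b x γ.1) j γ.2 % b x γ.1)) :=
    cn_rule H (f := fun x γ j => dg (3 * b x γ.1) j γ.2 % b x γ.1) hM.weak hb.weak hd.weak
      (H.mod hdig hb.weak.weak)
  have hF : LSC (ext co) (fun x γ => dg (q x γ.1)
      (cn (M x γ.1) 3 (d x γ.1) (fun j => dg (3 * b x γ.1) j γ.2 / b x γ.1) * R x γ.1
        + cn (M x γ.1) (b x γ.1) (d x γ.1) (fun j => dg (3 * b x γ.1) j γ.2 % b x γ.1))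
      (W x γ.1)) :=
    H.dg hq.weak (H.add (H.mul hc1 hR.weak) hc2) hW.weak
  exact H.ofM (F := fun x γ u => dg (q x γ)
      (cn (M x γ) 3 (d x γ) (fun j => dg (3 * b x γ) j u / b x γ) * R x γ
        + cn (M x γ) (b x γ) (d x γ) (fun j => dg (3 * b x γ) j u % b x γ))
      (W x γ)) hM hq (H.pc hM h3b hd) hF

/-- One step of the array in a box. -/
theorem bst_rule (H : LSRules) {M q d L D od tb X : List Bool → Γ → ℕ}
    (hM : LSC co M) (hq : LSC co q) (hd : LSC co d) (hL : LSC co L) (hD : LSC co D)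
    (hod : LSC co od) (htb : LSC co tb) (hX : LSC co X) :
    LSC co (fun x γ => bstN (M x γ) (q x γ) (d x γ) (L x γ) (D x γ) (od x γ) (tb x γ)
      (X x γ)) := by
  have hc : LSC (ext (ext co)) (fun x γ => cn (M x γ.1.1) (L x γ.1.1) (d x γ.1.1)
      (fun j => dg 3 j γ.2)) :=
    cn_rule H (f := fun _ γ j => dg 3 j γ.2) hM.weak.weak hL.weak.weak hd.weak.weak
      (H.dg (LSC.const 3) LSC.last LSC.last.weak)
  have hin : LSC (ext (ext co)) (fun x γ => dg (q x γ.1.1)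
      (γ.1.2 + cn (M x γ.1.1) (L x γ.1.1) (d x γ.1.1) (fun j => dg 3 j γ.2) - od x γ.1.1)
      (X x γ.1.1)) :=
    H.dg hq.weak.weak (H.sub (H.add LSC.last.weak hc) hod.weak.weak) hX.weak.weak
  have hofm : LSC (ext co) (fun x γ => ofM (M x γ.1) (q x γ.1) (D x γ.1)
      (fun e => dg (q x γ.1)
        (γ.2 + cn (M x γ.1) (L x γ.1) (d x γ.1) (fun j => dg 3 j e) - od x γ.1) (X x γ.1))) :=
    H.ofM (F := fun x γ e => dg (q x γ.1)
        (γ.2 + cn (M x γ.1) (L x γ.1) (d x γ.1) (fun j => dg 3 j e) - od x γ.1) (X x γ.1))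
      hM.weak hq.weak hD.weak hin
  have hF : LSC (ext co) (fun x γ => dg (q x γ.1) (ofM (M x γ.1) (q x γ.1) (D x γ.1)
      (fun e => dg (q x γ.1)
        (γ.2 + cn (M x γ.1) (L x γ.1) (d x γ.1) (fun j => dg 3 j e) - od x γ.1) (X x γ.1)))
      (tb x γ.1)) :=
    H.dg hq.weak hofm htb.weak
  exact H.ofM (F := fun x γ u => dg (q x γ) (ofM (M x γ) (q x γ) (D x γ)
      (fun e => dg (q x γ)
        (u + cn (M x γ) (L x γ) (d x γ) (fun j => dg 3 j e) - od x γ) (X x γ)))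
      (tb x γ)) hM hq (H.pc hM hL hd) hF

/-- The central block. -/
theorem out_rule (H : LSRules) {M q d b R X : List Bool → Γ → ℕ}
    (hM : LSC co M) (hq : LSC co q) (hd : LSC co d) (hb : LSC co b) (hR : LSC co R)
    (hX : LSC co X) :
    LSC co (fun x γ => outN (M x γ) (q x γ) (d x γ) (b x γ) (R x γ) (X x γ)) := by
  have h3b : LSC co (fun x γ => 3 * b x γ) := H.mul (LSC.const 3) hb
  have hc : LSC (ext co) (fun x γ => cn (M x γ.1) (3 * b x γ.1) (d x γ.1)
      (fun j => b x γ.1 + dg (b x γ.1) j γ.2)) :=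
    cn_rule H (f := fun x γ j => b x γ.1 + dg (b x γ.1) j γ.2) hM.weak h3b.weak hd.weak
      (H.add hb.weak.weak (H.dg hb.weak.weak LSC.last LSC.last.weak))
  have hF : LSC (ext co) (fun x γ => if γ.2 < pc (M x γ.1) (b x γ.1) (d x γ.1) then
      dg (q x γ.1) (cn (M x γ.1) (3 * b x γ.1) (d x γ.1)
        (fun j => b x γ.1 + dg (b x γ.1) j γ.2)) (X x γ.1) else 0) :=
    H.ite (H.lt LSC.last (H.pc hM.weak hb.weak hd.weak)) (H.dg hq.weak hc hX.weak)
      (LSC.const 0)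
  exact H.ofM (F := fun x γ c => if c < pc (M x γ) (b x γ) (d x γ) then
      dg (q x γ) (cn (M x γ) (3 * b x γ) (d x γ)
        (fun j => b x γ + dg (b x γ) j c)) (X x γ) else 0) hM hq hR hF

end rules

end N3

/-- Item N3. -/
theorem prf_N3 : S_N3 := by
  intro H ι Γ co M q d b R D tb W hM hq hd hb hR hD htb hW
  have h3b : LSC co (fun x γ => 3 * b x γ) := H.mul (LSC.const 3) hb
  have hod : LSC co (fun x γ => cn (M x γ) (3 * b x γ) (d x γ) (fun _ => 1)) :=
    N3.cn_rule H (f := fun _ _ _ => 1) hM h3b hd (LSC.const 1)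
  have hst : LSC (ext (ext co)) (fun x γ => bstN (M x γ.1.1) (q x γ.1.1) (d x γ.1.1)
      (3 * b x γ.1.1) (D x γ.1.1)
      (cn (M x γ.1.1) (3 * b x γ.1.1) (d x γ.1.1) (fun _ => 1)) (tb x γ.1.1) γ.2) :=
    N3.bst_rule H hM.weak.weak hq.weak.weak hd.weak.weak h3b.weak.weak hD.weak.weak
      hod.weak.weak htb.weak.weak LSC.last
  have hrc : LSC co (fun x γ => rcM (M x γ)
      (boxN (M x γ) (q x γ) (d x γ) (b x γ) (R x γ) (W x γ))
      (fun _ X => bstN (M x γ) (q x γ) (d x γ) (3 * b x γ) (D x γ)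
        (cn (M x γ) (3 * b x γ) (d x γ) (fun _ => 1)) (tb x γ) X) (b x γ)) :=
    H.rcM (F := fun x γ _ X => bstN (M x γ) (q x γ) (d x γ) (3 * b x γ) (D x γ)
        (cn (M x γ) (3 * b x γ) (d x γ) (fun _ => 1)) (tb x γ) X)
      hM (N3.box_rule H hM hq hd hb hR hW) hb hst
  exact N3.out_rule H hM hq hd hb hR hrc

end Pool.Agent.Work.MP_71c844_lc.Arr
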