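/-
Block ARR (problem MP_71c844_lc), item N4: the leaf block.  Author: helper9.
-/
import Pool.Agent.Work.MP_71c844_lc.Arr.StmtsL

namespace Pool.Agent.Work.MP_71c844_lc.Arr

open Finset

namespace N4

theorem lsp_congr {ι Γ : Type} {co : ι → Γ → ℕ} {P R : List Bool → Γ → Prop} (hP : LSP co P)
    (h : ∀ x γ, P x γ ↔ R x γ) : LSP co R := by
  obtain ⟨c, h1, h2⟩ := hP
  exact ⟨c, h1, fun x γ => (h x γ).symm.trans (h2 x γ)⟩

/-- The coordinate function. -/
theorem wpos (H : LSRules) {ι Γ : Type} {co : ι → Γ → ℕ} {h D p N b c j : List Bool → Γ → ℕ}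
    (hh : LSC co h) (hD : LSC co D) (hp : LSC co p) (hN : LSC co N) (hb : LSC co b)
    (hc : LSC co c) (hj : LSC co j) :
    LSC co (fun x γ => (∑ l ∈ range (h x γ),
      dg 3 (j x γ) (dg (D x γ * p x γ) l (N x γ) % D x γ)) * b x γ + dg (b x γ) (j x γ) (c x γ)) := by
  refine H.add (H.mul (H.sum (n := h)
    (F := fun x γ l => dg 3 (j x γ) (dg (D x γ * p x γ) l (N x γ) % D x γ)) hh ?_) hb) (H.dg hb hj hc)
  exact H.dg (LSC.const 3) hj.weak (H.mod (H.dg (H.mul hD.weak hp.weak) LSC.last hN.weak) hD.weak)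

theorem gv_mem (H : LSRules) {ι Γ : Type} {co : ι → Γ → ℕ} {m Y i : List Bool → Γ → ℕ}
    (hm : LSC co m) (hY : LSC co Y) (hi : LSC co i) :
    LSC co (fun x γ => gv (m x γ) (Y x γ) (i x γ)) := by
  unfold gv
  exact H.ite (P := fun x γ => i x γ < m x γ) (H.lt hi hm)
    (H.dg (LSC.const 2) (H.sub (H.sub hm (LSC.const 1)) hi) hY) (LSC.const 2)

/-- The initial state. -/
theorem ini (H : LSRules) {ι Γ : Type} {co : ι → Γ → ℕ} {m Y d q et o : List Bool → Γ → ℕ}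
    {w : List Bool → Γ → ℕ → ℕ} (hm : LSC co m) (hY : LSC co Y) (hd : LSC co d) (hq : LSC co q)
    (het : LSC co et) (ho : LSC co o) (hw : LSC (ext co) (fun x γ => w x γ.1 γ.2))
    (hw0 : LSC co (fun x γ => w x γ 0)) :
    LSC co (fun x γ => iniN x (m x γ) (Y x γ) (d x γ) (q x γ) (et x γ) (o x γ) (w x γ)) := by
  unfold iniN
  have hin : LSC co (fun x γ => inpv x (w x γ 0 - o x γ)) := H.inp (H.sub hw0 ho)
  refine H.ite (P := fun x γ => (∀ j < d x γ, j ≠ 0 → w x γ j = o x γ) ∧ o x γ ≤ w x γ 0)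
    (H.and ?_ (H.le ho hw0)) ?_ (H.dg hq (LSC.const 8) het)
  · refine H.ball (P := fun x γ j => j ≠ 0 → w x γ j = o x γ) hd ?_
    refine lsp_congr (H.or (H.eq LSC.last (LSC.const 0)) (H.eq hw ho.weak)) ?_
    intro x γ
    constructor
    · rintro (h1 | h1) h2
      · exact absurd h1 h2
      · exact h1
    · intro h1
      by_cases h2 : γ.2 = 0
      · exact Or.inl h2
      · exact Or.inr (h1 h2)
  · exact H.dg hq (H.add (H.mul (LSC.const 3) (gv_mem H hm hY (H.sub hw0 ho))) hin) het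

end N4

/-- N4. -/
theorem prf_N4 : S_N4 := by
  intro H ι Γ co m Y M q d b R D p h et N hm hY hM hq hd hb hR hD hp hh het hN
  unfold lfN
  refine H.ofM (F := fun x γ c => if c < pc (M x γ) (b x γ) (d x γ) then
      iniN x (m x γ) (Y x γ) (d x γ) (q x γ) (et x γ) (b x γ * h x γ)
        (fun j => (∑ l ∈ range (h x γ), dg 3 j (dg (D x γ * p x γ) l (N x γ) % D x γ)) * b x γ
          + dg (b x γ) j c)
    else 0) hM hq hR ?_
  refine H.ite (P := fun (x : List Bool) (γ : Γ × ℕ) => γ.2 < pc (M x γ.1) (b x γ.1) (d x γ.1))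
    (H.lt LSC.last (H.pc hM.weak hb.weak hd.weak)) ?_ (LSC.const 0)
  refine N4.ini H (w := fun (x : List Bool) (γ : Γ × ℕ) (j : ℕ) => (∑ l ∈ range (h x γ.1),
      dg 3 j (dg (D x γ.1 * p x γ.1) l (N x γ.1) % D x γ.1)) * b x γ.1 + dg (b x γ.1) j γ.2)
    hm.weak hY.weak hd.weak hq.weak het.weak (H.mul hb.weak hh.weak) ?_ ?_
  · exact N4.wpos H (j := fun _ γ => γ.2) hh.weak.weak hD.weak.weak hp.weak.weak hN.weak.weak
      hb.weak.weak LSC.last.weak LSC.last
  · exact N4.wpos H (j := fun _ _ => 0) hh.weak hD.weak hp.weak hN.weak hb.weak LSC.last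
      (LSC.const 0)

end Pool.Agent.Work.MP_71c844_lc.Arr
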