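/-
Block ARR (problem MP_71c844_lc), item N5: the verdict is in the class.  Author: helper92.
-/
import Pool.Agent.Work.MP_71c844_lc.Arr.StmtsL

namespace Pool.Agent.Work.MP_71c844_lc.Arr

namespace N5

variable {ι Γ : Type} {co : ι → Γ → ℕ}

theorem bOf_mem (R : LSRules) {d A M : List Bool → Γ → ℕ} (hd : LSC co d) (hA : LSC co A)
    (hM : LSC co M) : LSC co (fun x γ => bOf (d x γ) (A x γ) (M x γ)) := by
  unfold bOf
  refine R.sum (n := fun x γ => Nat.log 2 (M x γ))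
    (F := fun x γ b => if A x γ * pc (Nat.log 2 (M x γ) + 1) (b + 1) (d x γ) ≤
      Nat.log 2 (M x γ) then 1 else 0) (R.log2 hM) ?_
  exact R.ite (R.le (R.mul hA.weak (R.pc (R.add (R.log2 hM.weak) (LSC.const 1))
    (R.add LSC.last (LSC.const 1)) hd.weak)) (R.log2 hM.weak)) (LSC.const 1) (LSC.const 0)

theorem rOf_mem (R : LSRules) {b : List Bool → Γ → ℕ} (hb : LSC co b) :
    LSC co (fun x γ => rOf (b x γ)) := by
  unfold rOf
  exact R.add (R.log2 hb) (LSC.const 1)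

theorem hOf_mem (R : LSRules) {M d b : List Bool → Γ → ℕ} (hM : LSC co M) (hd : LSC co d)
    (hb : LSC co b) : LSC co (fun x γ => hOf (M x γ) (d x γ) (b x γ)) := by
  unfold hOf
  exact R.div (R.pc hM hb hd) (rOf_mem R hb)

/-- The expression of `simN` after all parameters are computed. -/
noncomputable def sim0 (x : List Bool) (m Y M d q tb et b D h K Q R p : ℕ) : ℕ :=
  dg p (h % 2 * D * K) (loopS M D Q K p h (bmN M q d b R D tb)
    (lfN x m Y M q d b R D p h et) (pc M (D * p) h)) % q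

theorem sim0_mem (Ru : LSRules) (h1 : S_N1) (h2 : S_N2) (h3 : S_N3) (h4 : S_N4)
    {m Y M d q tb et b D h K Q R p : List Bool → Γ → ℕ} (hm : LSC co m) (hY : LSC co Y)
    (hM : LSC co M) (hd : LSC co d) (hq : LSC co q) (htb : LSC co tb) (het : LSC co et)
    (hb : LSC co b) (hD : LSC co D) (hh : LSC co h)
    (hK : LSC co K) (hQ : LSC co Q) (hR : LSC co R) (hp : LSC co p) :
    LSC co (fun x γ => sim0 x (m x γ) (Y x γ) (M x γ) (d x γ) (q x γ) (tb x γ) (et x γ)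
      (b x γ) (D x γ) (h x γ) (K x γ) (Q x γ) (R x γ) (p x γ)) := by
  unfold sim0
  refine Ru.mod (Ru.dg hp (Ru.mul (Ru.mul (Ru.mod hh (LSC.const 2)) hD) hK) ?_) hq
  refine h2 Ru h1 co M D Q K p h (fun x γ => pc (M x γ) (D x γ * p x γ) (h x γ))
    (fun x γ => bmN (M x γ) (q x γ) (d x γ) (b x γ) (R x γ) (D x γ) (tb x γ))
    (fun x γ => lfN x (m x γ) (Y x γ) (M x γ) (q x γ) (d x γ) (b x γ) (R x γ) (D x γ) (p x γ)
      (h x γ) (et x γ)) hM hD hQ hK hp hh (Ru.pc hM (Ru.mul hD hp) hh) ?_ ?_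
  · exact h3 Ru (ext co) (fun x γ => M x γ.1) (fun x γ => q x γ.1) (fun x γ => d x γ.1)
      (fun x γ => b x γ.1) (fun x γ => R x γ.1) (fun x γ => D x γ.1) (fun x γ => tb x γ.1)
      (fun _ γ => γ.2) hM.weak hq.weak hd.weak hb.weak hR.weak hD.weak htb.weak LSC.last
  · exact h4 Ru (ext co) (fun x γ => m x γ.1) (fun x γ => Y x γ.1)
      (fun x γ => M x γ.1) (fun x γ => q x γ.1) (fun x γ => d x γ.1)
      (fun x γ => b x γ.1) (fun x γ => R x γ.1) (fun x γ => D x γ.1) (fun x γ => p x γ.1)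
      (fun x γ => h x γ.1) (fun x γ => et x γ.1)
      (fun _ γ => γ.2) hm.weak hY.weak hM.weak hq.weak hd.weak hb.weak hR.weak hD.weak hp.weak
      hh.weak het.weak LSC.last

theorem simN_mem (Ru : LSRules) (h1 : S_N1) (h2 : S_N2) (h3 : S_N3) (h4 : S_N4)
    {m Y M d q tb et b : List Bool → Γ → ℕ} (hm : LSC co m) (hY : LSC co Y)
    (hM : LSC co M) (hd : LSC co d) (hq : LSC co q) (htb : LSC co tb) (het : LSC co et)
    (hb : LSC co b) :
    LSC co (fun x γ => simN x (m x γ) (Y x γ) (M x γ) (d x γ) (q x γ) (tb x γ) (et x γ)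
      (b x γ)) := by
  have hD : LSC co (fun x γ => pc (M x γ) 3 (d x γ)) := Ru.pc hM (LSC.const 3) hd
  have hh : LSC co (fun x γ => hOf (M x γ) (d x γ) (b x γ)) := hOf_mem Ru hM hd hb
  have hK : LSC co (fun x γ => hOf (M x γ) (d x γ) (b x γ) + 1) := Ru.add hh (LSC.const 1)
  have hQ : LSC co (fun x γ => pc (M x γ) (q x γ) (rOf (b x γ))) :=
    Ru.pc hM hq (rOf_mem Ru hb)
  have hR : LSC co (fun x γ => (hOf (M x γ) (d x γ) (b x γ) + 1) * rOf (b x γ)) :=
    Ru.mul hK (rOf_mem Ru hb)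
  have hp : LSC co (fun x γ => np (pc (M x γ) 3 (d x γ) * (hOf (M x γ) (d x γ) (b x γ) + 1) *
      pc (M x γ) (q x γ) (rOf (b x γ)))) := Ru.np (Ru.mul (Ru.mul hD hK) hQ)
  exact sim0_mem Ru h1 h2 h3 h4 hm hY hM hd hq htb het hb hD hh hK hQ hR hp

end N5

theorem prf_N5 : S_N5 := by
  intro Ru h1 h2 h3 h4 ι Γ co m Y M d q tb et vt A hm hY hM hd hq htb het hvt hA
  have hb := N5.bOf_mem Ru hd hA hM
  unfold verN
  exact Ru.ite (P := fun x γ => bOf (d x γ) (A x γ) (M x γ) = 0)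
    (Ru.eq hb (LSC.const 0)) (LSC.const 0)
    (Ru.dg (LSC.const 3) (N5.simN_mem Ru h1 h2 h3 h4 hm hY hM hd hq htb het hb) hvt)

end Pool.Agent.Work.MP_71c844_lc.Arr
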