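/-
Block ARR (problem MP_71c844_lc), item N6: the value of the game belongs to the class.
-/
import Pool.Agent.Work.MP_71c844_lc.Arr.StmtsL

namespace Pool.Agent.Work.MP_71c844_lc.Arr

open Finset

namespace N6

theorem div_pow_mul (N m k : ℕ) : N / m ^ k * m ^ k = N / m ^ k * pc (N + 1) m k := by
  unfold pc
  rcases le_or_gt (m ^ k) (N + 1) with h | h
  · rw [min_eq_left h]
  · rw [Nat.div_eq_of_lt (by omega), Nat.zero_mul, Nat.zero_mul]

variable {ι Γ : Type} {co : ι → Γ → ℕ}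

theorem max_mem (R : LSRules) {f g : List Bool → Γ → ℕ} (hf : LSC co f) (hg : LSC co g) :
    LSC co (fun x γ => max (f x γ) (g x γ)) := by
  refine (R.sub (R.add hf hg) (R.min hf hg)).congr fun x γ => ?_
  show f x γ + g x γ - min (f x γ) (g x γ) = max (f x γ) (g x γ)
  omega

theorem vl_mem (R : LSRules) {m h N : List Bool → Γ → ℕ} (hm : LSC co m) (hh : LSC co h)
    (hN : LSC co N) : LSC co (fun x γ => vl (m x γ) (h x γ) (N x γ)) := by
  have hm' : LSC (ext co) (fun x γ => m x γ.1) := hm.weak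
  have hN' : LSC (ext co) (fun x γ => N x γ.1) := hN.weak
  have hl : LSC (ext co) (fun _ γ => γ.2 + 1) := R.add LSC.last (LSC.const 1)
  have hN1 : LSC (ext co) (fun x γ => N x γ.1 + 1) := R.add hN' (LSC.const 1)
  have h1 : LSC (ext co) (fun x γ => N x γ.1 / m x γ.1 ^ (γ.2 + 1)) := R.divpow hN' hm' hl
  have h2 : LSC (ext co) (fun x γ => pc (N x γ.1 + 1) (m x γ.1) (γ.2 + 1)) :=
    R.pc hN1 hm' hl
  have h3 : LSC (ext co) (fun x γ => N x γ.1 / m x γ.1 ^ (γ.2 + 1) *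
    pc (N x γ.1 + 1) (m x γ.1) (γ.2 + 1)) := R.mul h1 h2
  have h4 : LSP (ext co) (fun x γ => N x γ.1 / m x γ.1 ^ (γ.2 + 1) *
    pc (N x γ.1 + 1) (m x γ.1) (γ.2 + 1) = N x γ.1) := R.eq h3 hN'
  have h5 : LSC (ext co) (fun x γ => if N x γ.1 / m x γ.1 ^ (γ.2 + 1) *
    pc (N x γ.1 + 1) (m x γ.1) (γ.2 + 1) = N x γ.1 then 1 else 0) :=
    R.ite h4 (LSC.const 1) (LSC.const 0)
  have h6 := R.sum (n := h) (F := fun x γ l => if N x γ / m x γ ^ (l + 1) *
    pc (N x γ + 1) (m x γ) (l + 1) = N x γ then 1 else 0) hh h5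
  refine h6.congr fun x γ => ?_
  unfold vl
  refine Finset.sum_congr rfl fun l _ => ?_
  rw [div_pow_mul]

theorem gcomb_mem (R : LSRules) {m S v k : List Bool → Γ → ℕ} (hm : LSC co m) (hS : LSC co S)
    (hv : LSC co v) (hk : LSC co k) :
    LSC co (fun x γ => gcomb (m x γ) (S x γ) (v x γ) (k x γ)) := by
  have hi : LSC (ext (ext co)) (fun (_ : List Bool) γ => γ.1.2) :=
    LSC.weak (co := ext co) (f := fun _ γ => γ.2) LSC.last
  have hu : LSC (ext (ext co)) (fun (_ : List Bool) γ => γ.2) := LSC.last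
  have hS' : LSC (ext (ext co)) (fun x γ => S x γ.1.1) := hS.weak.weak
  have hm' : LSC (ext (ext co)) (fun x γ => m x γ.1.1) := hm.weak.weak
  have hd : LSC (ext (ext co)) (fun x γ => dg 2 γ.1.2 (S x γ.1.1)) :=
    R.dg (LSC.const 2) hi hS'
  have hc : LSP (ext (ext co)) (fun x γ => (m x γ.1.1 - (γ.1.2 + 1)) % 2 = 0) :=
    R.eq (R.mod (R.sub hm' (R.add hi (LSC.const 1))) (LSC.const 2)) (LSC.const 0)
  have h1 : LSC (ext (ext co)) (fun x γ => if (m x γ.1.1 - (γ.1.2 + 1)) % 2 = 0 then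
      max (dg 2 γ.1.2 (S x γ.1.1)) γ.2 else min (dg 2 γ.1.2 (S x γ.1.1)) γ.2) :=
    R.ite hc (max_mem R hd hu) (R.min hd hu)
  exact R.rcM (F := fun x γ i u => if (m x γ - (i + 1)) % 2 = 0 then
      max (dg 2 i (S x γ)) u else min (dg 2 i (S x γ)) u) (LSC.const 1) hv hk h1

theorem gstep_mem (R : LSRules) {M m v N S : List Bool → Γ → ℕ} (hM : LSC co M)
    (hm : LSC co m) (hv : LSC co v) (hN : LSC co N) (hS : LSC co S) :
    LSC co (fun x γ => ofM (M x γ) 2 (m x γ + 1) (fun i =>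
      if i = vl 2 (m x γ) (N x γ + 1) then
        gcomb (m x γ) (S x γ) (v x γ) (vl 2 (m x γ) (N x γ + 1)) else dg 2 i (S x γ))) := by
  have hvl : LSC co (fun x γ => vl 2 (m x γ) (N x γ + 1)) :=
    vl_mem R (LSC.const 2) hm (R.add hN (LSC.const 1))
  have hvl' : LSC (ext co) (fun x γ => vl 2 (m x γ.1) (N x γ.1 + 1)) := hvl.weak
  have hg : LSC (ext co) (fun x γ =>
      gcomb (m x γ.1) (S x γ.1) (v x γ.1) (vl 2 (m x γ.1) (N x γ.1 + 1))) :=
    (gcomb_mem R hm hS hv hvl).weak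
  have hd : LSC (ext co) (fun x γ => dg 2 γ.2 (S x γ.1)) :=
    R.dg (LSC.const 2) LSC.last hS.weak
  have h1 : LSC (ext co) (fun x γ => if γ.2 = vl 2 (m x γ.1) (N x γ.1 + 1) then
      gcomb (m x γ.1) (S x γ.1) (v x γ.1) (vl 2 (m x γ.1) (N x γ.1 + 1))
      else dg 2 γ.2 (S x γ.1)) := R.ite (R.eq LSC.last hvl') hg hd
  exact R.ofM (a := fun _ _ => 2) (n := fun x γ => m x γ + 1)
    (F := fun x γ i => if i = vl 2 (m x γ) (N x γ + 1) then
        gcomb (m x γ) (S x γ) (v x γ) (vl 2 (m x γ) (N x γ + 1)) else dg 2 i (S x γ))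
    hM (LSC.const 2) (R.add hm (LSC.const 1)) h1

end N6

open N6 in
/-- **N6.** -/
theorem prf_N6 : S_N6 := by
  intro R ι Γ co M m lf hM hm hlf
  have hlf' : LSC (ext (ext co)) (fun x γ => lf x γ.1.1 γ.1.2) :=
    LSC.weak (co := ext co) (f := fun x γ => lf x γ.1 γ.2) hlf
  have hN' : LSC (ext (ext co)) (fun (_ : List Bool) γ => γ.1.2) :=
    LSC.weak (co := ext co) (f := fun _ γ => γ.2) LSC.last
  have hst := gstep_mem (co := ext (ext co)) R (M := fun x γ => M x γ.1.1)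
    (m := fun x γ => m x γ.1.1) (v := fun x γ => lf x γ.1.1 γ.1.2) (N := fun _ γ => γ.1.2)
    (S := fun _ γ => γ.2) hM.weak.weak hm.weak.weak hlf' hN' LSC.last
  have h1 : LSC co (fun x γ => rcM (M x γ) 0 (fun N S => gstep (M x γ) (m x γ) (lf x γ) N S)
      (pc (M x γ) 2 (m x γ))) :=
    R.rcM (F := fun x γ N S => gstep (M x γ) (m x γ) (lf x γ) N S) hM (LSC.const 0)
      (R.pc hM (LSC.const 2) hm) hst
  exact R.dg (LSC.const 2) hm h1

end Pool.Agent.Work.MP_71c844_lc.Arr
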