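/-
Block ARR (problem MP_71c844_lc), item P1: good parameters.  Author: helper6.
-/
import Pool.Agent.Work.MP_71c844_lc.Arr.StmtsG

namespace Pool.Agent.Work.MP_71c844_lc.Arr

open Finset

namespace P1

theorem mul_bOf (d A M : ℕ) (hA : 1 ≤ A) (h : bOf d A M ≠ 0) :
    A * (bOf d A M) ^ d ≤ Nat.log 2 M := by
  by_contra hc
  rw [not_le] at hc
  set L := Nat.log 2 M with hL
  have hfail : ∀ i, bOf d A M ≤ i + 1 → ¬ A * pc (L + 1) (i + 1) d ≤ L := by
    intro i hi hle
    have h1 : L < A * (i + 1) ^ d :=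
      lt_of_lt_of_le hc (Nat.mul_le_mul_left _ (Nat.pow_le_pow_left hi d))
    unfold pc at hle
    rcases le_total ((i + 1) ^ d) (L + 1) with h2 | h2
    · rw [min_eq_left h2] at hle
      omega
    · rw [min_eq_right h2] at hle
      have : 1 * (L + 1) ≤ A * (L + 1) := Nat.mul_le_mul_right _ hA
      omega
  have key : bOf d A M ≤ bOf d A M - 1 := by
    calc bOf d A M = ∑ i ∈ range L, (if A * pc (L + 1) (i + 1) d ≤ L then 1 else 0) := by
          rw [bOf]
      _ ≤ ∑ i ∈ range (bOf d A M - 1), 1 := by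
          rw [← Finset.sum_filter]
          apply Finset.sum_le_sum_of_subset
          intro i hi
          rw [mem_filter, mem_range] at hi
          rw [mem_range]
          by_contra h3
          exact hfail i (by omega) hi.2
      _ = bOf d A M - 1 := by simp
  omega

theorem two_le_pow (q : ℕ) : q ≤ 2 ^ q := Nat.lt_two_pow_self.le

theorem le_pow_of {x c B A L M : ℕ} (h : x ≤ 2 ^ (c * B)) (hc : c ≤ A) (hL : A * B ≤ L)
    (hM : 2 ^ L ≤ M) : x ≤ M :=
  h.trans ((Nat.pow_le_pow_right (by norm_num) ((Nat.mul_le_mul_right _ hc).trans hL)).trans hM)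

theorem np_le (n : ℕ) (hn : n ≠ 0) : np n ≤ 2 * n := by
  obtain ⟨p, hp, h1, h2⟩ := Nat.exists_prime_lt_and_le_two_mul n hn
  have : np n ≤ p := Nat.find_min' _ ⟨h1, hp⟩
  exact this.trans h2

end P1

open P1 in
theorem prf_P1 : S_P1 := by
  intro d q hd hq
  set e := 2 + 3 * d + q with he
  set A0 := 2 * d + q * 3 ^ d + 2 * q + q + 1 + 4 * 3 ^ d * e + 2 * q * 3 ^ d + (2 * d + e) with hA0
  refine ⟨A0, by omega, ?_⟩
  intro A hA M hb0
  have hA1 : 1 ≤ A := by omega
  have hL := mul_bOf d A M hA1 hb0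
  have hM0 : M ≠ 0 := by
    intro h
    apply hb0
    rw [h]
    simp [bOf]
  have hM : 2 ^ Nat.log 2 M ≤ M := Nat.pow_log_le_self 2 hM0
  generalize hbb : bOf d A M = b at hL hb0
  generalize Nat.log 2 M = L at hL hM
  have hb : 1 ≤ b := by omega
  set B := b ^ d with hB
  have hB1 : 1 ≤ B := Nat.one_le_pow _ _ hb
  have hbB : b ≤ B := Nat.le_self_pow (by omega) b
  set r := rOf b with hr
  have hr1 : 1 ≤ r := by rw [hr]; unfold rOf; omega
  have hrb : r ≤ b := by rw [hr]; unfold rOf; exact Nat.log_lt_self 2 (by omega)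
  have hrB : r ≤ B := hrb.trans hbB
  have hb2 : b ≤ 2 ^ r := by rw [hr]; unfold rOf; exact (Nat.lt_pow_succ_log_self (by norm_num) b).le
  set h := B / r with hh
  have hhr : h * r ≤ B := Nat.div_mul_le_self B r
  have hhr2 : B ≤ (h + 1) * r := by
    have := Nat.lt_div_mul_add (a := B) (b := r) (by omega)
    have e2 : (h + 1) * r = B / r * r + r := by rw [hh]; ring
    omega
  have hKr : (h + 1) * r ≤ 2 * B := by
    have : (h + 1) * r = h * r + r := by ring
    omega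
  have hKB : h + 1 ≤ 2 * B := by
    calc h + 1 = (h + 1) * 1 := by ring
      _ ≤ (h + 1) * r := Nat.mul_le_mul_left _ hr1
      _ ≤ 2 * B := hKr
  have hB2 : B ≤ 2 ^ (d * r) := by
    rw [hB, mul_comm d r, pow_mul]
    exact Nat.pow_le_pow_left hb2 d
  have h3d : 3 ^ d ≤ 2 ^ (2 * d) := by
    rw [pow_mul]
    exact Nat.pow_le_pow_left (by norm_num) d
  have hqr : q ^ r ≤ 2 ^ (q * r) := by
    rw [pow_mul]
    exact Nat.pow_le_pow_left (two_le_pow q) r
  have hqr0 : 1 ≤ q ^ r := Nat.one_le_pow _ _ (by omega)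
  have h3d0 : 1 ≤ 3 ^ d := Nat.one_le_pow _ _ (by norm_num)
  -- the prime
  set p := np (3 ^ d * (h + 1) * q ^ r) with hp
  have hppos : 3 ^ d * (h + 1) * q ^ r ≠ 0 := by positivity
  have hp2 : p ≤ 2 ^ (e * r) := by
    calc p ≤ 2 * (3 ^ d * (h + 1) * q ^ r) := np_le _ hppos
      _ ≤ 2 * (2 ^ (2 * d) * (2 * 2 ^ (d * r)) * 2 ^ (q * r)) := by
          apply Nat.mul_le_mul_left
          apply Nat.mul_le_mul _ hqr
          apply Nat.mul_le_mul h3d
          omega
      _ = 2 ^ (2 + 2 * d + d * r + q * r) := by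
          rw [pow_add, pow_add, pow_add]
          ring
      _ ≤ 2 ^ (e * r) := by
          apply Nat.pow_le_pow_right (by norm_num)
          have e3 : e * r = 2 * r + 2 * d * r + d * r + q * r := by rw [he]; ring
          have e4 : 2 * d * 1 ≤ 2 * d * r := Nat.mul_le_mul_left _ hr1
          omega
  refine ⟨hb, ?_, ⟨hq, hb, hhr2, ?_, ?_⟩, ?_, ?_, ?_, ?_, ?_⟩
  · -- 3 ^ d ≤ M
    refine le_pow_of (c := 2 * d) (h3d.trans ?_) (by omega) hL hM
    exact Nat.pow_le_pow_right (by norm_num) (Nat.le_mul_of_pos_right _ (by omega))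
  · -- q ^ ((3 b) ^ d) ≤ M
    refine le_pow_of (c := q * 3 ^ d) ?_ (by omega) hL hM
    rw [mul_pow, mul_assoc, pow_mul 2 q]
    exact Nat.pow_le_pow_left (two_le_pow q) _
  · -- q ^ R ≤ M
    refine le_pow_of (c := 2 * q) ?_ (by omega) hL hM
    calc q ^ ((h + 1) * r) ≤ (2 ^ q) ^ ((h + 1) * r) := Nat.pow_le_pow_left (two_le_pow q) _
      _ ≤ (2 ^ q) ^ (2 * B) := Nat.pow_le_pow_right (by positivity) hKr
      _ = 2 ^ (2 * q * B) := by rw [← pow_mul]; ring_nf
  · -- q ^ r ≤ M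
    refine le_pow_of (c := q) (hqr.trans ?_) (by omega) hL hM
    exact Nat.pow_le_pow_right (by norm_num) (Nat.mul_le_mul_left _ hrB)
  · -- b ^ d ≤ M
    refine le_pow_of (c := 1) ?_ (by omega) hL hM
    rw [one_mul]
    exact two_le_pow B
  · -- h1
    have hc : 4 * 3 ^ d * e ≤ A := by omega
    refine le_pow_of (c := 4 * 3 ^ d * e) ?_ hc hL hM
    calc p ^ (2 * 3 ^ d * (h + 1)) ≤ (2 ^ (e * r)) ^ (2 * 3 ^ d * (h + 1)) :=
          Nat.pow_le_pow_left hp2 _
      _ = 2 ^ (e * (2 * 3 ^ d) * ((h + 1) * r)) := by rw [← pow_mul]; ring_nf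
      _ ≤ 2 ^ (e * (2 * 3 ^ d) * (2 * B)) :=
          Nat.pow_le_pow_right (by norm_num) (Nat.mul_le_mul_left _ hKr)
      _ = 2 ^ (4 * 3 ^ d * e * B) := by ring_nf
  · -- h2
    have hc : 2 * q * 3 ^ d ≤ A := by omega
    refine le_pow_of (c := 2 * q * 3 ^ d) ?_ hc hL hM
    calc (q ^ r) ^ (3 ^ d * (h + 1)) ≤ (2 ^ (q * r)) ^ (3 ^ d * (h + 1)) :=
          Nat.pow_le_pow_left hqr _
      _ = 2 ^ (q * 3 ^ d * ((h + 1) * r)) := by rw [← pow_mul]; ring_nf
      _ ≤ 2 ^ (q * 3 ^ d * (2 * B)) :=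
          Nat.pow_le_pow_right (by norm_num) (Nat.mul_le_mul_left _ hKr)
      _ = 2 ^ (2 * q * 3 ^ d * B) := by ring_nf
  · -- h3
    have hc : 2 * d + e ≤ A := by omega
    refine le_pow_of (c := 2 * d + e) ?_ hc hL hM
    calc (3 ^ d * p) ^ h ≤ (2 ^ (2 * d) * 2 ^ (e * r)) ^ h :=
          Nat.pow_le_pow_left (Nat.mul_le_mul h3d hp2) _
      _ = 2 ^ ((2 * d + e * r) * h) := by rw [← pow_add, ← pow_mul]
      _ ≤ 2 ^ ((2 * d + e) * (h * r)) := by
          apply Nat.pow_le_pow_right (by norm_num)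
          have e5 : (2 * d + e * r) ≤ (2 * d + e) * r := by
            have : 2 * d * 1 ≤ 2 * d * r := Nat.mul_le_mul_left _ hr1
            nlinarith
          calc (2 * d + e * r) * h ≤ (2 * d + e) * r * h := Nat.mul_le_mul_right _ e5
            _ = (2 * d + e) * (h * r) := by ring
      _ ≤ 2 ^ ((2 * d + e) * B) :=
          Nat.pow_le_pow_right (by norm_num) (Nat.mul_le_mul_left _ hhr)

end Pool.Agent.Work.MP_71c844_lc.Arr
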