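/-
Block ARR (problem MP_71c844_lc), items P2 and P4: the time that can be simulated in a given
space.  Author: helper95.
-/
import Pool.Agent.Work.MP_71c844_lc.Arr.StmtsG

namespace Pool.Agent.Work.MP_71c844_lc.Arr

open Finset

namespace P2

/-- For `M = 2 ^ (A b ^ d)` the side is `b`. -/
theorem bOf_eq (d A b : ℕ) (hd : 1 ≤ d) (hA : 1 ≤ A) : bOf d A (2 ^ (A * b ^ d)) = b := by
  have hL : Nat.log 2 (2 ^ (A * b ^ d)) = A * b ^ d := Nat.log_pow (by norm_num) _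
  unfold bOf
  rw [hL]
  set L := A * b ^ d with hLdef
  have hbL : b ≤ L := (Nat.le_self_pow (by omega) b).trans (Nat.le_mul_of_pos_left _ (by omega))
  have h1 : ∀ i ∈ range L, (if A * pc (L + 1) (i + 1) d ≤ L then 1 else 0) =
      if i < b then 1 else 0 := by
    intro i _
    by_cases hi : i < b
    · rw [if_pos hi, if_pos]
      calc A * pc (L + 1) (i + 1) d ≤ A * (i + 1) ^ d := Nat.mul_le_mul_left _ (min_le_left _ _)
        _ ≤ A * b ^ d := Nat.mul_le_mul_left _ (Nat.pow_le_pow_left (by omega) d)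
    · rw [if_neg hi, if_neg]
      intro hle
      unfold pc at hle
      rcases le_total ((i + 1) ^ d) (L + 1) with h2 | h2
      · rw [min_eq_left h2, hLdef] at hle
        have h3 : b ^ d < (i + 1) ^ d := Nat.pow_lt_pow_left (by omega) (by omega)
        have h4 : A * b ^ d < A * (i + 1) ^ d := Nat.mul_lt_mul_of_pos_left h3 (by omega)
        omega
      · rw [min_eq_right h2] at hle
        have : 1 * (L + 1) ≤ A * (L + 1) := Nat.mul_le_mul_right _ hA
        omega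
  rw [Finset.sum_congr rfl h1, ← Finset.sum_filter, Finset.sum_const, smul_eq_mul, mul_one]
  have h2 : (range L).filter (fun i => i < b) = range b := by
    ext i
    simp only [mem_filter, mem_range]
    omega
  rw [h2, card_range]

theorem rOf_le {b : ℕ} (hb : 1 ≤ b) : rOf b ≤ b := by
  unfold rOf
  exact Nat.log_lt_self 2 (by omega)

theorem rOf_pos (b : ℕ) : 1 ≤ rOf b := by
  unfold rOf
  omega

/-- The time of the side `b` is at least `b`. -/
theorem le_time {d b : ℕ} (hd : 1 ≤ d) (hb : 1 ≤ b) : b ≤ b * (b ^ d / rOf b) := by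
  have h1 : rOf b ≤ b ^ d := (rOf_le hb).trans (Nat.le_self_pow (by omega) b)
  have h2 : 1 ≤ b ^ d / rOf b := (Nat.one_le_div_iff (rOf_pos b)).2 h1
  exact Nat.le_mul_of_pos_right _ (by omega)

/-- The quotient loses at most a factor two. -/
theorem div_ge {a r : ℕ} (hr : 1 ≤ r) (h : r ≤ a) : (a : ℝ) ≤ 2 * r * ((a / r : ℕ) : ℝ) := by
  have h1 : 1 ≤ a / r := (Nat.one_le_div_iff (by omega)).2 h
  have h2 : a < a / r * r + r := Nat.lt_div_mul_add (a := a) (b := r) (by omega)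
  have h3 : r ≤ a / r * r := Nat.le_mul_of_pos_left _ h1
  have h4 : a ≤ 2 * r * (a / r) := by
    have : 2 * r * (a / r) = a / r * r + a / r * r := by ring
    omega
  exact_mod_cast h4

/-- The logarithm of the side. -/
theorem rOf_real {b T : ℕ} (hb : 1 ≤ b) (h : b < T) :
    (rOf b : ℝ) ≤ 3 * Real.log ((T : ℝ) + 2) := by
  have hT : (2 : ℝ) ≤ T := by exact_mod_cast (by omega : 2 ≤ T)
  have hlog1 : (1 : ℝ) ≤ Real.log ((T : ℝ) + 2) := by
    rw [Real.le_log_iff_exp_le (by positivity)]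
    linarith [Real.exp_one_lt_d9]
  have h1 : (2 : ℝ) ^ (Nat.log 2 b) ≤ b := by
    exact_mod_cast Nat.pow_log_le_self 2 (by omega : b ≠ 0)
  have h2 : (b : ℝ) ≤ (T : ℝ) + 2 := by
    have : (b : ℝ) ≤ T := by exact_mod_cast h.le
    linarith
  have h3 : (Nat.log 2 b : ℝ) * Real.log 2 ≤ Real.log ((T : ℝ) + 2) := by
    have h4 := Real.log_le_log (by positivity) (h1.trans h2)
    rwa [Real.log_pow] at h4
  have h5 : (1 : ℝ) / 2 ≤ Real.log 2 := by linarith [Real.log_two_gt_d9]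
  have h7 : (0 : ℝ) ≤ (Nat.log 2 b : ℝ) := Nat.cast_nonneg _
  have h6 : (Nat.log 2 b : ℝ) ≤ 2 * Real.log ((T : ℝ) + 2) := by nlinarith
  unfold rOf
  push_cast
  linarith

/-- The bound for a side whose predecessor is too small for the time `T`. -/
theorem side_bound {d c T : ℕ} (hd : 1 ≤ d) (hc : 1 ≤ c) (h : c * (c ^ d / rOf c) < T) :
    (((c + 1) ^ d : ℕ) : ℝ) ≤ 6 * 2 ^ (d + 1) *
      ((T : ℝ) * Real.log ((T : ℝ) + 2)) ^ ((d : ℝ) / ((d : ℝ) + 1)) := by
  have hcT : c < T := lt_of_le_of_lt (le_time hd hc) h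
  have hT : (2 : ℝ) ≤ T := by exact_mod_cast (by omega : 2 ≤ T)
  have hlog : 0 < Real.log ((T : ℝ) + 2) := Real.log_pos (by linarith)
  have hr := rOf_real hc hcT
  have hq := div_ge (a := c ^ d) (r := rOf c) (rOf_pos c)
    ((rOf_le hc).trans (Nat.le_self_pow (by omega) c))
  have hc0 : (1 : ℝ) ≤ c := by exact_mod_cast hc
  have hr0 : (0 : ℝ) < rOf c := by exact_mod_cast (rOf_pos c)
  have hF : (c : ℝ) * ((c ^ d / rOf c : ℕ) : ℝ) ≤ T := by exact_mod_cast h.le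
  set X : ℝ := (T : ℝ) * Real.log ((T : ℝ) + 2) with hX
  have hX0 : 0 ≤ X := by positivity
  -- the power `d + 1`
  have h1 : (c : ℝ) ^ (d + 1) ≤ 6 * X := by
    push_cast at hq
    calc (c : ℝ) ^ (d + 1) = c * (c : ℝ) ^ d := by rw [pow_succ]; ring
      _ ≤ c * (2 * rOf c * ((c ^ d / rOf c : ℕ) : ℝ)) := by
          apply mul_le_mul_of_nonneg_left _ (by positivity)
          exact_mod_cast hq
      _ = 2 * rOf c * (c * ((c ^ d / rOf c : ℕ) : ℝ)) := by ring
      _ ≤ 2 * rOf c * T := mul_le_mul_of_nonneg_left hF (by positivity)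
      _ ≤ 2 * (3 * Real.log ((T : ℝ) + 2)) * T := by
          apply mul_le_mul_of_nonneg_right _ (by positivity)
          linarith
      _ = 6 * X := by rw [hX]; ring
  have h2 : ((c : ℝ) + 1) ^ (d + 1) ≤ 6 * 2 ^ (d + 1) * X := by
    calc ((c : ℝ) + 1) ^ (d + 1) ≤ (2 * c) ^ (d + 1) := by
          apply pow_le_pow_left₀ (by positivity)
          linarith
      _ = 2 ^ (d + 1) * (c : ℝ) ^ (d + 1) := by rw [mul_pow]
      _ ≤ 2 ^ (d + 1) * (6 * X) := mul_le_mul_of_nonneg_left h1 (by positivity)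
      _ = 6 * 2 ^ (d + 1) * X := by ring
  have hth0 : 0 ≤ (d : ℝ) / ((d : ℝ) + 1) := by positivity
  have hth1 : (d : ℝ) / ((d : ℝ) + 1) ≤ 1 := by
    rw [div_le_one (by positivity)]
    linarith
  have h3 : (((c : ℝ) + 1) ^ (d + 1)) ^ ((d : ℝ) / ((d : ℝ) + 1)) = ((c : ℝ) + 1) ^ d := by
    rw [← Real.rpow_natCast ((c : ℝ) + 1) (d + 1), ← Real.rpow_mul (by positivity),
      ← Real.rpow_natCast ((c : ℝ) + 1) d]
    congr 1
    push_cast
    field_simp
  have hB : (1 : ℝ) ≤ 6 * 2 ^ (d + 1) := by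
    have : (1 : ℝ) ≤ 2 ^ (d + 1) := one_le_pow₀ (by norm_num)
    linarith
  push_cast
  rw [← h3]
  calc (((c : ℝ) + 1) ^ (d + 1)) ^ ((d : ℝ) / ((d : ℝ) + 1))
      ≤ (6 * 2 ^ (d + 1) * X) ^ ((d : ℝ) / ((d : ℝ) + 1)) :=
        Real.rpow_le_rpow (by positivity) h2 hth0
    _ = (6 * 2 ^ (d + 1)) ^ ((d : ℝ) / ((d : ℝ) + 1)) * X ^ ((d : ℝ) / ((d : ℝ) + 1)) :=
        Real.mul_rpow (by positivity) hX0
    _ ≤ (6 * 2 ^ (d + 1)) * X ^ ((d : ℝ) / ((d : ℝ) + 1)) := by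
        apply mul_le_mul_of_nonneg_right _ (by positivity)
        calc ((6 : ℝ) * 2 ^ (d + 1)) ^ ((d : ℝ) / ((d : ℝ) + 1))
            ≤ ((6 : ℝ) * 2 ^ (d + 1)) ^ (1 : ℝ) := Real.rpow_le_rpow_of_exponent_le hB hth1
          _ = 6 * 2 ^ (d + 1) := Real.rpow_one _

end P2

open P2 in
/-- P4. -/
theorem prf_P4 : S_P4 := by
  intro d A hd hA
  refine ⟨A * (6 * 2 ^ (d + 1)) + 2 ^ d + A, ?_⟩
  intro T l
  have hex : ∃ b : ℕ, 1 ≤ b ∧ l ≤ A * b ^ d ∧ T ≤ b * (b ^ d / rOf b) := by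
    refine ⟨T + l + 1, by omega, ?_, ?_⟩
    · calc l ≤ T + l + 1 := by omega
        _ ≤ (T + l + 1) ^ d := Nat.le_self_pow (by omega) _
        _ ≤ A * (T + l + 1) ^ d := Nat.le_mul_of_pos_left _ (by omega)
    · exact le_trans (by omega : T ≤ T + l + 1) (le_time hd (by omega))
  classical
  obtain ⟨hb1, hbl, hbT⟩ := Nat.find_spec hex
  have hmin : ∀ m < Nat.find hex, ¬ (1 ≤ m ∧ l ≤ A * m ^ d ∧ T ≤ m * (m ^ d / rOf m)) :=
    fun m hm => Nat.find_min hex hm
  generalize Nat.find hex = b at hb1 hbl hbT hmin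
  refine ⟨2 ^ (A * b ^ d), ?_, ?_, ?_, ?_⟩
  · rw [Nat.log_pow (by norm_num)]
    exact hbl
  · rw [bOf_eq d A b hd hA]
    omega
  · rw [bOf_eq d A b hd hA]
    exact hbT
  · rw [Nat.log_pow (by norm_num)]
    set Y : ℝ := ((T : ℝ) * Real.log ((T : ℝ) + 2)) ^ ((d : ℝ) / ((d : ℝ) + 1)) with hY
    have hlog0 : 0 ≤ Real.log ((T : ℝ) + 2) :=
      Real.log_nonneg (by have : (0 : ℝ) ≤ T := Nat.cast_nonneg _; linarith)
    have hY0 : 0 ≤ Y := by positivity
    have hA0 : (0 : ℝ) ≤ A := Nat.cast_nonneg _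
    have hl0 : (0 : ℝ) ≤ l := Nat.cast_nonneg _
    have hp0 : (0 : ℝ) ≤ 2 ^ d := by positivity
    have hp1 : (0 : ℝ) ≤ (A : ℝ) * (6 * 2 ^ (d + 1)) := by positivity
    have hp2 : (0 : ℝ) ≤ (A : ℝ) * (6 * 2 ^ (d + 1)) * Y := by positivity
    have hp3 : (0 : ℝ) ≤ (A : ℝ) * (6 * 2 ^ (d + 1)) * l := by positivity
    have hp4 : (0 : ℝ) ≤ 2 ^ d * Y := by positivity
    have hp5 : (0 : ℝ) ≤ 2 ^ d * l := by positivity
    have hp6 : (0 : ℝ) ≤ A * Y := by positivity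
    have hp7 : (0 : ℝ) ≤ A * l := by positivity
    have key : ((A * b ^ d : ℕ) : ℝ) ≤ (A : ℝ) * (6 * 2 ^ (d + 1)) * Y ∨
        ((A * b ^ d : ℕ) : ℝ) ≤ 2 ^ d * l ∨ ((A * b ^ d : ℕ) : ℝ) ≤ A := by
      rcases Nat.lt_or_ge 1 b with hb2 | hb2
      · obtain ⟨c, rfl⟩ : ∃ c, b = c + 1 := ⟨b - 1, by omega⟩
        have hc1 : 1 ≤ c := by omega
        have h1 := hmin c (by omega)
        by_cases h2 : l ≤ A * c ^ d
        · left
          have h3 : c * (c ^ d / rOf c) < T := by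
            by_contra h4
            exact h1 ⟨hc1, h2, by omega⟩
          have h4 := side_bound hd hc1 h3
          rw [← hY] at h4
          push_cast at h4 ⊢
          calc (A : ℝ) * ((c : ℝ) + 1) ^ d ≤ A * (6 * 2 ^ (d + 1) * Y) :=
                mul_le_mul_of_nonneg_left h4 hA0
            _ = (A : ℝ) * (6 * 2 ^ (d + 1)) * Y := by ring
        · right; left
          have h3 : A * (c + 1) ^ d ≤ 2 ^ d * l := by
            calc A * (c + 1) ^ d ≤ A * (2 * c) ^ d :=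
                  Nat.mul_le_mul_left _ (Nat.pow_le_pow_left (by omega) d)
              _ = 2 ^ d * (A * c ^ d) := by rw [mul_pow]; ring
              _ ≤ 2 ^ d * l := Nat.mul_le_mul_left _ (by omega)
          exact_mod_cast h3
      · right; right
        have hb : b = 1 := by omega
        subst hb
        simp
    push_cast at key ⊢
    rcases key with h | h | h <;> nlinarith

/-- P2. -/
theorem prf_P2 : S_P2 := by
  intro d A hd hA
  obtain ⟨C, hC⟩ := prf_P4 d A hd hA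
  refine ⟨C, fun T => ?_⟩
  obtain ⟨M, -, h1, h2, h3⟩ := hC T 0
  refine ⟨M, h1, h2, ?_⟩
  simpa using h3

end Pool.Agent.Work.MP_71c844_lc.Arr
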