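/-
Block ARR (problem MP_71c844_lc), item P3: the parameters for the lower bound.  Author: helper9.
-/
import Pool.Agent.Work.MP_71c844_lc.Arr.StmtsG

namespace Pool.Agent.Work.MP_71c844_lc.Arr

open Finset

namespace P3

theorem lt_bOf (d A L : ℕ) (hd : 1 ≤ d) (hA : 1 ≤ A) : L < A * (bOf d A (2 ^ L) + 1) ^ d := by
  by_contra h
  rw [not_lt] at h
  have hL : Nat.log 2 (2 ^ L) = L := Nat.log_pow (by norm_num) L
  have key : bOf d A (2 ^ L) + 1 ≤ bOf d A (2 ^ L) := by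
    have h1 : bOf d A (2 ^ L) + 1 ≤ L :=
      calc bOf d A (2 ^ L) + 1 ≤ (bOf d A (2 ^ L) + 1) ^ d := Nat.le_self_pow (by omega) _
        _ ≤ A * (bOf d A (2 ^ L) + 1) ^ d := Nat.le_mul_of_pos_left _ (by omega)
        _ ≤ L := h
    calc bOf d A (2 ^ L) + 1 = ∑ _i ∈ range (bOf d A (2 ^ L) + 1), 1 := by simp
      _ ≤ ∑ i ∈ range (bOf d A (2 ^ L) + 1), (if A * pc (L + 1) (i + 1) d ≤ L then 1 else 0) := by
          apply Finset.sum_le_sum
          intro i hi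
          rw [mem_range] at hi
          have h2 : A * pc (L + 1) (i + 1) d ≤ L :=
            calc A * pc (L + 1) (i + 1) d ≤ A * (i + 1) ^ d :=
                  Nat.mul_le_mul_left _ (min_le_left _ _)
              _ ≤ A * (bOf d A (2 ^ L) + 1) ^ d :=
                  Nat.mul_le_mul_left _ (Nat.pow_le_pow_left (by omega) d)
              _ ≤ L := h
          rw [if_pos h2]
      _ ≤ ∑ i ∈ range L, (if A * pc (L + 1) (i + 1) d ≤ L then 1 else 0) :=
          Finset.sum_le_sum_of_subset (range_subset_range.2 h1)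
      _ = bOf d A (2 ^ L) := by
          unfold bOf
          rw [hL]
  omega

theorem bOf_le (d A L : ℕ) : bOf d A (2 ^ L) ≤ L := by
  have hL : Nat.log 2 (2 ^ L) = L := Nat.log_pow (by norm_num) L
  unfold bOf
  rw [hL]
  calc ∑ i ∈ range L, (if A * pc (L + 1) (i + 1) d ≤ L then 1 else 0) ≤ ∑ _i ∈ range L, 1 := by
        apply Finset.sum_le_sum
        intro i _
        split_ifs <;> omega
    _ = L := by simp

theorem rOf_le {b : ℕ} (hb : 1 ≤ b) : rOf b ≤ b := by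
  unfold rOf
  exact Nat.log_lt_self 2 (by omega)

/-- The quotient loses at most a factor two. -/
theorem div_ge {a r : ℕ} (hr : 1 ≤ r) (h : r ≤ a) : (a : ℝ) / (2 * r) ≤ ((a / r : ℕ) : ℝ) := by
  have h1 : 1 ≤ a / r := (Nat.one_le_div_iff (by omega)).2 h
  have h2 : a < (a / r + 1) * r := by
    have := Nat.lt_div_mul_add (a := a) (b := r) (by omega)
    calc a < a / r * r + r := this
      _ = (a / r + 1) * r := by ring
  have h3 : (a : ℝ) < (((a / r : ℕ) : ℝ) + 1) * r := by exact_mod_cast h2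
  have h4 : (1 : ℝ) ≤ ((a / r : ℕ) : ℝ) := by exact_mod_cast h1
  have h5 : (0 : ℝ) < r := by exact_mod_cast (by omega : 0 < r)
  rw [div_le_iff₀ (by positivity)]
  nlinarith

theorem rOf_real {b n j : ℕ} (hb : 1 ≤ b) (hn : 3 ≤ n) (h : b ≤ n ^ j) :
    (rOf b : ℝ) ≤ (2 * j + 1) * Real.log n := by
  have hn0 : (0 : ℝ) < n := by exact_mod_cast (by omega : 0 < n)
  have hlog1 : (1 : ℝ) ≤ Real.log n := by
    rw [Real.le_log_iff_exp_le hn0]
    have h3 : (3 : ℝ) ≤ n := by exact_mod_cast hn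
    linarith [Real.exp_one_lt_d9]
  have hb0 : (0 : ℝ) < b := by exact_mod_cast (by omega : 0 < b)
  have h1 : (2 : ℝ) ^ (Nat.log 2 b) ≤ b := by
    exact_mod_cast Nat.pow_log_le_self 2 (by omega : b ≠ 0)
  have h2 : (b : ℝ) ≤ (n : ℝ) ^ j := by exact_mod_cast h
  have h3 : (Nat.log 2 b : ℝ) * Real.log 2 ≤ j * Real.log n := by
    have h4 := Real.log_le_log (by positivity) (h1.trans h2)
    rwa [Real.log_pow, Real.log_pow] at h4
  have h5 : (1 : ℝ) / 2 ≤ Real.log 2 := by linarith [Real.log_two_gt_d9]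
  have h6 : (Nat.log 2 b : ℝ) ≤ 2 * j * Real.log n := by
    have h7 : (0 : ℝ) ≤ (Nat.log 2 b : ℝ) := Nat.cast_nonneg _
    nlinarith
  unfold rOf
  push_cast
  nlinarith

end P3

/-- P3. -/
theorem prf_P3 : S_P3 := by
  intro d A j hd hA hj
  have hA0 : (0 : ℝ) < A := by exact_mod_cast (by omega : 0 < A)
  have hd0 : (0 : ℝ) < d := by exact_mod_cast (by omega : 0 < d)
  refine ⟨1 / (2 ^ (d + 1) * (A : ℝ) ^ (1 + 1 / (d : ℝ)) * (2 * (2 * j + 1))), by positivity,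
    max A 3, ?_⟩
  intro n hn
  have hnA : A ≤ n := (le_max_left _ _).trans hn
  have hn3 : 3 ≤ n := (le_max_right _ _).trans hn
  have h1 := P3.lt_bOf d A (n ^ j) hd hA
  have h2 := P3.bOf_le d A (n ^ j)
  generalize bOf d A (2 ^ (n ^ j)) = b at h1 h2
  have hnj : A ≤ n ^ j := hnA.trans (Nat.le_self_pow (by omega) n)
  have hb1 : 1 ≤ b := by
    by_contra hb
    have hb0 : b = 0 := by omega
    subst hb0
    rw [zero_add, one_pow, mul_one] at h1
    omega
  refine ⟨by omega, ?_⟩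
  have hn0 : (0 : ℝ) < n := by exact_mod_cast (by omega : 0 < n)
  have hb0 : (1 : ℝ) ≤ b := by exact_mod_cast hb1
  have hlog : 0 < Real.log n := Real.log_pos (by exact_mod_cast (by omega : 1 < n))
  have hr1 : 1 ≤ rOf b := by unfold rOf; omega
  have hr1' : (0 : ℝ) < rOf b := by exact_mod_cast (by omega : 0 < rOf b)
  have hrr := P3.rOf_real hb1 hn3 h2
  have hq := P3.div_ge (a := b ^ d) (r := rOf b) hr1
    ((P3.rOf_le hb1).trans (Nat.le_self_pow (by omega) b))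
  -- the power
  have hpow : (n : ℝ) ^ ((j : ℝ) * (1 + 1 / (d : ℝ))) ≤
      (A : ℝ) ^ (1 + 1 / (d : ℝ)) * ((b : ℝ) + 1) ^ (d + 1) := by
    have hb10 : (0 : ℝ) ≤ (b : ℝ) + 1 := by positivity
    have h3 : (n : ℝ) ^ j ≤ (A : ℝ) * ((b : ℝ) + 1) ^ d := by exact_mod_cast h1.le
    rw [Real.rpow_mul hn0.le, Real.rpow_natCast]
    calc ((n : ℝ) ^ j) ^ (1 + 1 / (d : ℝ)) ≤ ((A : ℝ) * ((b : ℝ) + 1) ^ d) ^ (1 + 1 / (d : ℝ)) :=
          Real.rpow_le_rpow (by positivity) h3 (by positivity)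
      _ = (A : ℝ) ^ (1 + 1 / (d : ℝ)) * (((b : ℝ) + 1) ^ d) ^ (1 + 1 / (d : ℝ)) :=
          Real.mul_rpow hA0.le (by positivity)
      _ = (A : ℝ) ^ (1 + 1 / (d : ℝ)) * ((b : ℝ) + 1) ^ (d + 1) := by
          congr 1
          rw [← Real.rpow_natCast ((b : ℝ) + 1) d, ← Real.rpow_mul hb10,
            ← Real.rpow_natCast ((b : ℝ) + 1) (d + 1)]
          congr 1
          push_cast
          field_simp
  have hb2 : ((b : ℝ) + 1) ^ (d + 1) ≤ 2 ^ (d + 1) * (b : ℝ) ^ (d + 1) := by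
    rw [← mul_pow]
    exact pow_le_pow_left₀ (by positivity) (by linarith) _
  have hAp : (0 : ℝ) < (A : ℝ) ^ (1 + 1 / (d : ℝ)) := by positivity
  push_cast
  push_cast at hq
  calc 1 / (2 ^ (d + 1) * (A : ℝ) ^ (1 + 1 / (d : ℝ)) * (2 * (2 * j + 1))) *
        (n : ℝ) ^ ((j : ℝ) * (1 + 1 / (d : ℝ))) / Real.log n
      ≤ 1 / (2 ^ (d + 1) * (A : ℝ) ^ (1 + 1 / (d : ℝ)) * (2 * (2 * j + 1))) *
        ((A : ℝ) ^ (1 + 1 / (d : ℝ)) * (2 ^ (d + 1) * (b : ℝ) ^ (d + 1))) / Real.log n := by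
        apply div_le_div_of_nonneg_right _ hlog.le
        apply mul_le_mul_of_nonneg_left _ (by positivity)
        exact hpow.trans (mul_le_mul_of_nonneg_left hb2 hAp.le)
    _ = (b : ℝ) ^ (d + 1) / (2 * ((2 * j + 1) * Real.log n)) := by
        field_simp
    _ ≤ (b : ℝ) ^ (d + 1) / (2 * rOf b) := by
        apply div_le_div_of_nonneg_left (by positivity) (by positivity)
        linarith
    _ = (b : ℝ) * ((b : ℝ) ^ d / (2 * rOf b)) := by
        rw [pow_succ]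
        ring
    _ ≤ (b : ℝ) * ((b ^ d / rOf b : ℕ) : ℝ) := by
        apply mul_le_mul_of_nonneg_left _ (by positivity)
        exact_mod_cast hq

end Pool.Agent.Work.MP_71c844_lc.Arr
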