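/-
Block ARR (problem MP_71c844_lc), item P5.  Author: helper58.
-/
import Pool.Agent.Work.MP_71c844_lc.Arr.P3
import Pool.Agent.Work.MP_71c844_lc.Arr.B4

namespace Pool.Agent.Work.MP_71c844_lc.Arr

theorem prf_P5 : S_P5 := by
  intro d A p q hd hA hp hq
  obtain ⟨c, hc, n1, hn1⟩ := prf_P3 d A 1 hd hA le_rfl
  set α : ℝ := (p : ℝ) / (q : ℝ) with hα
  set β : ℝ := 1 + 1 / (d : ℝ) with hβ
  have hp' : (1 : ℝ) ≤ p := by exact_mod_cast hp
  have hq' : (1 : ℝ) ≤ q := by exact_mod_cast hq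
  have hd' : (1 : ℝ) ≤ d := by exact_mod_cast hd
  have hα0 : 0 < α := by positivity
  have hβ0 : 0 < β := by positivity
  refine ⟨c / (1 + α), by positivity, max (n1 ^ q + 1) 2, fun n hn => ?_⟩
  have hn2 : 2 ≤ n := le_trans (le_max_right _ _) hn
  have hnn : n1 ^ q + 1 ≤ n := le_trans (le_max_left _ _) hn
  set s := rp p q n with hs
  have hs1 : n1 ≤ s := by
    by_contra h
    have h1 : s ≤ n1 := by omega
    have h2 := (prf_R1 p q n n1 hq).1 h1
    have h3 : n ≤ n ^ p := Nat.le_self_pow (by omega) _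
    omega
  obtain ⟨h1, h2⟩ := hn1 s hs1
  rw [pow_one] at h1 h2
  refine ⟨h1, le_trans ?_ h2⟩
  have hn2' : (2 : ℝ) ≤ n := by exact_mod_cast hn2
  have hn0 : (0 : ℝ) < n := by linarith
  have hsge : (n : ℝ) ^ α ≤ s := Nat.le_ceil _
  have hnα1 : (1 : ℝ) < (n : ℝ) ^ α := Real.one_lt_rpow (by linarith) hα0
  have hs1' : (1 : ℝ) < s := lt_of_lt_of_le hnα1 hsge
  have hslt : (s : ℝ) < (n : ℝ) ^ α + 1 := Nat.ceil_lt_add_one (by positivity)
  have hls : 0 < Real.log s := Real.log_pos hs1'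
  have hln : 0 < Real.log n := Real.log_pos (by linarith)
  have hlog : Real.log s ≤ (1 + α) * Real.log n := by
    have h3 : (s : ℝ) ≤ n * (n : ℝ) ^ α := by nlinarith
    calc Real.log s ≤ Real.log (n * (n : ℝ) ^ α) := Real.log_le_log (by linarith) h3
      _ = Real.log n + α * Real.log n := by
        rw [Real.log_mul (by positivity) (by positivity), Real.log_rpow hn0]
      _ = (1 + α) * Real.log n := by ring
  have hpow : (n : ℝ) ^ (α * β) ≤ (s : ℝ) ^ β := by
    rw [Real.rpow_mul hn0.le]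
    exact Real.rpow_le_rpow (by positivity) hsge hβ0.le
  have hnp : 0 ≤ (n : ℝ) ^ (α * β) := by positivity
  rw [show ((1 : ℕ) : ℝ) * β = β by push_cast; ring]
  calc c / (1 + α) * (n : ℝ) ^ (α * β) / Real.log n
      = c * (n : ℝ) ^ (α * β) / ((1 + α) * Real.log n) := by
        field_simp
    _ ≤ c * (n : ℝ) ^ (α * β) / Real.log s := by
        apply div_le_div_of_nonneg_left (by positivity) hls hlog
    _ ≤ c * (s : ℝ) ^ β / Real.log s := by
        apply div_le_div_of_nonneg_right _ hls.le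
        exact mul_le_mul_of_nonneg_left hpow hc.le

end Pool.Agent.Work.MP_71c844_lc.Arr
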