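import Pool.Agent.Work.MP_71c844_lc.Arr.StmtsG

/-! Block ARR, items V1 and V2 (helper24). -/

namespace Pool.Agent.Work.MP_71c844_lc.Arr

theorem prf_V1 : S_V1 := by
  intro d A x t
  induction t with
  | zero =>
    intro w
    show (A.sticky.init x w).1 = A.init x w ∧ (A.sticky.init x w).2 = A.out (A.init x w)
    unfold CA.init
    split_ifs with h
    · exact ⟨rfl, rfl⟩
    · exact ⟨rfl, rfl⟩
  | succ t ih =>
    intro w
    have h1 : (fun e : Fin d → Fin 3 =>
        (A.sticky.conf x t (fun j => w j + ((e j).val : ℤ) - 1)).1)
        = fun e => A.conf x t (fun j => w j + ((e j).val : ℤ) - 1) := by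
      funext e
      exact (ih _).1
    have h2 : (fun j : Fin d => w j + (((fun _ => 1 : Fin d → Fin 3) j).val : ℤ) - 1) = w := by
      funext j
      simp
    constructor
    · show A.rule (fun e => (A.sticky.conf x t (fun j => w j + ((e j).val : ℤ) - 1)).1) = _
      rw [h1]
      rfl
    · show ((A.sticky.conf x t (fun j => w j + (((fun _ => 1 : Fin d → Fin 3) j).val : ℤ)
          - 1)).2).or
        (A.out (A.rule (fun e => (A.sticky.conf x t (fun j => w j + ((e j).val : ℤ) - 1)).1)))
        = (fstV (fun s => A.out (A.conf x s w)) t).or (A.out (A.conf x (t + 1) w))
      rw [h1, h2, (ih w).2]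
      rfl

theorem prf_V2 : S_V2 := by
  intro f t' v
  induction t' with
  | zero =>
    show f 0 = some v ↔ _
    constructor
    · intro h
      exact ⟨0, le_refl _, h, fun s hs => absurd hs (Nat.not_lt_zero s)⟩
    · rintro ⟨t, ht, h, -⟩
      have : t = 0 := Nat.le_zero.mp ht
      rw [this] at h
      exact h
  | succ t' ih =>
    show (fstV f t').or (f (t' + 1)) = some v ↔ _
    cases hf : fstV f t' with
    | none =>
      have hnone : ∀ s ≤ t', f s = none := by
        clear ih
        induction t' with
        | zero =>
          intro s hs
          have : s = 0 := Nat.le_zero.mp hs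
          rw [this]
          exact hf
        | succ t' ih' =>
          intro s hs
          have hf' : (fstV f t').or (f (t' + 1)) = none := hf
          rw [Option.or_eq_none_iff] at hf'
          rcases Nat.lt_or_ge t' s with h | h
          · have : s = t' + 1 := by omega
            rw [this]
            exact hf'.2
          · exact ih' hf'.1 s h
      rw [Option.none_or]
      constructor
      · intro h
        exact ⟨t' + 1, le_refl _, h, fun s hs => hnone s (by omega)⟩
      · rintro ⟨t, ht, h, -⟩
        rcases Nat.lt_or_ge t' t with h' | h'
        · have : t = t' + 1 := by omega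
          rw [this] at h
          exact h
        · rw [hnone t h'] at h
          exact absurd h (by simp)
    | some u =>
      rw [Option.some_or]
      rw [← hf, ih]
      constructor
      · rintro ⟨t, ht, h⟩
        exact ⟨t, by omega, h⟩
      · rintro ⟨t, ht, h, hlt⟩
        refine ⟨t, ?_, h, hlt⟩
        by_contra hcon
        have ht1 : t = t' + 1 := by omega
        have hnone : ∀ s ≤ t', f s = none := fun s hs => hlt s (by omega)
        have : ∀ m ≤ t', fstV f m = none := by
          intro m
          induction m with
          | zero => intro hm; exact hnone 0 (Nat.zero_le _)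
          | succ m ihm =>
            intro hm
            show (fstV f m).or (f (m + 1)) = none
            rw [ihm (by omega), hnone _ hm]
            rfl
        rw [this t' (le_refl _)] at hf
        exact absurd hf (by simp)

end Pool.Agent.Work.MP_71c844_lc.Arr
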