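/-
Block ARR (problem MP_71c844_lc): assembly of everything above the machine level.
Author: helper58.
-/
import Pool.Agent.Work.MP_71c844_lc.Arr.FBa
import Pool.Agent.Work.MP_71c844_lc.Arr.LLet
import Pool.Agent.Work.MP_71c844_lc.Arr.LRc
import Pool.Agent.Work.MP_71c844_lc.Arr.LRules1
import Pool.Agent.Work.MP_71c844_lc.Arr.LRules2
import Pool.Agent.Work.MP_71c844_lc.Arr.LRules3
import Pool.Agent.Work.MP_71c844_lc.Arr.N1
import Pool.Agent.Work.MP_71c844_lc.Arr.N2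
import Pool.Agent.Work.MP_71c844_lc.Arr.N3
import Pool.Agent.Work.MP_71c844_lc.Arr.N4
import Pool.Agent.Work.MP_71c844_lc.Arr.N5
import Pool.Agent.Work.MP_71c844_lc.Arr.N6
import Pool.Agent.Work.MP_71c844_lc.Arr.D1
import Pool.Agent.Work.MP_71c844_lc.Arr.G4
import Pool.Agent.Work.MP_71c844_lc.Arr.G5
import Pool.Agent.Work.MP_71c844_lc.Arr.C2
import Pool.Agent.Work.MP_71c844_lc.Arr.C3
import Pool.Agent.Work.MP_71c844_lc.Arr.V1
import Pool.Agent.Work.MP_71c844_lc.Arr.V3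
import Pool.Agent.Work.MP_71c844_lc.Arr.P1
import Pool.Agent.Work.MP_71c844_lc.Arr.P2
import Pool.Agent.Work.MP_71c844_lc.Arr.P5
import Pool.Agent.Work.MP_71c844_lc.Arr.B1
import Pool.Agent.Work.MP_71c844_lc.Arr.B2
import Pool.Agent.Work.MP_71c844_lc.Arr.B4
import Pool.Agent.Work.MP_71c844_lc.Arr.GM
import Pool.Agent.Work.MP_71c844_lc.Arr.MJ

namespace Pool.Agent.Work.MP_71c844_lc.Arr

theorem rules : LSRules :=
  have h1 := prf_LR1 prf_let prf_inpv prf_rc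
  have h2 := prf_LR2 h1
  have h3 := prf_LR3 h1 h2
  { toLSR1 := h1, toLSR2 := h2, toLSR3 := h3 }

theorem prf_C1 : S_C1 := by
  intro I _ M D Q K p h hp hD hK hQ hdeg h1 h2 G hG off T hT0 hT lf hlf
  exact loopS_correct M D Q K p h hp hD hK hQ hdeg h1 h2 G hG off T hT0 hT lf hlf

theorem facts : FA.Facts where
  c3 := prf_C3
  c2 := prf_C2
  d1 := prf_D1
  g4 := prf_G4
  g5 := prf_G5
  c1 := prf_C1
  v1 := prf_V1
  v2 := prf_V2
  v3 := prf_V3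
  p1 := prf_P1

theorem memN5 {ι Γ : Type} (co : ι → Γ → ℕ) (m Y M d q tb et vt A : List Bool → Γ → ℕ)
    (hm : LSC co m) (hY : LSC co Y) (hM : LSC co M) (hd : LSC co d) (hq : LSC co q)
    (htb : LSC co tb) (het : LSC co et) (hvt : LSC co vt) (hA : LSC co A) :
    LSC co (fun x γ => verN x (m x γ) (Y x γ) (M x γ) (d x γ) (q x γ) (tb x γ) (et x γ)
      (vt x γ) (A x γ)) :=
  prf_N5 rules prf_N1 prf_N2 prf_N3 prf_N4 co m Y M d q tb et vt A hm hY hM hd hq htb het hvt hA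

theorem memB : (∀ p q, LSC (fun (_ : Unit) (M : ℕ) => M) (fun x M => FB p q x M)) ∧
    (∀ p q d q' tb et vt a,
      LSC (fun (_ : Unit) (M : ℕ) => M) (fun x M => FG p q d q' tb et vt a x M)) :=
  prf_B1 rules (fun co m Y M d q tb et vt A hm hY hM hd hq htb het hvt hA =>
    memN5 co m Y M d q tb et vt A hm hY hM hd hq htb het hvt hA) prf_N6

section

variable (DS : (ℕ → ℕ) → Set (Set (List Bool))) (hSearch : SearchFor DS) (hmono : MonoFor DS)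
include hSearch hmono

theorem upper (d : ℕ) (hd : 1 ≤ d) (T : ℕ → ℕ) :
    ATIME d T ⊆ DS (fun n =>
      ⌈((T n : ℝ) * Real.log ((T n : ℝ) + 2)) ^ ((d : ℝ) / ((d : ℝ) + 1))⌉₊) :=
  partA DS hSearch hmono (fun co m Y M d q tb et vt A hm hY hM hd hq htb het hvt hA =>
    memN5 co m Y M d q tb et vt A hm hY hM hd hq htb het hvt hA) facts prf_P4 d hd T

theorem upperAlt (d : ℕ) (hd : 1 ≤ d) (p r : ℕ) (hr : 1 ≤ r) (T : ℕ → ℕ) :
    AltTIME d (rp p r) T ⊆ DS (fun n => rp p r n +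
      ⌈((T n : ℝ) * Real.log ((T n : ℝ) + 2)) ^ ((d : ℝ) / ((d : ℝ) + 1))⌉₊) :=
  partA2 DS hSearch hmono memB.2 facts prf_P4 prf_GM prf_MJ prf_WA prf_B4 d hd p r hr T

theorem diag_mem (p r : ℕ) (hp : 1 ≤ p) (hr : 1 ≤ r) : diagL p r ∈ DS (rp p r) :=
  diagL_mem DS hSearch hmono memB.1 prf_B3 p r hp hr

end

theorem lower (p r : ℕ) (hp : 1 ≤ p) (hr : 1 ≤ r) (d : ℕ) (hd : 1 ≤ d) (s : ℕ) :
    ∃ c : ℝ, 0 < c ∧ ∃ n0 : ℕ, ∀ A : CA d, Nat.card A.Q ≤ s → ∃ w : List Bool, w.length ≤ n0 ∧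
      ∀ x : List Bool, w <+: x → n0 ≤ x.length →
      ¬ A.AltDecides x (rp p r x.length)
        (c * (x.length : ℝ) ^ ((p : ℝ) / (r : ℝ) * (1 + 1 / (d : ℝ))) / Real.log x.length)
        (x ∈ diagL p r) :=
  partB facts prf_P5 prf_R1 prf_GM prf_MJ prf_WA prf_B2 prf_B3 prf_B4 p r hp hr d hd s

end Pool.Agent.Work.MP_71c844_lc.Arr
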