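/-
Block ARR (problem MP_71c844_lc): multitape Turing machines preceded by alternating guesses and
coins.  Author: helper44.
-/
import Pool.Agent.Work.MP_71c844_lc.Arr.Mach
import Pool.Agent.Work.MP_71c844_lc.Arr.Defs

namespace Pool.Agent.Work.MP_71c844_lc.Arr

/-- On the word `x` the machine, preceded by `m` alternating guesses and `m` coins, decides the
proposition `P` in time `τ` (compare `CA.AltDecides`): for every guess word of `2 m` letters the
machine halts after at most `τ` steps, and `P` holds exactly when `∃ y₀ ∀ y₁ ∃ y₂ …` for more than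
half of the words `z` with `m` letters the machine accepts with the guess word `y z`. -/
def TM.AltDecides (M : TM) (gs : Bool → M.Γ) (x : List Bool) (m : ℕ) (τ : ℝ) (P : Prop) : Prop :=
  (∀ y : List Bool, y.length = 2 * m → ∃ (t : ℕ) (v : Bool), (t : ℝ) ≤ τ ∧
    M.FirstVerdict gs x y t v) ∧
  (P ↔ Game true m (fun y => Maj m (fun z => ∃ t, M.FirstVerdict gs x (y ++ z) t true)))

/-- The languages decided by `g n` alternating guesses and `g n` coins followed by a multitape
Turing machine which runs for time `O(T n)`. -/
def AltDTIME (g T : ℕ → ℕ) : Set (Set (List Bool)) :=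
  {L | ∃ M : TM, ∃ gs : Bool → M.Γ, ∃ C : ℕ, ∀ x : List Bool,
    M.AltDecides gs x (g x.length) ((C * T x.length + C : ℕ) : ℝ) (x ∈ L)}

end Pool.Agent.Work.MP_71c844_lc.Arr
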