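/-
Block ARR (problem MP_71c844_lc): a linear cellular array simulates a multitape machine in linear
time.  The heads stay in the cell `0`, the tapes move: the cell `i` holds, for every tape, the
symbols at the distance `i + 1` to the left and to the right of the head.  The tape move number
`n` is executed by the cell `i` at the array time `1 + 2 n + i`; then the cell `i + 1` has just
executed the move number `n - 1`, and the cell `i - 1` has just executed the move number `n` and
remembers its old contents.  Author: helper44.
-/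
import Pool.Agent.Work.MP_71c844_lc.Arr.TMDefs

namespace Pool.Agent.Work.MP_71c844_lc.Arr

namespace TC

set_option linter.unusedSectionVars false

instance : Finite Dir :=
  Finite.of_surjective (fun i : Fin 3 => match i.val with
    | 0 => Dir.left | 1 => Dir.stay | _ => Dir.right)
    (fun q => by
      cases q
      · exact ⟨0, rfl⟩
      · exact ⟨1, rfl⟩
      · exact ⟨2, rfl⟩)

variable {Q J S : Type}

/-! ### Machines with moving tapes -/

/-- One step of a machine with moving tapes: `c.2 j z` is the symbol of the tape `j` at the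
distance `z` from the head. -/
def ustep (nx : Q → (J → S) → Q × (J → S × Dir)) (c : Q × (J → ℤ → S)) : Q × (J → ℤ → S) :=
  ((nx c.1 (fun j => c.2 j 0)).1,
   fun j z => Function.update (c.2 j) 0 ((nx c.1 (fun j => c.2 j 0)).2 j).1
     (z + ((nx c.1 (fun j => c.2 j 0)).2 j).2.disp))

/-- The initial configuration: constants at the distances `≤ 0`, then the two words. -/
def uinit (q0 : Q) (lft : J → S) (rgt : J → Option Bool → Option Bool → S) (x y : List Bool) :
    Q × (J → ℤ → S) :=
  (q0, fun j z => if z ≤ 0 then lft j else rgt j x[(z - 1).toNat]? y[(z - 1).toNat]?)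

/-- The configuration after `n` steps. -/
def urun (nx : Q → (J → S) → Q × (J → S × Dir)) (q0 : Q) (lft : J → S)
    (rgt : J → Option Bool → Option Bool → S) (x y : List Bool) (n : ℕ) : Q × (J → ℤ → S) :=
  (ustep nx)^[n] (uinit q0 lft rgt x y)

theorem urun_succ (nx : Q → (J → S) → Q × (J → S × Dir)) (q0 : Q) (lft : J → S)
    (rgt : J → Option Bool → Option Bool → S) (x y : List Bool) (n : ℕ) :
    urun nx q0 lft rgt x y (n + 1) = ustep nx (urun nx q0 lft rgt x y n) :=
  Function.iterate_succ_apply' _ _ _

/-! ### The array -/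

/-- The contents of a cell: the symbols of the tapes on the left and on the right side, the same
before the last move, and the last move if it has just been executed. -/
abbrev Cell (J S : Type) : Type :=
  ((J → S) × (J → S)) × ((J → S) × (J → S)) × Option (J → Dir)

/-- The states of the array: input letter and guess letter of a cell which did not work yet; or
the contents of a cell, together with the control (state, symbols under the heads, and phase) if
this is the cell `0`. -/
abbrev AS (Q J S : Type) : Type :=
  (Option Bool × Option Bool) ⊕ (Cell J S × Option (Q × (J → S) × Bool))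

/-- Left contents. -/
def cL (lft : J → S) : AS Q J S → J → S
  | .inl _ => lft
  | .inr c => c.1.1.1

/-- Right contents. -/
def cR (rgt : J → Option Bool → Option Bool → S) : AS Q J S → J → S
  | .inl a => fun j => rgt j a.1 a.2
  | .inr c => c.1.1.2

/-- Left contents before the last move. -/
def pL (lft : J → S) : AS Q J S → J → S
  | .inl _ => lft
  | .inr c => c.1.2.1.1

/-- Right contents before the last move. -/
def pR (lft : J → S) : AS Q J S → J → S
  | .inl _ => lft
  | .inr c => c.1.2.1.2

/-- The move which has just been executed. -/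
def act : AS Q J S → Option (J → Dir)
  | .inl _ => none
  | .inr c => c.1.2.2

/-- The control. -/
def ctl : AS Q J S → Option (Q × (J → S) × Bool)
  | .inl _ => none
  | .inr c => c.2

/-- The part of a move: `a` for stay, `b` for a move of the head to the left, `c` for a move to
the right. -/
def sel {α : Type} (d : Dir) (a b c : α) : α :=
  match d with
  | .stay => a
  | .left => b
  | .right => c

/-- A cell without control which does not move: only the memory of the last move is dropped. -/
def calm : AS Q J S → AS Q J S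
  | .inl a => .inl a
  | .inr c => .inr ((c.1.1, c.1.2.1, none), none)

open Classical in
/-- The local rule. -/
noncomputable def rule1 (nx : Q → (J → S) → Q × (J → S × Dir)) (q0 : Q) (lft : J → S)
    (rgt : J → Option Bool → Option Bool → S) (l s r : AS Q J S) : AS Q J S :=
  match ctl s with
  | some (q, cur, true) =>
    .inr (((fun j => sel ((nx q cur).2 j).2 (cL lft s j) (cL lft r j) ((nx q cur).2 j).1,
            fun j => sel ((nx q cur).2 j).2 (cR rgt s j) ((nx q cur).2 j).1 (cR rgt r j)),
           (cL lft s, cR rgt s), some (fun j => ((nx q cur).2 j).2)),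
          some ((nx q cur).1,
            fun j => sel ((nx q cur).2 j).2 ((nx q cur).2 j).1 (cL lft s j) (cR rgt s j), false))
  | some (q, cur, false) =>
    .inr (((cL lft s, cR rgt s), (cL lft s, cR rgt s), none), some (q, cur, true))
  | none =>
    if s ≠ .inl (none, none) ∧ l = .inl (none, none) then
      .inr (((lft, cR rgt s), (lft, cR rgt s), none), some (q0, lft, false))
    else
      match act l with
      | some d =>
        .inr (((fun j => sel (d j) (cL lft s j) (cL lft r j) (pL lft l j),
                fun j => sel (d j) (cR rgt s j) (pR lft l j) (cR rgt r j)),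
               (cL lft s, cR rgt s), some d), none)
      | none => calm s

/-- The verdict of a state; `e0` is the verdict of the quiescent state. -/
def out1 (ov : Q → Option Bool) (e0 : Option Bool) : AS Q J S → Option Bool
  | .inl (none, none) => e0
  | .inl _ => none
  | .inr c => match c.2 with
    | some (q, _, _) => ov q
    | none => none

/-- The linear array which simulates the machine. -/
noncomputable def arr [Finite Q] [Finite J] [Finite S] (nx : Q → (J → S) → Q × (J → S × Dir))
    (q0 : Q) (lft : J → S) (rgt : J → Option Bool → Option Bool → S) (ov : Q → Option Bool)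
    (e0 : Option Bool) : CA 1 where
  Q := AS Q J S
  finQ := inferInstance
  rule f := rule1 nx q0 lft rgt (f (fun _ => 0)) (f (fun _ => 1)) (f (fun _ => 2))
  enc a b := .inl (a, b)
  quiet := by simp [rule1, ctl, act, calm]
  out := out1 ov e0

section Sim

variable [Finite Q] [Finite J] [Finite S] (nx : Q → (J → S) → Q × (J → S × Dir))
    (q0 : Q) (lft : J → S) (rgt : J → Option Bool → Option Bool → S) (ov : Q → Option Bool)
    (e0 : Option Bool) (x y : List Bool)

/-- The configurations of the array on the line. -/
noncomputable def cf (t : ℕ) (z : ℤ) : AS Q J S :=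
  (arr nx q0 lft rgt ov e0).conf (x, y) t (fun _ => z)

theorem cf_zero (z : ℤ) : cf nx q0 lft rgt ov e0 x y 0 z =
    if 0 ≤ z then .inl (x[z.toNat]?, y[z.toNat]?) else .inl (none, none) := by
  unfold cf CA.conf CA.init
  by_cases hz : 0 ≤ z
  · rw [if_pos hz, if_pos]
    · simp [arr, lead]
    · refine ⟨by simpa [lead] using hz, fun j hj => ?_⟩
      exact absurd hj (by have := j.isLt; omega)
  · rw [if_neg hz, if_neg]
    · rfl
    · intro h
      exact hz (by simpa [lead] using h.1)

theorem cf_succ (t : ℕ) (z : ℤ) : cf nx q0 lft rgt ov e0 x y (t + 1) z =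
    rule1 nx q0 lft rgt (cf nx q0 lft rgt ov e0 x y t (z - 1)) (cf nx q0 lft rgt ov e0 x y t z)
      (cf nx q0 lft rgt ov e0 x y t (z + 1)) := by
  have e1 : (fun _ : Fin 1 => z + (((0 : Fin 3).val : ℕ) : ℤ) - 1) = fun _ => z - 1 := by
    funext; simp
  have e2 : (fun _ : Fin 1 => z + (((1 : Fin 3).val : ℕ) : ℤ) - 1) = fun _ => z := by
    funext; simp
  have e3 : (fun _ : Fin 1 => z + (((2 : Fin 3).val : ℕ) : ℤ) - 1) = fun _ => z + 1 := by
    funext; simp; ring
  show rule1 nx q0 lft rgt
    ((arr nx q0 lft rgt ov e0).conf (x, y) t (fun _ : Fin 1 => z + (((0 : Fin 3).val : ℕ) : ℤ) - 1))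
    ((arr nx q0 lft rgt ov e0).conf (x, y) t (fun _ : Fin 1 => z + (((1 : Fin 3).val : ℕ) : ℤ) - 1))
    ((arr nx q0 lft rgt ov e0).conf (x, y) t
      (fun _ : Fin 1 => z + (((2 : Fin 3).val : ℕ) : ℤ) - 1)) = _
  rw [e1, e2, e3]
  rfl

/-- The cells on the left never work. -/
theorem cf_neg (t : ℕ) (z : ℤ) (hz : z < 0) :
    cf nx q0 lft rgt ov e0 x y t z = .inl (none, none) := by
  induction t generalizing z with
  | zero => rw [cf_zero, if_neg (by omega)]
  | succ t ih =>
    rw [cf_succ, ih z hz, ih (z - 1) (by omega)]
    simp [rule1, ctl, act, calm]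

/-- The invariant for the cell `i` at time `t`. -/
structure Inv (t i : ℕ) : Prop where
  /-- contents -/
  hL : cL lft (cf nx q0 lft rgt ov e0 x y t i) =
    fun j => (urun nx q0 lft rgt x y ((t - 1 - i) / 2)).2 j (-((i : ℤ) + 1))
  hR : cR rgt (cf nx q0 lft rgt ov e0 x y t i) =
    fun j => (urun nx q0 lft rgt x y ((t - 1 - i) / 2)).2 j ((i : ℤ) + 1)
  /-- a move has just been executed -/
  hact : ∀ n, t = 2 * (n + 1) + 1 + i →
    act (cf nx q0 lft rgt ov e0 x y t i) = some (fun j =>
      ((nx (urun nx q0 lft rgt x y n).1 (fun j => (urun nx q0 lft rgt x y n).2 j 0)).2 j).2) ∧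
    pL lft (cf nx q0 lft rgt ov e0 x y t i) =
      (fun j => (urun nx q0 lft rgt x y n).2 j (-((i : ℤ) + 1))) ∧
    pR lft (cf nx q0 lft rgt ov e0 x y t i) =
      (fun j => (urun nx q0 lft rgt x y n).2 j ((i : ℤ) + 1))
  hnact : (∀ n, t ≠ 2 * (n + 1) + 1 + i) → act (cf nx q0 lft rgt ov e0 x y t i) = none
  /-- the control -/
  hctl : i = 0 → 1 ≤ t → ctl (cf nx q0 lft rgt ov e0 x y t i) =
    some ((urun nx q0 lft rgt x y ((t - 1) / 2)).1,
      fun j => (urun nx q0 lft rgt x y ((t - 1) / 2)).2 j 0, decide ((t - 1) % 2 = 1))
  hnctl : 1 ≤ i → ctl (cf nx q0 lft rgt ov e0 x y t i) = none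
  /-- cells which did not work yet -/
  hraw : (if i = 0 then t = 0 else t < i + 3) →
    cf nx q0 lft rgt ov e0 x y t i = .inl (x[i]?, y[i]?)
  hnraw : ¬ (if i = 0 then t = 0 else t < i + 3) →
    ∃ c, cf nx q0 lft rgt ov e0 x y t i = .inr c


theorem urun_dist (n : ℕ) (j : J) (z : ℤ) (d : Dir)
    (hd : ((nx (urun nx q0 lft rgt x y n).1 (fun j => (urun nx q0 lft rgt x y n).2 j 0)).2 j).2 = d)
    (h0 : z + d.disp ≠ 0) :
    (urun nx q0 lft rgt x y (n + 1)).2 j z = (urun nx q0 lft rgt x y n).2 j (z + d.disp) := by
  rw [urun_succ]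
  show Function.update _ 0 _ (z + _) = _
  rw [hd, Function.update_of_ne h0]

theorem urun_zero_dist (n : ℕ) (j : J) (z : ℤ) (d : Dir)
    (hd : ((nx (urun nx q0 lft rgt x y n).1 (fun j => (urun nx q0 lft rgt x y n).2 j 0)).2 j).2 = d)
    (h0 : z + d.disp = 0) :
    (urun nx q0 lft rgt x y (n + 1)).2 j z =
      ((nx (urun nx q0 lft rgt x y n).1 (fun j => (urun nx q0 lft rgt x y n).2 j 0)).2 j).1 := by
  rw [urun_succ]
  show Function.update _ 0 _ (z + _) = _
  rw [hd, h0, Function.update_self]

theorem urun_zero : urun nx q0 lft rgt x y 0 = uinit q0 lft rgt x y := rfl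

theorem inv_zero (i : ℕ) : Inv nx q0 lft rgt ov e0 x y 0 i := by
  have h0 : cf nx q0 lft rgt ov e0 x y 0 i = .inl (x[i]?, y[i]?) := by
    rw [cf_zero, if_pos (by positivity)]
    simp
  refine ⟨?_, ?_, ?_, ?_, ?_, ?_, ?_, ?_⟩
  · rw [h0]
    funext j
    simp only [cL, Nat.zero_sub, Nat.zero_div, urun_zero, uinit]
    rw [if_pos (by omega)]
  · rw [h0]
    funext j
    simp only [cR, Nat.zero_sub, Nat.zero_div, urun_zero, uinit]
    rw [if_neg (by omega)]
    have : ((i : ℤ) + 1 - 1).toNat = i := by simp
    rw [this]
  · intro n hn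
    omega
  · intro _
    rw [h0]
    rfl
  · intro _ h
    omega
  · intro _
    rw [h0]
    rfl
  · intro _
    exact h0
  · intro h
    exfalso
    apply h
    split_ifs with hi
    · rfl
    · omega


section Rule

omit [Finite Q] [Finite J] [Finite S]

theorem rule1_go (l s r : AS Q J S) (q : Q) (cur : J → S) (h : ctl s = some (q, cur, true)) :
    rule1 nx q0 lft rgt l s r =
      .inr (((fun j => sel ((nx q cur).2 j).2 (cL lft s j) (cL lft r j) ((nx q cur).2 j).1,
            fun j => sel ((nx q cur).2 j).2 (cR rgt s j) ((nx q cur).2 j).1 (cR rgt r j)),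
           (cL lft s, cR rgt s), some (fun j => ((nx q cur).2 j).2)),
          some ((nx q cur).1,
            fun j => sel ((nx q cur).2 j).2 ((nx q cur).2 j).1 (cL lft s j) (cR rgt s j), false)) := by
  unfold rule1
  rw [h]

theorem rule1_wait (l s r : AS Q J S) (q : Q) (cur : J → S) (h : ctl s = some (q, cur, false)) :
    rule1 nx q0 lft rgt l s r =
      .inr (((cL lft s, cR rgt s), (cL lft s, cR rgt s), none), some (q, cur, true)) := by
  unfold rule1
  rw [h]

theorem rule1_det (l s r : AS Q J S) (h : ctl s = none) (h1 : s ≠ .inl (none, none))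
    (h2 : l = .inl (none, none)) :
    rule1 nx q0 lft rgt l s r =
      .inr (((lft, cR rgt s), (lft, cR rgt s), none), some (q0, lft, false)) := by
  unfold rule1
  rw [h]
  exact if_pos ⟨h1, h2⟩

theorem rule1_act (l s r : AS Q J S) (h : ctl s = none)
    (h1 : s ≠ .inl (none, none) → l ≠ .inl (none, none)) (d : J → Dir) (h2 : act l = some d) :
    rule1 nx q0 lft rgt l s r =
      .inr (((fun j => sel (d j) (cL lft s j) (cL lft r j) (pL lft l j),
                fun j => sel (d j) (cR rgt s j) (pR lft l j) (cR rgt r j)),
               (cL lft s, cR rgt s), some d), none) := by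
  unfold rule1
  rw [h]
  refine (if_neg (fun h3 => h1 h3.1 h3.2)).trans ?_
  rw [h2]

theorem rule1_idle (l s r : AS Q J S) (h : ctl s = none)
    (h1 : s ≠ .inl (none, none) → l ≠ .inl (none, none)) (h2 : act l = none) :
    rule1 nx q0 lft rgt l s r = calm s := by
  unfold rule1
  rw [h]
  refine (if_neg (fun h3 => h1 h3.1 h3.2)).trans ?_
  rw [h2]

end Rule

/-- The step for the cell `0`. -/
theorem inv_succ_zero (hne : x ≠ [] ∨ y ≠ []) (t : ℕ)
    (h : ∀ i, Inv nx q0 lft rgt ov e0 x y t i) : Inv nx q0 lft rgt ov e0 x y (t + 1) 0 := by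
  have hc : cf nx q0 lft rgt ov e0 x y (t + 1) ((0 : ℕ) : ℤ) =
      rule1 nx q0 lft rgt (.inl (none, none)) (cf nx q0 lft rgt ov e0 x y t ((0 : ℕ) : ℤ))
        (cf nx q0 lft rgt ov e0 x y t ((1 : ℕ) : ℤ)) := by
    rw [cf_succ, cf_neg _ _ _ _ _ _ _ _ _ _ (by norm_num)]
    norm_num
  obtain ⟨hL, hR, hact, hnact, hctl, -, hraw, hnraw⟩ := h 0
  obtain ⟨hL1, hR1, -, -, -, -, -, -⟩ := h 1
  rcases Nat.eq_zero_or_pos t with ht | ht
  · -- the cell `0` finds out that it is the cell `0`
    subst ht
    have h1 := hraw (by simp)
    have h2 : cf nx q0 lft rgt ov e0 x y (0 + 1) ((0 : ℕ) : ℤ) =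
        .inr (((lft, fun j => rgt j x[0]? y[0]?), (lft, fun j => rgt j x[0]? y[0]?), none),
          some (q0, lft, false)) := by
      rw [hc, h1, rule1_det]
      · rfl
      · rfl
      · intro h3
        have h4 : (x[0]?, y[0]?) = (none, none) := Sum.inl.inj h3
        rw [Prod.mk.injEq, List.getElem?_eq_none_iff, List.getElem?_eq_none_iff] at h4
        rcases hne with h5 | h5
        · exact h5 (List.length_eq_zero_iff.1 (by omega))
        · exact h5 (List.length_eq_zero_iff.1 (by omega))
      · rfl
    refine ⟨?_, ?_, ?_, ?_, ?_, ?_, ?_, ?_⟩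
    · rw [h2]
      funext j
      simp [cL, urun_zero, uinit]
    · rw [h2]
      funext j
      simp [cR, urun_zero, uinit]
    · intro n hn
      omega
    · intro _
      rw [h2]
      rfl
    · intro _ _
      rw [h2]
      simp [ctl, urun_zero, uinit]
    · intro hh
      omega
    · intro hh
      simp at hh
    · intro _
      exact ⟨_, h2⟩
  · have h1 := hctl rfl ht
    rcases Nat.even_or_odd (t - 1) with ⟨n, hn⟩ | ⟨n, hn⟩
    · -- waiting
      have ht' : t = 2 * n + 1 := by omega
      have e1 : (t - 1) / 2 = n := by omega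
      have e2 : (t - 1 - 0) / 2 = n := by omega
      have e3 : (t + 1 - 1 - 0) / 2 = n := by omega
      have e4 : (t + 1 - 1) / 2 = n := by omega
      have e5 : decide ((t - 1) % 2 = 1) = false := by
        rw [decide_eq_false_iff_not]; omega
      have e6 : decide ((t + 1 - 1) % 2 = 1) = true := by
        rw [decide_eq_true_iff]; omega
      rw [e1, e5] at h1
      rw [e2] at hL hR
      have h2 := hc
      rw [rule1_wait _ _ _ _ _ _ _ _ _ h1, hL, hR] at h2
      refine ⟨?_, ?_, ?_, ?_, ?_, ?_, ?_, ?_⟩
      · rw [h2, e3]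
        rfl
      · rw [h2, e3]
        rfl
      · intro n' hn'
        omega
      · intro _
        rw [h2]
        rfl
      · intro _ _
        rw [h2, e4, e6]
        rfl
      · intro hh
        omega
      · intro hh
        simp at hh
      · intro _
        exact ⟨_, h2⟩
    · -- a move
      have ht' : t = 2 * n + 2 := by omega
      have e1 : (t - 1) / 2 = n := by omega
      have e2 : (t - 1 - 0) / 2 = n := by omega
      have e3 : (t + 1 - 1 - 0) / 2 = n + 1 := by omega
      have e4 : (t + 1 - 1) / 2 = n + 1 := by omega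
      have e7 : (t - 1 - 1) / 2 = n := by omega
      have e5 : decide ((t - 1) % 2 = 1) = true := by
        rw [decide_eq_true_iff]; omega
      have e6 : decide ((t + 1 - 1) % 2 = 1) = false := by
        rw [decide_eq_false_iff_not]; omega
      rw [e1, e5] at h1
      rw [e2] at hL hR
      rw [e7] at hL1 hR1
      have h2 := hc
      rw [rule1_go _ _ _ _ _ _ _ _ _ h1, hL, hR, hL1, hR1] at h2
      refine ⟨?_, ?_, ?_, ?_, ?_, ?_, ?_, ?_⟩
      · rw [h2, e3]
        funext j
        show sel _ _ _ _ = _
        cases hd : ((nx (urun nx q0 lft rgt x y n).1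
            (fun j => (urun nx q0 lft rgt x y n).2 j 0)).2 j).2 with
        | left =>
          rw [urun_dist nx q0 lft rgt x y n j _ _ hd (by simp [Dir.disp])]
          simp [sel, Dir.disp]
        | stay =>
          rw [urun_dist nx q0 lft rgt x y n j _ _ hd (by simp [Dir.disp])]
          simp [sel, Dir.disp]
        | right =>
          rw [urun_zero_dist nx q0 lft rgt x y n j _ _ hd (by simp [Dir.disp])]
          simp [sel]
      · rw [h2, e3]
        funext j
        show sel _ _ _ _ = _
        cases hd : ((nx (urun nx q0 lft rgt x y n).1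
            (fun j => (urun nx q0 lft rgt x y n).2 j 0)).2 j).2 with
        | left =>
          rw [urun_zero_dist nx q0 lft rgt x y n j _ _ hd (by simp [Dir.disp])]
          simp [sel]
        | stay =>
          rw [urun_dist nx q0 lft rgt x y n j _ _ hd (by simp [Dir.disp])]
          simp [sel, Dir.disp]
        | right =>
          rw [urun_dist nx q0 lft rgt x y n j _ _ hd (by simp [Dir.disp])]
          simp [sel, Dir.disp]
      · intro n' hn'
        have : n' = n := by omega
        subst this
        rw [h2]
        refine ⟨rfl, rfl, rfl⟩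
      · intro hh
        exact absurd (by omega) (hh n)
      · intro _ _
        rw [h2, e4, e6]
        show some (_, _, false) = _
        congr 2
        · rw [urun_succ]
          rfl
        · congr 1
          funext j
          show sel _ _ _ _ = _
          cases hd : ((nx (urun nx q0 lft rgt x y n).1
              (fun j => (urun nx q0 lft rgt x y n).2 j 0)).2 j).2 with
          | left =>
            rw [urun_dist nx q0 lft rgt x y n j _ _ hd (by simp [Dir.disp])]
            simp [sel, Dir.disp]
          | stay =>
            rw [urun_zero_dist nx q0 lft rgt x y n j _ _ hd (by simp [Dir.disp])]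
            simp [sel]
          | right =>
            rw [urun_dist nx q0 lft rgt x y n j _ _ hd (by simp [Dir.disp])]
            simp [sel, Dir.disp]
      · intro hh
        omega
      · intro hh
        simp at hh
      · intro _
        exact ⟨_, h2⟩


/-- The step for the cells `i + 1`. -/
theorem inv_succ_pos (t : ℕ)
    (h : ∀ i, Inv nx q0 lft rgt ov e0 x y t i) (i : ℕ) :
    Inv nx q0 lft rgt ov e0 x y (t + 1) (i + 1) := by
  have hc : cf nx q0 lft rgt ov e0 x y (t + 1) ((i + 1 : ℕ) : ℤ) =
      rule1 nx q0 lft rgt (cf nx q0 lft rgt ov e0 x y t ((i : ℕ) : ℤ))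
        (cf nx q0 lft rgt ov e0 x y t ((i + 1 : ℕ) : ℤ))
        (cf nx q0 lft rgt ov e0 x y t ((i + 2 : ℕ) : ℤ)) := by
    rw [cf_succ]
    have e1 : (((i + 1 : ℕ) : ℤ) - 1) = ((i : ℕ) : ℤ) := by push_cast; ring
    have e2 : (((i + 1 : ℕ) : ℤ) + 1) = ((i + 2 : ℕ) : ℤ) := by push_cast; ring
    rw [e1, e2]
  obtain ⟨hL, hR, hact, hnact, -, hnctl, hraw, hnraw⟩ := h (i + 1)
  obtain ⟨-, -, hact0, hnact0, -, -, hraw0, hnraw0⟩ := h i
  obtain ⟨hL2, hR2, -, -, -, -, -, -⟩ := h (i + 2)
  have hctl := hnctl (by omega)
  -- no false detection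
  have hdet : cf nx q0 lft rgt ov e0 x y t ((i + 1 : ℕ) : ℤ) ≠ .inl (none, none) →
      cf nx q0 lft rgt ov e0 x y t ((i : ℕ) : ℤ) ≠ .inl (none, none) := by
    intro h1 h2
    by_cases h3 : (if i = 0 then t = 0 else t < i + 3)
    · have h4 := hraw0 h3
      rw [h2] at h4
      have h5 := Sum.inl.inj h4
      rw [Prod.mk.injEq] at h5
      have h6 := List.getElem?_eq_none_iff.1 h5.1.symm
      have h7 := List.getElem?_eq_none_iff.1 h5.2.symm
      apply h1
      rw [hraw]
      · rw [List.getElem?_eq_none_iff.2 (by omega), List.getElem?_eq_none_iff.2 (by omega)]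
      · rw [if_neg (by omega)]
        split_ifs at h3 <;> omega
    · obtain ⟨c, hc'⟩ := hnraw0 h3
      rw [hc'] at h2
      exact absurd h2 (by simp)
  by_cases ha : ∃ n, t = 2 * (n + 1) + 1 + i
  · -- a move
    obtain ⟨n, hn⟩ := ha
    obtain ⟨h1, h2, h3⟩ := hact0 n hn
    have e2 : (t - 1 - (i + 1)) / 2 = n := by omega
    have e3 : (t + 1 - 1 - (i + 1)) / 2 = n + 1 := by omega
    have e7 : (t - 1 - (i + 2)) / 2 = n := by omega
    rw [e2] at hL hR
    rw [e7] at hL2 hR2
    have h4 := hc
    rw [rule1_act _ _ _ _ _ _ _ hctl hdet _ h1, hL, hR, hL2, hR2, h2, h3] at h4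
    refine ⟨?_, ?_, ?_, ?_, ?_, ?_, ?_, ?_⟩
    · rw [h4, e3]
      funext j
      show sel _ _ _ _ = _
      cases hd : ((nx (urun nx q0 lft rgt x y n).1
          (fun j => (urun nx q0 lft rgt x y n).2 j 0)).2 j).2 with
      | left =>
        rw [urun_dist nx q0 lft rgt x y n j _ _ hd (by simp only [Dir.disp]; omega)]
        simp only [sel, Dir.disp]
        exact congrArg _ (by omega)
      | stay =>
        rw [urun_dist nx q0 lft rgt x y n j _ _ hd (by simp only [Dir.disp]; omega)]
        simp only [sel, Dir.disp]
        exact congrArg _ (by omega)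
      | right =>
        rw [urun_dist nx q0 lft rgt x y n j _ _ hd (by simp only [Dir.disp]; omega)]
        simp only [sel, Dir.disp]
        exact congrArg _ (by omega)
    · rw [h4, e3]
      funext j
      show sel _ _ _ _ = _
      cases hd : ((nx (urun nx q0 lft rgt x y n).1
          (fun j => (urun nx q0 lft rgt x y n).2 j 0)).2 j).2 with
      | left =>
        rw [urun_dist nx q0 lft rgt x y n j _ _ hd (by simp only [Dir.disp]; omega)]
        simp only [sel, Dir.disp]
        exact congrArg _ (by omega)
      | stay =>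
        rw [urun_dist nx q0 lft rgt x y n j _ _ hd (by simp only [Dir.disp]; omega)]
        simp only [sel, Dir.disp]
        exact congrArg _ (by omega)
      | right =>
        rw [urun_dist nx q0 lft rgt x y n j _ _ hd (by simp only [Dir.disp]; omega)]
        simp only [sel, Dir.disp]
        exact congrArg _ (by omega)
    · intro n' hn'
      have : n' = n := by omega
      subst this
      rw [h4]
      refine ⟨rfl, rfl, rfl⟩
    · intro hh
      exact absurd (by omega) (hh n)
    · intro hh
      omega
    · intro _
      rw [h4]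
      rfl
    · intro hh
      rw [if_neg (by omega)] at hh
      omega
    · intro _
      exact ⟨_, h4⟩
  · -- no move
    have ha' : ∀ n, t ≠ 2 * (n + 1) + 1 + i := fun n hn => ha ⟨n, hn⟩
    have h1 := hnact0 ha'
    have e2 : (t + 1 - 1 - (i + 1)) / 2 = (t - 1 - (i + 1)) / 2 := by
      by_contra hcon
      apply ha
      refine ⟨(t - 3 - i) / 2, ?_⟩
      omega
    have h4 := hc
    rw [rule1_idle _ _ _ _ _ _ _ hctl hdet h1] at h4
    have hcL : cL lft (calm (cf nx q0 lft rgt ov e0 x y t ((i + 1 : ℕ) : ℤ))) =
        cL lft (cf nx q0 lft rgt ov e0 x y t ((i + 1 : ℕ) : ℤ)) := by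
      cases cf nx q0 lft rgt ov e0 x y t ((i + 1 : ℕ) : ℤ) <;> rfl
    have hcR : cR rgt (calm (cf nx q0 lft rgt ov e0 x y t ((i + 1 : ℕ) : ℤ))) =
        cR rgt (cf nx q0 lft rgt ov e0 x y t ((i + 1 : ℕ) : ℤ)) := by
      cases cf nx q0 lft rgt ov e0 x y t ((i + 1 : ℕ) : ℤ) <;> rfl
    refine ⟨?_, ?_, ?_, ?_, ?_, ?_, ?_, ?_⟩
    · rw [h4, e2, hcL, hL]
    · rw [h4, e2, hcR, hR]
    · intro n' hn'
      exact absurd (by omega) (ha' n')
    · intro _
      rw [h4]
      cases cf nx q0 lft rgt ov e0 x y t ((i + 1 : ℕ) : ℤ) <;> rfl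
    · intro hh
      omega
    · intro _
      rw [h4]
      cases cf nx q0 lft rgt ov e0 x y t ((i + 1 : ℕ) : ℤ) <;> rfl
    · intro hh
      rw [if_neg (by omega)] at hh
      rw [h4, hraw (by rw [if_neg (by omega)]; omega)]
      rfl
    · intro hh
      rw [if_neg (by omega)] at hh
      have h5 : ¬ (if i + 1 = 0 then t = 0 else t < i + 1 + 3) := by
        rw [if_neg (by omega)]
        intro h6
        exact ha' 0 (by omega)
      obtain ⟨c, hc'⟩ := hnraw h5
      rw [h4, hc']
      exact ⟨_, rfl⟩

theorem inv_all (hne : x ≠ [] ∨ y ≠ []) (t : ℕ) :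
    ∀ i, Inv nx q0 lft rgt ov e0 x y t i := by
  induction t with
  | zero => exact inv_zero nx q0 lft rgt ov e0 x y
  | succ t ih =>
    intro i
    cases i with
    | zero => exact inv_succ_zero nx q0 lft rgt ov e0 x y hne t ih
    | succ i => exact inv_succ_pos nx q0 lft rgt ov e0 x y t ih i

/-- The verdict of the array at time `t`. -/
theorem out_cf (hne : x ≠ [] ∨ y ≠ []) (t : ℕ) :
    out1 ov e0 (cf nx q0 lft rgt ov e0 x y t 0) =
      if t = 0 then none else ov (urun nx q0 lft rgt x y ((t - 1) / 2)).1 := by
  have h := inv_all nx q0 lft rgt ov e0 x y hne t 0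
  split_ifs with ht
  · have h1 := h.hraw (by simpa using ht)
    have h1' : cf nx q0 lft rgt ov e0 x y t 0 = .inl (x[0]?, y[0]?) := h1
    rw [h1']
    cases hx : x[0]? with
    | some b => cases y[0]? <;> rfl
    | none =>
      cases hy : y[0]? with
      | some b => rfl
      | none =>
        exfalso
        have h3 := List.getElem?_eq_none_iff.1 hx
        have h4 := List.getElem?_eq_none_iff.1 hy
        rcases hne with h5 | h5
        · exact h5 (List.length_eq_zero_iff.1 (by omega))
        · exact h5 (List.length_eq_zero_iff.1 (by omega))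
  · have h1 := h.hctl rfl (by omega)
    have h1' : ctl (cf nx q0 lft rgt ov e0 x y t 0) = _ := h1
    obtain ⟨c, hc⟩ := h.hnraw (by simpa using ht)
    have hc' : cf nx q0 lft rgt ov e0 x y t 0 = .inr c := hc
    rw [hc'] at h1' ⊢
    have h2 : c.2 = _ := h1'
    show (match c.2 with | some (q, _, _) => ov q | none => none) = _
    rw [h2]

/-- The quiescent array. -/
theorem cf_empty (t : ℕ) (z : ℤ) :
    cf nx q0 lft rgt ov e0 ([] : List Bool) ([] : List Bool) t z = .inl (none, none) := by
  induction t generalizing z with
  | zero => rw [cf_zero]; split_ifs <;> rfl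
  | succ t ih =>
    rw [cf_succ, ih z, ih (z - 1), ih (z + 1)]
    simp [rule1, ctl, act, calm]

/-- The array shows the first verdict of the machine after twice the time. -/
theorem first_verdict (t : ℕ) (v : Bool) (he : x = [] → y = [] → e0 = some v)
    (h1 : ov (urun nx q0 lft rgt x y t).1 = some v)
    (h2 : ∀ s < t, ov (urun nx q0 lft rgt x y s).1 = none) :
    ∃ t' ≤ 2 * t + 1, (arr nx q0 lft rgt ov e0).FirstVerdict (x, y) t' v := by
  by_cases hne : x ≠ [] ∨ y ≠ []
  · refine ⟨2 * t + 1, le_rfl, ?_, ?_⟩
    · show out1 ov e0 (cf nx q0 lft rgt ov e0 x y (2 * t + 1) 0) = some v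
      rw [out_cf nx q0 lft rgt ov e0 x y hne, if_neg (by omega)]
      have : (2 * t + 1 - 1) / 2 = t := by omega
      rw [this, h1]
    · intro s hs
      show out1 ov e0 (cf nx q0 lft rgt ov e0 x y s 0) = none
      rw [out_cf nx q0 lft rgt ov e0 x y hne]
      split_ifs with h3
      · rfl
      · exact h2 _ (by omega)
  · have hx : x = [] := by
      by_contra h; exact hne (Or.inl h)
    have hy : y = [] := by
      by_contra h; exact hne (Or.inr h)
    refine ⟨0, by omega, ?_, fun s hs => absurd hs (by omega)⟩
    show out1 ov e0 (cf nx q0 lft rgt ov e0 x y 0 0) = some v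
    rw [← he hx hy, hx, hy, cf_empty]
    rfl

end Sim

/-! ### Turing machines as machines with moving tapes -/

instance : Finite InSym :=
  Finite.of_surjective (fun i : Fin 4 => match i.val with
    | 0 => InSym.lend | 1 => InSym.rend | 2 => InSym.bit true | _ => InSym.bit false)
    (fun q => by
      rcases q with _ | b | _
      · exact ⟨0, rfl⟩
      · cases b
        · exact ⟨3, rfl⟩
        · exact ⟨2, rfl⟩
      · exact ⟨1, rfl⟩)

/-- The input symbol. -/
def getI {Γ : Type} : InSym ⊕ Γ → InSym
  | .inl a => a
  | .inr _ => .lend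

/-- The work symbol. -/
def getW {Γ : Type} (b : Γ) : InSym ⊕ Γ → Γ
  | .inl _ => b
  | .inr g => g

/-- The move of the input head which is really executed. -/
def clipD : InSym → Dir → Dir
  | .lend, .left => .stay
  | .rend, .right => .stay
  | _, d => d

/-- The transition function of a Turing machine with moving tapes. -/
def unx (M : TM) (q : M.Q) (g : Option (Fin M.k) → InSym ⊕ M.Γ) :
    M.Q × (Option (Fin M.k) → (InSym ⊕ M.Γ) × Dir) :=
  match M.out q with
  | some _ => (q, fun j => (g j, .stay))
  | none =>
    ((M.next q (getI (g none)) (fun i => getW M.blank (g (some i)))).1,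
     fun j => match j with
      | none => (g none,
          clipD (getI (g none)) (M.next q (getI (g none)) (fun i => getW M.blank (g (some i)))).2.1)
      | some i => (.inr ((M.next q (getI (g none)) (fun i => getW M.blank (g (some i)))).2.2 i).1,
          ((M.next q (getI (g none)) (fun i => getW M.blank (g (some i)))).2.2 i).2))

/-- The symbols on the left of the heads at the start. -/
def ulft (M : TM) : Option (Fin M.k) → InSym ⊕ M.Γ
  | none => .inl .lend
  | some _ => .inr M.blank

/-- The symbols on the right of the heads at the start. -/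
def urgt (M : TM) (gs : Bool → M.Γ) (j : Option (Fin M.k)) (a b : Option Bool) : InSym ⊕ M.Γ :=
  match j with
  | none => match a with
    | some c => .inl (.bit c)
    | none => .inl .rend
  | some i => if i.val = 0 then (match b with
      | some c => .inr (gs c)
      | none => .inr M.blank) else .inr M.blank

/-- The input tape on the whole line. -/
def isy (x : List Bool) (z : ℤ) : InSym :=
  if z ≤ 0 then .lend else
    match x[(z - 1).toNat]? with
    | some b => .bit b
    | none => .rend

theorem isy_cast (x : List Bool) (n : ℕ) : isy x n = inSym x n := by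
  unfold isy inSym
  rcases Nat.eq_zero_or_pos n with h | h
  · subst h
    simp
  · rw [if_neg (by omega), if_neg (by omega)]
    have : ((n : ℤ) - 1).toNat = n - 1 := by omega
    rw [this]
    cases x[n - 1]? <;> rfl

theorem inMove_cast (x : List Bool) (n : ℕ) (hn : n ≤ x.length + 1) (d : Dir) :
    ((inMove x n d : ℕ) : ℤ) = n + (clipD (inSym x n) d).disp := by
  rcases Nat.eq_zero_or_pos n with h | h
  · subst h
    cases d <;> simp [inMove, inSym, clipD, Dir.disp]
  · cases hx : x[n - 1]? with
    | some b =>
      have h1 : n - 1 < x.length := by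
        by_contra h2
        rw [List.getElem?_eq_none_iff.2 (by omega)] at hx
        exact absurd hx (by simp)
      have h3 : inSym x n = .bit b := by
        unfold inSym
        rw [if_neg (by omega), hx]
      rw [h3]
      cases d
      · simp only [inMove, clipD, Dir.disp]; omega
      · simp only [inMove, clipD, Dir.disp]; omega
      · simp only [inMove, clipD, Dir.disp]; omega
    | none =>
      have h1 := List.getElem?_eq_none_iff.1 hx
      have h3 : inSym x n = .rend := by
        unfold inSym
        rw [if_neg (by omega), hx]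
      rw [h3]
      cases d
      · simp only [inMove, clipD, Dir.disp]; omega
      · simp only [inMove, clipD, Dir.disp]; omega
      · simp only [inMove, clipD, Dir.disp]; omega

theorem inMove_le (x : List Bool) (n : ℕ) (hn : n ≤ x.length + 1) (d : Dir) :
    inMove x n d ≤ x.length + 1 := by
  cases d
  · simp only [inMove]; omega
  · simp only [inMove]; omega
  · simp only [inMove]; omega

/-- The configuration with moving tapes of a configuration of the machine. -/
def ucfg (M : TM) (x : List Bool) (c : M.Cfg) : M.Q × (Option (Fin M.k) → ℤ → InSym ⊕ M.Γ) :=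
  (c.st, fun j z => match j with
    | none => .inl (isy x (c.ipos + z))
    | some i => .inr (c.tape i (c.head i + z)))

theorem ustep_ucfg (M : TM) (x : List Bool) (c : M.Cfg) (hc : c.ipos ≤ x.length + 1) :
    ustep (unx M) (ucfg M x c) = ucfg M x (M.stepCfg x c) := by
  have hI : getI ((ucfg M x c).2 none 0) = inSym x c.ipos := by
    show isy x (c.ipos + 0) = _
    rw [add_zero, isy_cast]
  have hW : (fun i => getW M.blank ((ucfg M x c).2 (some i) 0)) = fun i => c.tape i (c.head i) := by
    funext i
    show c.tape i (c.head i + 0) = _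
    rw [add_zero]
  cases ho : M.out c.st with
  | some b =>
    have h1 : M.stepCfg x c = c := by
      unfold TM.stepCfg
      rw [ho]
    have h2 : unx M (ucfg M x c).1 (fun j => (ucfg M x c).2 j 0) =
        (c.st, fun j => ((ucfg M x c).2 j 0, .stay)) := by
      show unx M c.st _ = _
      unfold unx
      rw [ho]
    rw [h1]
    unfold ustep
    rw [h2]
    refine Prod.ext rfl ?_
    funext j z
    show Function.update ((ucfg M x c).2 j) 0 ((ucfg M x c).2 j 0) (z + 0) = _
    rw [Function.update_eq_self, add_zero]
  | none =>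
    have h1 : M.stepCfg x c =
      { st := (M.next c.st (inSym x c.ipos) (fun i => c.tape i (c.head i))).1
        ipos := inMove x c.ipos (M.next c.st (inSym x c.ipos) (fun i => c.tape i (c.head i))).2.1
        tape := fun i => Function.update (c.tape i) (c.head i)
          ((M.next c.st (inSym x c.ipos) (fun i => c.tape i (c.head i))).2.2 i).1
        head := fun i => c.head i +
          ((M.next c.st (inSym x c.ipos) (fun i => c.tape i (c.head i))).2.2 i).2.disp } := by
      unfold TM.stepCfg
      rw [ho]
    have h2 : unx M (ucfg M x c).1 (fun j => (ucfg M x c).2 j 0) =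
        ((M.next c.st (inSym x c.ipos) (fun i => c.tape i (c.head i))).1,
          fun j => match j with
          | none => ((ucfg M x c).2 none 0, clipD (inSym x c.ipos)
              (M.next c.st (inSym x c.ipos) (fun i => c.tape i (c.head i))).2.1)
          | some i => (.inr ((M.next c.st (inSym x c.ipos) (fun i => c.tape i (c.head i))).2.2 i).1,
            ((M.next c.st (inSym x c.ipos) (fun i => c.tape i (c.head i))).2.2 i).2)) := by
      show unx M c.st _ = _
      unfold unx
      rw [ho, hI, hW]
    rw [h1]
    unfold ustep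
    rw [h2]
    refine Prod.ext rfl ?_
    funext j z
    cases j with
    | none =>
      show Function.update ((ucfg M x c).2 none) 0 ((ucfg M x c).2 none 0)
        (z + (clipD (inSym x c.ipos)
          (M.next c.st (inSym x c.ipos) (fun i => c.tape i (c.head i))).2.1).disp) =
        .inl (isy x (((inMove x c.ipos
          (M.next c.st (inSym x c.ipos) (fun i => c.tape i (c.head i))).2.1 : ℕ) : ℤ) + z))
      rw [Function.update_eq_self, inMove_cast x c.ipos hc]
      show Sum.inl (isy x (c.ipos + (z + _))) = _
      congr 2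
      ring
    | some i =>
      show Function.update (fun z => (.inr (c.tape i (c.head i + z)) : InSym ⊕ M.Γ)) 0
          (.inr ((M.next c.st (inSym x c.ipos) (fun i => c.tape i (c.head i))).2.2 i).1)
          (z + ((M.next c.st (inSym x c.ipos) (fun i => c.tape i (c.head i))).2.2 i).2.disp) =
        .inr (Function.update (c.tape i) (c.head i)
          ((M.next c.st (inSym x c.ipos) (fun i => c.tape i (c.head i))).2.2 i).1
          (c.head i + ((M.next c.st (inSym x c.ipos) (fun i => c.tape i (c.head i))).2.2 i).2.disp
            + z))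
      by_cases h0 : z + ((M.next c.st (inSym x c.ipos)
          (fun i => c.tape i (c.head i))).2.2 i).2.disp = 0
      · have h3 : c.head i + ((M.next c.st (inSym x c.ipos)
            (fun i => c.tape i (c.head i))).2.2 i).2.disp + z = c.head i := by omega
        rw [h0, h3, Function.update_self, Function.update_self]
      · have h3 : c.head i + ((M.next c.st (inSym x c.ipos)
            (fun i => c.tape i (c.head i))).2.2 i).2.disp + z ≠ c.head i := by
          intro h4
          apply h0
          omega
        rw [Function.update_of_ne h0, Function.update_of_ne h3]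
        congr 2
        ring

theorem ipos_le (M : TM) (x : List Bool) (c : M.Cfg) (hc : c.ipos ≤ x.length + 1) :
    (M.stepCfg x c).ipos ≤ x.length + 1 := by
  unfold TM.stepCfg
  split
  · exact hc
  · exact inMove_le x _ hc _

theorem urun_tm (M : TM) (gs : Bool → M.Γ) (x y : List Bool) (t : ℕ) :
    urun (unx M) M.start (ulft M) (urgt M gs) x y t = ucfg M x (M.runG gs x y t) ∧
      (M.runG gs x y t).ipos ≤ x.length + 1 := by
  induction t with
  | zero =>
    refine ⟨?_, Nat.zero_le _⟩
    have h0 : urun (unx M) M.start (ulft M) (urgt M gs) x y 0 =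
      uinit M.start (ulft M) (urgt M gs) x y := rfl
    rw [h0]
    refine Prod.ext rfl ?_
    funext j z
    cases j with
    | none =>
      show (if z ≤ 0 then _ else _) = Sum.inl (isy x (((0 : ℕ) : ℤ) + z))
      rw [Nat.cast_zero, zero_add]
      unfold isy
      split_ifs with hz
      · rfl
      · cases hx : x[(z - 1).toNat]? <;> simp [urgt]
    | some i =>
      show (if z ≤ 0 then _ else _) = Sum.inr ((M.initG gs y).tape i (0 + z))
      rw [zero_add]
      by_cases hz : z ≤ 0
      · rw [if_pos hz]
        show Sum.inr M.blank = Sum.inr (if i.val = 0 ∧ 0 < z then _ else _)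
        rw [if_neg (by omega)]
      · rw [if_neg hz]
        show urgt M gs (some i) _ _ = Sum.inr (if i.val = 0 ∧ 0 < z then _ else _)
        unfold urgt
        by_cases hi : i.val = 0
        · rw [if_pos ⟨hi, by omega⟩]
          show (if i.val = 0 then _ else _) = _
          rw [if_pos hi]
          cases y[(z - 1).toNat]? <;> rfl
        · rw [if_neg (fun h => hi h.1)]
          show (if i.val = 0 then _ else _) = _
          rw [if_neg hi]
  | succ t ih =>
    obtain ⟨h1, h2⟩ := ih
    have h3 : M.runG gs x y (t + 1) = M.stepCfg x (M.runG gs x y t) :=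
      Function.iterate_succ_apply' _ _ _
    rw [h3, urun_succ, h1]
    exact ⟨ustep_ucfg M x _ h2, ipos_le M x _ h2⟩

end TC

/-- A bound for the number of states of the simulating array. -/
noncomputable def asz (k q g : ℕ) : ℕ :=
  3 * 3 + (Nat.card InSym + g) ^ (k + 1) * (Nat.card InSym + g) ^ (k + 1) *
    ((Nat.card InSym + g) ^ (k + 1) * (Nat.card InSym + g) ^ (k + 1) *
      (Nat.card Dir ^ (k + 1) + 1)) * (q * ((Nat.card InSym + g) ^ (k + 1) * 2) + 1)

theorem asz_mono {k q g k' q' g' : ℕ} (hk : k ≤ k') (hq : q ≤ q') (hg : g ≤ g') :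
    asz k q g ≤ asz k' q' g' := by
  have : Nonempty InSym := ⟨.lend⟩
  have : Nonempty Dir := ⟨.stay⟩
  have hI : 1 ≤ Nat.card InSym := Nat.card_pos
  have hD : 1 ≤ Nat.card Dir := Nat.card_pos
  have h1 : (Nat.card InSym + g) ^ (k + 1) ≤ (Nat.card InSym + g') ^ (k' + 1) :=
    le_trans (Nat.pow_le_pow_left (by omega) _) (Nat.pow_le_pow_right (by omega) (by omega))
  have h2 : Nat.card Dir ^ (k + 1) ≤ Nat.card Dir ^ (k' + 1) :=
    Nat.pow_le_pow_right hD (by omega)
  unfold asz
  gcongr

theorem card_AS (M : TM) [Finite M.Q] [Finite M.Γ] :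
    Nat.card (TC.AS M.Q (Option (Fin M.k)) (InSym ⊕ M.Γ)) =
      asz M.k (Nat.card M.Q) (Nat.card M.Γ) := by
  simp [TC.AS, TC.Cell, asz, Nat.card_prod, Nat.card_sum, Nat.card_fun, Finite.card_option]

/-- Every multitape Turing machine is simulated by a linear array in linear time. -/
theorem TM.toCA (M : TM) (gs : Bool → M.Γ) :
    ∃ A : CA 1, Nat.card A.Q = asz M.k (Nat.card M.Q) (Nat.card M.Γ) ∧
      ∀ (x y : List Bool) (t : ℕ) (v : Bool), M.FirstVerdict gs x y t v →
      ∃ t' ≤ 2 * t + 1, A.FirstVerdict (x, y) t' v := by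
  classical
  have := M.finQ
  have := M.finΓ
  -- the verdict on the empty words
  set e0 : Option Bool := if h : ∃ v, ∃ t, M.FirstVerdict gs [] [] t v then some h.choose else none
    with he0
  refine ⟨TC.arr (TC.unx M) M.start (TC.ulft M) (TC.urgt M gs) M.out e0, card_AS M, ?_⟩
  intro x y t v h
  have hst : ∀ s, (TC.urun (TC.unx M) M.start (TC.ulft M) (TC.urgt M gs) x y s).1 =
      (M.runG gs x y s).st := fun s => by
    rw [(TC.urun_tm M gs x y s).1]
    rfl
  refine TC.first_verdict (TC.unx M) M.start (TC.ulft M) (TC.urgt M gs) M.out e0 x y t v ?_ ?_ ?_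
  · intro hx hy
    subst hx
    subst hy
    have hex : ∃ v, ∃ t, M.FirstVerdict gs [] [] t v := ⟨v, t, h⟩
    rw [he0, dif_pos hex]
    obtain ⟨t', h'⟩ := hex.choose_spec
    -- uniqueness
    rcases lt_trichotomy t t' with hl | hl | hl
    · have := h'.2 t hl
      rw [h.1] at this
      exact absurd this (by simp)
    · subst hl
      have h3 := h'.1
      rw [h.1] at h3
      exact h3.symm
    · have := h.2 t' hl
      rw [h'.1] at this
      exact absurd this (by simp)
  · rw [hst]
    exact h.1
  · intro s hs
    rw [hst]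
    exact h.2 s hs

end Pool.Agent.Work.MP_71c844_lc.Arr
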