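/-
Block ARR (problem MP_71c844_lc): consequences of the simulation of Turing machines by arrays:
inclusions of time classes, and the transfer of lower bounds.  Author: helper44.
-/
import Pool.Agent.Work.MP_71c844_lc.Arr.TMCA

namespace Pool.Agent.Work.MP_71c844_lc.Arr

/-- The first verdict of an array is unique. -/
theorem CA.first_unique {d : ℕ} (A : CA d) (x : Inp) {t t' : ℕ} {v v' : Bool}
    (h : A.FirstVerdict x t v) (h' : A.FirstVerdict x t' v') : v = v' := by
  obtain ⟨h1, h2⟩ := h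
  obtain ⟨h3, h4⟩ := h'
  rcases lt_trichotomy t t' with hl | hl | hl
  · have := h4 t hl
    rw [h1] at this
    cases this
  · subst hl
    rw [h1] at h3
    exact Option.some.inj h3
  · have := h2 t' hl
    rw [h3] at this
    cases this

/-- The game depends only on the words with `m` letters. -/
theorem game_congr (e : Bool) (m : ℕ) (P R : List Bool → Prop)
    (h : ∀ y : List Bool, y.length = m → (P y ↔ R y)) : Game e m P ↔ Game e m R := by
  induction m generalizing e P R with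
  | zero =>
    cases e
    · exact h [] rfl
    · exact h [] rfl
  | succ m ih =>
    have h' : ∀ c : Bool, ∀ y : List Bool, y.length = m → (P (c :: y) ↔ R (c :: y)) := by
      intro c y hy
      exact h (c :: y) (by simp [hy])
    cases e
    · exact forall_congr' fun c => ih true _ _ (h' c)
    · exact exists_congr fun c => ih false _ _ (h' c)

/-- The majority depends only on the words with `m` letters. -/
theorem maj_congr (m : ℕ) (P R : List Bool → Prop)
    (h : ∀ y : List Bool, y.length = m → (P y ↔ R y)) : Maj m P ↔ Maj m R := by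
  unfold Maj
  have h1 : {z : List Bool // z.length = m ∧ P z} = {z : List Bool // z.length = m ∧ R z} := by
    congr 1
    funext z
    exact propext ⟨fun hz => ⟨hz.1, (h z hz.1).1 hz.2⟩, fun hz => ⟨hz.1, (h z hz.1).2 hz.2⟩⟩
  rw [h1]

/-- The transfer of alternating decisions from a machine to the simulating array. -/
theorem TM.alt_transfer (M : TM) (gs : Bool → M.Γ) (A : CA 1)
    (hA : ∀ (x y : List Bool) (t : ℕ) (v : Bool), M.FirstVerdict gs x y t v →
      ∃ t' ≤ 2 * t + 1, A.FirstVerdict (x, y) t' v) (x : List Bool) (m : ℕ) (τ σ : ℝ)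
    (hσ : 2 * τ + 1 ≤ σ) (P : Prop) (h : M.AltDecides gs x m τ P) : A.AltDecides x m σ P := by
  obtain ⟨h1, h2⟩ := h
  refine ⟨?_, ?_⟩
  · intro y hy
    obtain ⟨t, v, ht, hv⟩ := h1 y hy
    obtain ⟨t', ht', hv'⟩ := hA x y t v hv
    refine ⟨t', v, ?_, hv'⟩
    have h3 : (t' : ℝ) ≤ 2 * t + 1 := by exact_mod_cast ht'
    linarith
  · rw [h2]
    apply game_congr
    intro y hy
    apply maj_congr
    intro z hz
    constructor
    · rintro ⟨t, ht⟩
      obtain ⟨t', -, h'⟩ := hA x (y ++ z) t true ht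
      exact ⟨t', h'⟩
    · rintro ⟨t, ht⟩
      obtain ⟨s, v, -, hs⟩ := h1 (y ++ z) (by rw [List.length_append]; omega)
      obtain ⟨t', -, h'⟩ := hA x (y ++ z) s v hs
      have hv := A.first_unique _ ht h'
      subst hv
      exact ⟨s, hs⟩

/-- A halting machine does not change. -/
theorem TM.runG_halt (M : TM) (gs : Bool → M.Γ) (x y : List Bool) (t : ℕ) (v : Bool)
    (h : M.out (M.runG gs x y t).st = some v) (k : ℕ) :
    M.runG gs x y (t + k) = M.runG gs x y t := by
  induction k with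
  | zero => rfl
  | succ k ih =>
    have h1 : M.runG gs x y (t + (k + 1)) = M.stepCfg x (M.runG gs x y (t + k)) :=
      Function.iterate_succ_apply' _ _ _
    rw [h1, ih]
    unfold TM.stepCfg
    rw [h]

/-- The first verdict. -/
theorem TM.exists_first (M : TM) (gs : Bool → M.Γ) (x y : List Bool) (t : ℕ) (v : Bool)
    (h : M.out (M.runG gs x y t).st = some v) : ∃ t' ≤ t, M.FirstVerdict gs x y t' v := by
  classical
  have hex : ∃ s, M.out (M.runG gs x y s).st ≠ none := ⟨t, by rw [h]; simp⟩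
  obtain ⟨u, hu⟩ := Option.ne_none_iff_exists'.1 (Nat.find_spec hex)
  have hle : Nat.find hex ≤ t := Nat.find_min' hex (by rw [h]; simp)
  refine ⟨Nat.find hex, hle, ?_, fun s hs => ?_⟩
  · have h1 := M.runG_halt gs x y _ u hu (t - Nat.find hex)
    have h2 : Nat.find hex + (t - Nat.find hex) = t := by omega
    rw [h2] at h1
    rw [← h1]
    exact h
  · by_contra hcon
    exact Nat.find_min hex hs hcon

theorem TM.runG_nil (M : TM) (gs : Bool → M.Γ) (x : List Bool) (t : ℕ) :
    M.runG gs x [] t = M.run x t := by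
  unfold TM.runG TM.run
  congr 1
  unfold TM.initG TM.initCfg
  congr 1
  funext i z
  simp

/-- Turing machine time is contained in linear array time. -/
theorem DTIME_sub (T : ℕ → ℕ) : DTIME T ⊆ ATIME 1 T := by
  rintro L ⟨M, C, hM⟩
  obtain ⟨A, -, hA⟩ := M.toCA (fun _ => M.blank)
  refine ⟨A, 2 * C + 1, fun x => ?_⟩
  obtain ⟨t, b, ht, hb, hx⟩ := hM x
  rw [← M.runG_nil (fun _ => M.blank)] at hb
  obtain ⟨t', ht', h'⟩ := M.exists_first _ x [] t b hb
  obtain ⟨s, hs, h''⟩ := hA x [] t' b h'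
  refine ⟨s, b, ?_, h'', hx⟩
  show s ≤ (2 * C + 1) * T x.length + (2 * C + 1)
  nlinarith

/-- The same with guesses and coins. -/
theorem AltDTIME_sub (g T : ℕ → ℕ) : AltDTIME g T ⊆ AltTIME 1 g T := by
  rintro L ⟨M, gs, C, hM⟩
  obtain ⟨A, -, hA⟩ := M.toCA gs
  refine ⟨A, 2 * C + 1, fun x => ?_⟩
  refine M.alt_transfer gs A hA x (g x.length) _ _ ?_ _ (hM x)
  have h1 : 2 * (C * T x.length + C) + 1 ≤ (2 * C + 1) * T x.length + (2 * C + 1) := by nlinarith
  exact_mod_cast h1

/-- The lower bounds for linear arrays hold for multitape Turing machines. -/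
theorem tm_lower (L : Set (List Bool)) (p r : ℕ) (hp : 1 ≤ p) (hr : 1 ≤ r)
    (h : ∀ s : ℕ, ∃ c : ℝ, 0 < c ∧ ∃ n0 : ℕ, ∀ A : CA 1, Nat.card A.Q ≤ s →
      ∃ w : List Bool, w.length ≤ n0 ∧ ∀ x : List Bool, w <+: x → n0 ≤ x.length →
      ¬ A.AltDecides x (rp p r x.length)
        (c * (x.length : ℝ) ^ ((p : ℝ) / (r : ℝ) * (1 + 1 / ((1 : ℕ) : ℝ))) /
          Real.log x.length) (x ∈ L)) (s : ℕ) :
    ∃ c : ℝ, 0 < c ∧ ∃ n0 : ℕ, ∀ M : TM, M.k ≤ s → Nat.card M.Q ≤ s → Nat.card M.Γ ≤ s →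
      ∀ gs : Bool → M.Γ, ∃ w : List Bool, w.length ≤ n0 ∧ ∀ x : List Bool, w <+: x →
      n0 ≤ x.length →
      ¬ M.AltDecides gs x (rp p r x.length)
        (c * (x.length : ℝ) ^ (2 * ((p : ℝ) / (r : ℝ))) / Real.log x.length) (x ∈ L) := by
  obtain ⟨c, hc, n0, hn0⟩ := h (asz s s s)
  set β : ℝ := (p : ℝ) / (r : ℝ) * (1 + 1 / ((1 : ℕ) : ℝ)) with hβ
  have hβ2 : 2 * ((p : ℝ) / (r : ℝ)) = β := by rw [hβ]; norm_num; ring
  have hp' : (1 : ℝ) ≤ p := by exact_mod_cast hp
  have hr' : (1 : ℝ) ≤ r := by exact_mod_cast hr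
  have hβ1 : 0 < β := by rw [← hβ2]; positivity
  -- `log n = o(n ^ β)`
  have hlim : ∃ m : ℕ, ∀ n ≥ m, 2 * Real.log n ≤ c * (n : ℝ) ^ β := by
    have h1 : (fun x : ℝ => Real.log x) =o[Filter.atTop] fun x => x ^ β :=
      isLittleO_log_rpow_atTop hβ1
    have h2 := h1.def (show (0 : ℝ) < c / 2 by positivity)
    have h3 := tendsto_natCast_atTop_atTop (R := ℝ) |>.eventually h2
    rw [Filter.eventually_atTop] at h3
    obtain ⟨m, hm⟩ := h3
    refine ⟨max m 1, fun n hn => ?_⟩
    have h4 := hm n (le_trans (le_max_left _ _) hn)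
    have hn1 : (1 : ℝ) ≤ n := by exact_mod_cast (le_trans (le_max_right _ _) hn)
    have hl : 0 ≤ Real.log (n : ℝ) := Real.log_nonneg hn1
    have hp : 0 ≤ (n : ℝ) ^ β := Real.rpow_nonneg (by linarith) _
    rw [Real.norm_of_nonneg hl, Real.norm_of_nonneg hp] at h4
    linarith
  obtain ⟨m, hm⟩ := hlim
  refine ⟨c / 4, by positivity, max (max n0 m) 2, ?_⟩
  intro M hk hq hg gs
  obtain ⟨A, hcard, hA⟩ := M.toCA gs
  obtain ⟨w, hw, hlow⟩ := hn0 A (by rw [hcard]; exact asz_mono hk hq hg)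
  refine ⟨w, le_trans hw (le_trans (le_max_left _ _) (le_max_left _ _)), ?_⟩
  intro x hx hlen hM
  have h1 : n0 ≤ x.length := le_trans (le_trans (le_max_left _ _) (le_max_left _ _)) hlen
  have h2 : m ≤ x.length := le_trans (le_trans (le_max_right _ _) (le_max_left _ _)) hlen
  have h3 : 2 ≤ x.length := le_trans (le_max_right _ _) hlen
  apply hlow x hx h1
  refine M.alt_transfer gs A hA x _ _ _ ?_ _ hM
  have h3' : (2 : ℝ) ≤ (x.length : ℝ) := by exact_mod_cast h3
  have hl : 0 < Real.log (x.length : ℝ) := Real.log_pos (by linarith)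
  have h4 := hm x.length h2
  rw [hβ2]
  have h5 : 1 ≤ c * (x.length : ℝ) ^ β / Real.log x.length / 2 := by
    rw [le_div_iff₀ (by norm_num), le_div_iff₀ hl]
    linarith
  have h6 : 2 * (c / 4 * (x.length : ℝ) ^ β / Real.log x.length) =
      c * (x.length : ℝ) ^ β / Real.log x.length / 2 := by ring
  rw [h6]
  linarith

end Pool.Agent.Work.MP_71c844_lc.Arr
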