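/-
Block ARR (problem MP_71c844_lc): the inclusions at the threshold.  Author: helper58.
-/
import Pool.Agent.Work.MP_71c844_lc.Arr.Main0
import Pool.Agent.Work.MP_71c844_lc.Arr.FinM
import Pool.Agent.Work.MP_71c844_lc.Arr.TMLow

namespace Pool.Agent.Work.MP_71c844_lc.Arr

/-- The space needed for the time `n ^ (a (1 + 1 / d)) / log n` is `O(n ^ a)`. -/
theorem thr_le (a : ℝ) (ha : 0 < a) (d : ℕ) (hd : 1 ≤ d) (n : ℕ) :
    ((⌊(n : ℝ) ^ (a * (1 + 1 / (d : ℝ))) / Real.log n⌋₊ : ℝ) *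
      Real.log ((⌊(n : ℝ) ^ (a * (1 + 1 / (d : ℝ))) / Real.log n⌋₊ : ℝ) + 2)) ^
        ((d : ℝ) / ((d : ℝ) + 1)) ≤ (2 + a * (1 + 1 / (d : ℝ))) * (n : ℝ) ^ a := by
  have hd' : (0 : ℝ) < d := by exact_mod_cast hd
  set e : ℝ := a * (1 + 1 / (d : ℝ)) with he
  have he0 : 0 < e := by positivity
  set T : ℝ := (⌊(n : ℝ) ^ e / Real.log n⌋₊ : ℝ) with hT
  have hT0 : 0 ≤ T := by positivity
  have hexp : 0 < (d : ℝ) / ((d : ℝ) + 1) := by positivity
  have hexp1 : (d : ℝ) / ((d : ℝ) + 1) ≤ 1 := by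
    rw [div_le_one (by positivity)]; linarith
  have hea : e * ((d : ℝ) / ((d : ℝ) + 1)) = a := by
    rw [he]; field_simp
  rcases Nat.lt_or_ge n 2 with hn | hn
  · have hlog : Real.log (n : ℝ) = 0 := by
      interval_cases n
      · simp
      · simp
    have : T = 0 := by rw [hT, hlog]; simp
    rw [this, zero_mul, Real.zero_rpow hexp.ne']
    positivity
  · have hn2 : (2 : ℝ) ≤ n := by exact_mod_cast hn
    have hlog2 : Real.log 2 ≤ Real.log n := Real.log_le_log (by norm_num) hn2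
    have hl2 : (0.69 : ℝ) < Real.log 2 := by linarith [Real.log_two_gt_d9]
    have hlogn : 0.69 < Real.log n := by linarith
    have hne : 1 ≤ (n : ℝ) ^ e := Real.one_le_rpow (by linarith) he0.le
    have hTle : T ≤ (n : ℝ) ^ e / Real.log n := by
      rw [hT]; exact Nat.floor_le (by positivity)
    have hTle2 : T ≤ 2 * (n : ℝ) ^ e := by
      refine hTle.trans ?_
      rw [div_le_iff₀ (by linarith)]
      nlinarith
    have hlogT : Real.log (T + 2) ≤ (2 + e) * Real.log n := by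
      have h1 : T + 2 ≤ 4 * (n : ℝ) ^ e := by linarith
      have h2 : Real.log (T + 2) ≤ Real.log (4 * (n : ℝ) ^ e) :=
        Real.log_le_log (by linarith) h1
      rw [Real.log_mul (by norm_num) (by positivity), Real.log_rpow (by linarith)] at h2
      have h4 : Real.log 4 = 2 * Real.log 2 := by
        rw [show (4 : ℝ) = 2 ^ 2 by norm_num, Real.log_pow]; norm_num
      rw [h4] at h2
      nlinarith
    have hprod : T * Real.log (T + 2) ≤ (2 + e) * (n : ℝ) ^ e := by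
      have h1 : 0 ≤ Real.log (T + 2) := Real.log_nonneg (by linarith)
      calc T * Real.log (T + 2) ≤ ((n : ℝ) ^ e / Real.log n) * ((2 + e) * Real.log n) :=
            mul_le_mul hTle hlogT h1 (by positivity)
        _ = (2 + e) * (n : ℝ) ^ e := by field_simp
    have h0 : 0 ≤ T * Real.log (T + 2) := mul_nonneg hT0 (Real.log_nonneg (by linarith))
    calc (T * Real.log (T + 2)) ^ ((d : ℝ) / ((d : ℝ) + 1))
        ≤ ((2 + e) * (n : ℝ) ^ e) ^ ((d : ℝ) / ((d : ℝ) + 1)) :=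
          Real.rpow_le_rpow h0 hprod hexp.le
      _ = (2 + e) ^ ((d : ℝ) / ((d : ℝ) + 1)) * (n : ℝ) ^ a := by
          rw [Real.mul_rpow (by linarith) (by positivity), ← Real.rpow_mul (by linarith), hea]
      _ ≤ (2 + e) * (n : ℝ) ^ a := by
          have : (2 + e) ^ ((d : ℝ) / ((d : ℝ) + 1)) ≤ (2 + e) ^ (1 : ℝ) :=
            Real.rpow_le_rpow_of_exponent_le (by linarith) hexp1
          rw [Real.rpow_one] at this
          exact mul_le_mul_of_nonneg_right this (by positivity)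

/-- Time `O(n ^ ((p / r) (1 + 1 / d)) / log n)` after `⌈n ^ (p / r)⌉` alternating guesses and
coins is in space `O(n ^ (p / r))`: arrays. -/
theorem threshold (p r : ℕ) (hp : 1 ≤ p) (hr : 1 ≤ r) (d : ℕ) (hd : 1 ≤ d) :
    AltTIME d (rp p r) (fun n =>
      ⌊(n : ℝ) ^ ((p : ℝ) / (r : ℝ) * (1 + 1 / (d : ℝ))) / Real.log n⌋₊) ⊆ DSPACE (rp p r) := by
  refine (upperAlt DSPACE searchFor_DSPACE monoFor_DSPACE d hd p r hr _).trans ?_
  have hp' : (0 : ℝ) < p := by exact_mod_cast hp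
  have hr' : (0 : ℝ) < r := by exact_mod_cast hr
  set K : ℕ := ⌈2 + (p : ℝ) / (r : ℝ) * (1 + 1 / (d : ℝ))⌉₊ with hK
  refine monoFor_DSPACE _ _ (K + 1) fun n => ?_
  have h1 := thr_le ((p : ℝ) / (r : ℝ)) (by positivity) d hd n
  have h2 : ((⌊(n : ℝ) ^ ((p : ℝ) / (r : ℝ) * (1 + 1 / (d : ℝ))) / Real.log n⌋₊ : ℝ) *
      Real.log ((⌊(n : ℝ) ^ ((p : ℝ) / (r : ℝ) * (1 + 1 / (d : ℝ))) / Real.log n⌋₊ : ℝ) + 2)) ^
        ((d : ℝ) / ((d : ℝ) + 1)) ≤ ((K * rp p r n : ℕ) : ℝ) := by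
    refine h1.trans ?_
    push_cast
    refine mul_le_mul (Nat.le_ceil _) (Nat.le_ceil _) (by positivity) (by positivity)
  have h3 := Nat.ceil_le.mpr h2
  have h4 : rp p r n + ⌈((⌊(n : ℝ) ^ ((p : ℝ) / (r : ℝ) * (1 + 1 / (d : ℝ))) / Real.log n⌋₊ : ℝ) *
      Real.log ((⌊(n : ℝ) ^ ((p : ℝ) / (r : ℝ) * (1 + 1 / (d : ℝ))) / Real.log n⌋₊ : ℝ) + 2)) ^
        ((d : ℝ) / ((d : ℝ) + 1))⌉₊ ≤ rp p r n + K * rp p r n := Nat.add_le_add_left h3 _
  calc _ ≤ rp p r n + K * rp p r n := h4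
    _ ≤ (K + 1) * rp p r n + (K + 1) := by nlinarith

/-- The same for multitape Turing machines, with time `O(n ^ (2 p / r) / log n)`. -/
theorem threshold_tm (p r : ℕ) (hp : 1 ≤ p) (hr : 1 ≤ r) :
    AltDTIME (rp p r) (fun n => ⌊(n : ℝ) ^ (2 * ((p : ℝ) / (r : ℝ))) / Real.log n⌋₊) ⊆
      DSPACE (rp p r) := by
  have h := (AltDTIME_sub (rp p r) (fun n =>
    ⌊(n : ℝ) ^ ((p : ℝ) / (r : ℝ) * (1 + 1 / ((1 : ℕ) : ℝ))) / Real.log n⌋₊)).trans
      (threshold p r hp hr 1 le_rfl)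
  have he : (p : ℝ) / (r : ℝ) * (1 + 1 / ((1 : ℕ) : ℝ)) = 2 * ((p : ℝ) / (r : ℝ)) := by
    push_cast; ring
  rwa [he] at h

end Pool.Agent.Work.MP_71c844_lc.Arr
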