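import Pool.Agent.Work.MP_71c844_lc.Arr.TMRun

/-!
# The goto code of a counter program
-/

set_option autoImplicit false

namespace Pool.Agent.Work.MP_71c844_lc.Arr

namespace TMS

variable {x : List Bool} {G : List Ins}

/-- the list `L` is in `G` from address `b` on -/
def AtL (G : List Ins) (b : ℕ) (L : List Ins) : Prop := ∀ i < L.length, G[b + i]? = L[i]?

theorem AtL.left {b : ℕ} {L L' : List Ins} (h : AtL G b (L ++ L')) : AtL G b L := by
  intro i hi
  rw [h i (by rw [List.length_append]; omega), List.getElem?_append_left hi]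

theorem AtL.right {b : ℕ} {L L' : List Ins} (h : AtL G b (L ++ L')) :
    AtL G (b + L.length) L' := by
  intro i hi
  rw [add_assoc, h (L.length + i) (by rw [List.length_append]; omega),
    List.getElem?_append_right (by omega), Nat.add_sub_cancel_left]

theorem AtL.head {b : ℕ} {I : Ins} {L : List Ins} (h : AtL G b (I :: L)) : G[b]? = some I := by
  have := h 0 (by simp)
  simpa using this

theorem AtL.tail {b : ℕ} {I : Ins} {L : List Ins} (h : AtL G b (I :: L)) : AtL G (b + 1) L := by
  intro i hi
  have := h (i + 1) (by simp; omega)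
  rw [List.getElem?_cons_succ] at this
  rw [← this]
  congr 1
  omega

theorem length_code (P : CP) : ∀ b e : ℕ, (P.code b e).length = P.len := by
  induction P with
  | skip => intro b e; rfl
  | inc r => intro b e; rfl
  | dec r => intro b e; rfl
  | mv d => intro b e; rfl
  | seq P Q ihP ihQ => intro b e; simp only [CP.code, CP.len, List.length_append, ihP, ihQ]
  | ite c P Q ihP ihQ =>
    intro b e
    simp only [CP.code, CP.len, List.length_append, List.length_cons, ihP, ihQ]
    omega
  | whl c P ih =>
    intro b e
    simp only [CP.code, CP.len, List.length_cons, ih]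
    omega

/-- `a'` is reached from `a` with all registers at most `B` -/
def GR (G : List Ins) (x : List Bool) (B : ℕ) (a a' : ℕ × St) : Prop :=
  ∃ t, (gostep G x)^[t] a = a' ∧ ∀ s ≤ t, ∀ r, ((gostep G x)^[s] a).2.1 r ≤ B

theorem GR.refl {B : ℕ} {a : ℕ × St} (h : ∀ r, a.2.1 r ≤ B) : GR G x B a a := by
  refine ⟨0, rfl, ?_⟩
  intro s hs r
  have : s = 0 := by omega
  subst this
  exact h r

theorem GR.trans {B : ℕ} {a b c : ℕ × St} (h : GR G x B a b) (h' : GR G x B b c) :
    GR G x B a c := by
  obtain ⟨t, rfl, h2⟩ := h
  obtain ⟨t', rfl, h4⟩ := h'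
  refine ⟨t' + t, ?_, ?_⟩
  · rw [Function.iterate_add_apply]
  · intro s hs i
    rcases Nat.lt_or_ge t s with h5 | h5
    · obtain ⟨r, rfl⟩ : ∃ r, s = r + t := ⟨s - t, by omega⟩
      rw [Function.iterate_add_apply]
      exact h4 r (by omega) i
    · exact h2 s h5 i

theorem GR.step {B : ℕ} {a b : ℕ × St} (hs : gostep G x a = b) (ha : ∀ r, a.2.1 r ≤ B)
    (hb : ∀ r, b.2.1 r ≤ B) : GR G x B a b := by
  refine ⟨1, hs, ?_⟩
  intro s hs' r
  rcases Nat.lt_or_ge 0 s with h5 | h5
  · have : s = 1 := by omega
    subst this
    rw [Function.iterate_one, hs]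
    exact hb r
  · have : s = 0 := by omega
    subst this
    exact ha r

theorem GR.bd {B : ℕ} {a b : ℕ × St} (h : GR G x B a b) : ∀ r, b.2.1 r ≤ B := by
  obtain ⟨t, rfl, h2⟩ := h
  exact h2 t le_rfl

/-- **Correctness of the goto code.** -/
theorem code_correct {B : ℕ} {P : CP} {s s' : St} (h : Run B x P s s') :
    ∀ b e : ℕ, AtL G b (P.code b e) → (∀ r, s.1 r ≤ B) → GR G x B (b, s) (e, s') := by
  induction h with
  | skip s =>
    intro b e hA hs
    have h1 := hA.head
    exact GR.step (by unfold gostep; rw [h1]) hs hs
  | inc r s hr =>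
    intro b e hA hs
    have h1 := hA.head
    refine GR.step (by unfold gostep; rw [h1]) hs ?_
    intro r'
    by_cases h2 : r' = r
    · subst h2; simpa using hr
    · simpa [h2] using hs r'
  | dec r s =>
    intro b e hA hs
    have h1 := hA.head
    refine GR.step (by unfold gostep; rw [h1]) hs ?_
    intro r'
    by_cases h2 : r' = r
    · subst h2
      have := hs r'
      simp only [Function.update_self]
      omega
    · simpa [h2] using hs r'
  | mv d s =>
    intro b e hA hs
    have h1 := hA.head
    exact GR.step (by unfold gostep; rw [h1]) hs hs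
  | seq h1 h2 ih1 ih2 =>
    intro b e hA hs
    simp only [CP.code] at hA
    have k1 := ih1 _ _ hA.left hs
    have k2 := hA.right
    rw [length_code] at k2
    exact k1.trans (ih2 _ _ k2 k1.bd)
  | @iteT c P Q s₁ s₂ hc h1 ih =>
    intro b e hA hs
    simp only [CP.code] at hA
    have k0 := hA.head
    have k1 : GR G x B (b, s₁) (b + 1, s₁) :=
      GR.step (by unfold gostep; rw [k0]; simp only [if_pos hc]) hs hs
    exact k1.trans (ih _ _ hA.tail.left hs)
  | @iteF c P Q s₁ s₂ hc h1 ih =>
    intro b e hA hs
    simp only [CP.code] at hA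
    have k0 := hA.head
    have k1 : GR G x B (b, s₁) (b + 1 + P.len, s₁) :=
      GR.step (by unfold gostep; rw [k0]; simp only [if_neg hc]) hs hs
    have k2 := hA.tail.right
    rw [length_code] at k2
    exact k1.trans (ih _ _ k2 hs)
  | @whlF c P s hc =>
    intro b e hA hs
    simp only [CP.code] at hA
    have k0 := hA.head
    exact GR.step (by unfold gostep; rw [k0]; simp only [if_neg hc]) hs hs
  | @whlT c P s₁ s₂ s₃ hc h1 h2 ih1 ih2 =>
    intro b e hA hs
    have hA' := hA
    simp only [CP.code] at hA
    have k0 := hA.head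
    have k1 : GR G x B (b, s₁) (b + 1, s₁) :=
      GR.step (by unfold gostep; rw [k0]; simp only [if_pos hc]) hs hs
    have k2 := ih1 _ _ hA.tail hs
    exact (k1.trans k2).trans (ih2 _ _ hA' k2.bd)

/-- registers of the code -/
theorem code_lt {m : ℕ} {P : CP} (hP : P.lt m) : ∀ b e : ℕ, ∀ I ∈ P.code b e, Ins.lt m I := by
  induction P with
  | skip =>
    intro b e I hI
    simp only [CP.code, List.mem_singleton] at hI
    subst hI
    trivial
  | inc r =>
    intro b e I hI
    simp only [CP.code, List.mem_singleton] at hI
    subst hI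
    exact hP
  | dec r =>
    intro b e I hI
    simp only [CP.code, List.mem_singleton] at hI
    subst hI
    exact hP
  | mv d =>
    intro b e I hI
    simp only [CP.code, List.mem_singleton] at hI
    subst hI
    trivial
  | seq P Q ihP ihQ =>
    intro b e I hI
    simp only [CP.code, List.mem_append] at hI
    rcases hI with hI | hI
    · exact ihP hP.1 _ _ _ hI
    · exact ihQ hP.2 _ _ _ hI
  | ite c P Q ihP ihQ =>
    intro b e I hI
    simp only [CP.code, List.mem_cons, List.mem_append] at hI
    rcases hI with rfl | hI | hI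
    · have := hP.1
      cases c with
      | reg r => exact this
      | sym c => trivial
    · exact ihP hP.2.1 _ _ _ hI
    · exact ihQ hP.2.2 _ _ _ hI
  | whl c P ih =>
    intro b e I hI
    simp only [CP.code, List.mem_cons] at hI
    rcases hI with rfl | hI
    · have := hP.1
      cases c with
      | reg r => exact this
      | sym c => trivial
    · exact ih hP.2 _ _ _ hI

end TMS

end Pool.Agent.Work.MP_71c844_lc.Arr
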