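import Pool.Agent.Work.MP_71c844_lc.Arr.Cat

/-!
# Interpolation of a function on `{0, …, Q-1}^(m K)` by a polynomial map over `ZMod p`

`gtp g` is the polynomial extension of `g : (Fin m → Fin K → Fin Q) → Fin K → Fin Q`.  If
`m K (Q - 1) < p - 1`, it satisfies the identity of the catalytic loop; `cat_lag` is the result for
a recursion with values in `{0, …, Q-1}^K`.
-/

set_option autoImplicit false

namespace Pool.Agent.Work.MP_71c844_lc.Arr

open Finset

variable {p : ℕ} [hpp : Fact p.Prime]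

/-- the Lagrange polynomial of the node `c` for the nodes `0, …, Q - 1` -/
noncomputable def lgp (p : ℕ) [Fact p.Prime] (Q c : ℕ) : Polynomial (ZMod p) :=
  ∏ c' ∈ (range Q).erase c,
    (Polynomial.C (((c : ZMod p) - (c' : ZMod p))⁻¹) * (Polynomial.X - Polynomial.C (c' : ZMod p)))

theorem natDegree_lgp (Q c : ℕ) (hc : c < Q) : (lgp p Q c).natDegree ≤ Q - 1 := by
  unfold lgp
  refine (Polynomial.natDegree_prod_le _ _).trans ?_
  have h1 : ∀ c' ∈ (range Q).erase c, (Polynomial.C (((c : ZMod p) - (c' : ZMod p))⁻¹) *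
      (Polynomial.X - Polynomial.C (c' : ZMod p))).natDegree ≤ 1 := by
    intro c' _
    refine (Polynomial.natDegree_C_mul_le _ _).trans ?_
    exact (Polynomial.natDegree_X_sub_C _).le
  refine (Finset.sum_le_sum h1).trans ?_
  rw [Finset.sum_const, Finset.card_erase_of_mem (mem_range.2 hc), card_range]
  simp

theorem cast_inj_lt {a b : ℕ} (ha : a < p) (hb : b < p) (h : (a : ZMod p) = (b : ZMod p)) :
    a = b := by
  have h3 := congrArg ZMod.val h
  rwa [ZMod.val_cast_of_lt ha, ZMod.val_cast_of_lt hb] at h3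

theorem eval_lgp (Q c a : ℕ) (hQ : Q ≤ p) (hc : c < Q) (ha : a < Q) :
    (lgp p Q c).eval (a : ZMod p) = if a = c then 1 else 0 := by
  unfold lgp
  rw [Polynomial.eval_prod]
  by_cases h : a = c
  · rw [if_pos h]
    subst h
    apply Finset.prod_eq_one
    intro c' hc'
    rw [mem_erase, mem_range] at hc'
    rw [Polynomial.eval_mul, Polynomial.eval_C, Polynomial.eval_sub, Polynomial.eval_X,
      Polynomial.eval_C]
    apply inv_mul_cancel₀
    rw [sub_ne_zero]
    intro h
    exact hc'.1 (cast_inj_lt (by omega) (by omega) h).symm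
  · rw [if_neg h]
    apply Finset.prod_eq_zero (mem_erase.2 ⟨h, mem_range.2 ha⟩)
    simp

section

variable {m K Q : ℕ}

/-- the embedding of `{0, …, Q-1}^K` -/
def emb (p : ℕ) (z : Fin K → Fin Q) : Fin K → ZMod p := fun l => ((z l : ℕ) : ZMod p)

/-- the polynomial extension of `g` -/
noncomputable def gtp (p : ℕ) [Fact p.Prime] (g : (Fin m → Fin K → Fin Q) → Fin K → Fin Q)
    (x : Fin m → Fin K → ZMod p) (j : Fin K) : ZMod p :=
  ∑ y : Fin m → Fin K → Fin Q, ((g y j : ℕ) : ZMod p) *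
    ∏ d : Fin m, ∏ l : Fin K, (lgp p Q (y d l)).eval (x d l)

theorem gtp_emb (hQ : Q ≤ p) (g : (Fin m → Fin K → Fin Q) → Fin K → Fin Q)
    (z : Fin m → Fin K → Fin Q) : gtp p g (fun d => emb p (z d)) = emb p (g z) := by
  funext j
  unfold gtp
  rw [Finset.sum_eq_single z]
  · have h1 : ∏ d : Fin m, ∏ l : Fin K, (lgp p Q (z d l)).eval (emb p (z d) l) = 1 := by
      apply Finset.prod_eq_one
      intro d _
      apply Finset.prod_eq_one
      intro l _
      unfold emb
      rw [eval_lgp Q _ _ hQ (z d l).2 (z d l).2, if_pos rfl]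
    rw [h1, mul_one]
    rfl
  · intro y _ hy
    have h1 : ∃ d l, y d l ≠ z d l := by
      by_contra hcon
      push Not at hcon
      exact hy (funext fun d => funext fun l => hcon d l)
    obtain ⟨d, l, hdl⟩ := h1
    have h2 : ∏ d : Fin m, ∏ l : Fin K, (lgp p Q (y d l)).eval (emb p (z d) l) = 0 := by
      apply Finset.prod_eq_zero (mem_univ d)
      apply Finset.prod_eq_zero (mem_univ l)
      unfold emb
      rw [eval_lgp Q _ _ hQ (y d l).2 (z d l).2, if_neg]
      intro h
      exact hdl (Fin.ext h.symm)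
    rw [h2, mul_zero]
  · intro h
    exact (h (mem_univ _)).elim

theorem gtp_id (hdeg : m * K * (Q - 1) < p - 1) (g : (Fin m → Fin K → Fin Q) → Fin K → Fin Q)
    (τ x : Fin m → Fin K → ZMod p) :
    ∑ ν ∈ Ico 1 p, gtp p g (fun d => ((ν : ZMod p))⁻¹ • τ d + x d) = - gtp p g x := by
  refine cat_prod (p := p) (Finset.univ : Finset (Fin m → Fin K → Fin Q))
    (fun y j => ((g y j : ℕ) : ZMod p)) (fun y d l => lgp p Q (y d l)) ?_ τ x
  intro y _
  refine lt_of_le_of_lt ?_ hdeg
  calc ∑ d : Fin m, ∑ l : Fin K, (lgp p Q (y d l)).natDegree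
      ≤ ∑ _d : Fin m, ∑ _l : Fin K, (Q - 1) :=
        Finset.sum_le_sum fun d _ => Finset.sum_le_sum fun l _ => natDegree_lgp Q _ (y d l).2
    _ = m * K * (Q - 1) := by simp [mul_assoc]

/-- **The catalytic loop for a recursion with values in `{0, …, Q-1}^K`.** -/
theorem cat_lag {I : Type*} [AddCommMonoid I] (hm : 0 < m) (hQ : Q ≤ p)
    (hdeg : m * K * (Q - 1) < p - 1) (g : (Fin m → Fin K → Fin Q) → Fin K → Fin Q)
    (off : ℕ → I) (T : ℕ → I → Fin K → Fin Q)
    (hT : ∀ a i, T (a + 1) i = g (fun k => T a (i + off k.1))) (i₀ : I) (h : ℕ)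
    (c : ℕ → ℕ → Fin K → ZMod p) :
    loopA m p (gtp p g) (fun i => emb p (T 0 i)) off i₀ h ((m * p) ^ h) c =
      addAt c (h % 2) 0 (emb p (T h i₀)) := by
  refine cat_add m p hm (gtp p g) (gtp_id hdeg g) off (fun a i => emb p (T a i)) ?_ i₀ h c
  intro a i
  rw [gtp_emb hQ, hT]

end

end Pool.Agent.Work.MP_71c844_lc.Arr
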