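/-
Block ARR (problem MP_71c844_lc), item N2: the catalytic loop on numbers belongs to the class.
-/
import Pool.Agent.Work.MP_71c844_lc.Arr.StmtsL

namespace Pool.Agent.Work.MP_71c844_lc.Arr

open Finset

namespace N2

theorem div_pow_mul (N m k : ℕ) : N / m ^ k * m ^ k = N / m ^ k * pc (N + 1) m k := by
  unfold pc
  rcases le_or_gt (m ^ k) (N + 1) with h | h
  · rw [min_eq_left h]
  · rw [Nat.div_eq_of_lt (by omega), Nat.zero_mul, Nat.zero_mul]

variable {ι Γ : Type} {co : ι → Γ → ℕ}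

theorem vl_ls (R : LSRules) {m h N : List Bool → Γ → ℕ} (hm : LSC co m) (hh : LSC co h)
    (hN : LSC co N) : LSC co (fun x γ => vl (m x γ) (h x γ) (N x γ)) := by
  have hm' : LSC (ext co) (fun x γ => m x γ.1) := hm.weak
  have hN' : LSC (ext co) (fun x γ => N x γ.1) := hN.weak
  have hl : LSC (ext co) (fun _ γ => γ.2 + 1) := R.add LSC.last (LSC.const 1)
  have hN1 : LSC (ext co) (fun x γ => N x γ.1 + 1) := R.add hN' (LSC.const 1)
  have h1 : LSC (ext co) (fun x γ => N x γ.1 / m x γ.1 ^ (γ.2 + 1)) := R.divpow hN' hm' hl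
  have h2 : LSC (ext co) (fun x γ => pc (N x γ.1 + 1) (m x γ.1) (γ.2 + 1)) :=
    R.pc hN1 hm' hl
  have h3 : LSC (ext co) (fun x γ => N x γ.1 / m x γ.1 ^ (γ.2 + 1) *
    pc (N x γ.1 + 1) (m x γ.1) (γ.2 + 1)) := R.mul h1 h2
  have h4 : LSP (ext co) (fun x γ => N x γ.1 / m x γ.1 ^ (γ.2 + 1) *
    pc (N x γ.1 + 1) (m x γ.1) (γ.2 + 1) = N x γ.1) := R.eq h3 hN'
  have h5 : LSC (ext co) (fun x γ => if N x γ.1 / m x γ.1 ^ (γ.2 + 1) *
    pc (N x γ.1 + 1) (m x γ.1) (γ.2 + 1) = N x γ.1 then 1 else 0) :=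
    R.ite h4 (LSC.const 1) (LSC.const 0)
  have h6 := R.sum (n := h) (F := fun x γ l => if N x γ / m x γ ^ (l + 1) *
    pc (N x γ + 1) (m x γ) (l + 1) = N x γ then 1 else 0) hh h5
  refine h6.congr fun x γ => ?_
  unfold vl
  refine Finset.sum_congr rfl fun l _ => ?_
  rw [div_pow_mul]

theorem leafS_ls (R : LSRules) {M D Q K p lf N S : List Bool → Γ → ℕ} (hM : LSC co M)
    (hD : LSC co D) (hQ : LSC co Q) (hK : LSC co K) (hp : LSC co p) (hlf : LSC co lf)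
    (hN : LSC co N) (hS : LSC co S) :
    LSC co (fun x γ => leafS (M x γ) (D x γ) (Q x γ) (K x γ) (p x γ) (lf x γ) (N x γ)
      (S x γ)) := by
  have hn : LSC co (fun x γ => 2 * D x γ * K x γ) := R.mul (R.mul (LSC.const 2) hD) hK
  have hi : LSC (ext co) (fun (_ : List Bool) γ => γ.2) := LSC.last
  have hK' : LSC (ext co) (fun x γ => K x γ.1) := hK.weak
  have hp' : LSC (ext co) (fun x γ => p x γ.1) := hp.weak
  have hND : LSC (ext co) (fun x γ => N x γ.1 % D x γ.1) := R.mod hN.weak hD.weak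
  have h1 : LSC (ext co) (fun x γ => dg (p x γ.1) γ.2 (S x γ.1)) := R.dg hp' hi hS.weak
  have h2 : LSC (ext co) (fun x γ => dg (Q x γ.1) (γ.2 % K x γ.1) (lf x γ.1)) :=
    R.dg hQ.weak (R.mod hi hK') hlf.weak
  have h3 : LSP (ext co) (fun x γ => γ.2 / K x γ.1 = N x γ.1 % D x γ.1) :=
    R.eq (R.div hi hK') hND
  have h4 : LSC (ext co) (fun x γ => if γ.2 / K x γ.1 = N x γ.1 % D x γ.1 then
      dg (Q x γ.1) (γ.2 % K x γ.1) (lf x γ.1) else 0) := R.ite h3 h2 (LSC.const 0)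
  have h5 : LSC (ext co) (fun x γ => (dg (p x γ.1) γ.2 (S x γ.1) +
      if γ.2 / K x γ.1 = N x γ.1 % D x γ.1 then
        dg (Q x γ.1) (γ.2 % K x γ.1) (lf x γ.1) else 0) % p x γ.1) :=
    R.mod (R.add h1 h4) hp'
  exact R.ofM (F := fun x γ i => (dg (p x γ) i (S x γ) +
      if i / K x γ = N x γ % D x γ then
        dg (Q x γ) (i % K x γ) (lf x γ) else 0) % p x γ) hM hp hn h5

theorem iv_ls (R : LSRules) {p z : List Bool → Γ → ℕ} (hp : LSC co p) (hz : LSC co z) :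
    LSC co (fun x γ => iv (p x γ) (z x γ)) := by
  exact R.pm (F := fun x γ _ => z x γ) hp (R.sub hp (LSC.const 2)) hz.weak

theorem popS_ls (R : LSRules) (H : S_N1) {M D Q K p N v u S : List Bool → Γ → ℕ}
    {G : List Bool → Γ → ℕ → ℕ} (hM : LSC co M)
    (hD : LSC co D) (hQ : LSC co Q) (hK : LSC co K) (hp : LSC co p)
    (hG : LSC (ext co) (fun x γ => G x γ.1 γ.2))
    (hN : LSC co N) (hv : LSC co v) (hu : LSC co u) (hS : LSC co S) :
    LSC co (fun x γ => popS (M x γ) (D x γ) (Q x γ) (K x γ) (p x γ) (G x γ) (N x γ) (v x γ)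
      (u x γ) (S x γ)) := by
  have hn : LSC co (fun x γ => 2 * D x γ * K x γ) := R.mul (R.mul (LSC.const 2) hD) hK
  have hi : LSC (ext co) (fun (_ : List Bool) γ => γ.2) := LSC.last
  have hK' : LSC (ext co) (fun x γ => K x γ.1) := hK.weak
  have hD' : LSC (ext co) (fun x γ => D x γ.1) := hD.weak
  have hp' : LSC (ext co) (fun x γ => p x γ.1) := hp.weak
  have hu' : LSC (ext co) (fun x γ => u x γ.1) := hu.weak
  have hv' : LSC (ext co) (fun x γ => v x γ.1) := hv.weak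
  have hz0 : LSC (ext co) (fun x γ => iv (p x γ.1) (u x γ.1 / D x γ.1 % p x γ.1)) :=
    iv_ls R hp' (R.mod (R.div hu' hD') hp')
  have hoff : LSC (ext co) (fun x γ => v x γ.1 % 2 * D x γ.1 * K x γ.1) :=
    R.mul (R.mul (R.mod hv' (LSC.const 2)) hD') hK'
  have hz : LSC (ext (ext co)) (fun x γ =>
      iv (p x γ.1.1) (u x γ.1.1 / D x γ.1.1 % p x γ.1.1) *
        dg (p x γ.1.1) (v x γ.1.1 % 2 * D x γ.1.1 * K x γ.1.1 + γ.2) (S x γ.1.1)) :=
    R.mul hz0.weak (R.dg hp'.weak (R.add hoff.weak LSC.last) hS.weak.weak)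
  have hG' : LSC (ext (ext co)) (fun x γ => G x γ.1.1 γ.2) := R.weakU hG
  have hg := H R (ext co) (fun x γ => M x γ.1) (fun x γ => Q x γ.1)
    (fun x γ => D x γ.1 * K x γ.1) (fun x γ => p x γ.1) (fun x γ => γ.2 % K x γ.1)
    (fun x γ => G x γ.1)
    (fun x γ j => iv (p x γ.1) (u x γ.1 / D x γ.1 % p x γ.1) *
      dg (p x γ.1) (v x γ.1 % 2 * D x γ.1 * K x γ.1 + j) (S x γ.1))
    hM.weak hQ.weak (R.mul hD' hK') hp' (R.mod hi hK') hG' hz
  have h1 : LSC (ext co) (fun x γ => dg (p x γ.1) γ.2 (S x γ.1)) := R.dg hp' hi hS.weak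
  have hr : LSC (ext co) (fun x γ => (v x γ.1 + 1) % 2 * D x γ.1 +
      u x γ.1 / (D x γ.1 * p x γ.1) % D x γ.1) :=
    R.add (R.mul (R.mod (R.add hv' (LSC.const 1)) (LSC.const 2)) hD')
      (R.mod (R.div hu' (R.mul hD' hp')) hD')
  have h3 : LSP (ext co) (fun x γ => γ.2 / K x γ.1 = (v x γ.1 + 1) % 2 * D x γ.1 +
      u x γ.1 / (D x γ.1 * p x γ.1) % D x γ.1) := R.eq (R.div hi hK') hr
  have h4 := R.ite h3 (R.sub hp' hg) (LSC.const 0)
  have h5 := R.mod (R.add h1 h4) hp'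
  have h6 := R.ofM (F := fun x γ i => (dg (p x γ) i (S x γ) +
      if i / K x γ = (v x γ + 1) % 2 * D x γ + u x γ / (D x γ * p x γ) % D x γ then
        p x γ - gtN (M x γ) (Q x γ) (D x γ * K x γ) (p x γ) (G x γ)
          (fun j => iv (p x γ) (u x γ / D x γ % p x γ) *
            dg (p x γ) (v x γ % 2 * D x γ * K x γ + j) (S x γ)) (i % K x γ)
      else 0) % p x γ) hM hp hn h5
  have h7 : LSP co (fun x γ => N x γ ≠ 0 ∧ u x γ % D x γ = 0) :=
    R.and (R.not (R.eq hN (LSC.const 0))) (R.eq (R.mod hu hD) (LSC.const 0))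
  exact R.ite h7 h6 hS

theorem stS_ls (R : LSRules) (H : S_N1) {M D Q K p h lf N S : List Bool → Γ → ℕ}
    {G : List Bool → Γ → ℕ → ℕ} (hM : LSC co M)
    (hD : LSC co D) (hQ : LSC co Q) (hK : LSC co K) (hp : LSC co p) (hh : LSC co h)
    (hG : LSC (ext co) (fun x γ => G x γ.1 γ.2)) (hlf : LSC co lf)
    (hN : LSC co N) (hS : LSC co S) :
    LSC co (fun x γ => leafS (M x γ) (D x γ) (Q x γ) (K x γ) (p x γ) (lf x γ) (N x γ)
      (popS (M x γ) (D x γ) (Q x γ) (K x γ) (p x γ) (G x γ) (N x γ)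
        (vl (D x γ * p x γ) (h x γ) (N x γ))
        (N x γ / (D x γ * p x γ) ^ vl (D x γ * p x γ) (h x γ) (N x γ)) (S x γ))) := by
  have hm : LSC co (fun x γ => D x γ * p x γ) := R.mul hD hp
  have hv := vl_ls R hm hh hN
  have hu := R.divpow hN hm hv
  exact leafS_ls R hM hD hQ hK hp hlf hN (popS_ls R H hM hD hQ hK hp hG hN hv hu hS)

end N2

open N2 in
/-- **N2.** -/
theorem prf_N2 : S_N2 := by
  intro R H ι Γ co M D Q K p h n G lf hM hD hQ hK hp hh hn hG hlf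
  have hG' : LSC (ext (ext (ext co))) (fun x γ => G x γ.1.1.1 γ.2) :=
    R.weakU (f := fun x (γ : Γ × ℕ) w => G x γ.1 w) (R.weakU hG)
  have hlf' : LSC (ext (ext co)) (fun x γ => lf x γ.1.1 γ.1.2) :=
    LSC.weak (co := ext co) (f := fun x γ => lf x γ.1 γ.2) hlf
  have hN' : LSC (ext (ext co)) (fun (_ : List Bool) γ => γ.1.2) :=
    LSC.weak (co := ext co) (f := fun _ γ => γ.2) LSC.last
  have hst := stS_ls (co := ext (ext co)) R H (M := fun x γ => M x γ.1.1)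
    (D := fun x γ => D x γ.1.1) (Q := fun x γ => Q x γ.1.1) (K := fun x γ => K x γ.1.1)
    (p := fun x γ => p x γ.1.1) (h := fun x γ => h x γ.1.1)
    (lf := fun x γ => lf x γ.1.1 γ.1.2) (N := fun _ γ => γ.1.2) (S := fun _ γ => γ.2)
    (G := fun x γ => G x γ.1.1)
    hM.weak.weak hD.weak.weak hQ.weak.weak hK.weak.weak hp.weak.weak hh.weak.weak hG' hlf'
    hN' LSC.last
  exact R.rcM (F := fun x γ N S => stS (M x γ) (D x γ) (Q x γ) (K x γ) (p x γ) (h x γ) (G x γ)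
    (lf x γ) N S) hM (LSC.const 0) hn hst

end Pool.Agent.Work.MP_71c844_lc.Arr
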