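import Pool.Agent.Work.MP_71c844_lc.Arr.GotoCP
import Pool.Agent.Work.MP_71c844_lc.Arr.LS

/-!
# Loop programs as counter programs, and the search theorem
-/

set_option autoImplicit false

namespace Pool.Agent.Work.MP_71c844_lc.Arr

namespace TMS


/-! ### Registers of a loop program -/

/-- all registers of the program are smaller than `m` -/
def Plt (m : ℕ) : Prog → Prop
  | .skip => True
  | .inc r => r < m
  | .dec r => r < m
  | .inp r s => r < m ∧ s < m
  | .seq P Q => Plt m P ∧ Plt m Q
  | .loop r P => r < m ∧ Plt m P

theorem Plt.mono {m m' : ℕ} (h : m ≤ m') : ∀ {P : Prog}, Plt m P → Plt m' P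
  | .skip, _ => trivial
  | .inc _, hP => lt_of_lt_of_le hP h
  | .dec _, hP => lt_of_lt_of_le hP h
  | .inp _ _, hP => ⟨lt_of_lt_of_le hP.1 h, lt_of_lt_of_le hP.2 h⟩
  | .seq _ _, hP => ⟨Plt.mono h hP.1, Plt.mono h hP.2⟩
  | .loop _ _, hP => ⟨lt_of_lt_of_le hP.1 h, Plt.mono h hP.2⟩

theorem exists_Plt : ∀ P : Prog, ∃ m, Plt m P
  | .skip => ⟨0, trivial⟩
  | .inc r => ⟨r + 1, Nat.lt_succ_self r⟩
  | .dec r => ⟨r + 1, Nat.lt_succ_self r⟩
  | .inp r s => ⟨r + s + 1, by simp only [Plt]; omega⟩
  | .seq P Q => by
    obtain ⟨m, hm⟩ := exists_Plt P
    obtain ⟨m', hm'⟩ := exists_Plt Q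
    exact ⟨m + m', hm.mono (by omega), hm'.mono (by omega)⟩
  | .loop r P => by
    obtain ⟨m, hm⟩ := exists_Plt P
    exact ⟨r + 1 + m, by omega, hm.mono (by omega)⟩

/-- other registers do not matter -/
theorem run_update {m h k : ℕ} (hmh : m ≤ h) (x : List Bool) : ∀ {P : Prog}, Plt m P →
    ∀ σ : Reg, run P x (Function.update σ h k) = Function.update (run P x σ) h k
  | .skip, _, σ => rfl
  | .inc r, hP, σ => by
    have hr : r ≠ h := by have : r < m := hP; omega
    simp only [run, Function.update_of_ne hr]
    rw [Function.update_comm hr.symm]
  | .dec r, hP, σ => by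
    have hr : r ≠ h := by have : r < m := hP; omega
    simp only [run, Function.update_of_ne hr]
    rw [Function.update_comm hr.symm]
  | .inp r s, hP, σ => by
    have hr : r ≠ h := by have : r < m := hP.1; omega
    have hs : s ≠ h := by have : s < m := hP.2; omega
    simp only [run, Function.update_of_ne hr, Function.update_of_ne hs]
    rw [Function.update_comm hs.symm]
  | .seq P Q, hP, σ => by
    simp only [run]
    rw [run_update hmh x hP.1, run_update hmh x hP.2]
  | .loop r P, hP, σ => by
    have hr : r ≠ h := by have : r < m := hP.1; omega
    simp only [run, Function.update_of_ne hr]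
    have key : ∀ n (σ : Reg), (run P x)^[n] (Function.update σ h k) =
        Function.update ((run P x)^[n] σ) h k := by
      intro n
      induction n with
      | zero => intro σ; rfl
      | succ n ih =>
        intro σ
        rw [Function.iterate_succ_apply, Function.iterate_succ_apply, run_update hmh x hP.2, ih]
    exact key _ _

theorem iter_update {m h k : ℕ} (hmh : m ≤ h) (x : List Bool) {P : Prog} (hP : Plt m P) (n : ℕ)
    (σ : Reg) : (run P x)^[n] (Function.update σ h k) =
      Function.update ((run P x)^[n] σ) h k := by
  induction n generalizing σ with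
  | zero => rfl
  | succ n ih =>
    rw [Function.iterate_succ_apply, Function.iterate_succ_apply, run_update hmh x hP, ih]

theorem Bd_update {m h k B : ℕ} (hmh : m ≤ h) (x : List Bool) : ∀ {P : Prog}, Plt m P →
    ∀ σ : Reg, Bd B P x σ → Bd B P x (Function.update σ h k)
  | .skip, _, σ, _ => trivial
  | .inc r, hP, σ, hb => by
    have hr : r ≠ h := by have : r < m := hP; omega
    simpa only [Bd, Function.update_of_ne hr] using hb
  | .dec r, hP, σ, hb => by
    have hr : r ≠ h := by have : r < m := hP; omega
    simpa only [Bd, Function.update_of_ne hr] using hb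
  | .inp r s, hP, σ, hb => by
    have hr : r ≠ h := by have : r < m := hP.1; omega
    have hs : s ≠ h := by have : s < m := hP.2; omega
    simpa only [Bd, Function.update_of_ne hr, Function.update_of_ne hs] using hb
  | .seq P Q, hP, σ, hb => by
    refine ⟨Bd_update hmh x hP.1 _ hb.1, ?_⟩
    rw [run_update hmh x hP.1]
    exact Bd_update hmh x hP.2 _ hb.2
  | .loop r P, hP, σ, hb => by
    have hr : r ≠ h := by have : r < m := hP.1; omega
    simp only [Bd, Function.update_of_ne hr]
    refine ⟨hb.1, fun j hj => ?_⟩
    rw [iter_update hmh x hP.2]
    exact Bd_update hmh x hP.2 _ (hb.2 j hj)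

/-- registers from `m` on are not changed -/
theorem run_ge {m : ℕ} (x : List Bool) {P : Prog} (hP : Plt m P) (σ : Reg) {j : ℕ} (hj : m ≤ j) :
    run P x σ j = σ j := by
  have h1 := run_update (k := σ j) hj x hP σ
  rw [Function.update_eq_self] at h1
  rw [h1, Function.update_self]

theorem iter_ge {m : ℕ} (x : List Bool) {P : Prog} (hP : Plt m P) (n : ℕ) (σ : Reg) {j : ℕ}
    (hj : m ≤ j) : (run P x)^[n] σ j = σ j := by
  induction n generalizing σ with
  | zero => rfl
  | succ n ih => rw [Function.iterate_succ_apply, ih, run_ge x hP σ hj]

/-! ### Moving a register -/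

/-- `r := 0`, `a += r`, `b += r`, and the instruction `c` each time -/
def mvp (r : ℕ) (body : CP) : CP := .whl (.reg r) (.seq (.dec r) body)

/-- copy `r` to `h` (which is zero) with the help of `h + 1` -/
def cpy (r h : ℕ) : CP :=
  .seq (mvp r (.seq (.inc h) (.inc (h + 1)))) (mvp (h + 1) (.inc r))

theorem Run_cpy {B : ℕ} {x : List Bool} {r h : ℕ} (hr : r < h) (σ : Reg) (pos : ℕ)
    (hB : σ r ≤ B) (h0 : σ h = 0) (h1 : σ (h + 1) = 0) :
    Run B x (cpy r h) (σ, pos) (Function.update σ h (σ r), pos) := by
  have hrh : r ≠ h := by omega
  have hrh1 : r ≠ h + 1 := by omega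
  have hhh : h ≠ h + 1 := by omega
  set v := σ r with hv
  -- first loop
  have step1 : Run B x (mvp r (.seq (.inc h) (.inc (h + 1)))) (σ, pos)
      (Function.update (Function.update (Function.update σ r 0) h v) (h + 1) v, pos) := by
    have key : ∀ n, n ≤ v → Run B x (mvp r (.seq (.inc h) (.inc (h + 1))))
        (Function.update (Function.update (Function.update σ r n) h (v - n)) (h + 1) (v - n), pos)
        (Function.update (Function.update (Function.update σ r 0) h v) (h + 1) v, pos) := by
      intro n
      induction n with
      | zero =>
        intro _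
        apply Run.whlF
        simp [Tst.ok, hrh, hrh1]
      | succ n ih =>
        intro hn
        refine Run.whlT ?_ (Run.seq (Run.dec _ _) (Run.seq (Run.inc _ _ ?_) (Run.inc _ _ ?_))) ?_
        · simp [Tst.ok, hrh, hrh1]
        · simp [hrh.symm, hhh]
          omega
        · simp [hrh1.symm, hhh.symm]
          omega
        · have e : (Function.update (Function.update (Function.update (Function.update
              (Function.update (Function.update σ r (n + 1)) h (v - (n + 1))) (h + 1)
              (v - (n + 1))) r n) h (v - n)) (h + 1) (v - n) : Reg) =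
              Function.update (Function.update (Function.update σ r n) h (v - n)) (h + 1)
                (v - n) := by
            funext j
            by_cases j1 : j = h + 1
            · subst j1; simp
            · by_cases j2 : j = h
              · subst j2; simp [hhh]
              · by_cases j3 : j = r
                · subst j3; simp [j1, j2]
                · simp [j1, j2, j3]
          have e1 : v - (n + 1) + 1 = v - n := by omega
          simp only [Function.update_self, Function.update_of_ne hrh, Function.update_of_ne hrh1,
            Function.update_of_ne hrh.symm, Function.update_of_ne hhh,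
            Function.update_of_ne hrh1.symm, Function.update_of_ne hhh.symm, Nat.add_sub_cancel, e1]
          rw [e]
          exact ih (by omega)
    have h2 := key v le_rfl
    have e : Function.update (Function.update (Function.update σ r v) h (v - v)) (h + 1) (v - v) =
        σ := by
      rw [Nat.sub_self, hv, Function.update_eq_self]
      funext j
      by_cases j1 : j = h + 1
      · subst j1; simp [h1]
      · by_cases j2 : j = h
        · subst j2; simp [hhh, h0]
        · simp [j1, j2]
    rw [e] at h2
    exact h2
  -- second loop
  have step2 : Run B x (mvp (h + 1) (.inc r))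
      (Function.update (Function.update (Function.update σ r 0) h v) (h + 1) v, pos)
      (Function.update σ h v, pos) := by
    have key : ∀ n, n ≤ v → Run B x (mvp (h + 1) (.inc r))
        (Function.update (Function.update (Function.update σ r (v - n)) h v) (h + 1) n, pos)
        (Function.update σ h v, pos) := by
      intro n
      induction n with
      | zero =>
        intro _
        have e : Function.update (Function.update (Function.update σ r (v - 0)) h v) (h + 1) 0 =
            Function.update σ h v := by
          rw [Nat.sub_zero, hv, Function.update_eq_self]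
          funext j
          by_cases j1 : j = h + 1
          · subst j1; simp [h1]
          · simp [j1]
        rw [e]
        apply Run.whlF
        simp [Tst.ok, h1]
      | succ n ih =>
        intro hn
        refine Run.whlT ?_ (Run.seq (Run.dec _ _) (Run.inc _ _ ?_)) ?_
        · simp [Tst.ok]
        · simp [hrh, hrh1]
          omega
        · have e : (Function.update (Function.update (Function.update (Function.update
              (Function.update σ r (v - (n + 1))) h v) (h + 1) (n + 1)) (h + 1) n) r
              (v - n) : Reg) =
              Function.update (Function.update (Function.update σ r (v - n)) h v) (h + 1) n := by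
            funext j
            by_cases j1 : j = h + 1
            · subst j1; simp [hrh1.symm]
            · by_cases j2 : j = h
              · subst j2; simp [hhh, hrh.symm]
              · by_cases j3 : j = r
                · subst j3; simp [j1, j2]
                · simp [j1, j2, j3]
          have e1 : v - (n + 1) + 1 = v - n := by omega
          simp only [Function.update_self, Function.update_of_ne hrh, Function.update_of_ne hrh1,
            Nat.add_sub_cancel, e1]
          rw [e]
          exact ih (by omega)
    have h2 := key v le_rfl
    rw [Nat.sub_self] at h2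
    exact h2
  exact Run.seq step1 step2

/-- add `h` to `r` -/
theorem Run_back {B : ℕ} {x : List Bool} {r h : ℕ} (hrh : r ≠ h) (pos n : ℕ) :
    ∀ w : Reg, w r + n ≤ B →
    Run B x (mvp h (.inc r)) (Function.update w h n, pos)
      (Function.update (Function.update w r (w r + n)) h 0, pos) := by
  induction n with
  | zero =>
    intro w _
    rw [add_zero, Function.update_eq_self]
    apply Run.whlF
    simp [Tst.ok]
  | succ n ih =>
    intro w hw
    refine Run.whlT ?_ (Run.seq (Run.dec _ _) (Run.inc _ _ ?_)) ?_
    · simp [Tst.ok]
    · simp [hrh]
      omega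
    · have h2 := ih (Function.update w r (w r + 1)) (by simp; omega)
      have e1 : Function.update (Function.update w r (w r + 1)) r
          ((Function.update w r (w r + 1)) r + n) = Function.update w r (w r + (n + 1)) := by
        simp; congr 1; omega
      rw [e1] at h2
      have e2 : (Function.update (Function.update (Function.update w h (n + 1)) h n) r (w r + 1) :
          Reg) = Function.update (Function.update w r (w r + 1)) h n := by
        rw [Function.update_idem, Function.update_comm hrh]
      simp only [Function.update_self, Nat.add_sub_cancel, Function.update_of_ne hrh]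
      rw [e2]
      exact h2

/-! ### The input instruction -/

/-- right end marker -/
def isR : InSym → Bool
  | .rend => true
  | _ => false

/-- letter `1` -/
def isT : InSym → Bool
  | .bit true => true
  | _ => false

/-- not the left end marker -/
def notL : InSym → Bool
  | .lend => false
  | _ => true

/-- the program for `inp r s` with the hidden register `h` -/
def inpC (h r s : ℕ) : CP :=
  .seq (.whl (.reg r) (.seq (.dec r) (.seq (.inc h) (.mv .right))))
    (.seq (.mv .right)
      (.seq (.ite (.sym isR) (.seq (.inc s) (.inc s)) (.ite (.sym isT) (.inc s) .skip))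
        (.seq (.whl (.sym notL) (.mv .left)) (mvp h (.inc r)))))

theorem inSym_pos {x : List Bool} {v : ℕ} :
    inSym x (min (v + 1) (x.length + 1)) = match x[v]? with
      | none => .rend
      | some b => .bit b := by
  unfold inSym
  rw [if_neg (by omega)]
  rcases Nat.lt_or_ge v x.length with h | h
  · have e : min (v + 1) (x.length + 1) - 1 = v := by omega
    rw [e, List.getElem?_eq_getElem h]
  · have e : min (v + 1) (x.length + 1) - 1 = x.length := by omega
    rw [e, List.getElem?_eq_none h, List.getElem?_eq_none le_rfl]

theorem Run_left {B : ℕ} {x : List Bool} (w : Reg) (pos : ℕ) :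
    Run B x (.whl (.sym notL) (.mv .left)) (w, pos) (w, 0) := by
  induction pos with
  | zero =>
    apply Run.whlF
    simp [Tst.ok, inSym, notL]
  | succ n ih =>
    refine Run.whlT ?_ (Run.mv _ _) ?_
    · simp only [Tst.ok, inSym]
      rw [if_neg (by omega)]
      cases x[n + 1 - 1]? <;> rfl
    · exact ih

theorem Run_inpC {B : ℕ} {x : List Bool} {h r s : ℕ} (hr : r < h) (hs : s < h) (σ : Reg)
    (hB : σ r ≤ B) (hB' : σ s + 2 ≤ B) (h0 : σ h = 0) :
    Run B x (inpC h r s) (σ, 0) (Function.update σ s (σ s + inpv x (σ r)), 0) := by
  have hrh : r ≠ h := by omega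
  have hsh : s ≠ h := by omega
  set v := σ r with hv
  -- first loop
  have step1 : Run B x (.whl (.reg r) (.seq (.dec r) (.seq (.inc h) (.mv .right)))) (σ, 0)
      (Function.update (Function.update σ r 0) h v, min v (x.length + 1)) := by
    have key : ∀ n, n ≤ v → Run B x (.whl (.reg r) (.seq (.dec r) (.seq (.inc h) (.mv .right))))
        (Function.update (Function.update σ r n) h (v - n), min (v - n) (x.length + 1))
        (Function.update (Function.update σ r 0) h v, min v (x.length + 1)) := by
      intro n
      induction n with
      | zero =>
        intro _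
        apply Run.whlF
        simp [Tst.ok, hrh]
      | succ n ih =>
        intro hn
        refine Run.whlT ?_ (Run.seq (Run.dec _ _) (Run.seq (Run.inc _ _ ?_) (Run.mv _ _))) ?_
        · simp [Tst.ok, hrh]
        · simp [hrh.symm]
          omega
        · have e : (Function.update (Function.update (Function.update (Function.update σ r (n + 1)) h
              (v - (n + 1))) r n) h (v - n) : Reg) =
              Function.update (Function.update σ r n) h (v - n) := by
            funext j
            by_cases j2 : j = h
            · subst j2; simp
            · by_cases j3 : j = r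
              · subst j3; simp [j2]
              · simp [j2, j3]
          have e1 : v - (n + 1) + 1 = v - n := by omega
          have e2 : inMove x (min (v - (n + 1)) (x.length + 1)) .right =
              min (v - n) (x.length + 1) := by
            simp only [inMove]
            omega
          simp only [Function.update_self, Function.update_of_ne hrh,
            Function.update_of_ne hrh.symm, Nat.add_sub_cancel, e1, e2]
          rw [e]
          exact ih (by omega)
    have h2 := key v le_rfl
    have e : Function.update (Function.update σ r v) h (v - v) = σ := by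
      rw [Nat.sub_self, hv, Function.update_eq_self, ← h0, Function.update_eq_self]
    rw [e, Nat.sub_self] at h2
    exact h2
  set A : Reg := Function.update (Function.update σ r 0) h v with hA
  have hAs : A s + 2 ≤ B := by
    rw [hA, Function.update_of_ne hsh]
    by_cases hrs : s = r
    · subst hrs; simp; omega
    · rw [Function.update_of_ne hrs]; exact hB'
  have step2 : Run B x (.mv .right) (A, min v (x.length + 1))
      (A, min (v + 1) (x.length + 1)) := by
    have := Run.mv (B := B) (w := x) .right (A, min v (x.length + 1))
    have e : inMove x (min v (x.length + 1)) .right = min (v + 1) (x.length + 1) := by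
      simp only [inMove]; omega
    simp only [e] at this
    exact this
  have step3 : Run B x (.ite (.sym isR) (.seq (.inc s) (.inc s)) (.ite (.sym isT) (.inc s) .skip))
      (A, min (v + 1) (x.length + 1))
      (Function.update A s (A s + inpv x v), min (v + 1) (x.length + 1)) := by
    have hsym := inSym_pos (x := x) (v := v)
    unfold inpv
    cases hx : x[v]? with
    | none =>
      rw [hx] at hsym
      refine Run.iteT ?_ ?_
      · simp only [Tst.ok, hsym, isR]
      · have h1 := Run.inc (B := B) (w := x) s (A, min (v + 1) (x.length + 1)) (by simp; omega)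
        have h2 := Run.inc (B := B) (w := x) s
          (Function.update A s (A s + 1), min (v + 1) (x.length + 1)) (by simp; omega)
        simp only [Function.update_self, Function.update_idem] at h2
        exact Run.seq h1 h2
    | some b =>
      rw [hx] at hsym
      refine Run.iteF ?_ ?_
      · simp only [Tst.ok, hsym, isR]
        simp
      · cases b with
        | false =>
          refine Run.iteF ?_ ?_
          · simp only [Tst.ok, hsym, isT]
            simp
          · simp only [add_zero, Function.update_eq_self]
            exact Run.skip _
        | true =>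
          refine Run.iteT ?_ ?_
          · simp only [Tst.ok, hsym, isT]
          · exact Run.inc (B := B) (w := x) s (A, min (v + 1) (x.length + 1)) (by simp; omega)
  set W : Reg := Function.update A s (A s + inpv x v) with hW
  have hiv : inpv x v ≤ 2 := inpv_le x v
  have hWh : W h = v := by
    rw [hW, Function.update_of_ne hsh.symm, hA, Function.update_self]
  have hWr : W r + v ≤ B := by
    rw [hW]
    by_cases hrs : r = s
    · subst hrs
      rw [Function.update_self, hA, Function.update_of_ne hrh, Function.update_self]
      omega
    · rw [Function.update_of_ne hrs, hA, Function.update_of_ne hrh, Function.update_self]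
      omega
  have step5 := Run_back (B := B) (x := x) hrh 0 v W hWr
  have e1 : Function.update W h v = W := by
    rw [← hWh]; exact Function.update_eq_self _ _
  rw [e1] at step5
  have e2 : Function.update (Function.update W r (W r + v)) h 0 =
      Function.update σ s (σ s + inpv x v) := by
    funext j
    by_cases j1 : j = h
    · subst j1
      rw [Function.update_self, Function.update_of_ne hsh.symm, h0]
    · rw [Function.update_of_ne j1]
      by_cases j2 : j = r
      · subst j2
        rw [Function.update_self, hW]
        by_cases hrs : j = s
        · subst hrs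
          rw [Function.update_self, Function.update_self, hA, Function.update_of_ne hrh,
            Function.update_self]
          omega
        · rw [Function.update_of_ne hrs, Function.update_of_ne hrs, hA, Function.update_of_ne hrh,
            Function.update_self]
          omega
      · rw [Function.update_of_ne j2, hW]
        by_cases j3 : j = s
        · subst j3
          rw [Function.update_self, Function.update_self, hA, Function.update_of_ne j1,
            Function.update_of_ne j2]
        · rw [Function.update_of_ne j3, Function.update_of_ne j3, hA, Function.update_of_ne j1,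
            Function.update_of_ne j2]
  rw [e2] at step5
  exact Run.seq step1 (Run.seq step2 (Run.seq step3 (Run.seq (Run_left W _) step5)))

/-! ### Loop programs -/

/-- the counter program of a loop program; the registers from `h` on are hidden registers -/
def cp : ℕ → Prog → CP
  | _, .skip => .skip
  | _, .inc r => .inc r
  | _, .dec r => .dec r
  | h, .inp r s => inpC h r s
  | h, .seq P Q => .seq (cp h P) (cp h Q)
  | h, .loop r P => .seq (cpy r h) (.whl (.reg h) (.seq (.dec h) (cp (h + 2) P)))

theorem cp_correct {B : ℕ} {x : List Bool} : ∀ {P : Prog} {m h : ℕ}, Plt m P → m ≤ h →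
    ∀ σ : Reg, Bd B P x σ → (∀ j, h ≤ j → σ j = 0) →
      Run B x (cp h P) (σ, 0) (run P x σ, 0)
  | .skip, _, _, _, _, σ, _, _ => Run.skip _
  | .inc r, _, _, _, _, σ, hb, _ => Run.inc r (σ, 0) hb
  | .dec r, _, _, _, _, σ, _, _ => Run.dec r (σ, 0)
  | .inp r s, m, h, hP, hm, σ, hb, h0 =>
    Run_inpC (lt_of_lt_of_le hP.1 hm) (lt_of_lt_of_le hP.2 hm) σ hb.1 hb.2 (h0 h le_rfl)
  | .seq P Q, m, h, hP, hm, σ, hb, h0 => by
    refine Run.seq (cp_correct hP.1 hm σ hb.1 h0) (cp_correct hP.2 hm _ hb.2 ?_)
    intro j hj
    rw [run_ge x hP.1 σ (hm.trans hj), h0 j hj]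
  | .loop r P, m, h, hP, hm, σ, hb, h0 => by
    have hr : r < h := lt_of_lt_of_le hP.1 hm
    refine Run.seq (Run_cpy hr σ 0 hb.1 (h0 h le_rfl) (h0 (h + 1) (by omega))) ?_
    have key : ∀ n, n ≤ σ r → Run B x (.whl (.reg h) (.seq (.dec h) (cp (h + 2) P)))
        (Function.update ((run P x)^[σ r - n] σ) h n, 0) ((run P x)^[σ r] σ, 0) := by
      intro n
      induction n with
      | zero =>
        intro _
        have e : Function.update ((run P x)^[σ r - 0] σ) h 0 = (run P x)^[σ r] σ := by
          have h1 : (run P x)^[σ r] σ h = 0 := by rw [iter_ge x hP.2 _ _ hm, h0 h le_rfl]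
          rw [Nat.sub_zero, ← h1, Function.update_eq_self]
        rw [e]
        apply Run.whlF
        simp only [Tst.ok]
        rw [iter_ge x hP.2 _ _ hm, h0 h le_rfl]
        simp
      | succ n ih =>
        intro hn
        set τ : Reg := (run P x)^[σ r - (n + 1)] σ with hτ
        have hbτ : Bd B P x τ := hb.2 _ (by omega)
        have hnext : run P x τ = (run P x)^[σ r - n] σ := by
          rw [hτ, ← Function.iterate_succ_apply' (run P x)]
          congr 1
          omega
        have hz : ∀ j, h + 2 ≤ j → Function.update τ h n j = 0 := by
          intro j hj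
          rw [Function.update_of_ne (by omega), hτ, iter_ge x hP.2 _ _ (by omega), h0 j (by omega)]
        have h1 := cp_correct (B := B) (x := x) hP.2 (show m ≤ h + 2 by omega)
          (Function.update τ h n) (Bd_update hm x hP.2 τ hbτ) hz
        rw [run_update hm x hP.2, hnext] at h1
        refine Run.whlT ?_ (Run.seq (Run.dec _ _) ?_) (ih (by omega))
        · simp [Tst.ok]
        · simpa using h1
    have h1 := key (σ r) le_rfl
    rw [Nat.sub_self] at h1
    exact h1

/-! ### Registers of a counter program -/

theorem CPlt_mono {m m' : ℕ} (h : m ≤ m') : ∀ {P : CP}, P.lt m → P.lt m'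
  | .skip, _ => trivial
  | .inc _, hP => lt_of_lt_of_le hP h
  | .dec _, hP => lt_of_lt_of_le hP h
  | .mv _, _ => trivial
  | .seq _ _, hP => ⟨CPlt_mono h hP.1, CPlt_mono h hP.2⟩
  | .ite (.reg _) _ _, hP => ⟨lt_of_lt_of_le hP.1 h, CPlt_mono h hP.2.1, CPlt_mono h hP.2.2⟩
  | .ite (.sym _) _ _, hP => ⟨trivial, CPlt_mono h hP.2.1, CPlt_mono h hP.2.2⟩
  | .whl (.reg _) _, hP => ⟨lt_of_lt_of_le hP.1 h, CPlt_mono h hP.2⟩
  | .whl (.sym _) _, hP => ⟨trivial, CPlt_mono h hP.2⟩

theorem exists_CPlt : ∀ P : CP, ∃ m, P.lt m
  | .skip => ⟨0, trivial⟩
  | .inc r => ⟨r + 1, Nat.lt_succ_self r⟩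
  | .dec r => ⟨r + 1, Nat.lt_succ_self r⟩
  | .mv _ => ⟨0, trivial⟩
  | .seq P Q => by
    obtain ⟨m, hm⟩ := exists_CPlt P
    obtain ⟨m', hm'⟩ := exists_CPlt Q
    exact ⟨m + m', CPlt_mono (by omega) hm, CPlt_mono (by omega) hm'⟩
  | .ite (.reg r) P Q => by
    obtain ⟨m, hm⟩ := exists_CPlt P
    obtain ⟨m', hm'⟩ := exists_CPlt Q
    exact ⟨r + 1 + m + m', by show r < _; omega, CPlt_mono (by omega) hm,
      CPlt_mono (by omega) hm'⟩
  | .ite (.sym _) P Q => by
    obtain ⟨m, hm⟩ := exists_CPlt P
    obtain ⟨m', hm'⟩ := exists_CPlt Q
    exact ⟨m + m', trivial, CPlt_mono (by omega) hm, CPlt_mono (by omega) hm'⟩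
  | .whl (.reg r) P => by
    obtain ⟨m, hm⟩ := exists_CPlt P
    exact ⟨r + 1 + m, by show r < _; omega, CPlt_mono (by omega) hm⟩
  | .whl (.sym _) P => by
    obtain ⟨m, hm⟩ := exists_CPlt P
    exact ⟨m, trivial, hm⟩

end TMS

end Pool.Agent.Work.MP_71c844_lc.Arr
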