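import Pool.Agent.Work.MP_71c844_lc.Arr.ProgCP

/-!
# The search theorem

`search`: if `F : List Bool → ℕ → ℕ` is computed by a loop program with numbers of polynomial size,
and for every word `x` some `M ≤ B₀ |x|` has `F x M ≠ 0`, then the language of all `x` such that the
first nonzero value of `F x` is `1` is decided by a Turing machine in space `O(log (B₀ n + 2))`.
-/

set_option autoImplicit false

namespace Pool.Agent.Work.MP_71c844_lc.Arr

namespace TMS


/-- try `M = 0, 1, 2, …` (register `0`) until the value (register `1`) is not zero -/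
def mainC (h : ℕ) (P : Prog) : CP :=
  .seq (.inc h) (.whl (.reg h) (.seq (.dec h) (.seq (cp h P)
    (.ite (.reg 1) .skip (.seq (.inc 0) (.inc h))))))

/-- the goto program: search, then accept if and only if register `1` is `1` -/
def mainG (h : ℕ) (P : Prog) : List Ins :=
  (mainC h P).code 0 (mainC h P).len ++
    [.dec 1 ((mainC h P).len + 1), .br (.reg 1) ((mainC h P).len + 2) ((mainC h P).len + 3),
      .halt false, .halt true]

/-- the start state for the search number `M` -/
def st0 (M : ℕ) : Reg := Function.update (fun _ => 0) 0 M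

theorem mainC_run {B : ℕ} {x : List Bool} {P : Prog} {m h : ℕ} (hP : Plt m P) (hm : m ≤ h)
    (h2 : 2 ≤ h) (F : ℕ → ℕ) (hF : ∀ M, run P x (st0 M) = Function.update (st0 M) 1 (F M))
    (N : ℕ) (hb : ∀ M ≤ N, Bd B P x (st0 M)) (hNB : N + 1 ≤ B) (hN : F N ≠ 0)
    (hlt : ∀ M < N, F M = 0) :
    Run B x (mainC h P) (fun _ => 0, 0) (Function.update (st0 N) 1 (F N), 0) := by
  have hz : ∀ M j, h ≤ j → st0 M j = 0 := by
    intro M j hj
    unfold st0
    rw [Function.update_of_ne (by omega)]
  have hbody : ∀ M ≤ N, Run B x (cp h P) (st0 M, 0) (Function.update (st0 M) 1 (F M), 0) := by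
    intro M hM
    have := cp_correct hP hm (st0 M) (hb M hM) (hz M)
    rwa [hF] at this
  have h1h : (1 : ℕ) ≠ h := by omega
  have h0h : (0 : ℕ) ≠ h := by omega
  have hdec : ∀ M, Run B x (.dec h) (Function.update (st0 M) h 1, 0) (st0 M, 0) := by
    intro M
    have e : Function.update (Function.update (st0 M) h 1) h
        ((Function.update (st0 M) h 1) h - 1) = st0 M := by
      rw [Function.update_self, Function.update_idem]
      funext j
      by_cases hj : j = h
      · subst hj; simp [hz M j le_rfl]
      · simp [hj]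
    have := Run.dec (B := B) (w := x) h (Function.update (st0 M) h 1, 0)
    simp only [e] at this
    exact this
  have key : ∀ k, k ≤ N → Run B x (.whl (.reg h) (.seq (.dec h) (.seq (cp h P)
      (.ite (.reg 1) .skip (.seq (.inc 0) (.inc h))))))
      (Function.update (st0 (N - k)) h 1, 0) (Function.update (st0 N) 1 (F N), 0) := by
    intro k
    induction k with
    | zero =>
      intro _
      rw [Nat.sub_zero]
      refine Run.whlT ?_ (Run.seq (hdec N) (Run.seq (hbody N le_rfl) (Run.iteT ?_ (Run.skip _))))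
        (Run.whlF ?_)
      · simp [Tst.ok]
      · simp [Tst.ok, hN]
      · simp [Tst.ok, h1h.symm, hz N h le_rfl]
    | succ k ih =>
      intro hk
      have hM : N - (k + 1) < N := by omega
      have hM1 : N - (k + 1) + 1 = N - k := by omega
      generalize N - (k + 1) = M at hM hM1 ⊢
      have e2 : Run B x (.inc 0) (Function.update (st0 M) 1 (F M), 0) (st0 (M + 1), 0) := by
        have := Run.inc (B := B) (w := x) 0 (Function.update (st0 M) 1 (F M), 0) (by
          simp only [hlt M hM, st0]
          simp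
          omega)
        have e : Function.update (Function.update (st0 M) 1 (F M)) 0
            ((Function.update (st0 M) 1 (F M)) 0 + 1) = st0 (M + 1) := by
          rw [hlt M hM]
          funext j
          by_cases hj0 : j = 0
          · subst hj0
            simp [st0]
          · rw [Function.update_of_ne hj0]
            by_cases hj1 : j = 1
            · subst hj1
              simp [st0]
            · simp [st0, hj0, hj1]
        simp only [e] at this
        exact this
      have e3 : Run B x (.inc h) (st0 (M + 1), 0) (Function.update (st0 (M + 1)) h 1, 0) := by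
        have := Run.inc (B := B) (w := x) h (st0 (M + 1), 0) (by
          simp only [hz (M + 1) h le_rfl]
          omega)
        simp only [hz (M + 1) h le_rfl, zero_add] at this
        exact this
      have h3 := ih (by omega)
      rw [← hM1] at h3
      refine Run.whlT ?_ (Run.seq (hdec M) (Run.seq (hbody M hM.le) (Run.iteF ?_
        (Run.seq e2 e3)))) h3
      · simp [Tst.ok]
      · simp [Tst.ok, hlt M hM]
  have h1 := key N le_rfl
  rw [Nat.sub_self] at h1
  refine Run.seq (Run.inc _ _ ?_) ?_
  · simp only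
    omega
  · have e : (Function.update (fun _ => 0 : Reg) h ((fun _ => 0 : Reg) h + 1) : Reg) =
        Function.update (st0 0) h 1 := by
      funext j
      by_cases hj : j = h
      · subst hj; simp
      · simp [hj, st0]
    simp only [e]
    exact h1

theorem halt_run {B : ℕ} {x : List Bool} {P : Prog} {m h : ℕ} (hP : Plt m P) (hm : m ≤ h)
    (h2 : 2 ≤ h) (F : ℕ → ℕ) (hF : ∀ M, run P x (st0 M) = Function.update (st0 M) 1 (F M))
    (N : ℕ) (hb : ∀ M ≤ N, Bd B P x (st0 M)) (hNB : N + 1 ≤ B) (hN : F N ≠ 0)
    (hFB : F N ≤ B) (hlt : ∀ M < N, F M = 0) :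
    ∃ t, (∀ s ≤ t, ∀ r, ((gostep (mainG h P) x)^[s] (0, (fun _ => 0, 0))).2.1 r ≤ B) ∧
      (mainG h P)[((gostep (mainG h P) x)^[t] (0, (fun _ => 0, 0))).1]? =
        some (.halt (decide (F N = 1))) := by
  set L := (mainC h P).len with hL
  have hAt : AtL (mainG h P) 0 ((mainC h P).code 0 L ++
      [.dec 1 (L + 1), .br (.reg 1) (L + 2) (L + 3), .halt false, .halt true]) := by
    intro i _
    rw [zero_add]
    rfl
  have hr := hAt.right
  rw [length_code, zero_add] at hr
  have g0 := hr.head
  have g1 := hr.tail.head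
  have g2 := hr.tail.tail.head
  have g3 := hr.tail.tail.tail.head
  have r0 := code_correct (G := mainG h P) (mainC_run hP hm h2 F hF N hb hNB hN hlt) 0 L hAt.left
    (fun _ => Nat.zero_le _)
  have b0 := r0.bd
  set s1 : St := (Function.update (st0 N) 1 (F N), 0) with hs1
  set s2 : St := (Function.update (st0 N) 1 (F N - 1), 0) with hs2
  have b2 : ∀ r, s2.1 r ≤ B := by
    intro r
    by_cases hr1 : r = 1
    · subst hr1
      simp only [hs2, Function.update_self]
      omega
    · have := b0 r
      simp only [hs1, hs2, Function.update_of_ne hr1] at this ⊢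
      exact this
  have r1 : GR (mainG h P) x B (L, s1) (L + 1, s2) := by
    refine GR.step ?_ b0 b2
    unfold gostep
    rw [g0]
    simp [hs1, hs2]
  have r2 : GR (mainG h P) x B (L + 1, s2)
      (if F N = 1 then L + 3 else L + 2, s2) := by
    refine GR.step ?_ b2 b2
    unfold gostep
    rw [g1]
    by_cases h1 : F N = 1
    · have : ¬ (Tst.reg 1).ok x s2 := by
        simp [Tst.ok, hs2, h1]
      simp only [if_neg this, if_pos h1]
    · have : (Tst.reg 1).ok x s2 := by
        simp only [Tst.ok, hs2, Function.update_self]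
        omega
      simp only [if_pos this, if_neg h1]
  obtain ⟨t, ht, hB⟩ := (r0.trans r1).trans r2
  refine ⟨t, hB, ?_⟩
  rw [ht]
  by_cases h1 : F N = 1
  · simp only [h1, decide_true]
    exact g3
  · simp only [h1, decide_false]
    exact g2

theorem mainG_lt (h : ℕ) (P : Prog) : ∃ m, 2 ≤ m ∧ ∀ (n : ℕ) (I : Ins), (mainG h P)[n]? = some I →
    Ins.lt m I := by
  obtain ⟨m, hm⟩ := exists_CPlt (mainC h P)
  refine ⟨m + 2, by omega, ?_⟩
  intro n I hI
  have hmem := List.mem_of_getElem? hI
  unfold mainG at hmem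
  rw [List.mem_append] at hmem
  rcases hmem with h1 | h1
  · exact code_lt (CPlt_mono (by omega) hm) _ _ I h1
  · simp only [List.mem_cons, List.not_mem_nil, or_false] at h1
    rcases h1 with rfl | rfl | rfl | rfl
    · show 1 < m + 2
      omega
    · show 1 < m + 2
      omega
    · trivial
    · trivial

/-- **The search theorem.** -/
theorem search (F : List Bool → ℕ → ℕ) (B0 : ℕ → ℕ)
    (hF : LSC (fun (_ : Unit) (M : ℕ) => M) F)
    (hB0 : ∀ x : List Bool, ∃ M, M ≤ B0 x.length ∧ F x M ≠ 0) :
    {x | ∃ M, F x M = 1 ∧ ∀ M' < M, F x M' = 0} ∈ DSPACE (fun n => Nat.log 2 (B0 n + 2)) := by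
  obtain ⟨C, hFC, hprog⟩ := hF
  obtain ⟨P, hP⟩ := hprog (fun _ => 0) 1 2 (fun _ => by omega) (by omega) (fun _ => by omega)
  obtain ⟨m0, hm0⟩ := exists_Plt P
  set h := m0 + 2 with hh
  obtain ⟨m, hm2, hm⟩ := mainG_lt h P
  have hst : ∀ x M, run P x (st0 M) = Function.update (st0 M) 1 (F x M) ∧
      ∀ B, M ≤ B → Bd ((B + 2) ^ C) P x (st0 M) := by
    intro x M
    obtain ⟨h1, h2⟩ := hP x M (st0 M) (fun _ => by simp [st0]) (by simp [st0]) (fun j hj => by
      unfold st0
      rw [Function.update_of_ne (by omega)])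
    exact ⟨h1, fun B hB => h2 B (fun _ => hB)⟩
  -- the run for one word
  have main : ∀ x : List Bool,
      (∃ t b, (gpTM m (mainG h P)).out ((gpTM m (mainG h P)).run x t).st = some b ∧
        (b = true ↔ x ∈ {x | ∃ M, F x M = 1 ∧ ∀ M' < M, F x M' = 0})) ∧
      ∀ s i, -1 ≤ ((gpTM m (mainG h P)).run x s).head i ∧
        ((gpTM m (mainG h P)).run x s).head i ≤
          (Nat.log 2 ((B0 x.length + 2) ^ (C + 1) + 1) : ℕ) := by
    intro x
    classical
    have hex : ∃ M, F x M ≠ 0 := by
      obtain ⟨M, _, hM⟩ := hB0 x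
      exact ⟨M, hM⟩
    set N := Nat.find hex with hN
    have hN1 : F x N ≠ 0 := Nat.find_spec hex
    have hN2 : ∀ M < N, F x M = 0 := by
      intro M hM
      have := Nat.find_min hex hM
      simpa using this
    have hNB0 : N ≤ B0 x.length := by
      obtain ⟨M, hM, hM'⟩ := hB0 x
      exact (Nat.find_min' hex hM').trans hM
    set B := (B0 x.length + 2) ^ (C + 1) with hB
    have hB1 : (B0 x.length + 2) ^ C ≤ B := Nat.pow_le_pow_right (by omega) (by omega)
    have hB2 : B0 x.length + 2 ≤ B := by
      calc B0 x.length + 2 = (B0 x.length + 2) ^ 1 := (pow_one _).symm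
        _ ≤ B := Nat.pow_le_pow_right (by omega) (by omega)
    obtain ⟨t, ht1, ht2⟩ := halt_run (B := B) (x := x) hm0 (show m0 ≤ h by omega)
      (show 2 ≤ h by omega) (F x) (fun M => (hst x M).1) N
      (fun M hM => ((hst x M).2 (B0 x.length) (by omega)).mono hB1) (by omega) hN1
      ((hFC x N (B0 x.length) (fun _ => hNB0)).trans hB1) hN2
    obtain ⟨⟨t', ht'⟩, hheads⟩ := gp_halt (m := m) hm t ht1 ht2
    refine ⟨⟨t', _, ht', ?_⟩, hheads⟩
    rw [decide_eq_true_iff]
    constructor
    · intro h1
      exact ⟨N, h1, hN2⟩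
    · rintro ⟨M, hM1, hM2⟩
      have : N = M := by
        apply le_antisymm
        · exact Nat.find_min' hex (by rw [hM1]; exact one_ne_zero)
        · by_contra hlt
          push Not at hlt
          exact hN1 (hM2 N hlt)
      rw [this]
      exact hM1
  refine ⟨gpTM m (mainG h P), m * (C + 4), fun x => (main x).1, fun x => ?_⟩
  refine (visited_le (main x).2).trans ?_
  have hk : (gpTM m (mainG h P)).k = m := rfl
  rw [hk]
  norm_cast
  set l := Nat.log 2 (B0 x.length + 2) with hl
  have h1 : B0 x.length + 2 < 2 ^ (l + 1) := Nat.lt_pow_succ_log_self (by omega) _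
  have h2 : (B0 x.length + 2) ^ (C + 1) + 1 ≤ 2 ^ ((l + 1) * (C + 1)) := by
    have h3 : (B0 x.length + 2) ^ (C + 1) < (2 ^ (l + 1)) ^ (C + 1) :=
      Nat.pow_lt_pow_left h1 (by omega)
    rw [← pow_mul] at h3
    exact h3
  have h3 : Nat.log 2 ((B0 x.length + 2) ^ (C + 1) + 1) ≤ (l + 1) * (C + 1) := by
    calc Nat.log 2 ((B0 x.length + 2) ^ (C + 1) + 1) ≤ Nat.log 2 (2 ^ ((l + 1) * (C + 1))) :=
          Nat.log_mono_right h2
      _ = (l + 1) * (C + 1) := Nat.log_pow (by omega) _
  calc m * (Nat.log 2 ((B0 x.length + 2) ^ (C + 1) + 1) + 2)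
      ≤ m * ((l + 1) * (C + 1) + 2) := Nat.mul_le_mul_left _ (by omega)
    _ ≤ m * ((C + 4) * l + (C + 4)) := by
        apply Nat.mul_le_mul_left
        nlinarith
    _ = m * (C + 4) * l + m * (C + 4) := by ring

end TMS

end Pool.Agent.Work.MP_71c844_lc.Arr
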