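import Pool.Agent.Work.MP_71c844_lc.Arr.TMStep

/-!
# Halting runs of a goto program on the Turing machine
-/

set_option autoImplicit false

namespace Pool.Agent.Work.MP_71c844_lc.Arr

namespace TMS

variable {x : List Bool}

/-! ### The digits of a number -/

/-- the digits of a number -/
def dig : ℕ → List Bool
  | 0 => []
  | n + 1 => incl (dig n)

theorem bval_dig (n : ℕ) : bval (dig n) = n := by
  induction n with
  | zero => rfl
  | succ n ih => rw [dig, bval_incl, ih]

theorem bval_inj : ∀ {l l' : List Bool}, bval l = bval l' → l = l'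
  | [], [], _ => rfl
  | [], b :: l, h => by
    have := bval_pos (b := b) (l := l)
    rw [← h] at this
    simp [bval] at this
  | b :: l, [], h => by
    have := bval_pos (b := b) (l := l)
    rw [h] at this
    simp [bval] at this
  | b :: l, b' :: l', h => by
    have h1 : b = b' ∧ bval l = bval l' := by
      simp only [bval] at h
      cases b <;> cases b' <;> simp at h ⊢ <;> omega
    rw [h1.1, bval_inj h1.2]

theorem dig_bval (l : List Bool) : dig (bval l) = l := bval_inj (bval_dig _)

theorem decl_dig (n : ℕ) : decl (dig n) = dig (n - 1) := by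
  apply bval_inj
  rw [bval_decl, bval_dig, bval_dig]

theorem length_dig (n : ℕ) : (dig n).length ≤ Nat.log 2 (n + 1) := by
  have h1 := two_pow_le_bval (dig n)
  rw [bval_dig] at h1
  exact (Nat.le_log_iff_pow_le (by omega) (by omega)).2 h1

theorem length_dig_le {n B : ℕ} (h : n ≤ B) : ((dig n).length : ℤ) ≤ (Nat.log 2 (B + 1) : ℕ) := by
  have h1 := length_dig n
  have h2 : Nat.log 2 (n + 1) ≤ Nat.log 2 (B + 1) := Nat.log_mono_right (by omega)
  exact_mod_cast h1.trans h2

theorem dig_ne_nil {n : ℕ} (h : n ≠ 0) : dig n ≠ [] := by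
  intro h1
  apply h
  rw [← bval_dig n, h1]
  rfl

/-! ### One step of the goto program -/

/-- registers of a test are smaller than `m` -/
def Tst.lt (m : ℕ) : Tst → Prop
  | .reg r => r < m
  | .sym _ => True

/-- registers of an instruction are smaller than `m` -/
def Ins.lt (m : ℕ) : Ins → Prop
  | .inc r _ => r < m
  | .dec r _ => r < m
  | .mv _ _ => True
  | .br c _ _ => Tst.lt m c
  | .jmp _ => True
  | .halt _ => True

variable {m : ℕ} {G : List Ins}

/-- the configuration of the machine for a state of the goto program -/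
def cf (m : ℕ) (G : List Ins) (a : ℕ × St) : (gpTM m G).Cfg :=
  gpCfg m G a.1 a.2.2 (fun r => dig (a.2.1 r))

theorem cf_head (a : ℕ × St) {N : ℤ} (hN : 0 ≤ N) :
    ∀ i, -1 ≤ (cf m G a).head i ∧ (cf m G a).head i ≤ N := by
  intro i
  exact ⟨by simp [cf, gpCfg], by simpa [cf, gpCfg] using hN⟩

theorem dig_update (σ : ℕ → ℕ) (r v : ℕ) :
    Function.update (fun r => dig (σ r)) r (dig v) = fun r' => dig (Function.update σ r v r') := by
  funext r'
  by_cases h : r' = r
  · subst h; simp
  · simp [h]

theorem out_go {pc : ℕ} {I : Ins} (hI : G[pc]? = some I) (hnh : ∀ b, I ≠ .halt b) :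
    (gpTM m G).out (clip G pc, .go) = none := by
  show (if Ph.go = Ph.go then (match G[(clip G pc).val]? with
    | some (.halt b) => some b | _ => none) else none) = none
  rw [if_pos rfl, clip_val hI, hI]
  cases I with
  | halt b => exact absurd rfl (hnh b)
  | inc r nx => rfl
  | dec r nx => rfl
  | mv d nx => rfl
  | br c n₁ n₂ => rfl
  | jmp nx => rfl

theorem look_eq {c : Tst} (hc : Tst.lt m c) (s : St) (g : Fin m → Option Bool)
    (hg : ∀ i : Fin m, g i = tapeOf (dig (s.1 i.val)) 0) :
    (c.look (inSym x s.2) g = true ↔ c.ok x s) := by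
  cases c with
  | reg r =>
    simp only [Tst.look, Tst.ok]
    rw [dif_pos (show r < m from hc), hg]
    by_cases h : s.1 r = 0
    · simp [h, dig, tapeOf]
    · have h1 := dig_ne_nil h
      simp only [h, ne_eq, not_false_eq_true, iff_true]
      cases h2 : dig (s.1 r) with
      | nil => exact absurd h2 h1
      | cons b l => simp [tapeOf]
  | sym c => simp only [Tst.look, Tst.ok]

/-- one step of the goto program, instruction without action on the registers -/
theorem idle_step {a a' : ℕ × St} {I : Ins} (hI : G[a.1]? = some I) (hnh : ∀ b, I ≠ .halt b)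
    {N : ℤ} (hN : 0 ≤ N) (d : Dir)
    (hnext : ∀ g : Fin m → Option Bool, (∀ i : Fin m, g i = tapeOf (dig (a.2.1 i.val)) 0) →
      gpNext m G (clip G a.1, .go) (inSym x a.2.2) g = ((clip G a'.1, .go), d, idle g))
    (h1 : a'.2.1 = a.2.1) (h2 : a'.2.2 = inMove x a.2.2 d) :
    Reach (gpTM m G) x N (cf m G a) (cf m G a') := by
  refine Reach.step ?_ (cf_head a hN) (cf_head a' hN)
  unfold cf
  rw [gpCfg_eq (r := 0), gpCfg_eq (r := 0), h1, h2]
  have h3 := step_idle (x := x) (m := m) (G := G) (q := (clip G a.1, .go))
    (q' := (clip G a'.1, .go)) (pos := a.2.2) (l := fun r => dig (a.2.1 r)) (r := 0)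
    (tp := tapeOf (dig (a.2.1 0))) (h := 0) d (out_go hI hnh) (by
      intro g hg
      apply hnext g
      intro i
      rw [hg i]
      unfold mc
      by_cases h : i.val = 0
      · simp only [h, if_true]
      · simp only [if_neg h])
  exact h3

theorem go_to {a : ℕ × St} {I : Ins} (hI : G[a.1]? = some I) (hnh : ∀ b, I ≠ .halt b)
    {N : ℤ} (hN : 0 ≤ N) (r : ℕ) (ph : Ph)
    (hnext : ∀ g : Fin m → Option Bool,
      gpNext m G (clip G a.1, .go) (inSym x a.2.2) g = ((clip G a.1, ph), .stay, idle g)) :
    Reach (gpTM m G) x N (cf m G a) (mc m G (clip G a.1, ph) a.2.2 (fun r => dig (a.2.1 r)) r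
      (tapeOf (dig (a.2.1 r))) 0) := by
  refine Reach.step ?_ (cf_head a hN) (mc_head (by omega) hN hN)
  unfold cf
  rw [gpCfg_eq (r := r)]
  exact step_idle (x := x) (m := m) (G := G) (q := (clip G a.1, .go))
    (q' := (clip G a.1, ph)) (pos := a.2.2) (l := fun r => dig (a.2.1 r)) (r := r)
    (tp := tapeOf (dig (a.2.1 r))) (h := 0) .stay (out_go hI hnh) (fun g _ => hnext g)

/-- **One step of the goto program.** -/
theorem gp_step (hreg : ∀ (n : ℕ) (I : Ins), G[n]? = some I → Ins.lt m I) {B : ℕ} (a : ℕ × St)
    (hB : ∀ r, a.2.1 r ≤ B) (hB' : ∀ r, (gostep G x a).2.1 r ≤ B) :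
    Reach (gpTM m G) x (Nat.log 2 (B + 1) : ℕ) (cf m G a) (cf m G (gostep G x a)) := by
  have hN : (0 : ℤ) ≤ (Nat.log 2 (B + 1) : ℕ) := by positivity
  cases hI : G[a.1]? with
  | none =>
    have h1 : gostep G x a = a := by unfold gostep; rw [hI]
    rw [h1]
    exact Reach.refl (cf_head a hN)
  | some I =>
    have hlt := hreg _ _ hI
    have hcl := clip_val hI
    cases I with
    | halt b =>
      have h1 : gostep G x a = a := by unfold gostep; rw [hI]
      rw [h1]
      exact Reach.refl (cf_head a hN)
    | jmp nx =>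
      have h1 : gostep G x a = (nx, a.2) := by unfold gostep; rw [hI]
      rw [h1]
      refine idle_step hI (by simp) hN .stay ?_ rfl rfl
      intro g _
      unfold gpNext
      simp only [hcl, hI]
    | mv d nx =>
      have h1 : gostep G x a = (nx, (a.2.1, inMove x a.2.2 d)) := by unfold gostep; rw [hI]
      rw [h1]
      refine idle_step hI (by simp) hN d ?_ rfl rfl
      intro g _
      unfold gpNext
      simp only [hcl, hI]
    | br c n₁ n₂ =>
      have h1 : gostep G x a = (open Classical in if c.ok x a.2 then n₁ else n₂, a.2) := by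
        unfold gostep; rw [hI]
      rw [h1]
      refine idle_step hI (by simp) hN .stay ?_ rfl rfl
      intro g hg
      unfold gpNext
      simp only [hcl, hI]
      have h2 := look_eq (x := x) (m := m) hlt a.2 g hg
      by_cases h3 : c.ok x a.2
      · rw [if_pos h3, if_pos (h2.2 h3)]
      · rw [if_neg h3, if_neg (fun h => h3 (h2.1 h))]
    | inc r nx =>
      have h1 : gostep G x a = (nx, (Function.update a.2.1 r (a.2.1 r + 1), a.2.2)) := by
        unfold gostep; rw [hI]
      rw [h1] at hB' ⊢
      have hb := hB' r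
      simp only [Function.update_self] at hb
      refine Reach.trans (go_to (m := m) hI (by simp) hN r .car (by
        intro g
        unfold gpNext
        simp only [hcl, hI])) ?_
      have h2 := car_reach (x := x) (m := m) (pos := a.2.2) (l := fun r => dig (a.2.1 r)) hI hlt rfl
        hN (dig (a.2.1 r)) [] (by
          rw [List.nil_append]
          exact length_dig_le (n := a.2.1 r + 1) hb)
      simp only [List.nil_append, List.length_nil, Nat.cast_zero] at h2
      rw [mc_gpCfg] at h2
      have h3 : incl (dig (a.2.1 r)) = dig (a.2.1 r + 1) := rfl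
      rw [h3, dig_update] at h2
      exact h2
    | dec r nx =>
      have h1 : gostep G x a = (nx, (Function.update a.2.1 r (a.2.1 r - 1), a.2.2)) := by
        unfold gostep; rw [hI]
      rw [h1]
      refine Reach.trans (go_to (m := m) hI (by simp) hN r .bor (by
        intro g
        unfold gpNext
        simp only [hcl, hI])) ?_
      by_cases h0 : a.2.1 r = 0
      · have e0 : dig (a.2.1 r) = [] := by rw [h0]; rfl
        have h2 := step_idle (x := x) (m := m) (G := G) (q := (clip G a.1, .bor))
          (q' := (clip G nx, .go)) (pos := a.2.2) (l := fun r => dig (a.2.1 r)) (r := r)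
          (tp := tapeOf (dig (a.2.1 r))) (h := 0) .stay (out_ne_go (by simp)) (by
            intro g hg
            have hg' := hg ⟨r, hlt⟩
            simp only [mc, if_true] at hg'
            rw [e0] at hg'
            have hg2 : g ⟨r, hlt⟩ = none := by rw [hg']; simp [tapeOf]
            unfold gpNext
            simp only [hcl, hI, Ins.rn, readOn_eq hlt, hg2])
        refine Reach.step ?_ (mc_head (by omega) hN hN) (cf_head _ hN)
        rw [h2]
        unfold cf
        rw [mc_gpCfg, dig_update, h0]
        rfl
      · have h2 := bor_reach (x := x) (m := m) (pos := a.2.2) (l := fun r => dig (a.2.1 r)) hI hlt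
          rfl hN (dig (a.2.1 r)) [] (dig_ne_nil h0) (by
            rw [List.nil_append]
            exact length_dig_le (hB r))
        simp only [List.nil_append, List.length_nil, Nat.cast_zero] at h2
        rw [mc_gpCfg, decl_dig, dig_update] at h2
        exact h2

/-! ### Runs -/

theorem gp_reach (hreg : ∀ (n : ℕ) (I : Ins), G[n]? = some I → Ins.lt m I) {B : ℕ} (a : ℕ × St)
    (t : ℕ) (hB : ∀ s ≤ t, ∀ r, ((gostep G x)^[s] a).2.1 r ≤ B) :
    Reach (gpTM m G) x (Nat.log 2 (B + 1) : ℕ) (cf m G a) (cf m G ((gostep G x)^[t] a)) := by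
  induction t with
  | zero => exact Reach.refl (cf_head a (by positivity))
  | succ t ih =>
    refine Reach.trans (ih (fun s hs => hB s (by omega))) ?_
    rw [Function.iterate_succ_apply']
    refine gp_step hreg _ (hB t (by omega)) ?_
    have := hB (t + 1) le_rfl
    rwa [Function.iterate_succ_apply'] at this

/-- **Halting runs.** A goto program which halts with the verdict `b` and has all registers at most
`B` on the way is executed by its Turing machine, with all work heads in `[-1, log₂ (B + 1)]`
forever. -/
theorem gp_halt (hreg : ∀ (n : ℕ) (I : Ins), G[n]? = some I → Ins.lt m I) {B : ℕ}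
    (t : ℕ) (hB : ∀ s ≤ t, ∀ r, ((gostep G x)^[s] (0, (fun _ => 0, 0))).2.1 r ≤ B) {b : Bool}
    (hh : G[((gostep G x)^[t] (0, (fun _ => 0, 0))).1]? = some (.halt b)) :
    (∃ t', (gpTM m G).out ((gpTM m G).run x t').st = some b) ∧
    ∀ s i, -1 ≤ ((gpTM m G).run x s).head i ∧
      ((gpTM m G).run x s).head i ≤ (Nat.log 2 (B + 1) : ℕ) := by
  obtain ⟨t', h1, h2⟩ := gp_reach (m := m) hreg (0, (fun _ => 0, 0)) t hB
  have h0 : cf m G (0, (fun _ => 0, 0)) = (gpTM m G).initCfg := by
    unfold cf gpCfg TM.initCfg
    congr 1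
    funext i z
    show tapeOf (dig 0) z = none
    simp [dig, tapeOf]
  rw [h0] at h1 h2
  have hout : (gpTM m G).out ((gpTM m G).run x t').st = some b := by
    unfold TM.run
    rw [h1]
    show (if Ph.go = Ph.go then (match G[(clip G ((gostep G x)^[t] (0, (fun _ => 0, 0))).1).val]? with
      | some (.halt b) => some b | _ => none) else none) = some b
    rw [if_pos rfl, clip_val hh, hh]
  refine ⟨⟨t', hout⟩, ?_⟩
  have hfix : (gpTM m G).stepCfg x ((gpTM m G).run x t') = (gpTM m G).run x t' := by
    unfold TM.stepCfg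
    rw [hout]
  intro s i
  rcases Nat.lt_or_ge t' s with h3 | h3
  · obtain ⟨r, rfl⟩ : ∃ r, s = r + t' := ⟨s - t', by omega⟩
    have h4 : (gpTM m G).run x (r + t') = (gpTM m G).run x t' := by
      unfold TM.run at hfix ⊢
      rw [Function.iterate_add_apply]
      exact Function.iterate_fixed hfix r
    rw [h4]
    exact h2 t' le_rfl i
  · exact h2 s h3 i

/-- the number of visited cells -/
theorem visited_le {M : TM} {N : ℕ} (h : ∀ s i, -1 ≤ (M.run x s).head i ∧
    (M.run x s).head i ≤ (N : ℤ)) : (M.visited x).encard ≤ ((M.k * (N + 2) : ℕ) : ℕ∞) := by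
  have h1 : M.visited x ⊆ Set.range (fun p : Fin M.k × Fin (N + 2) => (p.1, (p.2.val : ℤ) - 1)) := by
    rintro ⟨i, z⟩ ⟨t, ht⟩
    have h2 := h t i
    simp only at ht
    refine ⟨(i, ⟨(z + 1).toNat, by omega⟩), ?_⟩
    simp only [Prod.mk.injEq, true_and]
    omega
  refine (Set.encard_le_encard h1).trans ?_
  rw [← Set.image_univ]
  refine (Set.encard_image_le _ _).trans ?_
  rw [Set.encard_univ, ENat.card_eq_coe_fintype_card]
  simp

end TMS

end Pool.Agent.Work.MP_71c844_lc.Arr
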