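import Pool.Agent.Work.MP_71c844_lc.Arr.CPDefs

/-!
# The steps of the Turing machine of a goto program
-/

set_option autoImplicit false

namespace Pool.Agent.Work.MP_71c844_lc.Arr

namespace TMS

/-! ### Tapes -/

theorem tapeOf_mid (pre rest : List Bool) (b : Bool) :
    tapeOf (pre ++ b :: rest) (pre.length : ℤ) = some b := by
  unfold tapeOf
  rw [if_neg (by omega), Int.toNat_natCast]
  simp

theorem tapeOf_end (pre : List Bool) : tapeOf pre (pre.length : ℤ) = none := by
  unfold tapeOf
  rw [if_neg (by omega), Int.toNat_natCast]
  simp

theorem tapeOf_neg (l : List Bool) : tapeOf l (-1) = none := by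
  unfold tapeOf
  rw [if_pos (by omega)]

theorem upd_mid (pre rest : List Bool) (b b' : Bool) :
    Function.update (tapeOf (pre ++ b :: rest)) (pre.length : ℤ) (some b') =
      tapeOf (pre ++ b' :: rest) := by
  funext z
  by_cases hz : z = (pre.length : ℤ)
  · subst hz
    rw [Function.update_self, tapeOf_mid]
  · rw [Function.update_of_ne hz]
    unfold tapeOf
    by_cases h0 : z < 0
    · rw [if_pos h0, if_pos h0]
    · rw [if_neg h0, if_neg h0]
      obtain ⟨n, rfl⟩ : ∃ n : ℕ, z = n := ⟨z.toNat, by omega⟩
      rw [Int.toNat_natCast]
      have hn : n ≠ pre.length := fun h => hz (by rw [h])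
      rcases Nat.lt_or_gt_of_ne hn with h1 | h1
      · rw [List.getElem?_append_left h1, List.getElem?_append_left h1]
      · rw [List.getElem?_append_right h1.le, List.getElem?_append_right h1.le]
        obtain ⟨k, hk⟩ : ∃ k, n - pre.length = k + 1 := ⟨n - pre.length - 1, by omega⟩
        rw [hk, List.getElem?_cons_succ, List.getElem?_cons_succ]

theorem upd_end (pre : List Bool) (b : Bool) :
    Function.update (tapeOf pre) (pre.length : ℤ) (some b) = tapeOf (pre ++ [b]) := by
  funext z
  by_cases hz : z = (pre.length : ℤ)
  · subst hz
    rw [Function.update_self, tapeOf_mid]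
  · rw [Function.update_of_ne hz]
    unfold tapeOf
    by_cases h0 : z < 0
    · rw [if_pos h0, if_pos h0]
    · rw [if_neg h0, if_neg h0]
      obtain ⟨n, rfl⟩ : ∃ n : ℕ, z = n := ⟨z.toNat, by omega⟩
      rw [Int.toNat_natCast]
      have hn : n ≠ pre.length := fun h => hz (by rw [h])
      rcases Nat.lt_or_gt_of_ne hn with h1 | h1
      · rw [List.getElem?_append_left h1]
      · rw [List.getElem?_append_right h1.le, List.getElem?_eq_none h1.le]
        obtain ⟨k, hk⟩ : ∃ k, n - pre.length = k + 1 := ⟨n - pre.length - 1, by omega⟩
        rw [hk, List.getElem?_cons_succ, List.getElem?_nil]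

theorem upd_era (pre : List Bool) (b : Bool) :
    Function.update (tapeOf (pre ++ [b])) (pre.length : ℤ) none = tapeOf pre := by
  rw [← upd_end, Function.update_idem]
  funext z
  by_cases hz : z = (pre.length : ℤ)
  · subst hz
    rw [Function.update_self, tapeOf_end]
  · rw [Function.update_of_ne hz]

theorem upd_same {α β : Type*} [DecidableEq α] (f : α → β) (a : α) {b : β} (h : f a = b) :
    Function.update f a b = f := by
  rw [← h]
  exact Function.update_eq_self a f

/-! ### Digits -/

/-- increment of a list of digits -/
def incl : List Bool → List Bool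
  | [] => [false]
  | false :: l => true :: l
  | true :: l => false :: incl l

/-- decrement of a list of digits -/
def decl : List Bool → List Bool
  | [] => []
  | true :: l => false :: l
  | false :: [] => []
  | false :: (b :: l) => true :: decl (b :: l)

theorem bval_incl (l : List Bool) : bval (incl l) = bval l + 1 := by
  induction l with
  | nil => simp [incl, bval]
  | cons b l ih =>
    cases b
    · simp [incl, bval] <;> omega
    · simp [incl, bval, ih] <;> omega

theorem bval_decl (l : List Bool) : bval (decl l) = bval l - 1 := by
  induction l with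
  | nil => simp [decl, bval]
  | cons b l ih =>
    cases b
    · cases l with
      | nil => simp [decl, bval]
      | cons c l =>
        simp only [decl, bval, ih]
        cases c <;> simp [bval] <;> omega
    · simp [decl, bval]

theorem bval_pos {b : Bool} {l : List Bool} : 0 < bval (b :: l) := by
  cases b <;> simp [bval]

theorem bval_eq_zero {l : List Bool} : bval l = 0 ↔ l = [] := by
  cases l with
  | nil => simp [bval]
  | cons b l =>
    have := bval_pos (b := b) (l := l)
    constructor
    · intro h; omega
    · intro h; exact absurd h (List.cons_ne_nil _ _)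

theorem two_pow_le_bval (l : List Bool) : 2 ^ l.length ≤ bval l + 1 := by
  induction l with
  | nil => simp [bval]
  | cons b l ih =>
    rw [List.length_cons, pow_succ]
    cases b <;> simp only [bval] <;> simp <;> omega

theorem length_incl_le (l : List Bool) : (incl l).length ≤ l.length + 1 := by
  induction l with
  | nil => simp [incl]
  | cons b l ih =>
    cases b
    · simp [incl]
    · simp only [incl, List.length_cons]; omega

theorem length_le_incl (l : List Bool) : l.length ≤ (incl l).length := by
  induction l with
  | nil => simp [incl]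
  | cons b l ih =>
    cases b
    · simp [incl]
    · simp only [incl, List.length_cons]; omega

/-! ### Reachability with bounded heads -/

variable (M : TM) (x : List Bool) (N : ℤ)

/-- `c'` is reached from `c`, and all heads are between `-1` and `N` on the way -/
def Reach (c c' : M.Cfg) : Prop :=
  ∃ t, (M.stepCfg x)^[t] c = c' ∧ ∀ s ≤ t, ∀ i, -1 ≤ ((M.stepCfg x)^[s] c).head i ∧
    ((M.stepCfg x)^[s] c).head i ≤ N

variable {M x N}

theorem Reach.refl {c : M.Cfg} (h : ∀ i, -1 ≤ c.head i ∧ c.head i ≤ N) : Reach M x N c c := by
  refine ⟨0, rfl, ?_⟩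
  intro s hs i
  have : s = 0 := by omega
  subst this
  exact h i

theorem Reach.trans {c c' c'' : M.Cfg} (h : Reach M x N c c') (h' : Reach M x N c' c'') :
    Reach M x N c c'' := by
  obtain ⟨t, rfl, h2⟩ := h
  obtain ⟨t', rfl, h4⟩ := h'
  refine ⟨t' + t, ?_, ?_⟩
  · rw [Function.iterate_add_apply]
  · intro s hs i
    rcases Nat.lt_or_ge t s with h5 | h5
    · obtain ⟨r, rfl⟩ : ∃ r, s = r + t := ⟨s - t, by omega⟩
      rw [Function.iterate_add_apply]
      exact h4 r (by omega) i
    · exact h2 s h5 i

theorem Reach.step {c c' : M.Cfg} (hc : M.stepCfg x c = c')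
    (h : ∀ i, -1 ≤ c.head i ∧ c.head i ≤ N) (h' : ∀ i, -1 ≤ c'.head i ∧ c'.head i ≤ N) :
    Reach M x N c c' := by
  refine ⟨1, hc, ?_⟩
  intro s hs i
  rcases Nat.lt_or_ge 0 s with h5 | h5
  · have : s = 1 := by omega
    subst this
    rw [Function.iterate_one, hc]
    exact h' i
  · have : s = 0 := by omega
    subst this
    exact h i

/-! ### The machine -/

section gp

variable {m : ℕ} {G : List Ins}

/-- general configuration: tape `r` has the contents `tp` and the head at `h`, the other heads are
at `0` -/
def mc (m : ℕ) (G : List Ins) (q : Fin (G.length + 1) × Ph) (pos : ℕ) (l : ℕ → List Bool) (r : ℕ)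
    (tp : ℤ → Option Bool) (h : ℤ) : (gpTM m G).Cfg where
  st := q
  ipos := pos
  tape := fun i => if i.val = r then tp else tapeOf (l i.val)
  head := fun i => if i.val = r then h else 0

theorem gpCfg_eq (pc pos : ℕ) (l : ℕ → List Bool) (r : ℕ) :
    gpCfg m G pc pos l = mc m G (clip G pc, .go) pos l r (tapeOf (l r)) 0 := by
  unfold gpCfg mc
  congr 1
  · funext i
    by_cases h : i.val = r
    · rw [if_pos h, h]
    · rw [if_neg h]
  · funext i
    by_cases h : i.val = r
    · rw [if_pos h]
    · rw [if_neg h]

theorem mc_gpCfg (pc pos : ℕ) (l : ℕ → List Bool) (r : ℕ) (lr : List Bool) :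
    mc m G (clip G pc, .go) pos l r (tapeOf lr) 0 =
      gpCfg m G pc pos (Function.update l r lr) := by
  rw [gpCfg_eq (r := r)]
  unfold mc
  congr 1
  funext i
  by_cases h : i.val = r
  · rw [if_pos h, if_pos h, Function.update_self]
  · rw [if_neg h, if_neg h, Function.update_of_ne h]

theorem mc_head {q : Fin (G.length + 1) × Ph} {pos : ℕ} {l : ℕ → List Bool} {r : ℕ}
    {tp : ℤ → Option Bool} {h N : ℤ} (h1 : -1 ≤ h) (h2 : h ≤ N) (hN : 0 ≤ N) :
    ∀ i, -1 ≤ (mc m G q pos l r tp h).head i ∧ (mc m G q pos l r tp h).head i ≤ N := by
  intro i
  unfold mc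
  by_cases h3 : i.val = r
  · simp only [if_pos h3]; exact ⟨h1, h2⟩
  · simp only [if_neg h3]; exact ⟨by omega, hN⟩

/-- one step which acts on tape `r` -/
theorem step_mc {q q' : Fin (G.length + 1) × Ph} {pos : ℕ} {l : ℕ → List Bool} {r : ℕ}
    (hr : r < m) {tp : ℤ → Option Bool} {h : ℤ} (s : Option Bool) (d : Dir)
    (hout : (gpTM m G).out q = none)
    (hnext : ∀ g : Fin m → Option Bool, g ⟨r, hr⟩ = tp h →
      gpNext m G q (inSym x pos) g = (q', .stay, actOn g r s d)) :
    (gpTM m G).stepCfg x (mc m G q pos l r tp h) =
      mc m G q' pos l r (Function.update tp h s) (h + d.disp) := by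
  have hg := hnext (fun i => (mc m G q pos l r tp h).tape i ((mc m G q pos l r tp h).head i)) (by
    simp only [mc, if_true])
  unfold TM.stepCfg
  have h1 : (gpTM m G).out (mc m G q pos l r tp h).st = none := hout
  rw [h1]
  have h2 : (gpTM m G).next (mc m G q pos l r tp h).st (inSym x (mc m G q pos l r tp h).ipos)
      (fun i => (mc m G q pos l r tp h).tape i ((mc m G q pos l r tp h).head i)) =
      (q', .stay, actOn (fun i => (mc m G q pos l r tp h).tape i
        ((mc m G q pos l r tp h).head i)) r s d) := hg
  simp only [h2]
  unfold mc actOn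
  congr 1
  · funext i
    by_cases h3 : i.val = r
    · simp only [if_pos h3]
      rfl
    · simp only [if_neg h3]
      exact Function.update_eq_self _ _
  · funext i
    by_cases h3 : i.val = r
    · simp only [if_pos h3]
    · simp only [if_neg h3, Dir.disp]
      rfl

/-- one step which does not change the tapes and the work heads -/
theorem step_idle {q q' : Fin (G.length + 1) × Ph} {pos : ℕ} {l : ℕ → List Bool} {r : ℕ}
    {tp : ℤ → Option Bool} {h : ℤ} (d : Dir)
    (hout : (gpTM m G).out q = none)
    (hnext : ∀ g : Fin m → Option Bool, (∀ i : Fin m, g i = (mc m G q pos l r tp h).tape i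
      ((mc m G q pos l r tp h).head i)) → gpNext m G q (inSym x pos) g = (q', d, idle g)) :
    (gpTM m G).stepCfg x (mc m G q pos l r tp h) = mc m G q' (inMove x pos d) l r tp h := by
  have hg := hnext (fun i => (mc m G q pos l r tp h).tape i ((mc m G q pos l r tp h).head i))
    (fun i => rfl)
  unfold TM.stepCfg
  have h1 : (gpTM m G).out (mc m G q pos l r tp h).st = none := hout
  rw [h1]
  have h2 : (gpTM m G).next (mc m G q pos l r tp h).st (inSym x (mc m G q pos l r tp h).ipos)
      (fun i => (mc m G q pos l r tp h).tape i ((mc m G q pos l r tp h).head i)) =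
      (q', d, idle (fun i => (mc m G q pos l r tp h).tape i
        ((mc m G q pos l r tp h).head i))) := hg
  simp only [h2]
  unfold mc idle
  congr 1
  · funext i
    exact Function.update_eq_self _ _
  · funext i
    simp only [Dir.disp]
    exact add_zero _

theorem clip_val {pc : ℕ} {I : Ins} (h : G[pc]? = some I) : (clip G pc).val = pc := by
  have h1 : pc < G.length := by
    rw [List.getElem?_eq_some_iff] at h
    exact h.1
  exact min_eq_left h1.le

theorem readOn_eq {r : ℕ} (hr : r < m) (g : Fin m → Option Bool) : readOn g r = g ⟨r, hr⟩ := by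
  unfold readOn
  rw [dif_pos hr]

theorem out_ne_go {q : Fin (G.length + 1) × Ph} (h : q.2 ≠ .go) : (gpTM m G).out q = none := by
  show (if q.2 = .go then _ else none) = none
  rw [if_neg h]

/-- the head returns to the cell `0` -/
theorem ret_reach {pc pos : ℕ} {I : Ins} (hI : G[pc]? = some I) {l : ℕ → List Bool} {r : ℕ}
    (hr : r < m) (hIr : I.rn.1 = r) {N : ℤ} (hN0 : 0 ≤ N) (w : List Bool) :
    ∀ k : ℕ, k ≤ w.length → (k : ℤ) ≤ N →
    Reach (gpTM m G) x N (mc m G (clip G pc, .ret) pos l r (tapeOf w) ((k : ℤ) - 1))
      (mc m G (clip G I.rn.2, .go) pos l r (tapeOf w) 0) := by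
  have hcl := clip_val hI
  intro k
  induction k with
  | zero =>
    intro _ _
    have e : ((0 : ℕ) : ℤ) - 1 = -1 := by omega
    rw [e]
    refine Reach.step ?_ (mc_head (by omega) (by omega) hN0) (mc_head (by omega) hN0 hN0)
    have h1 := step_mc (x := x) (m := m) (G := G) (q := (clip G pc, .ret))
      (q' := (clip G I.rn.2, .go)) (pos := pos) (l := l) (r := r) hr (tp := tapeOf w) (h := -1)
      none .right (out_ne_go (by simp)) (by
        intro g hg
        rw [tapeOf_neg] at hg
        unfold gpNext
        simp only [hcl, hI, hIr, readOn_eq hr, hg])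
    rw [h1, upd_same _ _ (tapeOf_neg w)]
    rfl
  | succ k ih =>
    intro hk hkN
    have e : ((k + 1 : ℕ) : ℤ) - 1 = k := by omega
    rw [e]
    obtain ⟨b, hb⟩ : ∃ b, tapeOf w (k : ℤ) = some b := by
      unfold tapeOf
      rw [if_neg (by omega), Int.toNat_natCast]
      exact ⟨w[k], List.getElem?_eq_getElem (by omega)⟩
    refine Reach.trans (Reach.step ?_ (mc_head (by omega) (by omega) hN0)
      (mc_head (h := (k : ℤ) - 1) (by omega) (by omega) hN0)) (ih (by omega) (by omega))
    have h1 := step_mc (x := x) (m := m) (G := G) (q := (clip G pc, .ret))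
      (q' := (clip G pc, .ret)) (pos := pos) (l := l) (r := r) hr (tp := tapeOf w) (h := k)
      (some b) .left (out_ne_go (by simp)) (by
        intro g hg
        rw [hb] at hg
        unfold gpNext
        simp only [hcl, hI, hIr, readOn_eq hr, hg])
    rw [h1, upd_same _ _ hb]
    rfl

/-- the carry -/
theorem car_reach {pc pos : ℕ} {I : Ins} (hI : G[pc]? = some I) {l : ℕ → List Bool} {r : ℕ}
    (hr : r < m) (hIr : I.rn.1 = r) {N : ℤ} (hN0 : 0 ≤ N) :
    ∀ (suf pre : List Bool), ((pre ++ incl suf).length : ℤ) ≤ N →
    Reach (gpTM m G) x N (mc m G (clip G pc, .car) pos l r (tapeOf (pre ++ suf)) pre.length)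
      (mc m G (clip G I.rn.2, .go) pos l r (tapeOf (pre ++ incl suf)) 0) := by
  have hcl := clip_val hI
  intro suf
  induction suf with
  | nil =>
    intro pre hN
    simp only [incl, List.append_nil, List.length_append, List.length_cons, List.length_nil] at hN ⊢
    have h1 := step_mc (x := x) (m := m) (G := G) (q := (clip G pc, .car))
      (q' := (clip G pc, .ret)) (pos := pos) (l := l) (r := r) hr (tp := tapeOf pre)
      (h := pre.length) (some false) .stay (out_ne_go (by simp)) (by
        intro g hg
        rw [tapeOf_end] at hg
        unfold gpNext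
        simp only [hcl, hI, hIr, readOn_eq hr, hg])
    rw [upd_end] at h1
    have h2 := ret_reach (x := x) (m := m) (pos := pos) (l := l) hI hr hIr hN0 (pre ++ [false])
      (pre.length + 1) (by simp) (by push_cast at hN ⊢; omega)
    refine Reach.trans (Reach.step h1 (mc_head (by omega) (by push_cast at hN; omega) hN0)
      (mc_head (by simp [Dir.disp] <;> omega) (by simp only [Dir.disp]; push_cast at hN; omega)
        hN0)) ?_
    have e : (pre.length : ℤ) + Dir.disp .stay = ((pre.length + 1 : ℕ) : ℤ) - 1 := by
      simp [Dir.disp]
    rw [e]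
    exact h2
  | cons b s ih =>
    intro pre hN
    cases b with
    | false =>
      simp only [incl, List.length_append, List.length_cons] at hN ⊢
      have h1 := step_mc (x := x) (m := m) (G := G) (q := (clip G pc, .car))
        (q' := (clip G pc, .ret)) (pos := pos) (l := l) (r := r) hr
        (tp := tapeOf (pre ++ false :: s))
        (h := pre.length) (some true) .stay (out_ne_go (by simp)) (by
          intro g hg
          rw [tapeOf_mid] at hg
          unfold gpNext
          simp only [hcl, hI, hIr, readOn_eq hr, hg])
      rw [upd_mid] at h1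
      have h2 := ret_reach (x := x) (m := m) (pos := pos) (l := l) hI hr hIr hN0 (pre ++ true :: s)
        (pre.length + 1) (by simp) (by push_cast at hN ⊢; omega)
      refine Reach.trans (Reach.step h1 (mc_head (by omega) (by push_cast at hN; omega) hN0)
        (mc_head (by simp [Dir.disp] <;> omega) (by simp only [Dir.disp]; push_cast at hN; omega)
          hN0)) ?_
      have e : (pre.length : ℤ) + Dir.disp .stay = ((pre.length + 1 : ℕ) : ℤ) - 1 := by
        simp [Dir.disp]
      rw [e]
      exact h2
    | true =>
      simp only [incl] at hN ⊢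
      have h1 := step_mc (x := x) (m := m) (G := G) (q := (clip G pc, .car))
        (q' := (clip G pc, .car)) (pos := pos) (l := l) (r := r) hr
        (tp := tapeOf (pre ++ true :: s))
        (h := pre.length) (some false) .right (out_ne_go (by simp)) (by
          intro g hg
          rw [tapeOf_mid] at hg
          unfold gpNext
          simp only [hcl, hI, hIr, readOn_eq hr, hg])
      rw [upd_mid] at h1
      have h2 := ih (pre ++ [false]) (by simpa using hN)
      rw [List.append_assoc, List.append_assoc, List.length_append] at h2
      simp only [List.singleton_append, List.length_cons, List.length_nil] at h2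
      have hN' := hN
      simp only [List.length_append, List.length_cons] at hN'
      refine Reach.trans (Reach.step h1 (mc_head (by omega) (by push_cast at hN'; omega) hN0)
        (mc_head (by simp [Dir.disp] <;> omega) (by simp only [Dir.disp]; push_cast at hN'; omega)
          hN0)) ?_
      have e : (pre.length : ℤ) + Dir.disp .right = ((pre.length + (0 + 1) : ℕ) : ℤ) := by
        simp [Dir.disp]
      rw [e]
      exact h2

/-- the borrow -/
theorem bor_reach {pc pos : ℕ} {I : Ins} (hI : G[pc]? = some I) {l : ℕ → List Bool} {r : ℕ}
    (hr : r < m) (hIr : I.rn.1 = r) {N : ℤ} (hN0 : 0 ≤ N) :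
    ∀ (suf pre : List Bool), suf ≠ [] → ((pre ++ suf).length : ℤ) ≤ N →
    Reach (gpTM m G) x N (mc m G (clip G pc, .bor) pos l r (tapeOf (pre ++ suf)) pre.length)
      (mc m G (clip G I.rn.2, .go) pos l r (tapeOf (pre ++ decl suf)) 0) := by
  have hcl := clip_val hI
  intro suf
  induction suf with
  | nil =>
    intro pre h _
    exact absurd rfl h
  | cons b s ih =>
    intro pre _ hN
    cases b with
    | true =>
      simp only [decl, List.length_append, List.length_cons] at hN ⊢
      have h1 := step_mc (x := x) (m := m) (G := G) (q := (clip G pc, .bor))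
        (q' := (clip G pc, .ret)) (pos := pos) (l := l) (r := r) hr
        (tp := tapeOf (pre ++ true :: s))
        (h := pre.length) (some false) .stay (out_ne_go (by simp)) (by
          intro g hg
          rw [tapeOf_mid] at hg
          unfold gpNext
          simp only [hcl, hI, hIr, readOn_eq hr, hg])
      rw [upd_mid] at h1
      have h2 := ret_reach (x := x) (m := m) (pos := pos) (l := l) hI hr hIr hN0
        (pre ++ false :: s) (pre.length + 1) (by simp) (by push_cast at hN ⊢; omega)
      refine Reach.trans (Reach.step h1 (mc_head (by omega) (by push_cast at hN; omega) hN0)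
        (mc_head (by simp [Dir.disp] <;> omega) (by simp only [Dir.disp]; push_cast at hN; omega)
          hN0)) ?_
      have e : (pre.length : ℤ) + Dir.disp .stay = ((pre.length + 1 : ℕ) : ℤ) - 1 := by
        simp [Dir.disp]
      rw [e]
      exact h2
    | false =>
      cases s with
      | nil =>
        simp only [decl, List.append_nil, List.length_append, List.length_cons,
          List.length_nil] at hN ⊢
        have h1 := step_mc (x := x) (m := m) (G := G) (q := (clip G pc, .bor))
          (q' := (clip G pc, .chk)) (pos := pos) (l := l) (r := r) hr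
          (tp := tapeOf (pre ++ [false]))
          (h := pre.length) (some true) .right (out_ne_go (by simp)) (by
            intro g hg
            rw [tapeOf_mid] at hg
            unfold gpNext
            simp only [hcl, hI, hIr, readOn_eq hr, hg])
        rw [upd_mid] at h1
        have hlen : ((pre ++ [true]).length : ℤ) = (pre.length : ℤ) + Dir.disp .right := by
          simp [Dir.disp]
        have h2 := step_mc (x := x) (m := m) (G := G) (q := (clip G pc, .chk))
          (q' := (clip G pc, .era)) (pos := pos) (l := l) (r := r) hr
          (tp := tapeOf (pre ++ [true]))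
          (h := (pre ++ [true]).length) none .left (out_ne_go (by simp)) (by
            intro g hg
            rw [tapeOf_end] at hg
            unfold gpNext
            simp only [hcl, hI, hIr, readOn_eq hr, hg])
        rw [upd_same _ _ (tapeOf_end _), hlen] at h2
        have e2 : (pre.length : ℤ) + Dir.disp .right + Dir.disp .left = (pre.length : ℤ) := by
          simp [Dir.disp]
        rw [e2] at h2
        have h3 := step_mc (x := x) (m := m) (G := G) (q := (clip G pc, .era))
          (q' := (clip G pc, .ret)) (pos := pos) (l := l) (r := r) hr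
          (tp := tapeOf (pre ++ [true]))
          (h := pre.length) none .left (out_ne_go (by simp)) (by
            intro g hg
            unfold gpNext
            simp only [hcl, hI, hIr])
        rw [upd_era] at h3
        have h4 := ret_reach (x := x) (m := m) (pos := pos) (l := l) hI hr hIr hN0 pre
          pre.length le_rfl (by push_cast at hN; omega)
        have hb : ∀ (q : Fin (G.length + 1) × Ph) (tp : ℤ → Option Bool) (h : ℤ), -1 ≤ h →
            h ≤ (pre.length : ℤ) + 1 → ∀ i, -1 ≤ (mc m G q pos l r tp h).head i ∧
              (mc m G q pos l r tp h).head i ≤ N := fun q tp h h5 h6 =>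
          mc_head h5 (by push_cast at hN; omega) hN0
        refine Reach.trans (Reach.step h1 (hb _ _ _ (by omega) (by omega))
          (hb _ _ _ (by simp [Dir.disp] <;> omega) (by simp [Dir.disp]))) ?_
        refine Reach.trans (Reach.step h2 (hb _ _ _ (by simp [Dir.disp] <;> omega)
          (by simp [Dir.disp])) (hb _ _ _ (by omega) (by omega))) ?_
        refine Reach.trans (Reach.step h3 (hb _ _ _ (by omega) (by omega))
          (hb _ _ _ (by simp [Dir.disp] <;> omega) (by simp [Dir.disp] <;> omega))) ?_
        exact h4
      | cons c s =>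
        simp only [decl] at hN ⊢
        have h1 := step_mc (x := x) (m := m) (G := G) (q := (clip G pc, .bor))
          (q' := (clip G pc, .chk)) (pos := pos) (l := l) (r := r) hr
          (tp := tapeOf (pre ++ false :: c :: s))
          (h := pre.length) (some true) .right (out_ne_go (by simp)) (by
            intro g hg
            rw [tapeOf_mid] at hg
            unfold gpNext
            simp only [hcl, hI, hIr, readOn_eq hr, hg])
        rw [upd_mid] at h1
        have hlen : ((pre ++ [true]).length : ℤ) = (pre.length : ℤ) + Dir.disp .right := by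
          simp [Dir.disp]
        have e3 : pre ++ true :: c :: s = (pre ++ [true]) ++ c :: s := by simp
        have h2 := step_mc (x := x) (m := m) (G := G) (q := (clip G pc, .chk))
          (q' := (clip G pc, .bor)) (pos := pos) (l := l) (r := r) hr
          (tp := tapeOf ((pre ++ [true]) ++ c :: s))
          (h := (pre ++ [true]).length) (some c) .stay (out_ne_go (by simp)) (by
            intro g hg
            rw [tapeOf_mid] at hg
            unfold gpNext
            simp only [hcl, hI, hIr, readOn_eq hr, hg])
        rw [upd_mid] at h2
        have e4 : ((pre ++ [true]).length : ℤ) + Dir.disp .stay = (pre ++ [true]).length := by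
          simp [Dir.disp]
        rw [e4] at h2
        have h3 := ih (pre ++ [true]) (by simp) (by simpa using hN)
        have hN' := hN
        simp only [List.length_append, List.length_cons] at hN'
        have hb : ∀ (q : Fin (G.length + 1) × Ph) (tp : ℤ → Option Bool) (h : ℤ), -1 ≤ h →
            h ≤ (pre.length : ℤ) + 1 → ∀ i, -1 ≤ (mc m G q pos l r tp h).head i ∧
              (mc m G q pos l r tp h).head i ≤ N := fun q tp h h5 h6 =>
          mc_head h5 (by push_cast at hN'; omega) hN0
        rw [e3, ← hlen] at h1
        refine Reach.trans (Reach.step h1 (hb _ _ _ (by omega) (by omega))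
          (hb _ _ _ (by omega) (by simp))) ?_
        refine Reach.trans (Reach.step h2 (hb _ _ _ (by omega) (by simp))
          (hb _ _ _ (by omega) (by simp))) ?_
        have e5 : pre ++ true :: decl (c :: s) = (pre ++ [true]) ++ decl (c :: s) := by simp
        rw [e5]
        exact h3

end gp

end TMS

end Pool.Agent.Work.MP_71c844_lc.Arr
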