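/-
Block ARR (problem MP_71c844_lc), item V3: every array has codes.  Author: helper34.
-/
import Pool.Agent.Work.MP_71c844_lc.Arr.StmtsG

namespace Pool.Agent.Work.MP_71c844_lc.Arr

open Finset

namespace V3

theorem vcode_lt (v : Option Bool) : vcode v < 3 := by
  rcases v with _ | _ | _ <;> simp [vcode]

theorem ocode_lt (v : Option Bool) : ocode v < 3 := by
  rcases v with _ | _ | _ <;> simp [ocode]

/-- The letter with the given number. -/
def ou (k : ℕ) : Option Bool := if k = 2 then none else if k = 1 then some true else some false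

theorem ou_ocode (v : Option Bool) : ou (ocode v) = v := by
  rcases v with _ | _ | _ <;> simp [ou, ocode]

/-- The state with the given code. -/
noncomputable def dec {d : ℕ} (A : CA d) {m : ℕ} (e : A.Q ≃ Fin m) (n : ℕ) : A.Q :=
  if h : n < m then e.symm ⟨n, h⟩ else A.enc none none

theorem dec_cd {d : ℕ} (A : CA d) {m : ℕ} (e : A.Q ≃ Fin m) (s : A.Q) :
    dec A e (e s).val = s := by
  unfold dec
  rw [dif_pos (e s).isLt]
  exact e.symm_apply_apply s

theorem idx_div (d : ℕ) (f : Fin d → Fin 3) (j : Fin d) :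
    ((finFunctionFinEquiv f : Fin (3 ^ d)) : ℕ) / 3 ^ j.val % 3 = (f j).val := by
  have h := congrFun (finFunctionFinEquiv.symm_apply_apply f) j
  exact congrArg Fin.val h

end V3

open V3 in
theorem prf_V3 : S_V3 := by
  intro hD d r A hr
  have := A.finQ
  obtain ⟨m, ⟨e⟩⟩ := Finite.exists_equiv_fin A.Q
  have hmr : m ≤ r := by
    rw [Nat.card_congr e, Nat.card_fin] at hr
    exact hr
  have hm : 1 ≤ m := by
    have := (e (A.enc none none)).isLt
    omega
  have hlt : ∀ s, (e s).val < r + 1 := fun s => by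
    have := (e s).isLt
    omega
  refine ⟨ofd (r + 1) ((r + 1) ^ (3 ^ d)) (fun W => (e (A.rule (fun f =>
      dec A e (dg (r + 1) (finFunctionFinEquiv f : Fin (3 ^ d)).val W)))).val),
    ofd (r + 1) 9 (fun k => (e (A.enc (ou (k % 3)) (ou (k / 3)))).val),
    ofd 3 (r + 1) (fun c => vcode (A.out (dec A e c))), fun s => (e s).val, ?_,
    hD.ofd_lt _ _ _ (by omega) (fun i _ => hlt _), hD.ofd_lt _ _ _ (by omega) (fun i _ => hlt _),
    hD.ofd_lt _ _ _ (by omega) (fun i _ => vcode_lt _)⟩
  refine ⟨by omega, hlt, ?_, ?_, ?_⟩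
  · intro f
    have hW : ofd (r + 1) (3 ^ d) (fun k => (e (f (fun j =>
        ⟨k / 3 ^ j.val % 3, Nat.mod_lt _ (by omega)⟩))).val) < (r + 1) ^ (3 ^ d) :=
      hD.ofd_lt _ _ _ (by omega) (fun i _ => hlt _)
    rw [hD.dg_ofd _ _ _ _ (fun i _ => hlt _) hW]
    congr 3
    funext g
    rw [hD.dg_ofd _ _ _ _ (fun i _ => hlt _) (finFunctionFinEquiv g : Fin (3 ^ d)).isLt]
    rw [dec_cd]
    congr 1
    funext j
    apply Fin.ext
    exact idx_div d g j
  · intro a c
    have ha := ocode_lt a
    have hc := ocode_lt c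
    rw [hD.dg_ofd _ _ _ _ (fun i _ => hlt _) (by omega),
      show (3 * ocode c + ocode a) % 3 = ocode a by omega,
      show (3 * ocode c + ocode a) / 3 = ocode c by omega, ou_ocode, ou_ocode]
  · intro s
    rw [hD.dg_ofd _ _ _ _ (fun i _ => vcode_lt _) (hlt s), dec_cd]

end Pool.Agent.Work.MP_71c844_lc.Arr
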